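import Pool.Agent.TH165.ACC.GMain

/-!
# The ascending chain condition for minima over torsion cosets
-/

set_option autoImplicit false

namespace Q47.QM

open Filter Topology Pool.Agent.TH165.ACC

variable {d : ℕ}

/-- the point `(w, 1 / R)` of the torus of dimension `d + 1` -/
noncomputable def ext (R : ℕ) (w : Fin d → ℝ) : Fin (d + 1) → UnitAddCircle :=
  fun i => ((Fin.snoc (α := fun _ => ℝ) w (1 / R) i : ℝ) : UnitAddCircle)

/-- the values -/
def Val (d R : ℕ) (Γ : Set ℝ) : Set ℝ :=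
  {a | ∃ (H : AddSubgroup (Fin (d + 1) → UnitAddCircle)) (b : Fin d → ℝ), Finite H ∧
    (∀ h ∈ H, R • h (Fin.last d) = 0) ∧ (∀ i, b i ∈ Γ) ∧
    IsGLB {t | ∃ w : Fin d → ℝ, (∀ i, 0 < w i) ∧ ext R w ∈ H ∧ t = ∑ i, (1 - b i) * w i} a}

theorem no_conv {R : ℕ} (hR : 0 < R) (H : ℕ → AddSubgroup (Fin (d + 1) → UnitAddCircle))
    (b : ℕ → Fin d → ℝ) (hRH : ∀ k, ∀ h ∈ H k, R • h (Fin.last d) = 0) (hb : Monotone b)
    (hH : ∀ k, ∀ g ∈ H k, ∀ ε : ℝ, 0 < ε → ∀ᶠ l in atTop, ∃ g' ∈ H l, dist g' g < ε)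
    (u : ℕ → ℝ) (hu : StrictMono u)
    (hm : ∀ k, IsGLB {t | ∃ w : Fin d → ℝ, (∀ i, 0 < w i) ∧ ext R w ∈ H k ∧
      t = ∑ i, (1 - b k i) * w i} (u k)) : False := by
  have h1 : ∃ w : Fin d → ℝ, (∀ i, 0 < w i) ∧ ext R w ∈ H 0 ∧ ∑ i, (1 - b 0 i) * w i < u 1 := by
    by_contra hcon
    push Not at hcon
    have h2 : u 1 ∈ lowerBounds {t | ∃ w : Fin d → ℝ, (∀ i, 0 < w i) ∧ ext R w ∈ H 0 ∧
      t = ∑ i, (1 - b 0 i) * w i} := by
      rintro t ⟨w, hw, hwG, rfl⟩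
      exact hcon w hw hwG
    exact absurd ((hm 0).2 h2) (not_le.2 (hu one_pos))
  obtain ⟨w, hw, hwH, hlt⟩ := h1
  set γ : ℝ := u 1 - ∑ i, (1 - b 0 i) * w i with hγ
  have hγ0 : 0 < γ := by rw [hγ]; linarith
  have hR' : (0 : ℝ) < R := by exact_mod_cast hR
  obtain ⟨ε, hε0, hεγ, hεw, hεR⟩ : ∃ ε : ℝ, 0 < ε ∧ (∑ i, |1 - b 0 i|) * ε < γ ∧ (∀ i, ε < w i) ∧
      R * ε < 1 := by
    have h2 : ∃ μ : ℝ, 0 < μ ∧ ∀ i, μ ≤ w i := by
      by_cases hn : Nonempty (Fin d)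
      · obtain ⟨i0, hi0⟩ := Finite.exists_min w
        exact ⟨w i0, hw i0, hi0⟩
      · exact ⟨1, one_pos, fun i => absurd ⟨i⟩ hn⟩
    obtain ⟨μ, hμ0, hμ⟩ := h2
    have hS : 0 ≤ ∑ i, |1 - b 0 i| := Finset.sum_nonneg fun i _ => abs_nonneg _
    refine ⟨min (γ / (∑ i, |1 - b 0 i| + 1)) (min (μ / 2) (1 / (2 * R))), by positivity, ?_,
      fun i => ?_, ?_⟩
    · calc (∑ i, |1 - b 0 i|) * min (γ / (∑ i, |1 - b 0 i| + 1)) (min (μ / 2) (1 / (2 * R))) ≤
          (∑ i, |1 - b 0 i|) * (γ / (∑ i, |1 - b 0 i| + 1)) :=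
            mul_le_mul_of_nonneg_left (min_le_left _ _) hS
        _ < γ := by
            rw [← mul_div_assoc, div_lt_iff₀ (by linarith)]
            nlinarith
    · calc _ ≤ μ / 2 := (min_le_right _ _).trans (min_le_left _ _)
        _ < μ := by linarith
        _ ≤ w i := hμ i
    · calc (R : ℝ) * _ ≤ R * (1 / (2 * R)) :=
            mul_le_mul_of_nonneg_left ((min_le_right _ _).trans (min_le_right _ _)) hR'.le
        _ < 1 := by
            field_simp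
            norm_num
  obtain ⟨l, hl1, g', hg', hdist⟩ := ((eventually_ge_atTop 1).and (hH 0 _ hwH ε hε0)).exists
  obtain ⟨w', hw'g, hw'⟩ := lift_close (Fin.snoc (α := fun _ => ℝ) w (1 / R)) g' ε hε0 hdist
  -- the last coordinate
  have hlast : w' (Fin.last d) = 1 / R := by
    have h3 := hRH l g' hg'
    rw [← hw'g] at h3
    have h4 : ((R * w' (Fin.last d) : ℝ) : UnitAddCircle) = 0 := by
      rw [← nsmul_eq_mul, AddCircle.coe_nsmul]
      exact h3
    rw [AddCircle.coe_eq_zero_iff] at h4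
    obtain ⟨z, hz⟩ := h4
    have h5 := hw' (Fin.last d)
    rw [Fin.snoc_last] at h5
    rw [zsmul_eq_mul, mul_one] at hz
    have h6 : |(z : ℝ) - 1| < 1 := by
      have e1 : (z : ℝ) - 1 = R * (w' (Fin.last d) - 1 / R) := by
        rw [hz, mul_sub, mul_one_div_cancel hR'.ne']
      rw [e1, abs_mul, abs_of_pos hR']
      calc (R : ℝ) * |w' (Fin.last d) - 1 / R| < R * ε := mul_lt_mul_of_pos_left h5 hR'
        _ < 1 := hεR
    have h7 : z = 1 := by
      have h8 := abs_lt.1 h6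
      have h9 : (0 : ℝ) < z := by linarith [h8.1]
      have h10 : (z : ℝ) < 2 := by linarith [h8.2]
      have h11 : (0 : ℤ) < z := by exact_mod_cast h9
      have h12 : z < 2 := by exact_mod_cast h10
      omega
    rw [h7] at hz
    rw [eq_div_iff hR'.ne', mul_comm, ← hz]
    norm_num
  let w'' : Fin d → ℝ := fun i => w' i.castSucc
  have hclose : ∀ i, |w'' i - w i| < ε := by
    intro i
    have := hw' i.castSucc
    rwa [Fin.snoc_castSucc] at this
  have hext : ext R w'' = g' := by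
    rw [← hw'g]
    funext i
    refine Fin.lastCases ?_ (fun j => ?_) i
    · simp only [ext]
      rw [Fin.snoc_last, hlast]
    · simp only [ext]
      rw [Fin.snoc_castSucc]
  have hpos : ∀ i, 0 < w'' i := fun i => by
    have e1 := (abs_lt.1 (hclose i)).1
    have e2 := hεw i
    linarith
  have hle : u l ≤ ∑ i, (1 - b l i) * w'' i :=
    (hm l).1 ⟨w'', hpos, by rw [hext]; exact hg', rfl⟩
  have hle2 : ∑ i, (1 - b l i) * w'' i ≤ ∑ i, (1 - b 0 i) * w'' i :=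
    Finset.sum_le_sum fun i _ => mul_le_mul_of_nonneg_right
      (by have := hb (Nat.zero_le l) i; linarith) (hpos i).le
  have hle3 : ∑ i, (1 - b 0 i) * w'' i - ∑ i, (1 - b 0 i) * w i < γ := by
    refine lt_of_le_of_lt ?_ hεγ
    rw [← Finset.sum_sub_distrib, Finset.sum_mul]
    refine Finset.sum_le_sum fun i _ => ?_
    rw [← mul_sub]
    calc (1 - b 0 i) * (w'' i - w i) ≤ |(1 - b 0 i) * (w'' i - w i)| := le_abs_self _
      _ = |1 - b 0 i| * |w'' i - w i| := abs_mul _ _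
      _ ≤ |1 - b 0 i| * ε := mul_le_mul_of_nonneg_left (hclose i).le (abs_nonneg _)
  have := hu.monotone hl1
  linarith

/-- ACC for the values -/
theorem acc_Val {R : ℕ} (hR : 0 < R) {Γ : Set ℝ} (hΓ : IsDCC Γ) : IsACC (Val d R Γ) := by
  intro u hu hmem
  by_contra hcon
  push Not at hcon
  choose f hf hf' using hcon
  have hlt : ∀ K, u K < u (f K) := fun K => lt_of_le_of_ne (hu (hf K)) (hf' K).symm
  let g : ℕ → ℕ := fun k => Nat.rec 0 (fun _ x => f x) k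
  have hg : StrictMono (u ∘ g) := strictMono_nat_of_lt_succ fun k => hlt (g k)
  have hmem' : ∀ k, (u ∘ g) k ∈ Val d R Γ := fun k => hmem (g k)
  choose H b hfin hRH hb hm using hmem'
  obtain ⟨θ1, h1, h1'⟩ := subseq_coef hΓ b hb
  obtain ⟨θ3, h3, h3'⟩ := subseq_groups (fun k => H (θ1 k)) (fun k => hfin _)
  exact no_conv hR (fun k => H (θ1 (θ3 k))) (fun k => b (θ1 (θ3 k))) (fun k => hRH _)
    (fun x y hxy => h1' (h3.monotone hxy)) h3' (fun k => (u ∘ g) (θ1 (θ3 k)))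
    (hg.comp (h1.comp h3)) fun k => hm _

end Q47.QM
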