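import Pool.Agent.Q47.QM.LD
import Pool.Agent.TH165.ACC.Resi

/-!
# The valuation of the embedding and an upper bound for its canonical order
-/

set_option autoImplicit false
set_option linter.unusedSectionVars false

namespace Q47.QM

open Pool.Agent.H436R3.Fol Pool.Agent.W497.Mld Pool.Agent.TH165.ACC HahnSeries

attribute [-instance] HahnSeries.powerSeriesAlgebra

variable {n : ℕ} {K : Type} [Field K] [Algebra ℂ K]
  [Algebra (MvPolynomial (Fin n) ℂ) K] [IsFractionRing (MvPolynomial (Fin n) ℂ) K]
  [IsScalarTower ℂ (MvPolynomial (Fin n) ℂ) K]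

variable {d : Wd n}

/-- the valuation -/
noncomputable def vd (hd : Dual d) (hc : Cop d) : DVal K where
  ord := fun f => (oL K).ord (d.psi K f)
  map_mul := fun f g hf hg => by
    rw [map_mul, (oL K).map_mul _ _ (d.psi_ne K hf) (d.psi_ne K hg)]
  map_add := fun f g hf hg hfg => by
    rw [map_add]
    exact (oL K).map_add _ _ (d.psi_ne K hf) (d.psi_ne K hg)
      (by rw [← map_add]; exact d.psi_ne K hfg)
  surj := by
    obtain ⟨f, p, h1, h2⟩ := exists_pi (K := K) hd hc
    exact ⟨f, h1.1, h2⟩
  const := fun c hc => by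
    rw [d.psi_alg K]
    exact (oL K).const c hc

variable {hd : Dual d} {hc : Cop d}

theorem vd_ord (f : K) : (vd (K := K) hd hc).ord f = (oL K).ord (d.psi K f) := rfl

theorem vd_reg {f : K} : (vd (K := K) hd hc).Reg f ↔ (oL K).Reg (d.psi K f) := by
  constructor
  · rintro (h | h)
    · left; rw [h, map_zero]
    · exact Or.inr h
  · rintro (h | h)
    · left; exact (map_eq_zero _).1 h
    · exact Or.inr h

theorem vd_pos {f : K} : (vd (K := K) hd hc).Pos f ↔ (oL K).Pos (d.psi K f) := by
  constructor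
  · rintro (h | h)
    · left; rw [h, map_zero]
    · exact Or.inr h
  · rintro (h | h)
    · left; exact (map_eq_zero _).1 h
    · exact Or.inr h

theorem vd_ym (m : Fin n → ℤ) : (vd (K := K) hd hc).ord (ym K m) = pr m d.U := ord_ym' m

theorem vd_tv : (tv (vd (K := K) hd hc) : Fin n → ℤ) = d.U := by
  apply pr_ext
  intro m
  rw [← ord_ym (K := K) (vd hd hc) m, vd_ym]

/-- the automorphism is a rotation of the series -/
theorem psi_dl {σ : K ≃ₐ[ℂ] K} {W : (Fin n → ℤ) →+ (Fin n → ℤ)} {l : (Fin n → ℤ) → ℂ}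
    (h : Mo σ W l) {z : ℂ} (hz : z ≠ 0) (hU : ∀ m, pr (W m) d.U = pr m d.U)
    (hzW : ∀ j, d.k j = 0 → ∀ m, d.z j (W m) = d.z j m)
    (hnu : ∀ j, d.k j ≠ 0 → ∀ m, d.nu j (W m) = z ^ d.k j * d.nu j m)
    (hch : ∀ m, l m * d.ch (W m) = d.ch m * z ^ pr m d.U) (f : K) :
    d.psi K (σ f) = dl hz (d.psi K f) := by
  have hm : ∀ m : Fin n → ℤ, d.psi K (σ (ym K m)) = dl hz (d.psi K (ym K m)) := by
    intro m
    rw [h.2, map_mul, d.psi_alg K, d.psi_ym K, d.psi_ym K]
    have hS : dl hz (d.S K m) = d.S K (W m) := by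
      rw [Wd.S, Wd.S, map_sum]
      refine Finset.sum_congr rfl fun j _ => ?_
      split_ifs with hj
      · exact map_zero _
      · have h1 : dl hz (algebraMap ℂ (LS K) (d.nu j m) * d.T K j) =
            algebraMap ℂ (LS K) (z ^ d.k j * d.nu j m) * d.T K j := by
          ext a
          rw [dl_coeff, Wd.T, if_neg hj, ls_alg, ls_alg, HahnSeries.C_apply, HahnSeries.C_apply,
            HahnSeries.single_mul_single, HahnSeries.single_mul_single, zero_add, coeff_single,
            coeff_single]
          split_ifs with ha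
          · rw [ha, zpow_natCast, RingHom.map_mul]
            ring
          · rw [mul_zero]
        rw [h1, hnu j hj]
    have hY : d.Y K (W m) = d.Y K m := by
      rw [Wd.Y, Wd.Y]
      refine Finset.prod_congr rfl fun j _ => ?_
      split_ifs with hj
      · rw [hzW j hj]
      · rfl
    have hs : dl hz (single (pr m d.U) (algebraMap ℂ K (d.ch m) * d.Y K m)) =
        algebraMap ℂ (LS K) (l m) *
          single (pr (W m) d.U) (algebraMap ℂ K (d.ch (W m)) * d.Y K (W m)) := by
      rw [hY, hU, ls_alg, HahnSeries.C_apply, HahnSeries.single_mul_single, zero_add]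
      ext a
      rw [dl_coeff, coeff_single, coeff_single]
      split_ifs with ha
      · rw [ha, ← mul_assoc, ← mul_assoc, ← RingHom.map_mul, ← RingHom.map_mul, hch]
        congr 2
        ring
      · rw [mul_zero]
    rw [Wd.Ps, Wd.Ps, RingHom.map_mul (dl hz), hs, Ex_dl hz (d.S_pos K m) (d.S_pos K (W m)) hS]
    ring
  have hp : ∀ p : MvPolynomial (Fin n) ℂ,
      d.psi K (σ (jo (Fin n) K p)) = dl hz (d.psi K (jo (Fin n) K p)) := by
    intro p
    induction p using MvPolynomial.induction_on with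
    | C a =>
      rw [jo_C, AlgEquiv.commutes, d.psi_alg K]
      ext b
      rw [dl_coeff, ls_alg, HahnSeries.C_apply, coeff_single]
      split_ifs with hb
      · rw [hb, zpow_zero, map_one, one_mul]
      · rw [mul_zero]
    | add p q hp hq => rw [map_add, map_add, map_add, map_add, map_add, hp, hq]
    | mul_X p j hp =>
      have h1 := hm (Pi.single j 1)
      have h2 : ym K (Pi.single j 1 : Fin n → ℤ) = jo (Fin n) K (MvPolynomial.X j) := by
        rw [ym, Finset.prod_eq_single j]
        · rw [Pi.single_eq_same, zpow_one]; rfl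
        · intro i _ hi
          rw [Pi.single_eq_of_ne hi, zpow_zero]
        · intro h; exact absurd (Finset.mem_univ _) h
      rw [h2] at h1
      rw [map_mul, map_mul, map_mul, map_mul, map_mul, hp, h1]
  obtain ⟨a, b, hb, rfl⟩ := exists_frac (MvPolynomial (Fin n) ℂ) f
  rw [← jo_apply, ← jo_apply, map_div₀, map_div₀, map_div₀, map_div₀, hp, hp]

/-- the automorphism acts trivially on the residue field -/
theorem vd_InI {σ : K ≃ₐ[ℂ] K} {z : ℂ} (hz : z ≠ 0)
    (hall : ∀ f, d.psi K (σ f) = dl hz (d.psi K f)) : InI (vd (K := K) hd hc) σ := by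
  intro f hf
  rw [vd_pos, map_sub, hall]
  exact pos_dl_sub hz (vd_reg.1 hf)

/-- the character of the automorphism -/
theorem vd_Ch {σ : K ≃ₐ[ℂ] K} {z : ℂ} (hz : z ≠ 0)
    (hall : ∀ f, d.psi K (σ f) = dl hz (d.psi K f)) : Ch (vd (K := K) hd hc) σ z := by
  refine ⟨hz, fun f hf => ⟨zpow_ne_zero _ hz, ?_⟩⟩
  have hx := d.psi_ne K hf
  rw [vd_pos, map_sub, map_div₀, hall, d.psi_alg K]
  set x := d.psi K f with hxd
  have ho : (vd (K := K) hd hc).ord f = x.order := rfl
  rw [ho]
  have h1 : dl hz x / x - algebraMap ℂ (LS K) (z ^ x.order) =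
      (dl hz x - algebraMap ℂ (LS K) (z ^ x.order) * x) / x := by
    field_simp
  rw [h1]
  set w := dl hz x - algebraMap ℂ (LS K) (z ^ x.order) * x with hw
  by_cases hw0 : w = 0
  · left; rw [hw0, zero_div]
  right
  rw [(oL K).ord_div hw0 hx]
  have h2 : x.order + 1 ≤ w.order := by
    rw [HahnSeries.le_order_iff_forall hw0]
    intro j hj
    rw [hw, coeff_sub, dl_coeff, ls_alg, HahnSeries.C_mul_eq_smul, coeff_smul, smul_eq_mul]
    by_cases h : j = x.order
    · rw [h, sub_self]
    · rw [coeff_eq_zero_of_lt_order (by omega : j < x.order), mul_zero, mul_zero, sub_self]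
  change 0 < w.order - x.order
  omega

/-- a family of elements with independent logarithmic leading terms -/
theorem exists_family (hd : Dual d) (hc : Cop d) : ∃ (f : Fin n → K) (P : Matrix (Fin n) (Fin n) ℂ)
    (k0 : Fin n), P.det ≠ 0 ∧ (∀ k, LD d (f k) (fun j => P j k)) ∧
      (∀ k, (d.psi K (f k)).order = if k = k0 then 1 else 0) := by
  classical
  obtain ⟨π, pπ, hπ, hπo⟩ := exists_pi (K := K) hd hc
  let Sg : Set (Fin n → ℂ) := insert pπ {p | ∃ f : K, LD d f p ∧ (d.psi K f).order = 0}
  have hspan : Submodule.span ℂ Sg = ⊤ := by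
    by_contra hne
    obtain ⟨α, hα0, hα⟩ := Submodule.exists_le_ker_of_lt_top _ (lt_top_iff_ne_top.2 hne)
    apply hα0
    have h1 : ∀ p ∈ Sg, α p = 0 := fun p hp => hα (Submodule.subset_span hp)
    have h2 : ∀ (g : K) (p : Fin n → ℂ), LD d g p → α p = 0 := by
      intro g p hg
      set w := (d.psi K g).order with hw
      have h3 := hg.mul (hπ.zpow (-w))
      have h4 := h1 _ (Or.inr ⟨_, h3, by
        change (oL K).ord _ = 0
        rw [map_mul, map_zpow₀, (oL K).map_mul _ _ (d.psi_ne K hg.1)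
          (zpow_ne_zero _ (d.psi_ne K hπ.1)), (oL K).ord_zpow (d.psi_ne K hπ.1)]
        change w + -w * (d.psi K π).order = 0
        rw [hπo]
        ring⟩)
      have h5 : (fun j => ((-w : ℤ) : ℂ) * pπ j) = ((-w : ℤ) : ℂ) • pπ := rfl
      rw [map_add, h5, map_smul, h1 pπ (Or.inl rfl), smul_zero, add_zero] at h4
      exact h4
    have h3 : ∀ j, d.k j ≠ 0 → α (Pi.single j 1) = 0 := by
      intro j hj
      obtain ⟨ζ, hζ, -⟩ := exists_zeta (K := K) hd hj
      exact h2 _ _ hζ
    have h4 : ∀ m, ∑ j, α (Pi.single j 1) * d.nu j m = 0 := by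
      intro m
      have h5 := h2 _ _ (LD_ym (K := K) (d := d) m)
      rw [← h5, LinearMap.pi_apply_eq_sum_univ α]
      refine Finset.sum_congr rfl fun j _ => ?_
      rw [smul_eq_mul, mul_comm]
      have h6 : (fun j_1 => if j = j_1 then (1 : ℂ) else 0) = Pi.single j 1 := by
        funext i
        rw [Pi.single_apply]
        simp [eq_comm]
      rw [h6]
      split_ifs with h
      · rfl
      · rw [h3 j h, mul_zero, mul_zero]
    have h5 : (fun j => α (Pi.single j 1)) = 0 := by
      refine Matrix.eq_zero_of_vecMul_eq_zero d.det ?_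
      funext i
      rw [Matrix.vecMul, dotProduct, Pi.zero_apply, ← h4 (Pi.single i 1)]
      rfl
    apply LinearMap.pi_ext'
    intro j
    apply LinearMap.ext_ring
    rw [LinearMap.comp_apply, LinearMap.zero_comp, LinearMap.zero_apply]
    exact congrFun h5 j
  obtain ⟨b, hb1, hb2, hb3⟩ := exists_linearIndependent ℂ Sg
  rw [hspan] at hb2
  have hbf : Finite b := hb3.setFinite
  have : Fintype b := Fintype.ofFinite _
  let B : Module.Basis b ℂ (Fin n → ℂ) := Module.Basis.mk hb3 (by
    rw [Subtype.range_coe, hb2])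
  have hcard : Fintype.card b = n := by
    have := Module.finrank_eq_card_basis B
    rw [Module.finrank_fin_fun] at this
    exact this.symm
  let ε : Fin n ≃ b := (Fintype.equivFinOfCardEq hcard).symm
  let B' := B.reindex ε.symm
  have hB' : ∀ k, B' k = (ε k : Fin n → ℂ) := by
    intro k
    rw [Module.Basis.reindex_apply, Equiv.symm_symm, Module.Basis.mk_apply]
  let P : Matrix (Fin n) (Fin n) ℂ := Matrix.of fun j k => (ε k : Fin n → ℂ) j
  have hP : P.det ≠ 0 := by
    have h1 : P = (Pi.basisFun ℂ (Fin n)).toMatrix B' := by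
      ext j k
      rw [Module.Basis.toMatrix_apply, Pi.basisFun_repr, hB']
      rfl
    rw [h1]
    have := (Pi.basisFun ℂ (Fin n)).invertibleToMatrix B'
    exact (Matrix.isUnit_det_of_invertible _).ne_zero
  have hf : ∀ k, ∃ f : K, LD d f (fun j => P j k) ∧
      (d.psi K f).order = if (ε k : Fin n → ℂ) = pπ then 1 else 0 := by
    intro k
    have h1 := hb1 (ε k).2
    by_cases h : (ε k : Fin n → ℂ) = pπ
    · refine ⟨π, ?_, by rw [if_pos h]; exact hπo⟩
      have : (fun j => P j k) = pπ := by rw [← h]; rfl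
      rw [this]
      exact hπ
    · obtain ⟨f, hf1, hf2⟩ := h1.resolve_left h
      exact ⟨f, hf1, by rw [if_neg h]; exact hf2⟩
  choose f hf1 hf2 using hf
  obtain ⟨k0, hk0⟩ : ∃ k0, (ε k0 : Fin n → ℂ) = pπ := by
    by_contra hcon
    push Not at hcon
    have h1 : Matrix.vecMul d.b P = 0 := by
      funext k
      have h2 := (hf1 k).euler
      rw [hf2, if_neg (hcon k)] at h2
      rw [Matrix.vecMul, dotProduct, h2]
      simp
    have h2 := Matrix.eq_zero_of_vecMul_eq_zero hP h1
    have h3 := hπ.euler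
    rw [hπo, h2] at h3
    simp at h3
  refine ⟨f, P, k0, hP, hf1, fun k => ?_⟩
  rw [hf2]
  by_cases h : k = k0
  · rw [if_pos h, h, if_pos hk0]
  · rw [if_neg h, if_neg]
    intro h1
    exact h (ε.injective (Subtype.ext (h1.trans hk0.symm)))

end Q47.QM
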