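import Pool.Agent.Q47.QM.Lower
import Pool.Agent.Q47.QM.Bd
import Pool.Agent.TH165.ACC.GMain

/-!
# Eigenbases and the data of the embedding
-/

set_option autoImplicit false
set_option linter.unusedSectionVars false

namespace Q47.QM

open Pool.Agent.H436R3.Fol Pool.Agent.W497.Mld Pool.Agent.TH165.ACC

variable {n : ℕ}

/-- the complex pairing -/
noncomputable def dtc (m : Fin n → ℤ) (y : Fin n → ℂ) : ℂ := ∑ i, (m i : ℂ) * y i

theorem dtc_cst (m x : Fin n → ℤ) : dtc m (cst x) = (pr m x : ℂ) := by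
  rw [dtc, pr]; push_cast; rfl

theorem dtc_add (m m' : Fin n → ℤ) (y : Fin n → ℂ) : dtc (m + m') y = dtc m y + dtc m' y := by
  rw [dtc, dtc, dtc, ← Finset.sum_add_distrib]
  exact Finset.sum_congr rfl fun i _ => by rw [Pi.add_apply]; push_cast; ring

theorem dtc_smul (m : Fin n → ℤ) (a : ℂ) (y : Fin n → ℂ) : dtc m (a • y) = a * dtc m y := by
  rw [dtc, dtc, Finset.mul_sum]
  exact Finset.sum_congr rfl fun i _ => by rw [Pi.smul_apply, smul_eq_mul]; ring

theorem dtc_single (i : Fin n) (y : Fin n → ℂ) : dtc (Pi.single i 1) y = y i := by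
  rw [dtc, Finset.sum_eq_single i]
  · simp
  · intro j _ hj
    simp [hj]
  · intro h; exact absurd (Finset.mem_univ _) h

theorem pr_add_right (m u u' : Fin n → ℤ) : pr m (u + u') = pr m u + pr m u' := by
  simp only [pr, Pi.add_apply, mul_add, Finset.sum_add_distrib]

/-- the adjoint -/
def adjH (W : (Fin n → ℤ) →+ (Fin n → ℤ)) : (Fin n → ℤ) →+ (Fin n → ℤ) :=
  AddMonoidHom.mk' (adj W) fun u u' => by
    apply pr_ext
    intro m
    rw [pr_adj, pr_add_right, pr_add_right, pr_adj, pr_adj]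

theorem adjH_apply (W : (Fin n → ℤ) →+ (Fin n → ℤ)) (u : Fin n → ℤ) : adjH W u = adj W u := rfl

theorem pr_adj_iter (W : (Fin n → ℤ) →+ (Fin n → ℤ)) (s : ℕ) (m u : Fin n → ℤ) :
    pr m ((adjH W)^[s] u) = pr (W^[s] m) u := by
  induction s generalizing m with
  | zero => rfl
  | succ s ih =>
    rw [Function.iterate_succ_apply', adjH_apply, pr_adj, ih, Function.iterate_succ_apply]

theorem dtc_wc (W : (Fin n → ℤ) →+ (Fin n → ℤ)) (m : Fin n → ℤ) (y : Fin n → ℂ) :
    dtc m (wc (adjH W) y) = dtc (W m) y := by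
  have h1 : ∀ i, ((W m i : ℤ) : ℂ) = ∑ l, (m l : ℂ) * ((W (Pi.single l 1) i : ℤ) : ℂ) := by
    intro i
    conv_lhs => rw [vec_eq m, map_sum, Finset.sum_apply]
    push_cast
    exact Finset.sum_congr rfl fun l _ => by rw [map_zsmul]; simp
  rw [dtc, dtc, wc]
  simp only [Fintype.linearCombination_apply, Finset.sum_apply, Pi.smul_apply, smul_eq_mul, h1,
    Finset.mul_sum, Finset.sum_mul]
  rw [Finset.sum_comm]
  refine Finset.sum_congr rfl fun i _ => Finset.sum_congr rfl fun l _ => ?_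
  have h2 : cst (adjH W (Pi.single i 1)) l = ((W (Pi.single l 1) i : ℤ) : ℂ) := by
    rw [cst, adjH_apply, adj, pr_single]
  rw [h2]
  ring

/-- an eigenbasis -/
structure EB (W : (Fin n → ℤ) →+ (Fin n → ℤ)) (θ : ℂ) (r : ℕ) (k : Fin n → ℕ)
    (y : Fin n → Fin n → ℂ) : Prop where
  lt : ∀ j, k j < r
  det : (Matrix.of y).det ≠ 0
  eig : ∀ j m, dtc (W m) (y j) = θ ^ k j * dtc m (y j)
  int : ∀ j, k j = 0 → ∃ u : Fin n → ℤ, y j = cst u

theorem exists_eb {θ : ℂ} {r : ℕ} (hθ : IsPrimitiveRoot θ r) (hr : 0 < r)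
    {W : (Fin n → ℤ) →+ (Fin n → ℤ)} (hW : ∀ m, W^[r] m = m) : ∃ k y, EB W θ r k y := by
  classical
  set A := adjH W with hAd
  have hA : ∀ x, A^[r] x = x := by
    intro x
    apply pr_ext
    intro m
    rw [pr_adj_iter, hW]
  let v : Fin r × Fin n → (Fin n → ℂ) := fun p => nu θ A r p.1 (Pi.single p.2 1)
  obtain ⟨κ, a, ha, hsp, hli⟩ := exists_linearIndependent' ℂ v
  have htop : Submodule.span ℂ (Set.range v) = ⊤ := by
    rw [eq_top_iff, ← (Pi.basisFun ℂ (Fin n)).span_eq, Submodule.span_le]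
    rintro _ ⟨i, rfl⟩
    have h1 : (Pi.basisFun ℂ (Fin n)) i = cst (Pi.single i 1) := by
      funext j
      rw [Pi.basisFun_apply, cst, Pi.single_apply, Pi.single_apply]
      split_ifs <;> simp
    rw [h1]
    have h2 := nu_sum hθ hr A (Pi.single i 1)
    have hr' : (r : ℂ) ≠ 0 := by exact_mod_cast hr.ne'
    have h3 : cst (Pi.single i 1) = (r : ℂ)⁻¹ • ∑ k ∈ Finset.range r, nu θ A r k (Pi.single i 1) := by
      rw [h2, smul_smul, inv_mul_cancel₀ hr', one_smul]
    rw [h3]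
    refine Submodule.smul_mem _ _ (Submodule.sum_mem _ fun k hk => Submodule.subset_span ?_)
    exact ⟨(⟨k, Finset.mem_range.1 hk⟩, i), rfl⟩
  have : Finite κ := Finite.of_injective a ha
  have : Fintype κ := Fintype.ofFinite _
  let B : Module.Basis κ ℂ (Fin n → ℂ) := Module.Basis.mk hli (by rw [hsp, htop])
  have hcard : Fintype.card κ = n := by
    have := Module.finrank_eq_card_basis B
    rw [Module.finrank_fin_fun] at this
    exact this.symm
  let ε : Fin n ≃ κ := (Fintype.equivFinOfCardEq hcard).symm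
  refine ⟨fun j => (a (ε j)).1, fun j => v (a (ε j)), ?_, ?_, ?_, ?_⟩
  · intro j; exact (a (ε j)).1.2
  · have h1 : LinearIndependent ℂ (fun j => v (a (ε j))) := hli.comp ε ε.injective
    have h2 : IsUnit (Matrix.of fun j => v (a (ε j))) :=
      Matrix.linearIndependent_rows_iff_isUnit.1 h1
    rw [Matrix.isUnit_iff_isUnit_det] at h2
    exact h2.ne_zero
  · intro j m
    rw [← dtc_wc, ← hAd]
    change dtc m (wc A (nu θ A r _ _)) = _
    rw [wc_nu hθ.pow_eq_one (hθ.ne_zero hr.ne') hA, dtc_smul]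
  · intro j hj
    refine ⟨∑ s ∈ Finset.range r, A^[s] (Pi.single (a (ε j)).2 1), ?_⟩
    change nu θ A r ((a (ε j)).1 : ℕ) (Pi.single (a (ε j)).2 1) = _
    rw [hj, nu]
    funext i
    rw [Finset.sum_apply, cst, Finset.sum_apply]
    push_cast
    refine Finset.sum_congr rfl fun s _ => ?_
    rw [zero_mul, pow_zero, one_smul, cst]

/-- changing the root of unity -/
theorem EB.scale {W : (Fin n → ℤ) →+ (Fin n → ℤ)} {θ θ' : ℂ} {r q : ℕ} {k : Fin n → ℕ}
    {y : Fin n → Fin n → ℂ} (h : EB W θ r k y) (hq : 0 < q) (hθ : θ' ^ q = θ) :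
    EB W θ' (q * r) (fun j => q * k j) y :=
  ⟨fun j => Nat.mul_lt_mul_of_pos_left (h.lt j) hq, h.det,
    fun j m => by rw [h.eig, ← hθ, ← pow_mul],
    fun j hj => h.int j ((Nat.mul_eq_zero.1 hj).resolve_left hq.ne')⟩

/-- extension of characters -/
theorem exists_char {W : (Fin n → ℤ) →+ (Fin n → ℤ)} {l : (Fin n → ℤ) → ℂ} {U : Fin n → ℤ} {θ : ℂ}
    (hθ0 : θ ≠ 0) (hl : ∀ m, l m ≠ 0) (hla : ∀ m m', l (m + m') = l m * l m')
    (hlW : ∀ m, W m = m → l m = θ ^ pr m U) :
    ∃ ch : (Fin n → ℤ) → ℂ, (∀ m, ch m ≠ 0) ∧ (∀ m m', ch (m + m') = ch m * ch m') ∧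
      ∀ m, l m * ch (W m) = ch m * θ ^ pr m U := by
  let f : (Fin n → ℤ) →+ (Fin n → ℤ) := W - AddMonoidHom.id _
  have hf : ∀ m, f m = W m - m := fun m => rfl
  have hne : ∀ m, θ ^ pr m U / l m ≠ 0 := fun m => div_ne_zero (zpow_ne_zero _ hθ0) (hl m)
  let g0 : (Fin n → ℤ) →+ Additive ℂˣ := AddMonoidHom.mk'
    (fun m => Additive.ofMul (Units.mk0 (θ ^ pr m U / l m) (hne m))) fun m m' => by
      rw [← ofMul_mul]
      congr 1
      ext
      rw [Units.val_mul, Units.val_mk0, Units.val_mk0, Units.val_mk0, pr_add, zpow_add₀ hθ0, hla]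
      field_simp
  have hg0 : ∀ m, ((Additive.toMul (g0 m) : ℂˣ) : ℂ) = θ ^ pr m U / l m := fun m => rfl
  have hker : ∀ m, f m = 0 → g0 m = 0 := by
    intro m hm
    rw [hf, sub_eq_zero] at hm
    have h1 : Units.mk0 (θ ^ pr m U / l m) (hne m) = 1 := by
      ext
      rw [Units.val_mk0, hlW m hm, div_self (zpow_ne_zero _ hθ0), Units.val_one]
    change Additive.ofMul (Units.mk0 (θ ^ pr m U / l m) (hne m)) = 0
    rw [h1]
    rfl
  have hch : ∀ x : f.range, ∃ m, f m = x := fun x => x.2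
  choose s hs using hch
  have hgs : ∀ m m', f m = f m' → g0 m = g0 m' := by
    intro m m' h
    have h1 := hker (m - m') (by rw [map_sub, h, sub_self])
    rw [map_sub, sub_eq_zero] at h1
    exact h1
  let G : f.range →+ Additive ℂˣ := AddMonoidHom.mk' (fun x => g0 (s x)) fun x x' => by
    rw [← map_add]
    apply hgs
    rw [map_add, hs, hs, hs]
    rfl
  let _ : DivisibleBy (Additive ℂˣ) ℤ := divisibleByOfSMulRightSurj _ _ (by
    intro k hk a
    obtain ⟨z, hz⟩ := IsAlgClosed.exists_pow_nat_eq ((Additive.toMul a : ℂˣ) : ℂ)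
      (Int.natAbs_pos.2 hk)
    have hz0 : z ≠ 0 := by
      rintro rfl
      rw [zero_pow (Int.natAbs_ne_zero.2 hk)] at hz
      exact (Units.ne_zero _) hz.symm
    have h1 : (Units.mk0 z hz0) ^ k.natAbs = Additive.toMul a := by
      ext
      rw [Units.val_pow_eq_pow_val, Units.val_mk0, hz]
    rcases Int.natAbs_eq k with h | h
    · refine ⟨Additive.ofMul (Units.mk0 z hz0), ?_⟩
      beta_reduce
      rw [h, ← ofMul_zpow, zpow_natCast, h1, ofMul_toMul]
    · refine ⟨Additive.ofMul (Units.mk0 z hz0)⁻¹, ?_⟩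
      beta_reduce
      rw [h, ← ofMul_zpow, zpow_neg, inv_zpow, inv_inv, zpow_natCast, h1, ofMul_toMul])
  obtain ⟨h, hh⟩ := (Module.Baer.of_divisible (Additive ℂˣ)).extension_property_addMonoidHom
    f.range.subtype (AddSubgroup.subtype_injective _) G
  refine ⟨fun m => ((Additive.toMul (h m) : ℂˣ) : ℂ), fun m => Units.ne_zero _, fun m m' => ?_,
    fun m => ?_⟩
  · beta_reduce
    rw [map_add, toMul_add, Units.val_mul]
  · have h1 : h (f m) = g0 m := by
      have h2 := DFunLike.congr_fun hh ⟨f m, ⟨m, rfl⟩⟩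
      change h (f m) = g0 (s ⟨f m, _⟩) at h2
      rw [h2]
      exact hgs _ _ (hs _)
    have h3 : h (W m) = h m + g0 m := by
      rw [← h1, ← map_add, hf, add_sub_cancel]
    beta_reduce
    rw [h3, toMul_add, Units.val_mul, hg0]
    have := hl m
    field_simp

theorem exists_wd {W : (Fin n → ℤ) →+ (Fin n → ℤ)} {θ : ℂ} {r : ℕ} {k : Fin n → ℕ}
    {y : Fin n → Fin n → ℂ} (hθ : IsPrimitiveRoot θ r) (hr : 0 < r) (h : EB W θ r k y)
    {U : Fin n → ℤ} (hU : ∀ m, pr (W m) U = pr m U) (hU0 : U ≠ 0) {l : (Fin n → ℤ) → ℂ}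
    (hl : ∀ m, l m ≠ 0) (hla : ∀ m m', l (m + m') = l m * l m')
    (hlW : ∀ m, W m = m → l m = θ ^ pr m U) :
    ∃ (c : ℕ) (d : Wd n), 0 < c ∧ U = (c : ℤ) • d.U ∧ (∀ j, k j = c * d.k j) ∧ Dual d ∧ Cop d ∧
      (∀ m, pr (W m) d.U = pr m d.U) ∧
      (∀ j, d.k j = 0 → ∀ m, d.z j (W m) = d.z j m) ∧
      (∀ j, d.k j ≠ 0 → ∀ m, d.nu j (W m) = (θ ^ c) ^ d.k j * d.nu j m) ∧
      (∀ m, l m * d.ch (W m) = d.ch m * (θ ^ c) ^ pr m d.U) := by
  classical
  have hθ0 := hθ.ne_zero hr.ne'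
  have hdu : IsUnit (Matrix.of y).det := isUnit_iff_ne_zero.2 h.det
  have hθk : ∀ j, k j ≠ 0 → θ ^ k j - 1 ≠ 0 := fun j hj =>
    sub_ne_zero.2 (hθ.pow_ne_one_of_pos_of_lt hj (h.lt j))
  obtain ⟨ρ, hρ0, hρ⟩ : ∃ ρ : Fin n → ℂ, (∀ j, k j ≠ 0 → ρ j = 0) ∧
      ∀ m, ∑ j, ρ j * dtc m (y j) = (pr m U : ℂ) := by
    set ρ : Fin n → ℂ := Matrix.vecMul (cst U) (Matrix.of y)⁻¹ with hρd
    have h1 : Matrix.vecMul ρ (Matrix.of y) = cst U := by
      rw [hρd, Matrix.vecMul_vecMul, Matrix.nonsing_inv_mul _ hdu, Matrix.vecMul_one]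
    have h2 : ∀ m, ∑ j, ρ j * dtc m (y j) = (pr m U : ℂ) := by
      intro m
      rw [← dtc_cst, ← h1]
      simp only [dtc, Matrix.vecMul, dotProduct, Finset.mul_sum, Matrix.of_apply]
      rw [Finset.sum_comm]
      exact Finset.sum_congr rfl fun i _ => Finset.sum_congr rfl fun j _ => by ring
    refine ⟨ρ, fun j hj => ?_, h2⟩
    have h3 : (fun j => ρ j * (θ ^ k j - 1)) = 0 := by
      refine Matrix.eq_zero_of_vecMul_eq_zero h.det ?_
      funext i
      rw [Pi.zero_apply]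
      have h4 := h2 (W (Pi.single i 1))
      rw [hU, ← h2 (Pi.single i 1), ← sub_eq_zero, ← Finset.sum_sub_distrib] at h4
      rw [← h4, Matrix.vecMul, dotProduct]
      refine Finset.sum_congr rfl fun j _ => ?_
      rw [h.eig, dtc_single, Matrix.of_apply]
      ring
    have h5 := congrFun h3 j
    exact (mul_eq_zero.1 h5).resolve_right (hθk j hj)
  let V : Fin (n + n) → ℤ := Fin.append U (fun j => (k j : ℤ))
  have hVl : ∀ i, V (Fin.castAdd n i) = U i := fun i => Fin.append_left _ _ _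
  have hVr : ∀ j, V (Fin.natAdd n j) = (k j : ℤ) := fun i => Fin.append_right _ _ _
  have hV0 : V ≠ 0 := by
    intro h0
    apply hU0
    funext i
    rw [← hVl, h0]
    rfl
  obtain ⟨c0, V', hc0, ⟨mm, hmm⟩, hVV⟩ := exists_prim hV0
  obtain ⟨c, rfl⟩ : ∃ c : ℕ, c0 = c := ⟨c0.toNat, by omega⟩
  have hc : 0 < c := by exact_mod_cast hc0
  have hcC : (c : ℂ) ≠ 0 := by exact_mod_cast hc.ne'
  set U' : Fin n → ℤ := fun i => V' (Fin.castAdd n i) with hU'
  set k' : Fin n → ℕ := fun j => (V' (Fin.natAdd n j)).toNat with hk'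
  have hUU : U = (c : ℤ) • U' := by
    funext i
    rw [← hVl, hVV]
    rfl
  have hkV : ∀ j, (k j : ℤ) = c * V' (Fin.natAdd n j) := by
    intro j
    rw [← hVr, hVV]
    rfl
  have hV'0 : ∀ j, ((k' j : ℕ) : ℤ) = V' (Fin.natAdd n j) := by
    intro j
    have h1 := hkV j
    have h2 : 0 ≤ V' (Fin.natAdd n j) := by
      by_contra h3
      push Not at h3
      have : (c : ℤ) * V' (Fin.natAdd n j) < 0 := mul_neg_of_pos_of_neg hc0 h3
      omega
    simp only [hk']
    omega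
  have hkk : ∀ j, k j = c * k' j := by
    intro j
    have h1 := hkV j
    rw [← hV'0] at h1
    exact_mod_cast h1
  have hk0 : ∀ j, k' j = 0 ↔ k j = 0 := by
    intro j
    rw [hkk j, Nat.mul_eq_zero]
    constructor
    · exact Or.inr
    · intro h1; exact h1.resolve_left hc.ne'
  have hprU : ∀ m, pr m U = c * pr m U' := by
    intro m
    rw [hUU, pr_smul_right]
  have hzu : ∀ j, ∃ u : Fin n → ℤ, k j = 0 → y j = cst u := by
    intro j
    by_cases hj : k j = 0
    · obtain ⟨u, hu⟩ := h.int j hj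
      exact ⟨u, fun _ => hu⟩
    · exact ⟨0, fun h => absurd h hj⟩
  choose u hu using hzu
  obtain ⟨ch, hch0, hchm, hch⟩ := exists_char hθ0 hl hla hlW
  let d : Wd n :=
    { k := k'
      nu := fun j => AddMonoidHom.mk' (fun m => dtc m (y j)) fun m m' => dtc_add m m' _
      z := fun j => AddMonoidHom.mk' (fun m => pr m (u j)) fun m m' => pr_add m m' _
      hz := fun j hj m => by
        change dtc m (y j) = ((pr m (u j) : ℤ) : ℂ)
        rw [hu j ((hk0 j).1 hj), dtc_cst]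
      U := U'
      b := fun j => if k' j = 0 then (c : ℂ)⁻¹ * ρ j else k' j
      hb := fun j hj => if_neg hj
      hbU := fun m => by
        have h1 : ∀ j, (if k' j = 0 then (if k' j = 0 then (c : ℂ)⁻¹ * ρ j else (k' j : ℂ)) *
            dtc m (y j) else 0) = (c : ℂ)⁻¹ * (ρ j * dtc m (y j)) := by
          intro j
          split_ifs with hj
          · ring
          · rw [hρ0 j (fun h => hj ((hk0 j).2 h)), zero_mul, mul_zero]
        change ∑ j, (if k' j = 0 then (if k' j = 0 then (c : ℂ)⁻¹ * ρ j else (k' j : ℂ)) *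
            dtc m (y j) else 0) = _
        rw [Finset.sum_congr rfl fun j _ => h1 j, ← Finset.mul_sum, hρ, hprU]
        push_cast
        rw [inv_mul_cancel_left₀ hcC]
      ch := ch
      ch_ne := hch0
      ch_add := hchm
      det := by
        have h1 : (Matrix.of fun (j i : Fin n) => dtc (Pi.single i 1) (y j)) = Matrix.of y := by
          ext j i
          rw [Matrix.of_apply, Matrix.of_apply, dtc_single]
        change (Matrix.of fun (j i : Fin n) => dtc (Pi.single i 1) (y j)).det ≠ 0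
        rw [h1]
        exact h.det }
  have hUW : ∀ m, pr (W m) U' = pr m U' := by
    intro m
    have h1 := hU m
    rw [hprU, hprU] at h1
    exact mul_left_cancel₀ hc0.ne' h1
  have hnuW : ∀ j m, dtc (W m) (y j) = (θ ^ c) ^ k' j * dtc m (y j) := by
    intro j m
    rw [h.eig, ← pow_mul, hkk j]
  have hzW : ∀ j, k' j = 0 → ∀ m, pr (W m) (u j) = pr m (u j) := by
    intro j hj m
    have h1 := hnuW j m
    rw [hj, pow_zero, one_mul, hu j ((hk0 j).1 hj), dtc_cst, dtc_cst] at h1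
    exact_mod_cast h1
  refine ⟨c, d, hc, hUU, hkk, ?_, ?_, hUW, hzW, fun j _ m => hnuW j m, fun m => ?_⟩
  · intro j0 hj0
    have hj0' : k j0 ≠ 0 := fun h => hj0 ((hk0 j0).2 h)
    refine ⟨fun i => (θ ^ k j0 - 1)⁻¹ * (Matrix.of y)⁻¹ i j0,
      fun i => W (Pi.single i 1) - Pi.single i 1, fun i => ?_, fun i j hj => ?_, fun j hj => ?_⟩
    · change pr (W (Pi.single i 1) - Pi.single i 1) U' = 0
      rw [pr_sub, hUW, sub_self]
    · change pr (W (Pi.single i 1) - Pi.single i 1) (u j) = 0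
      rw [pr_sub, hzW j hj, sub_self]
    · have h1 : ∀ i, dtc (W (Pi.single i 1) - Pi.single i 1) (y j) = (θ ^ k j - 1) * y j i := by
        intro i
        have h2 := dtc_add (W (Pi.single i 1) - Pi.single i 1) (Pi.single i 1) (y j)
        rw [sub_add_cancel, h.eig, dtc_single] at h2
        linear_combination -h2
      have h2 : ∑ i, (Matrix.of y) j i * (Matrix.of y)⁻¹ i j0 = if j = j0 then 1 else 0 := by
        have h3 := congrFun (congrFun (Matrix.mul_nonsing_inv _ hdu) j) j0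
        rw [Matrix.mul_apply, Matrix.one_apply] at h3
        exact h3
      change ∑ i, (θ ^ k j0 - 1)⁻¹ * (Matrix.of y)⁻¹ i j0 *
        dtc (W (Pi.single i 1) - Pi.single i 1) (y j) = _
      have h3 : ∑ i, (θ ^ k j0 - 1)⁻¹ * (Matrix.of y)⁻¹ i j0 *
          dtc (W (Pi.single i 1) - Pi.single i 1) (y j) =
          (θ ^ k j0 - 1)⁻¹ * (θ ^ k j - 1) * ∑ i, (Matrix.of y) j i * (Matrix.of y)⁻¹ i j0 := by
        rw [Finset.mul_sum]
        exact Finset.sum_congr rfl fun i _ => by rw [h1, Matrix.of_apply]; ring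
      rw [h3, h2]
      split_ifs with hjj
      · rw [hjj, inv_mul_cancel₀ (hθk j0 hj0'), one_mul]
      · rw [mul_zero]
  · refine ⟨fun i => mm (Fin.castAdd n i), fun j => mm (Fin.natAdd n j), ?_⟩
    change ∑ i, mm (Fin.castAdd n i) * V' (Fin.castAdd n i) +
      ∑ j, mm (Fin.natAdd n j) * ((k' j : ℕ) : ℤ) = 1
    rw [← hmm, pr, Fin.sum_univ_add]
    congr 1
    exact Finset.sum_congr rfl fun j _ => by rw [hV'0]
  · change l m * ch (W m) = ch m * (θ ^ c) ^ pr m U'
    rw [hch, hprU, zpow_mul, zpow_natCast]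

end Q47.QM
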