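import Pool.Agent.Q47.QM.Over
import Pool.Agent.Q47.QM.Eig

/-!
# Log discrepancies for torus invariant boundaries
-/

set_option autoImplicit false
set_option linter.unusedSectionVars false

namespace Q47.QM

open Pool.Agent.H436R3.Fol Pool.Agent.H436R3.KT Pool.Agent.W497.Mld Pool.Agent.TH165.ACC

variable {n : ℕ} {K : Type} [Field K] [Algebra ℂ K]
  [Algebra (MvPolynomial (Fin n) ℂ) K] [IsFractionRing (MvPolynomial (Fin n) ℂ) K]
  [IsScalarTower ℂ (MvPolynomial (Fin n) ℂ) K]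

variable {g : ToricGerm n K}

theorem exists_coord {u : Fin n → ℤ} (h : g.InCone u) :
    ∃ w : Fin g.N → ℝ, (∀ i, 0 ≤ w i) ∧ Coord g.E w u := by
  classical
  obtain ⟨d, a, w, hw, hwu, -⟩ := exists_simplex (E := g.E) h
  refine ⟨fun i => ∑ j, if a j = i then w j else 0, fun i => Finset.sum_nonneg fun j _ => ?_,
    fun k => ?_⟩
  · split_ifs
    · exact (hw j).le
    · exact le_rfl
  · rw [← hwu k]
    simp only [Finset.sum_mul]
    rw [Finset.sum_comm]
    refine Finset.sum_congr rfl fun j _ => ?_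
    rw [Finset.sum_eq_single (a j)]
    · rw [if_pos rfl]
    · intro i _ hi
      rw [if_neg (fun h => hi h.symm), zero_mul]
    · intro h; exact absurd (Finset.mem_univ _) h

/-- the log discrepancy function -/
structure LDF {B : EffDiv g.X} (e : LocEq B g.P) (Γ : Set ℝ) (Φ : (Fin n → ℤ) → ℝ) : Prop where
  lin : ∀ (w : Fin g.N → ℝ) (u : Fin n → ℤ), (∀ i, 0 ≤ w i) → Coord g.E w u →
    Φ u = ∑ i, w i * Φ (g.E i)
  coef : ∀ i, ∃ β ∈ insert 0 Γ, Φ (g.E i) = 1 - β
  disc : ∀ v, IsOverGerm g.P v → ∀ m, IsLogDisc e v m ↔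
    ∃ a : ℤ, IsCanOrd g.X.T v a ∧ m = 1 + a + Φ (tv v)

theorem exists_phi {B : EffDiv g.X} (e : LocEq B g.P) {Γ : Set ℝ} (hB : CoeffIn B Γ)
    (htor : ∀ v : DVal K, (∀ i : Fin n, v.ord (cv K i) = 0) → B.mult v = 0) :
    ∃ Φ, LDF e Γ Φ := by
  classical
  choose vE hvE htE using fun i => exists_mon (K := K) (g.prim i)
  obtain ⟨F, c, hFp, hFd, hc⟩ := fact (n := n) e.ρ e.g e.ne
  set β : Fin g.N → ℝ := fun i => B.mult (vE i) with hβ
  have h1 : ∀ i, -1 + β i = ∑ p ∈ F, c p * ((vE i).ord (jo (Fin n) K p) : ℝ) := by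
    intro i
    obtain ⟨b, hb, h2⟩ := e.eq (vE i) (ToricGerm.onAt_E (hvE i) (htE i))
    have h3 : b = -1 := hb.unique (can_mon g.e g.hT (hvE i))
    rw [← hc, ← h2, h3]
    push_cast
    rfl
  have h2 : ∀ p ∈ F, Thr g p → c p = 0 := by
    rintro p hp ⟨hpp, hcv, hon⟩
    obtain ⟨b, hb, h3⟩ := e.eq _ hon
    have hL := g.local_prime hpp hcv
    have h4 : b = 0 := hb.unique (can_unit g.e g.hT (by rw [← g.hR]; exact hL) hcv)
    have h5 : ∑ q ∈ F, c q * ((valP K p hpp).ord (jo (Fin n) K q) : ℝ) = c p := by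
      rw [Finset.sum_eq_single p]
      · rw [valP_self]; push_cast; ring
      · intro q hq hqp
        rw [valP_other hpp (hFp q hq).ne_zero fun h => hqp (hFd p hp q hq h).symm]
        push_cast; ring
      · intro h; exact absurd hp h
    rw [hc, h5, h4, Int.cast_zero, zero_add, htor _ hcv] at h3
    exact h3.symm
  let Fw : (Fin g.N → ℝ) → ℝ := fun w => ∑ i, w i * (1 - β i)
  have hFs : ∀ (t : ℝ) w, Fw (t • w) = t * Fw w := by
    intro t w
    simp only [Fw, Finset.mul_sum]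
    exact Finset.sum_congr rfl fun i _ => by rw [Pi.smul_apply, smul_eq_mul]; ring
  have hmon : ∀ v : DVal K, IsMonomial n v → ∀ w : Fin g.N → ℝ, (∀ i, 0 ≤ w i) →
      Coord g.E w (tv v) → ∑ k, e.ρ k * (v.ord (e.g k) : ℝ) = -Fw w := by
    intro v hv w hw hco
    rw [hc]
    have h3 : ∀ p ∈ F, c p * (v.ord (jo (Fin n) K p) : ℝ) =
        ∑ i, w i * (c p * ((vE i).ord (jo (Fin n) K p) : ℝ)) := by
      intro p hp
      by_cases h4 : Thr g p
      · rw [h2 p hp h4, zero_mul]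
        exact (Finset.sum_eq_zero fun i _ => by rw [zero_mul, mul_zero]).symm
      · rw [lin_of_not_thr (a := id) hvE htE (hFp p hp) h4 hv hw hco, Finset.mul_sum]
        exact Finset.sum_congr rfl fun i _ => by ring
    rw [Finset.sum_congr rfl h3, Finset.sum_comm]
    simp only [Fw]
    rw [← Finset.sum_neg_distrib]
    refine Finset.sum_congr rfl fun i _ => ?_
    rw [← Finset.mul_sum, ← h1]
    ring
  have hsc : ∀ (k : ℤ) (u' : Fin n → ℤ) (w : Fin g.N → ℝ), 0 < k → Coord g.E w (k • u') →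
      Coord g.E ((k : ℝ)⁻¹ • w) u' := by
    intro k u' w hk hco j
    have h3 := hco j
    have hk' : (0 : ℝ) < k := by exact_mod_cast hk
    simp only [Pi.smul_apply, smul_eq_mul] at h3 ⊢
    push_cast at h3
    have h4 : ∑ i, (k : ℝ)⁻¹ * w i * (g.E i j : ℝ) = (k : ℝ)⁻¹ * ∑ i, w i * (g.E i j : ℝ) := by
      rw [Finset.mul_sum]
      exact Finset.sum_congr rfl fun i _ => by ring
    rw [h4, h3]
    field_simp
  have hwell : ∀ (u : Fin n → ℤ) (w w' : Fin g.N → ℝ), (∀ i, 0 ≤ w i) → (∀ i, 0 ≤ w' i) →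
      Coord g.E w u → Coord g.E w' u → Fw w = Fw w' := by
    intro u w w' hw hw' hco hco'
    by_cases hu : u = 0
    · obtain ⟨Q, hQ⟩ := g.pointed
      have h0 : ∀ w : Fin g.N → ℝ, (∀ i, 0 ≤ w i) → Coord g.E w u → Fw w = 0 := by
        intro w hw hco
        have h3 := coord_pr hco Q
        have h4 : pr Q u = 0 := by rw [hu, pr]; simp
        rw [h4, Int.cast_zero] at h3
        have h5 := (Finset.sum_eq_zero_iff_of_nonneg fun i _ =>
          mul_nonneg (hw i) (by exact_mod_cast (hQ i).le)).1 h3.symm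
        refine Finset.sum_eq_zero fun i _ => ?_
        have h6 := h5 i (Finset.mem_univ i)
        have h7 : ((pr Q (g.E i) : ℤ) : ℝ) ≠ 0 := by exact_mod_cast (hQ i).ne'
        rw [(mul_eq_zero.1 h6).resolve_right h7, zero_mul]
      rw [h0 w hw hco, h0 w' hw' hco']
    · obtain ⟨k, u', hk, hu', rfl⟩ := exists_prim hu
      obtain ⟨v, hv, rfl⟩ := exists_mon (K := K) hu'
      have hk' : (0 : ℝ) < k := by exact_mod_cast hk
      have h3 := hmon v hv ((k : ℝ)⁻¹ • w) (fun i => mul_nonneg (inv_pos.2 hk').le (hw i))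
        (hsc k _ w hk hco)
      have h4 := hmon v hv ((k : ℝ)⁻¹ • w') (fun i => mul_nonneg (inv_pos.2 hk').le (hw' i))
        (hsc k _ w' hk hco')
      rw [hFs] at h3 h4
      have h5 : (k : ℝ)⁻¹ * Fw w = (k : ℝ)⁻¹ * Fw w' := by linarith
      exact mul_left_cancel₀ (inv_pos.2 hk').ne' h5
  let Φ : (Fin n → ℤ) → ℝ := fun u =>
    if h : ∃ w : Fin g.N → ℝ, (∀ i, 0 ≤ w i) ∧ Coord g.E w u then Fw h.choose else 0
  have hΦ : ∀ (w : Fin g.N → ℝ) (u : Fin n → ℤ), (∀ i, 0 ≤ w i) → Coord g.E w u →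
      Φ u = Fw w := by
    intro w u hw hco
    have h3 : ∃ w : Fin g.N → ℝ, (∀ i, 0 ≤ w i) ∧ Coord g.E w u := ⟨w, hw, hco⟩
    simp only [Φ]
    rw [dif_pos h3]
    exact hwell u _ _ h3.choose_spec.1 hw h3.choose_spec.2 hco
  have hΦE : ∀ i, Φ (g.E i) = 1 - β i := by
    intro i
    rw [hΦ (Pi.single i 1) (g.E i) (fun j => by
      by_cases h : j = i
      · subst h; simp
      · simp [h]) (fun k => by
      rw [Finset.sum_eq_single i]
      · simp
      · intro j _ hj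
        simp [hj]
      · intro h; exact absurd (Finset.mem_univ _) h)]
    simp only [Fw]
    rw [Finset.sum_eq_single i]
    · simp
    · intro j _ hj
      simp [hj]
    · intro h; exact absurd (Finset.mem_univ _) h
  refine ⟨Φ, fun w u hw hco => ?_, fun i => ⟨β i, ?_, hΦE i⟩, fun v hov m => ?_⟩
  · rw [hΦ w u hw hco]
    exact Finset.sum_congr rfl fun i _ => by rw [hΦE]
  · by_cases h : β i = 0
    · rw [h]; exact Set.mem_insert _ _
    · exact Set.mem_insert_of_mem _ (hB _ (ToricGerm.local_E (hvE i) (htE i)) h)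
  · have hint := ToricGerm.inter_of_over (n := n) hov
    obtain ⟨k, u', hk, hu', htv'⟩ := exists_prim (ne_zero_of_inter hint)
    obtain ⟨v', hv', rfl⟩ := exists_mon (K := K) hu'
    have hk' : (0 : ℝ) < k := by exact_mod_cast hk
    have hcone' : g.InCone (tv v') := by
      intro r hr
      have h3 := hint.inCone r hr
      rw [htv', pr_smul_right] at h3
      exact nonneg_of_mul_nonneg_right h3 hk
    obtain ⟨w, hw, hco⟩ := exists_coord hcone'
    have h3 := hmon v' hv' w hw hco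
    have h4 : ∑ j, e.ρ j * (v.ord (e.g j) : ℝ) = k * ∑ j, e.ρ j * (v'.ord (e.g j) : ℝ) := by
      rw [hc, hc, Finset.mul_sum]
      refine Finset.sum_congr rfl fun p hp => ?_
      by_cases h5 : Thr g p
      · rw [h2 p hp h5]; ring
      · rw [eq_of_not_thr hov hv' hcone' hk htv' (hFp p hp) h5]
        push_cast
        ring
    have h5 : Φ (tv v) = k * Fw w := by
      rw [hΦ ((k : ℝ) • w) (tv v) (fun i => mul_nonneg hk'.le (hw i)) (fun j => by
        have h6 := hco j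
        rw [htv']
        simp only [Pi.smul_apply, smul_eq_mul]
        push_cast
        rw [← h6, Finset.mul_sum]
        exact Finset.sum_congr rfl fun i _ => by ring), hFs]
    constructor
    · rintro ⟨a, ha, rfl⟩
      exact ⟨a, ha, by rw [h4, h3, h5]; ring⟩
    · rintro ⟨a, ha, rfl⟩
      exact ⟨a, ha, by rw [h4, h3, h5]; ring⟩

/-- the valuation `f ↦ v (σ f)` -/
def tw (v : DVal K) (σ : K ≃ₐ[ℂ] K) : DVal K where
  ord := fun f => v.ord (σ f)
  map_mul := fun f h hf hh => by rw [map_mul, v.map_mul _ _ (sne σ hf) (sne σ hh)]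
  map_add := fun f h hf hh hfh => by
    rw [map_add]
    exact v.map_add _ _ (sne σ hf) (sne σ hh) (by rw [← map_add]; exact sne σ hfh)
  surj := by
    obtain ⟨f, hf, h1⟩ := v.surj
    refine ⟨σ.symm f, sne σ.symm hf, ?_⟩
    rw [AlgEquiv.apply_symm_apply, h1]
  const := fun c hc => by rw [AlgEquiv.commutes, v.const c hc]

theorem tw_pos {v : DVal K} {σ : K ≃ₐ[ℂ] K} {f : K} : (tw v σ).Pos f ↔ v.Pos (σ f) := by
  constructor
  · rintro (h | h)
    · left; rw [h, map_zero]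
    · exact Or.inr h
  · rintro (h | h)
    · left; simpa using h
    · exact Or.inr h

theorem tw_reg {v : DVal K} {σ : K ≃ₐ[ℂ] K} {f : K} : (tw v σ).Reg f ↔ v.Reg (σ f) := by
  constructor
  · rintro (h | h)
    · left; rw [h, map_zero]
    · exact Or.inr h
  · rintro (h | h)
    · left; simpa using h
    · exact Or.inr h

theorem tw_tw (v : DVal K) (σ τ : K ≃ₐ[ℂ] K) : tw (tw v σ) τ = tw v (σ * τ) := rfl

theorem tw_one (v : DVal K) : tw v 1 = v := rfl

/-- `σ` preserves the divisors over the germ and their log discrepancies. -/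
def IsPairAut {B : EffDiv g.X} (e : LocEq B g.P) (σ : K ≃ₐ[ℂ] K) : Prop :=
  ∀ (v : DVal K) (b : ℝ), IsOverGerm g.P v ∧ IsLogDisc e v b ↔
    IsOverGerm g.P (tw v σ) ∧ IsLogDisc e (tw v σ) b

theorem ym_single (i : Fin n) : ym K (Pi.single i 1 : Fin n → ℤ) = cv K i := by
  rw [ym, Finset.prod_eq_single i]
  · rw [Pi.single_eq_same, zpow_one]
  · intro j _ hj
    rw [Pi.single_eq_of_ne hj, zpow_zero]
  · intro h; exact absurd (Finset.mem_univ _) h

theorem tv_tw {v : DVal K} {σ : K ≃ₐ[ℂ] K} {W : (Fin n → ℤ) →+ (Fin n → ℤ)}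
    {l : (Fin n → ℤ) → ℂ} (h : Mo σ W l) : (tv (tw v σ) : Fin n → ℤ) = adj W (tv v) := by
  funext i
  change v.ord (σ (cv K i)) = pr (W (Pi.single i 1)) (tv v)
  rw [← ym_single, h.2, v.map_mul _ _ (alg_ne (h.1 _)) (ym_ne _), v.const _ (h.1 _), zero_add,
    ord_ym]

section inv

variable {B : EffDiv g.X} {e : LocEq B g.P} {Γ : Set ℝ} {Φ : (Fin n → ℤ) → ℝ}

theorem LDF.add (h : LDF e Γ Φ) {u u' : Fin n → ℤ} (hu : g.InCone u) (hu' : g.InCone u') :
    Φ (u + u') = Φ u + Φ u' := by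
  obtain ⟨w, hw, hc⟩ := exists_coord hu
  obtain ⟨w', hw', hc'⟩ := exists_coord hu'
  rw [h.lin w u hw hc, h.lin w' u' hw' hc', h.lin (w + w') (u + u')
    (fun i => add_nonneg (hw i) (hw' i)) (fun k => by
      simp only [Pi.add_apply, add_mul, Finset.sum_add_distrib]
      rw [hc k, hc' k]
      push_cast
      rfl), ← Finset.sum_add_distrib]
  exact Finset.sum_congr rfl fun i _ => by rw [Pi.add_apply]; ring

theorem LDF.coord {d : ℕ} (h : LDF e Γ Φ) {Q : Fin d → Fin n → ℤ} (hQ : ∀ i, g.InCone (Q i))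
    {w : Fin d → ℝ} (hw : ∀ i, 0 ≤ w i) {u : Fin n → ℤ} (hc : Coord Q w u) :
    Φ u = ∑ i, w i * Φ (Q i) := by
  choose w' hw' hc' using fun i => exists_coord (hQ i)
  rw [h.lin (fun j => ∑ i, w i * w' i j) u (fun j => Finset.sum_nonneg fun i _ =>
    mul_nonneg (hw i) (hw' i j)) (fun k => by
      simp only [Finset.sum_mul]
      rw [Finset.sum_comm, ← hc k]
      refine Finset.sum_congr rfl fun i _ => ?_
      rw [← hc' i k, Finset.mul_sum]
      exact Finset.sum_congr rfl fun j _ => by ring)]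
  simp only [Finset.sum_mul]
  rw [Finset.sum_comm]
  refine Finset.sum_congr rfl fun i _ => ?_
  rw [h.lin (w' i) (Q i) (hw' i) (hc' i), Finset.mul_sum]
  exact Finset.sum_congr rfl fun j _ => by ring

theorem inCone_add {u u' : Fin n → ℤ} (hu : g.InCone u) (hu' : g.InCone u') :
    g.InCone (u + u') := fun m hm => by
  rw [pr_add_right]
  exact add_nonneg (hu m hm) (hu' m hm)

theorem inter_add {u u' : Fin n → ℤ} (hu : g.InCone u) (hu' : g.Inter u') :
    g.Inter (u + u') := fun m hm hm0 => by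
  rw [pr_add_right]
  exact add_pos_of_nonneg_of_pos (hu m hm) (hu' m hm hm0)

theorem LDF.smul (h : LDF e Γ Φ) (k : ℕ) {u : Fin n → ℤ} (hu : g.InCone u) :
    Φ ((k : ℤ) • u) = k * Φ u := by
  have h1 := h.coord (Q := fun _ : Fin 1 => u) (fun _ => hu) (w := fun _ => (k : ℝ))
    (fun _ => Nat.cast_nonneg k) (u := (k : ℤ) • u) (fun j => by simp)
  rw [h1]
  simp

theorem phi_inter (h : LDF e Γ Φ) {σ : K ≃ₐ[ℂ] K} {W : (Fin n → ℤ) →+ (Fin n → ℤ)}
    {l : (Fin n → ℤ) → ℂ} (hmo : Mo σ W l) (hσ : IsPairAut e σ) {u : Fin n → ℤ}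
    (hu : g.Inter u) (hu0 : u ≠ 0) : g.Inter (adj W u) ∧ Φ (adj W u) ≤ Φ u := by
  obtain ⟨k0, u', hk0, hu', rfl⟩ := exists_prim hu0
  obtain ⟨k, rfl⟩ : ∃ k : ℕ, k0 = k := ⟨k0.toNat, by omega⟩
  obtain ⟨v, hv, rfl⟩ := exists_mon (K := K) hu'
  have hint : g.Inter (tv v) := by
    intro r hr hr0
    have h1 := hu r hr hr0
    rw [pr_smul_right] at h1
    exact (pos_iff_pos_of_mul_pos h1).1 hk0
  have hov := ToricGerm.overGerm hv hint
  have hl : IsLogDisc e v (Φ (tv v)) := (h.disc v hov _).2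
    ⟨-1, can_mon g.e g.hT hv, by push_cast; ring⟩
  obtain ⟨hov', hl'⟩ := (hσ v _).1 ⟨hov, hl⟩
  obtain ⟨a, ha, hb⟩ := (h.disc _ hov' _).1 hl'
  rw [tv_tw hmo] at hb
  have hint' := ToricGerm.inter_of_over (n := n) hov'
  rw [tv_tw hmo] at hint'
  have ha1 : (-1 : ℤ) ≤ a := by
    obtain ⟨⟨A, hA0, hA, hm⟩, -⟩ := ha
    rw [← hm]
    exact can_ge_neg g.e g.hT _ A hA0 hA
  have e1 : adj W ((k : ℤ) • (tv v : Fin n → ℤ)) = (k : ℤ) • adj W (tv v) := by
    rw [← adjH_apply, ← adjH_apply, map_zsmul]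
  rw [e1]
  refine ⟨?_, ?_⟩
  · intro r hr hr0
    rw [pr_smul_right]
    exact mul_pos hk0 (hint' r hr hr0)
  · rw [h.smul k hint'.inCone, h.smul k hint.inCone]
    have h2 : (-1 : ℝ) ≤ a := by exact_mod_cast ha1
    refine mul_le_mul_of_nonneg_left (by linarith) (Nat.cast_nonneg k)

theorem phi_inv (h : LDF e Γ Φ) {σ : K ≃ₐ[ℂ] K} {W : (Fin n → ℤ) →+ (Fin n → ℤ)}
    {l : (Fin n → ℤ) → ℂ} (hmo : Mo σ W l) (hσ : IsPairAut e σ) {r : ℕ} (hr : 0 < r)
    (hW : ∀ m, W^[r] m = m) (hn : 0 < n) {U : Fin n → ℤ} (hU : g.Inter U) :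
    (∀ u, g.InCone u → g.InCone (adj W u)) ∧ ∀ u, g.InCone u → Φ (adj W u) = Φ u := by
  have h1 : ∀ u, g.Inter u → Φ (adj W u) = Φ u := by
    intro u hu
    have h2 : ∀ s : ℕ, g.Inter ((adjH W)^[s] u) ∧ Φ ((adjH W)^[s + 1] u) ≤ Φ ((adjH W)^[1] u) := by
      intro s
      induction s with
      | zero => exact ⟨hu, le_rfl⟩
      | succ s ih =>
        obtain ⟨h3, h4⟩ := ih
        have h5 := phi_inter h hmo hσ h3 (h3.ne_zero hn)
        have h6 : adj W ((adjH W)^[s] u) = (adjH W)^[s + 1] u := by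
          rw [Function.iterate_succ_apply']; rfl
        rw [h6] at h5
        have h7 := phi_inter h hmo hσ h5.1 (h5.1.ne_zero hn)
        have h8 : adj W ((adjH W)^[s + 1] u) = (adjH W)^[s + 1 + 1] u := by
          rw [Function.iterate_succ_apply' (adjH W) (s + 1)]; rfl
        rw [h8] at h7
        exact ⟨h5.1, h7.2.trans h4⟩
    have h3 := phi_inter h hmo hσ hu (hu.ne_zero hn)
    refine le_antisymm h3.2 ?_
    have h4 := (h2 (r - 1)).2
    rw [Nat.sub_add_cancel hr] at h4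
    have h5 : (adjH W)^[r] u = u := by
      apply pr_ext
      intro m
      rw [pr_adj_iter, hW]
    rw [h5] at h4
    exact h4
  have h2 : ∀ u, g.InCone u → g.InCone (adj W u) := by
    intro u hu m hm
    by_cases hm0 : m = 0
    · rw [hm0, pr_zero]
    by_contra hneg
    push Not at hneg
    set N : ℕ := (pr m (adj W U)).toNat with hN
    have h3 : g.Inter ((N : ℤ) • u + U) := inter_add (fun q hq => by
      rw [pr_smul_right]
      exact mul_nonneg (Int.natCast_nonneg N) (hu q hq)) hU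
    have h4 := (phi_inter h hmo hσ h3 (h3.ne_zero hn)).1 m hm hm0
    have h5 : adj W ((N : ℤ) • u + U) = (N : ℤ) • adj W u + adj W U := by
      rw [← adjH_apply, ← adjH_apply, ← adjH_apply, map_add, map_zsmul]
    rw [h5, pr_add_right, pr_smul_right] at h4
    have h6 : pr m (adj W U) ≤ N := by rw [hN]; exact Int.self_le_toNat _
    have h7 : (0 : ℤ) ≤ N := Int.natCast_nonneg N
    nlinarith
  refine ⟨h2, fun u hu => ?_⟩
  have h3 := h1 _ (inter_add hu hU)
  have h4 := h1 _ hU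
  have h5 : adj W (u + U) = adj W u + adj W U := by
    rw [← adjH_apply, ← adjH_apply, ← adjH_apply, map_add]
  rw [h5, h.add (h2 u hu) (h2 U hU.inCone), h.add hu hU.inCone, h4] at h3
  linarith

end inv

end Q47.QM
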