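import Pool.Agent.Q47.QM.Iner
import Pool.Agent.TH126.C8_FG
import Pool.Agent.W497.Mld.Dvr
import Pool.Agent.H436R3.Fol.Div

/-!
# A criterion for a valuation to be the valuation of a prime divisor
-/

set_option autoImplicit false

namespace Q47.QM

open Pool.Agent.H436R3.Fol Pool.Agent.W497.Mld MvPolynomial

variable {K : Type} [Field K] [Algebra ℂ K]

/-- the valuation ring -/
def vsb (v : DVal K) : ValuationSubring K where
  toSubring := v.O
  mem_or_inv_mem' := by
    intro x
    by_cases h : x = 0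
    · left; rw [h]; exact v.reg_zero
    · by_cases h1 : 0 ≤ v.ord x
      · exact Or.inl (Or.inr h1)
      · right
        right
        rw [v.ord_inv h]
        omega

theorem reg_int (v : DVal K) {S : Subalgebra ℂ K} (hS : ∀ f ∈ S, v.Reg f) {f : K}
    (hf : IsIntegral S f) : v.Reg f := by
  have h1 : IsIntegral (vsb v) f := by
    let φ : S →+* vsb v := { toFun := fun s => ⟨s, hS s s.2⟩
                             map_one' := rfl
                             map_mul' := fun _ _ => rfl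
                             map_zero' := rfl
                             map_add' := fun _ _ => rfl }
    obtain ⟨p, hp, hpf⟩ := hf
    refine ⟨p.map φ, hp.map φ, ?_⟩
    rw [Polynomial.eval₂_map]
    exact hpf
  obtain ⟨y, hy⟩ := IsIntegrallyClosed.isIntegral_iff.1 h1
  rw [← hy]
  exact y.2

variable {n : ℕ}

theorem X_dvd_sub (k0 : Fin n) (q : MvPolynomial (Fin n) ℂ) :
    X k0 ∣ q - aeval (fun i => if i = k0 then (0 : MvPolynomial (Fin n) ℂ) else X i) q := by
  induction q using MvPolynomial.induction_on with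
  | C a =>
    rw [aeval_C, MvPolynomial.algebraMap_eq, sub_self]
    exact dvd_zero _
  | add p q hp hq =>
    rw [map_add]
    have : p + q - (aeval (fun i => if i = k0 then (0 : MvPolynomial (Fin n) ℂ) else X i) p +
        aeval (fun i => if i = k0 then (0 : MvPolynomial (Fin n) ℂ) else X i) q) =
        (p - aeval (fun i => if i = k0 then (0 : MvPolynomial (Fin n) ℂ) else X i) p) +
        (q - aeval (fun i => if i = k0 then (0 : MvPolynomial (Fin n) ℂ) else X i) q) := by ring
    rw [this]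
    exact dvd_add hp hq
  | mul_X p j hp =>
    rw [map_mul, aeval_X]
    by_cases h : j = k0
    · rw [if_pos h, mul_zero, sub_zero, h]
      exact dvd_mul_left _ _
    · rw [if_neg h, ← sub_mul]
      exact dvd_mul_of_dvd_left hp _

theorem loc_of [Algebra.EssFiniteType ℂ K] (t : Fin n → K) (ht : AlgebraicIndependent ℂ t)
    (halg : ∀ f : K, IsAlgebraic (Algebra.adjoin ℂ (Set.range t)) f) (v : DVal K)
    (hv : ∀ k, v.Reg (t k)) (k0 : Fin n) (hk0 : v.Pos (t k0))
    (h : ∀ q : MvPolynomial (Fin n) ℂ, v.Pos (aeval t q) → X k0 ∣ q) :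
    ∃ S : Subalgebra ℂ K, S.FG ∧ IsLocalRing' S v := by
  classical
  set B := Algebra.adjoin ℂ (Set.range t) with hB
  set S : Subalgebra ℂ K := (integralClosure B K).restrictScalars ℂ with hS
  have hSm : ∀ f : K, f ∈ S ↔ IsIntegral B f := fun f => Iff.rfl
  have hfg : S.FG := Pool.Agent.TH126.C8_FG.integralClosure_fg _ ((Subalgebra.fg_iff_finiteType _).2
    (Algebra.FiniteType.adjoin_of_finite (Set.finite_range _))) halg
  have hBS : ∀ x ∈ B, x ∈ S := by
    intro x hx
    rw [hSm]
    exact isIntegral_algebraMap (x := (⟨x, hx⟩ : B))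
  have hfrac : ∀ f : K, ∃ a b : K, a ∈ S ∧ b ∈ S ∧ b ≠ 0 ∧ f * b = a := by
    intro f
    obtain ⟨y, hy, h⟩ := IsAlgebraic.exists_integral_multiple (halg f)
    refine ⟨f * (y : K), (y : K), ?_, hBS _ y.2, fun h0 => hy (Subtype.ext h0), rfl⟩
    rw [hSm, mul_comm]
    exact h
  have hnorm : ∀ f : K, IsIntegral S f → f ∈ S := by
    intro f hf
    have h1 : IsIntegral (integralClosure B K) f := hf
    rw [hSm]
    exact isIntegral_trans f h1
  have hmem : ∀ q : MvPolynomial (Fin n) ℂ, (aeval t q : K) ∈ B := by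
    intro q
    rw [hB, Algebra.adjoin_range_eq_range_aeval]
    exact ⟨q, rfl⟩
  have hBr : ∀ f ∈ B, v.Reg f := by
    intro f hf
    rw [hB] at hf
    induction hf using Algebra.adjoin_induction with
    | mem x hx => obtain ⟨k, rfl⟩ := hx; exact hv k
    | algebraMap c => exact v.reg_const c
    | add x y _ _ hx hy => exact v.reg_add hx hy
    | mul x y _ _ hx hy => exact v.reg_mul hx hy
  have hreg : ∀ f ∈ S, v.Reg f := fun f hf => reg_int v hBr ((hSm f).1 hf)
  let P : Ideal S :=
    { carrier := {s | v.Pos (s : K)}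
      zero_mem' := Or.inl rfl
      add_mem' := fun ha hb => v.pos_add ha hb
      smul_mem' := fun a _ hb => v.pos_mul_left (hreg a a.2) hb }
  have hPm : ∀ s : S, s ∈ P ↔ v.Pos (s : K) := fun s => Iff.rfl
  have hP : P.IsPrime := by
    refine ⟨?_, fun {a b} hab => ?_⟩
    · intro htop
      have h1 : (1 : S) ∈ P := by rw [htop]; trivial
      exact not_pos one_ne_zero v.ord_one ((hPm _).1 h1)
    · exact pos_of_mul (hreg a a.2) (hreg b b.2) hab
  let ψB : MvPolynomial (Fin n) ℂ →ₐ[ℂ] B := (aeval t).codRestrict B hmem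
  let ψ : MvPolynomial (Fin n) ℂ →ₐ[ℂ] S := (aeval t).codRestrict S fun q => hBS _ (hmem q)
  let _ : Algebra (MvPolynomial (Fin n) ℂ) B := ψB.toRingHom.toAlgebra
  let _ : Algebra (MvPolynomial (Fin n) ℂ) S := ψ.toRingHom.toAlgebra
  let _ : Algebra (MvPolynomial (Fin n) ℂ) K :=
    (aeval t : MvPolynomial (Fin n) ℂ →ₐ[ℂ] K).toRingHom.toAlgebra
  have hT1 : IsScalarTower (MvPolynomial (Fin n) ℂ) B K :=
    IsScalarTower.of_algebraMap_eq fun x => rfl
  have hT2 : IsScalarTower (MvPolynomial (Fin n) ℂ) S K :=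
    IsScalarTower.of_algebraMap_eq fun x => rfl
  have hinj : Function.Injective (algebraMap (MvPolynomial (Fin n) ℂ) S) := by
    intro x y hxy
    apply ht
    exact congrArg Subtype.val hxy
  have hsurj : Function.Surjective (algebraMap (MvPolynomial (Fin n) ℂ) B) := by
    rintro ⟨x, hx⟩
    rw [hB, Algebra.adjoin_range_eq_range_aeval] at hx
    obtain ⟨q, hq⟩ := hx
    exact ⟨q, Subtype.ext hq⟩
  have : Algebra.IsIntegral (MvPolynomial (Fin n) ℂ) B := by
    refine ⟨fun x => ?_⟩
    obtain ⟨q, rfl⟩ := hsurj x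
    exact isIntegral_algebraMap
  have hint : Algebra.IsIntegral (MvPolynomial (Fin n) ℂ) S := by
    refine ⟨fun x => ?_⟩
    have h1 : IsIntegral B (x : K) := (hSm _).1 x.2
    have h2 : IsIntegral (MvPolynomial (Fin n) ℂ) (x : K) := isIntegral_trans (x : K) h1
    exact (isIntegral_algebraMap_iff (R := MvPolynomial (Fin n) ℂ) (A := S) (B := K)
      Subtype.val_injective).mp h2
  have hψ : ∀ q, ((algebraMap (MvPolynomial (Fin n) ℂ) S q : S) : K) = aeval t q := fun q => rfl
  have hP0 : P ≠ ⊥ := by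
    intro h0
    have h1 : algebraMap (MvPolynomial (Fin n) ℂ) S (X k0) ∈ P := by
      rw [hPm, hψ, aeval_X]
      exact hk0
    rw [h0, Ideal.mem_bot] at h1
    exact X_ne_zero k0 (hinj (h1.trans (map_zero _).symm))
  have hht : ∀ Q : Ideal S, Q.IsPrime → Q ≤ P → Q = ⊥ ∨ Q = P := by
    intro Q hQ hQP
    by_cases heq : Q = P
    · exact Or.inr heq
    left
    obtain ⟨g, hg, hgQ⟩ := SetLike.exists_of_lt (lt_of_le_of_ne hQP heq)
    have hlt := Ideal.comap_lt_comap_of_integral_mem_sdiff (R := MvPolynomial (Fin n) ℂ)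
      (I := Q) (J := P) hQP (x := g) ⟨hg, hgQ⟩ (Algebra.IsIntegral.isIntegral g)
    set Q0 := Q.comap (algebraMap (MvPolynomial (Fin n) ℂ) S) with hQ0
    have hQ0p : Q0.IsPrime := Ideal.IsPrime.comap _
    have hXQ : (X k0 : MvPolynomial (Fin n) ℂ) ∉ Q0 := by
      intro hX
      refine lt_irrefl _ (lt_of_lt_of_le hlt ?_)
      intro q hq
      have h1 : X k0 ∣ q := h q ((hPm _).1 hq)
      obtain ⟨q', rfl⟩ := h1
      exact Ideal.mul_mem_right _ _ hX
    apply Ideal.eq_bot_of_comap_eq_bot (R := MvPolynomial (Fin n) ℂ)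
    rw [eq_bot_iff]
    intro q hq
    rw [Ideal.mem_bot]
    by_contra hq0
    have hall : ∀ N : ℕ, ∃ q', q = (X k0) ^ N * q' ∧ q' ∈ Q0 := by
      intro N
      induction N with
      | zero => exact ⟨q, by rw [pow_zero, one_mul], hq⟩
      | succ N ih =>
        obtain ⟨q', h1, h2⟩ := ih
        have h3 : X k0 ∣ q' := h q' ((hPm _).1 (hQP h2))
        obtain ⟨q'', rfl⟩ := h3
        exact ⟨q'', by rw [h1, pow_succ, mul_assoc], (hQ0p.mem_or_mem h2).resolve_left hXQ⟩
    have hfm : FiniteMultiplicity (X k0 : MvPolynomial (Fin n) ℂ) q :=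
      FiniteMultiplicity.of_not_isUnit (X_prime (i := k0)).not_isUnit hq0
    obtain ⟨N, hN⟩ := hfm
    obtain ⟨q', h1, -⟩ := hall (N + 1)
    exact hN ⟨q', h1⟩
  obtain ⟨w, hw, hwP⟩ := exists_dval hfg hfrac hnorm P hP hP0 hht
  have hag : ∀ {f : K}, f ≠ 0 → w.ord f = v.ord f := fun hf => agree_of_key hw hreg
    (fun f hf hpos => (hwP ⟨f, hf⟩).2 ((hPm ⟨f, hf⟩).2 hpos)) hf
  refine ⟨S, hfg, hreg, fun f hf => ?_⟩
  have hf' : w.Reg f := by
    by_cases h0 : f = 0
    · exact Or.inl h0
    · right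
      rw [hag h0]
      exact hf.resolve_left h0
  obtain ⟨a, b, ha, hb, hb0, hb1, hab⟩ := hw.2 f hf'
  exact ⟨a, b, ha, hb, hb0, by rw [← hag hb0]; exact hb1, hab⟩

end Q47.QM
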