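import Pool.Agent.Q47.QM.Ub
import Pool.Agent.Q47.QM.Loc0

/-!
# The valuation of the embedding is the valuation of a prime divisor
-/

set_option autoImplicit false
set_option linter.unusedSectionVars false

namespace Q47.QM

open Pool.Agent.H436R3.Fol Pool.Agent.W497.Mld Pool.Agent.TH165.ACC HahnSeries Cardinal

attribute [-instance] HahnSeries.powerSeriesAlgebra

variable {n : ℕ} {K : Type} [Field K] [Algebra ℂ K]
  [Algebra (MvPolynomial (Fin n) ℂ) K] [IsFractionRing (MvPolynomial (Fin n) ℂ) K]
  [IsScalarTower ℂ (MvPolynomial (Fin n) ℂ) K]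

theorem jo_aeval (p : MvPolynomial (Fin n) ℂ) :
    MvPolynomial.aeval (fun i => cv K i) p = jo (Fin n) K p := by
  induction p using MvPolynomial.induction_on with
  | C a => rw [MvPolynomial.aeval_C, jo_C]
  | add p q hp hq => rw [map_add, map_add, hp, hq]
  | mul_X p j hp =>
    rw [map_mul, map_mul, hp, MvPolynomial.aeval_X]
    rfl

theorem cv_indep : AlgebraicIndependent ℂ (fun i : Fin n => cv K i) := by
  rw [algebraicIndependent_iff]
  intro p hp
  by_contra h
  rw [jo_aeval] at hp
  exact jo_ne h hp

theorem cv_alg (f : K) : IsAlgebraic (Algebra.adjoin ℂ (Set.range fun i : Fin n => cv K i)) f := by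
  obtain ⟨a, b, hb, rfl⟩ := exists_frac (MvPolynomial (Fin n) ℂ) f
  rw [← jo_apply, ← jo_apply]
  set B := Algebra.adjoin ℂ (Set.range fun i : Fin n => cv K i) with hB
  have hmem : ∀ q : MvPolynomial (Fin n) ℂ, jo (Fin n) K q ∈ B := by
    intro q
    rw [hB, Algebra.adjoin_range_eq_range_aeval]
    exact ⟨q, jo_aeval q⟩
  have hb0 : jo (Fin n) K b ≠ 0 := jo_ne hb
  refine ⟨Polynomial.C ⟨_, hmem b⟩ * Polynomial.X - Polynomial.C ⟨_, hmem a⟩, ?_, ?_⟩
  · intro h
    have h1 := congrArg (fun p => Polynomial.coeff p 1) h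
    simp only [Polynomial.coeff_sub, Polynomial.coeff_C_mul, Polynomial.coeff_X_one, mul_one,
      Polynomial.coeff_C_succ, sub_zero, Polynomial.coeff_zero] at h1
    exact hb0 (congrArg Subtype.val h1)
  · rw [map_sub, map_mul, Polynomial.aeval_C, Polynomial.aeval_X, Polynomial.aeval_C]
    change jo (Fin n) K b * (jo (Fin n) K a / jo (Fin n) K b) - jo (Fin n) K a = 0
    rw [mul_div_cancel₀ _ hb0, sub_self]

theorem trdeg_n : Algebra.trdeg ℂ K = (n : Cardinal) := by
  have h1 : IsTranscendenceBasis ℂ (fun i : Fin n => cv K i) := by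
    rw [cv_indep.isTranscendenceBasis_iff_isAlgebraic]
    exact ⟨cv_alg⟩
  rw [← h1.cardinalMk_eq_trdeg]
  simp

theorem ess_ft (n : ℕ) {K : Type} [Field K] [Algebra ℂ K]
    [Algebra (MvPolynomial (Fin n) ℂ) K] [IsFractionRing (MvPolynomial (Fin n) ℂ) K]
    [IsScalarTower ℂ (MvPolynomial (Fin n) ℂ) K] : Algebra.EssFiniteType ℂ K :=
  have : Algebra.EssFiniteType (MvPolynomial (Fin n) ℂ) K :=
    Algebra.EssFiniteType.of_isLocalization K (nonZeroDivisors (MvPolynomial (Fin n) ℂ))
  Algebra.EssFiniteType.comp ℂ (MvPolynomial (Fin n) ℂ) K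

variable {d : Wd n} {hd : Dual d} {hc : Cop d}

theorem res_mul {x y : LS K} {a b : K} (hx : (oL K).Pos (x - HahnSeries.C a))
    (hy : (oL K).Pos (y - HahnSeries.C b)) : (oL K).Pos (x * y - HahnSeries.C (a * b)) := by
  have hC : ∀ a : K, (oL K).Reg (HahnSeries.C a : LS K) := by
    intro a
    rw [reg_iff]
    intro m hm
    rw [HahnSeries.C_apply, coeff_single, if_neg (by omega)]
  have hyr : (oL K).Reg y := by
    have : y = (y - HahnSeries.C b) + HahnSeries.C b := by ring
    rw [this]
    exact (oL K).reg_add (reg_of_pos hy) (hC b)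
  have h1 : x * y - HahnSeries.C (a * b) = y * (x - HahnSeries.C a) +
      HahnSeries.C a * (y - HahnSeries.C b) := by
    rw [map_mul]; ring
  rw [h1]
  exact (oL K).pos_add ((oL K).pos_mul_left hyr hx) ((oL K).pos_mul_left (hC a) hy)

theorem vd_loc (hd : Dual d) (hc : Cop d) : ∃ S : Subalgebra ℂ K, S.FG ∧
    IsLocalRing' S (vd (K := K) hd hc) := by
  classical
  have hess := ess_ft n (K := K)
  obtain ⟨f, P, k0, hP, hLD, ho⟩ := exists_family (K := K) hd hc
  have hpsi0 : ∀ k, d.psi K (f k) ≠ 0 := fun k => d.psi_ne K (hLD k).1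
  let N : Matrix (Fin n) (Fin n) (LS K) := Matrix.of fun j k =>
    ed (tor K j) (d.psi K (f k)) / d.psi K (f k)
  have hN : UC (oL K) N.det P.det := det_uc (oL K) N P (fun j k => (hLD k).2 j) hP
  have hind : AlgebraicIndependent ℂ f := by
    rw [algebraicIndependent_iff]
    intro p hp
    by_contra h
    refine jac_inj (fun k => d.psi K (f k)) (fun j => ed (tor K j)) ?_ h ?_
    · have h1 : (Matrix.of fun j i => ed (tor K j) (d.psi K (f i))) =
          Matrix.of fun j i => d.psi K (f i) * N j i := by
        refine Matrix.ext fun j i => ?_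
        change ed (tor K j) (d.psi K (f i)) = d.psi K (f i) *
          (ed (tor K j) (d.psi K (f i)) / d.psi K (f i))
        rw [mul_div_cancel₀ _ (hpsi0 i)]
      rw [h1, Matrix.det_mul_row]
      exact mul_ne_zero (Finset.prod_ne_zero_iff.2 fun k _ => hpsi0 k) hN.ne
    · have h1 : ∀ q : MvPolynomial (Fin n) ℂ, MvPolynomial.aeval (fun k => d.psi K (f k)) q =
          d.psi K (MvPolynomial.aeval f q) := by
        intro q
        induction q using MvPolynomial.induction_on with
        | C a => rw [MvPolynomial.aeval_C, MvPolynomial.aeval_C, d.psi_alg K]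
        | add p q hp hq => rw [map_add, map_add, map_add, hp, hq]
        | mul_X p j hp =>
          rw [map_mul, map_mul, map_mul, hp, MvPolynomial.aeval_X, MvPolynomial.aeval_X]
      rw [h1, hp, map_zero]
  have halg : ∀ x : K, IsAlgebraic (Algebra.adjoin ℂ (Set.range f)) x := by
    have h1 : IsTranscendenceBasis ℂ f := by
      refine hind.isTranscendenceBasis_of_trdeg_le_of_finite ?_
      rw [trdeg_n (n := n)]
      simp
    exact h1.isAlgebraic.1
  -- the leading coefficients
  let r : Fin n → K := fun k => (d.psi K (f k)).coeff (d.psi K (f k)).order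
  have hr0 : ∀ k, r k ≠ 0 := fun k h => hpsi0 k (coeff_order_eq_zero.1 h)
  have hrt : ∀ j k, tor K j (r k) = algebraMap ℂ K (P j k) * r k := by
    intro j k
    set x := d.psi K (f k) with hx
    have h1 := (hLD k).2 j
    rw [← hx] at h1
    have h2 : ed (tor K j) x / x - algebraMap ℂ (LS K) (P j k) =
        (ed (tor K j) x - algebraMap ℂ (LS K) (P j k) * x) / x := by
      have h9 : x ≠ 0 := hpsi0 k
      field_simp
    rw [h2] at h1
    have h3 : (ed (tor K j) x - algebraMap ℂ (LS K) (P j k) * x).coeff x.order = 0 := by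
      set w := ed (tor K j) x - algebraMap ℂ (LS K) (P j k) * x with hw
      by_cases hw0 : w = 0
      · rw [hw0, coeff_zero]
      rcases h1 with h1 | h1
      · exact absurd (div_eq_zero_iff.1 h1) (by
          rintro (h | h)
          · exact hw0 h
          · exact hpsi0 k h)
      · rw [(oL K).ord_div hw0 (hpsi0 k)] at h1
        apply coeff_eq_zero_of_lt_order
        change 0 < w.order - x.order at h1
        omega
    rw [coeff_sub, ed_coeff, ls_alg, HahnSeries.C_mul_eq_smul, coeff_smul, smul_eq_mul] at h3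
    exact sub_eq_zero.1 h3
  have hrinj : ∀ q : MvPolynomial (Fin n) ℂ, q ≠ 0 → MvPolynomial.aeval r q ≠ 0 := by
    intro q hq
    refine jac_inj r (fun j => tor K j) ?_ hq
    have h1 : (Matrix.of fun j i => tor K j (r i)) =
        Matrix.of fun j i => r i * (algebraMap ℂ K).mapMatrix P j i := by
      refine Matrix.ext fun j i => ?_
      rw [Matrix.of_apply, Matrix.of_apply, hrt, RingHom.mapMatrix_apply, Matrix.map_apply, mul_comm]
    rw [h1, Matrix.det_mul_row, ← RingHom.map_det]
    exact mul_ne_zero (Finset.prod_ne_zero_iff.2 fun k _ => hr0 k) (alg_ne hP)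
  let r' : Fin n → K := fun k => (d.psi K (f k)).coeff 0
  have hr' : ∀ k, r' k = if k = k0 then 0 else r k := by
    intro k
    have h1 := ho k
    split_ifs with h
    · rw [if_pos h] at h1
      exact coeff_eq_zero_of_lt_order (by rw [h1]; norm_num)
    · rw [if_neg h] at h1
      change _ = (d.psi K (f k)).coeff (d.psi K (f k)).order
      rw [h1]
  have hres : ∀ q : MvPolynomial (Fin n) ℂ, (oL K).Pos (d.psi K (MvPolynomial.aeval f q) -
      HahnSeries.C (MvPolynomial.aeval r' q)) := by
    intro q
    induction q using MvPolynomial.induction_on with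
    | C a =>
      rw [MvPolynomial.aeval_C, MvPolynomial.aeval_C, d.psi_alg K, ls_alg, sub_self]
      exact pos_zero
    | add p q hp hq =>
      have : d.psi K (MvPolynomial.aeval f (p + q)) - HahnSeries.C (MvPolynomial.aeval r' (p + q)) =
          (d.psi K (MvPolynomial.aeval f p) - HahnSeries.C (MvPolynomial.aeval r' p)) +
          (d.psi K (MvPolynomial.aeval f q) - HahnSeries.C (MvPolynomial.aeval r' q)) := by
        simp only [map_add]
        ring
      rw [this]
      exact (oL K).pos_add hp hq
    | mul_X p j hp =>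
      rw [map_mul, map_mul, map_mul, MvPolynomial.aeval_X, MvPolynomial.aeval_X]
      refine res_mul hp ?_
      rw [pos_iff']
      intro m hm
      rw [coeff_sub, HahnSeries.C_apply, coeff_single]
      by_cases h : m = 0
      · rw [if_pos h, h, sub_self]
      · rw [if_neg h, sub_zero]
        apply coeff_eq_zero_of_lt_order
        rw [ho]
        split_ifs <;> omega
  refine loc_of f hind halg (vd hd hc) (fun k => ?_) k0 ?_ fun q hq => ?_
  · right
    rw [vd_ord]
    have h1 := ho k
    change 0 ≤ (d.psi K (f k)).order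
    rw [h1]
    split_ifs <;> norm_num
  · right
    rw [vd_ord]
    have h1 := ho k0
    change 0 < (d.psi K (f k0)).order
    rw [h1, if_pos rfl]
    norm_num
  · have h1 := vd_pos.1 hq
    have h2 := pos_sub h1 (hres q)
    have h3 : d.psi K (MvPolynomial.aeval f q) - (d.psi K (MvPolynomial.aeval f q) -
      HahnSeries.C (MvPolynomial.aeval r' q)) = HahnSeries.C (MvPolynomial.aeval r' q) := by ring
    rw [h3] at h2
    have h4 : MvPolynomial.aeval r' q = 0 := by
      have h5 := (pos_iff'.1 h2) 0 le_rfl
      rwa [HahnSeries.C_apply, coeff_single, if_pos rfl] at h5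
    have h5 := X_dvd_sub k0 q
    set q0 := MvPolynomial.aeval
      (fun i => if i = k0 then (0 : MvPolynomial (Fin n) ℂ) else MvPolynomial.X i) q with hq0
    have h6 : MvPolynomial.aeval r q0 = MvPolynomial.aeval r' q := by
      have h7 : ∀ q : MvPolynomial (Fin n) ℂ, MvPolynomial.aeval r (MvPolynomial.aeval
          (fun i => if i = k0 then (0 : MvPolynomial (Fin n) ℂ) else MvPolynomial.X i) q) =
          MvPolynomial.aeval r' q := by
        intro q
        induction q using MvPolynomial.induction_on with
        | C a => simp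
        | add p q hp hq => rw [map_add, map_add, map_add, hp, hq]
        | mul_X p j hp =>
          rw [map_mul, map_mul, map_mul, hp, MvPolynomial.aeval_X, MvPolynomial.aeval_X, hr']
          congr 1
          split_ifs
          · exact map_zero _
          · exact MvPolynomial.aeval_X _ _
      exact h7 q
    have h8 : q0 = 0 := by
      by_contra h
      exact hrinj q0 h (by rw [h6, h4])
    rwa [h8, sub_zero] at h5

end Q47.QM
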