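import Pool.Agent.Q47.QM.Eig

/-!
# The lower bound for canonical orders along valuations with an inertia group
-/

set_option autoImplicit false
set_option linter.unusedSectionVars false

namespace Q47.QM

open Pool.Agent.H436R3.Fol Pool.Agent.W497.Mld Pool.Agent.TH165.ACC

variable {n : ℕ}

theorem wc_pow (W : (Fin n → ℤ) →+ (Fin n → ℤ)) (s : ℕ) (x : Fin n → ℤ) :
    ((wc W) ^ s) (cst x) = cst (W^[s] x) := by
  induction s with
  | zero => rfl
  | succ s ih => rw [pow_succ', Module.End.mul_apply, ih, wc_cst, Function.iterate_succ_apply']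

theorem cst_expand (η : Fin n → ℂ) : η = ∑ i, η i • cst (Pi.single i 1 : Fin n → ℤ) := by
  funext j
  rw [Finset.sum_apply, Finset.sum_eq_single j]
  · simp [cst]
  · intro i _ hi
    simp [cst, hi.symm]
  · intro h; exact absurd (Finset.mem_univ _) h

theorem EB.col {W : (Fin n → ℤ) →+ (Fin n → ℤ)} {θ : ℂ} {r : ℕ} {k : Fin n → ℕ}
    {y : Fin n → Fin n → ℂ} (h : EB W θ r k y) (j : Fin n) :
    wc W (fun i => (Matrix.of y)⁻¹ i j) = θ ^ k j • fun i => (Matrix.of y)⁻¹ i j := by
  classical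
  have hdu : IsUnit (Matrix.of y).det := isUnit_iff_ne_zero.2 h.det
  have key : ∀ (η : Fin n → ℂ) (j' : Fin n), ∑ i, (wc W η) i * y j' i =
      θ ^ k j' * ∑ i, η i * y j' i := by
    intro η j'
    rw [wc]
    simp only [Fintype.linearCombination_apply, Finset.sum_apply, Pi.smul_apply, smul_eq_mul,
      Finset.sum_mul, Finset.mul_sum]
    rw [Finset.sum_comm]
    refine Finset.sum_congr rfl fun i _ => ?_
    have h1 := h.eig j' (Pi.single i 1)
    rw [dtc_single, dtc] at h1
    have h2 : ∑ l, η i * cst (W (Pi.single i 1)) l * y j' l =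
        η i * ∑ l, ((W (Pi.single i 1) l : ℤ) : ℂ) * y j' l := by
      rw [Finset.mul_sum]
      exact Finset.sum_congr rfl fun l _ => by rw [cst]; ring
    rw [h2, h1]
    ring
  have hinj : Function.Injective (Matrix.of y).mulVec :=
    Matrix.mulVec_injective_of_isUnit ((Matrix.isUnit_iff_isUnit_det _).2 hdu)
  apply hinj
  funext j'
  have h1 := key (fun i => (Matrix.of y)⁻¹ i j) j'
  have h2 : ∑ i, (Matrix.of y)⁻¹ i j * y j' i = if j' = j then 1 else 0 := by
    have h3 := congrFun (congrFun (Matrix.mul_nonsing_inv _ hdu) j') j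
    rw [Matrix.mul_apply, Matrix.one_apply] at h3
    rw [← h3]
    exact Finset.sum_congr rfl fun i _ => by rw [Matrix.of_apply]; ring
  rw [h2] at h1
  have e1 : (Matrix.of y).mulVec (wc W fun i => (Matrix.of y)⁻¹ i j) j' =
      ∑ i, (wc W fun i => (Matrix.of y)⁻¹ i j) i * y j' i := by
    rw [Matrix.mulVec, dotProduct]
    exact Finset.sum_congr rfl fun i _ => by rw [Matrix.of_apply]; ring
  have e2 : (Matrix.of y).mulVec (θ ^ k j • fun i => (Matrix.of y)⁻¹ i j) j' =
      θ ^ k j * ∑ i, (Matrix.of y)⁻¹ i j * y j' i := by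
    rw [Matrix.mulVec, dotProduct, Finset.mul_sum]
    exact Finset.sum_congr rfl fun i _ => by
      rw [Matrix.of_apply, Pi.smul_apply, smul_eq_mul]; ring
  rw [e1, e2, h1, h2]
  by_cases hj : j' = j
  · rw [hj]
  · rw [if_neg hj, mul_zero, mul_zero]

variable {K : Type} [Field K] [Algebra ℂ K]
  [Algebra (MvPolynomial (Fin n) ℂ) K] [IsFractionRing (MvPolynomial (Fin n) ℂ) K]
  [IsScalarTower ℂ (MvPolynomial (Fin n) ℂ) K]

theorem lower {dd : ℕ} {F : Foliation K dd} (e : Fin dd ≃ Fin n)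
    (hF : ∀ i, F.D i = tor K (e i)) {v : DVal K} {c : ℤ} (hc : IsCanOrd F v c)
    {σ : K ≃ₐ[ℂ] K} {W : (Fin n → ℤ) →+ (Fin n → ℤ)} {l : (Fin n → ℤ) → ℂ} {θ : ℂ} {r : ℕ}
    (hI : InI v σ) (hr : 0 < r) (hσ : σ ^ r = 1) (hθ : IsPrimitiveRoot θ r)
    (hch : Ch v σ θ) (hmo : Mo σ W l) {k : Fin n → ℕ} {y : Fin n → Fin n → ℂ}
    (h : EB W θ r k y) : ∑ j, (k j : ℤ) ≤ c + 1 := by
  classical
  have hθ0 : θ ≠ 0 := hθ.ne_zero hr.ne'
  have hdu : IsUnit (Matrix.of y).det := isUnit_iff_ne_zero.2 h.det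
  let P : ℕ → (Fin n → ℂ) → Prop := fun q ν => ∃ f : K, (f = 0 ∨ (q : ℤ) ≤ v.ord f) ∧
    ∀ i, v.Pos (tor K i f - algebraMap ℂ K (ν i))
  have hP0 : ∀ q, P q 0 := fun q => ⟨0, Or.inl rfl, fun i => by
    rw [map_zero, Pi.zero_apply, map_zero, sub_zero]; exact pos_zero⟩
  have hPadd : ∀ q ν ν', P q ν → P q ν' → P q (ν + ν') := by
    rintro q ν ν' ⟨f, hf, hfi⟩ ⟨f', hf', hfi'⟩
    refine ⟨f + f', ?_, fun i => ?_⟩
    · by_cases h0 : f + f' = 0
      · exact Or.inl h0
      right
      rcases hf with rfl | hf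
      · rw [zero_add] at h0 ⊢
        exact hf'.resolve_left h0
      rcases hf' with rfl | hf'
      · rw [add_zero]
        exact hf
      by_cases h1 : f = 0
      · rw [h1, zero_add]; exact hf'
      by_cases h2 : f' = 0
      · rw [h2, add_zero]; exact hf
      exact (le_min hf hf').trans (v.map_add _ _ h1 h2 h0)
    · have h1 : tor K i (f + f') - algebraMap ℂ K ((ν + ν') i) =
        (tor K i f - algebraMap ℂ K (ν i)) + (tor K i f' - algebraMap ℂ K (ν' i)) := by
        rw [map_add, Pi.add_apply, RingHom.map_add]; ring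
      rw [h1]
      exact v.pos_add (hfi i) (hfi' i)
  have hPsmul : ∀ q ν (a : ℂ), P q ν → P q (a • ν) := by
    rintro q ν a ⟨f, hf, hfi⟩
    refine ⟨algebraMap ℂ K a * f, ?_, fun i => ?_⟩
    · by_cases h0 : algebraMap ℂ K a * f = 0
      · exact Or.inl h0
      right
      have ha : a ≠ 0 := by
        rintro rfl
        rw [map_zero, zero_mul] at h0
        exact h0 rfl
      have hf0 : f ≠ 0 := right_ne_zero_of_mul h0
      rw [v.map_mul _ _ (alg_ne ha) hf0, v.const _ ha, zero_add]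
      exact hf.resolve_left hf0
    · have h1 : tor K i (algebraMap ℂ K a * f) - algebraMap ℂ K ((a • ν) i) =
        algebraMap ℂ K a * (tor K i f - algebraMap ℂ K (ν i)) := by
        rw [Derivation.leibniz, Derivation.map_algebraMap, smul_zero, add_zero, smul_eq_mul,
          Pi.smul_apply, smul_eq_mul, RingHom.map_mul]
        ring
      rw [h1]
      exact v.pos_mul_left (v.reg_const _) (hfi i)
  have hPsum : ∀ q (s : Finset (Fin n)) (g : Fin n → Fin n → ℂ), (∀ i, P q (g i)) →
      P q (∑ i ∈ s, g i) := by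
    intro q s g hg
    induction s using Finset.induction_on with
    | empty => exact hP0 q
    | insert a s ha ih => rw [Finset.sum_insert ha]; exact hPadd _ _ _ (hg a) ih
  have hPnu : ∀ q, q < r → ∀ m, P q (nu θ W r q (W m - m)) := by
    intro q hq m
    by_cases h0 : nu θ W r q (W m - m) = 0
    · rw [h0]; exact hP0 q
    obtain ⟨z, hz⟩ := uc_sub hch hmo m
    obtain ⟨f, -, hf, hfi⟩ := eig_fun hI hr hσ hθ hch hmo hz hq h0
    exact ⟨f, Or.inr hf, hfi⟩
  have hPY : ∀ j, k j ≠ 0 → P (k j) fun i => (Matrix.of y)⁻¹ i j := by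
    intro j hj
    set Y : Fin n → ℂ := fun i => (Matrix.of y)⁻¹ i j with hY
    have hYe := h.col j
    rw [← hY] at hYe
    have hθk : θ ^ k j - 1 ≠ 0 := sub_ne_zero.2 (hθ.pow_ne_one_of_pos_of_lt hj (h.lt j))
    let L : (Fin n → ℂ) →ₗ[ℂ] (Fin n → ℂ) :=
      ∑ s ∈ Finset.range r, (θ⁻¹) ^ (k j * s) • (wc W) ^ s
    have hL : ∀ x, L (cst x) = nu θ W r (k j) x := by
      intro x
      simp only [L]
      rw [LinearMap.sum_apply, nu]
      exact Finset.sum_congr rfl fun s _ => by rw [LinearMap.smul_apply, wc_pow]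
    have hLY : L Y = (r : ℂ) • Y := by
      have h1 : ∀ s : ℕ, ((wc W) ^ s) Y = (θ ^ (k j * s)) • Y := by
        intro s
        induction s with
        | zero => rw [pow_zero, mul_zero, pow_zero, one_smul]; rfl
        | succ s ih =>
          rw [pow_succ', Module.End.mul_apply, ih, map_smul, hYe, smul_smul, ← pow_add,
            mul_add, mul_one]
      simp only [L]
      rw [LinearMap.sum_apply]
      have h2 : ∀ s ∈ Finset.range r, ((θ⁻¹) ^ (k j * s) • (wc W) ^ s) Y = Y := by
        intro s _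
        rw [LinearMap.smul_apply, h1, smul_smul, ← mul_pow, inv_mul_cancel₀ hθ0, one_pow, one_smul]
      rw [Finset.sum_congr rfl h2, Finset.sum_const, Finset.card_range]
      exact (Nat.cast_smul_eq_nsmul ℂ r Y).symm
    have h2 : ∑ i, Y i • nu θ W r (k j) (W (Pi.single i 1) - Pi.single i 1) =
        ((θ ^ k j - 1) * r) • Y := by
      have h3 : ∀ i : Fin n, cst (W (Pi.single i 1) - Pi.single i 1) =
          wc W (cst (Pi.single i 1)) - cst (Pi.single i 1) := by
        intro i
        rw [wc_cst]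
        funext l
        simp [cst]
      have h4 : ∑ i, Y i • cst (W (Pi.single i 1) - Pi.single i 1) = wc W Y - Y := by
        conv_rhs => rw [cst_expand Y]
        rw [map_sum, ← Finset.sum_sub_distrib]
        refine Finset.sum_congr rfl fun i _ => ?_
        rw [h3, map_smul, smul_sub]
      have h5 : ∑ i, Y i • nu θ W r (k j) (W (Pi.single i 1) - Pi.single i 1) =
          L (∑ i, Y i • cst (W (Pi.single i 1) - Pi.single i 1)) := by
        rw [map_sum]
        exact Finset.sum_congr rfl fun i _ => by rw [map_smul, hL]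
      rw [h5, h4, hYe, map_sub, map_smul, hLY, mul_smul, sub_smul, one_smul]
    have hr' : (r : ℂ) ≠ 0 := by exact_mod_cast hr.ne'
    have h6 : Y = ((θ ^ k j - 1) * r)⁻¹ • ∑ i, Y i •
        nu θ W r (k j) (W (Pi.single i 1) - Pi.single i 1) := by
      rw [h2, smul_smul, inv_mul_cancel₀ (mul_ne_zero hθk hr'), one_smul]
    rw [h6]
    exact hPsmul _ _ _ (hPsum _ _ _ fun i => hPsmul _ _ _ (hPnu _ (h.lt j) _))
  let p := Fintype.card {j // k j ≠ 0}
  let ε : Fin p ≃ {j // k j ≠ 0} := (Fintype.equivFin _).symm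
  choose f hf hfi using fun i : Fin p => hPY (ε i).1 (ε i).2
  have hli : LinearIndependent ℂ (fun (j i : Fin n) => (Matrix.of y)⁻¹ i j) := by
    have h1 : IsUnit ((Matrix.of y)⁻¹).transpose := by
      rw [Matrix.isUnit_transpose, Matrix.isUnit_iff_isUnit_det, Matrix.isUnit_nonsing_inv_det_iff]
      exact hdu
    exact Matrix.linearIndependent_rows_iff_isUnit.2 h1
  have hli' : LinearIndependent ℂ (fun (a : Fin p) (i : Fin n) => (Matrix.of y)⁻¹ i (ε a).1) :=
    hli.comp (fun a => (ε a).1) (Subtype.val_injective.comp ε.injective)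
  have hf0 : ∀ a, f a ≠ 0 := by
    intro a h0
    apply hli'.ne_zero a
    funext i
    have h3 := hfi a i
    rw [h0, map_zero, zero_sub] at h3
    by_contra hne
    have h4 := pos_neg h3
    rw [neg_neg] at h4
    exact not_pos (alg_ne hne) (v.const _ hne) h4
  have h1 := jac_bound e hF hc f hf0 _ hli' hfi
  have h2 : ∑ j, (k j : ℤ) = ∑ a, (k (ε a).1 : ℤ) := by
    rw [ε.sum_comp fun j : {j // k j ≠ 0} => (k j.1 : ℤ),
      ← Finset.sum_subtype (Finset.univ.filter fun j => k j ≠ 0) (by simp)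
        (fun j => (k j : ℤ)), Finset.sum_filter]
    refine Finset.sum_congr rfl fun j _ => ?_
    split_ifs with hj
    · rfl
    · push Not at hj
      rw [hj, Nat.cast_zero]
  rw [h2]
  exact (Finset.sum_le_sum fun a _ => (hf a).resolve_left (hf0 a)).trans h1

end Q47.QM
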