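import Mathlib

/-!
# Minkowski's theorem on the orders of integral matrices
-/

set_option autoImplicit false

namespace Q47.QM

theorem binom {A : Type} [Ring A] (X : A) (s : ℕ) : ∃ Z : A, (1 + X) ^ s = 1 + s • X + X * X * Z := by
  induction s with
  | zero => exact ⟨0, by simp⟩
  | succ s ih =>
    obtain ⟨Z, hZ⟩ := ih
    refine ⟨s • (1 : A) + Z + X * Z, ?_⟩
    rw [pow_succ', hZ]
    have h1 : X * (s • X) = X * X * (s • (1 : A)) := by
      rw [mul_smul_comm, mul_smul_comm, mul_one]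
    have h2 : (1 + X) * (1 + s • X + X * X * Z) =
        1 + (s • X + X) + (X * (s • X) + X * X * Z + X * (X * X * Z)) := by
      simp only [add_mul, mul_add, one_mul, mul_one]
      abel
    rw [h2, h1, succ_nsmul]
    have h3 : X * (X * X * Z) = X * X * (X * Z) := by noncomm_ring
    rw [h3, ← mul_add, ← mul_add]

variable {n : ℕ}

theorem pow_ne (s : ℕ) (hs : 0 < s) : ∀ (k : ℕ), 0 < k → ∀ Y : Matrix (Fin n) (Fin n) ℤ,
    (¬ ∃ Z : Matrix (Fin n) (Fin n) ℤ, Y = (3 : ℤ) • Z) → (1 + (3 : ℤ) ^ k • Y) ^ s ≠ 1 := by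
  induction s using Nat.strong_induction_on with
  | _ s ih =>
  intro k hk Y hY h1
  by_cases h3 : 3 ∣ s
  · obtain ⟨t, rfl⟩ := h3
    have e1 : (1 + (3 : ℤ) ^ k • Y) ^ 3 = 1 + (3 : ℤ) ^ (k + 1) • (Y + (3 : ℤ) •
        ((3 : ℤ) ^ (k - 1) • (Y * Y) + (3 : ℤ) ^ (2 * (k - 1)) • (Y * Y * Y))) := by
      obtain ⟨q, rfl⟩ : ∃ q, k = q + 1 := ⟨k - 1, by omega⟩
      have h4 : ∀ X : Matrix (Fin n) (Fin n) ℤ, (1 + X) ^ 3 =
          1 + (3 : ℤ) • X + (3 : ℤ) • (X * X) + X * X * X := by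
        intro X
        noncomm_ring
      rw [h4, Nat.add_sub_cancel]
      simp only [smul_mul_assoc, mul_smul_comm, smul_smul, smul_add]
      rw [add_assoc, add_assoc]
      congr 1
      congr 1
      · congr 1
        ring
      · congr 1
        · congr 1
          ring
        · congr 1
          ring
    rw [pow_mul, e1] at h1
    refine ih t (by omega) (by omega) (k + 1) (by omega) _ ?_ h1
    rintro ⟨Z, hZ⟩
    apply hY
    refine ⟨Z - ((3 : ℤ) ^ (k - 1) • (Y * Y) + (3 : ℤ) ^ (2 * (k - 1)) • (Y * Y * Y)), ?_⟩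
    rw [smul_sub, ← hZ, add_sub_cancel_right]
  · obtain ⟨Z, hZ⟩ := binom ((3 : ℤ) ^ k • Y) s
    rw [h1] at hZ
    have h4 : (3 : ℤ) ^ k • ((s : ℤ) • Y + (3 : ℤ) ^ k • (Y * Y * Z)) = 0 := by
      have h5 : s • ((3 : ℤ) ^ k • Y) + (3 : ℤ) ^ k • Y * ((3 : ℤ) ^ k • Y) * Z = 0 := by
        have h6 : (1 : Matrix (Fin n) (Fin n) ℤ) = 1 + (s • ((3 : ℤ) ^ k • Y) +
          (3 : ℤ) ^ k • Y * ((3 : ℤ) ^ k • Y) * Z) := by
          rw [← add_assoc]; exact hZ
        exact (left_eq_add.1 h6)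
      rw [← h5]
      simp only [smul_mul_assoc, mul_smul_comm, smul_smul, smul_add]
      congr 1
      rw [← natCast_zsmul, smul_smul, mul_comm]
    have h5 : (s : ℤ) • Y + (3 : ℤ) ^ k • (Y * Y * Z) = 0 :=
      (smul_eq_zero.1 h4).resolve_left (pow_ne_zero _ (by norm_num))
    have h6 : IsCoprime (3 : ℤ) (s : ℤ) := by
      rw [Int.prime_three.coprime_iff_not_dvd]
      intro h7
      exact h3 (by exact_mod_cast h7)
    obtain ⟨a, b, hab⟩ := h6
    obtain ⟨q, rfl⟩ : ∃ q, k = q + 1 := ⟨k - 1, by omega⟩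
    apply hY
    refine ⟨a • Y - b • ((3 : ℤ) ^ q • (Y * Y * Z)), ?_⟩
    have h7 : Y = (a * 3 + b * s) • Y := by rw [hab, one_smul]
    have h8 : (s : ℤ) • Y = -((3 : ℤ) ^ (q + 1) • (Y * Y * Z)) := eq_neg_of_add_eq_zero_left h5
    conv_lhs => rw [h7, add_smul, mul_smul b, h8]
    rw [smul_sub, smul_neg, sub_eq_add_neg]
    congr 1
    · rw [smul_smul, mul_comm]
    · rw [smul_smul, smul_smul, smul_smul]
      congr 2
      ring

theorem exists_exact (a : ℕ) : ∀ (X : Matrix (Fin n) (Fin n) ℤ) (i j : Fin n), X i j ≠ 0 →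
    (X i j).natAbs ≤ a → ∃ (k : ℕ) (Y : Matrix (Fin n) (Fin n) ℤ), X = (3 : ℤ) ^ k • Y ∧
      ¬ ∃ Z : Matrix (Fin n) (Fin n) ℤ, Y = (3 : ℤ) • Z := by
  induction a with
  | zero =>
    intro X i j h0 ha
    exact absurd (Int.natAbs_eq_zero.1 (by omega)) h0
  | succ a ih =>
    intro X i j h0 ha
    by_cases h : ∃ Z : Matrix (Fin n) (Fin n) ℤ, X = (3 : ℤ) • Z
    · obtain ⟨Z, rfl⟩ := h
      rw [Matrix.smul_apply, smul_eq_mul] at h0 ha
      have hZ : Z i j ≠ 0 := right_ne_zero_of_mul h0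
      obtain ⟨k, Y, hY, hY'⟩ := ih Z i j hZ (by omega)
      refine ⟨k + 1, Y, ?_, hY'⟩
      rw [hY, smul_smul, pow_succ']
    · exact ⟨0, X, by rw [pow_zero, one_smul], h⟩

theorem tors {M : Matrix (Fin n) (Fin n) ℤ} {Z : Matrix (Fin n) (Fin n) ℤ}
    (h3 : M = 1 + (3 : ℤ) • Z) {r : ℕ} (hr : 0 < r) (hM : M ^ r = 1) : M = 1 := by
  by_contra hne
  have hZ : Z ≠ 0 := by
    rintro rfl
    exact hne (by rw [h3, smul_zero, add_zero])
  obtain ⟨i, j, hij⟩ : ∃ i j, Z i j ≠ 0 := by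
    by_contra h
    push Not at h
    exact hZ (Matrix.ext h)
  obtain ⟨k, Y, rfl, hY⟩ := exists_exact _ Z i j hij le_rfl
  refine pow_ne r hr (k + 1) (by omega) Y hY ?_
  have h4 : M = 1 + (3 : ℤ) ^ (k + 1) • Y := by rw [h3, smul_smul, pow_succ']
  rw [← h4]
  exact hM

/-- the orders of the automorphisms of finite order divide a number which only depends on the
rank -/
theorem exists_R (n : ℕ) : ∃ R : ℕ, 0 < R ∧ ∀ (W : (Fin n → ℤ) →+ (Fin n → ℤ)) (r : ℕ), 0 < r →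
    (∀ m, W^[r] m = m) → ∀ m, W^[R] m = m := by
  classical
  refine ⟨Nat.card (Matrix (Fin n) (Fin n) (ZMod 3))ˣ, Nat.card_pos, ?_⟩
  set R := Nat.card (Matrix (Fin n) (Fin n) (ZMod 3))ˣ with hR
  intro W r hr hW
  set L : Module.End ℤ (Fin n → ℤ) := W.toIntLinearMap with hL
  set M : Matrix (Fin n) (Fin n) ℤ := LinearMap.toMatrixAlgEquiv' L with hM
  have hLr : L ^ r = 1 := by
    refine LinearMap.ext fun m => ?_
    rw [Module.End.pow_apply]
    exact hW m
  have hMr : M ^ r = 1 := by rw [hM, ← map_pow, hLr, map_one]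
  let red := (Int.castRingHom (ZMod 3)).mapMatrix (m := Fin n)
  have h1 : (red M) ^ r = 1 := by rw [← map_pow, hMr, map_one]
  have h2 : (red M) ^ R = 1 := by
    have h3 := pow_card_eq_one' (x := Units.ofPowEqOne (red M) r h1 hr.ne')
    have h4 := congrArg Units.val h3
    rw [Units.val_pow_eq_pow_val, Units.val_ofPowEqOne, Units.val_one] at h4
    exact h4
  have h3 : ∃ Z : Matrix (Fin n) (Fin n) ℤ, M ^ R = 1 + (3 : ℤ) • Z := by
    rw [← map_pow] at h2
    have h4 : ∀ i j, ∃ z : ℤ, (M ^ R - 1) i j = 3 * z := by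
      intro i j
      have h5 := congrFun (congrFun h2 i) j
      have h6 : red (M ^ R) i j = (((M ^ R) i j : ℤ) : ZMod 3) := rfl
      rw [h6] at h5
      have h7 : (((M ^ R - 1) i j : ℤ) : ZMod 3) = 0 := by
        rw [Matrix.sub_apply, Int.cast_sub, h5, Matrix.one_apply, Matrix.one_apply]
        split_ifs <;> simp
      rw [ZMod.intCast_zmod_eq_zero_iff_dvd] at h7
      obtain ⟨z, hz⟩ := h7
      exact ⟨z, by rw [hz]; rfl⟩
    choose z hz using h4
    refine ⟨Matrix.of z, ?_⟩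
    have h5 : (3 : ℤ) • Matrix.of z = M ^ R - 1 := by
      refine Matrix.ext fun i j => ?_
      rw [Matrix.smul_apply, hz, Matrix.of_apply, smul_eq_mul]
    rw [h5, add_sub_cancel]
  obtain ⟨Z, hZ⟩ := h3
  have h4 : M ^ R = 1 := tors hZ hr (by rw [← pow_mul, mul_comm, pow_mul, hMr, one_pow])
  have h5 : L ^ R = 1 := by
    apply LinearMap.toMatrixAlgEquiv'.injective
    rw [map_pow, map_one]
    exact h4
  intro m
  have h6 := LinearMap.congr_fun h5 m
  rw [Module.End.pow_apply] at h6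
  exact h6

end Q47.QM
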