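import Pool.Agent.Q47.QM.Ub
import Pool.Agent.Q47.QM.Loc
import Pool.Agent.Q47.QM.Disc
import Pool.Agent.Q47.QM.Low2
import Pool.Agent.Q47.QM.Mink
import Pool.Agent.Q47.QM.Acc

/-!
# The valuations of the construction over the germ
-/

set_option autoImplicit false
set_option linter.unusedSectionVars false

namespace Q47.QM

open Pool.Agent.H436R3.Fol Pool.Agent.H436R3.KT Pool.Agent.W497.Mld Pool.Agent.TH165.ACC

attribute [-instance] HahnSeries.powerSeriesAlgebra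

variable {n : ℕ} {K : Type} [Field K] [Algebra ℂ K]
  [Algebra (MvPolynomial (Fin n) ℂ) K] [IsFractionRing (MvPolynomial (Fin n) ℂ) K]
  [IsScalarTower ℂ (MvPolynomial (Fin n) ℂ) K]

variable {g : ToricGerm n K} {B : EffDiv g.X} {e : LocEq B g.P} {Γ : Set ℝ}
  {Φ : (Fin n → ℤ) → ℝ}

theorem exists_val (hΦ : LDF e Γ Φ) {τ : K ≃ₐ[ℂ] K} {W : (Fin n → ℤ) →+ (Fin n → ℤ)}
    {l : (Fin n → ℤ) → ℂ} (hmo : Mo τ W l) {θ : ℂ} {N : ℕ} {k : Fin n → ℕ}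
    {y : Fin n → Fin n → ℂ} (hN : 0 < N) (hθ : IsPrimitiveRoot θ N) (hEB : EB W θ N k y)
    {U : Fin n → ℤ} (hU : ∀ m, pr (W m) U = pr m U) (hint : g.Inter U) (hn : 0 < n)
    (hlW : ∀ m, W m = m → l m = θ ^ pr m U) :
    ∃ (c : ℕ) (v : DVal K) (b : ℝ), 0 < c ∧ IsOverGerm g.P v ∧ IsLogDisc e v b ∧ InI v τ ∧
      Ch v τ (θ ^ c) ∧ c * b ≤ ∑ j, (k j : ℝ) + Φ U := by
  obtain ⟨c, d, hc0, hUc, hk, hd, hcop, hdU, hzW, hnu, hch⟩ :=
    exists_wd hθ hN hEB hU (hint.ne_zero hn) hmo.1 hmo.add hlW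
  have hz : θ ^ c ≠ 0 := pow_ne_zero _ (hθ.ne_zero hN.ne')
  have hall : ∀ f, d.psi K (τ f) = dl hz (d.psi K f) := fun f =>
    psi_dl hmo hz hdU hzW hnu hch f
  have hc1 : (0 : ℤ) < c := by exact_mod_cast hc0
  have hintU : g.Inter d.U := by
    intro m hm hm0
    have h1 := hint m hm hm0
    rw [hUc, pr_smul_right] at h1
    exact (pos_iff_pos_of_mul_pos h1).1 hc1
  obtain ⟨hov, a, ha⟩ := over_of_inter (g := g) (vd_loc (K := K) hd hcop) (by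
    rw [vd_tv]; exact hintU)
  have hl := (hΦ.disc _ hov _).2 ⟨a, ha, rfl⟩
  rw [vd_tv] at hl
  refine ⟨c, vd hd hcop, _, hc0, hov, hl, vd_InI hz hall, vd_Ch hz hall, ?_⟩
  have h1 := ub g.e g.hT ha
  have h2 : ∑ j, (k j : ℝ) = c * ∑ j, (d.k j : ℝ) := by
    rw [Finset.mul_sum]
    exact Finset.sum_congr rfl fun j _ => by rw [hk j]; push_cast; ring
  have h3 : Φ U = c * Φ d.U := by
    conv_lhs => rw [hUc]
    exact hΦ.smul c hintU.inCone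
  have h4 : (a : ℝ) + 1 ≤ ∑ j, (d.k j : ℝ) := by exact_mod_cast h1
  rw [h2, h3, ← mul_add]
  exact mul_le_mul_of_nonneg_left (by linarith) (Nat.cast_nonneg c)

theorem Ch.pow' {v : DVal K} {σ : K ≃ₐ[ℂ] K} {z : ℂ} (hI : InI v σ) (h : Ch v σ z) (s : ℕ) :
    Ch v (σ ^ s) (z ^ s) := by
  have key : ∀ s : ℕ, InI v (σ ^ s) ∧ Ch v (σ ^ s) (z ^ s) := by
    intro s
    induction s with
    | zero =>
      rw [pow_zero, pow_zero]
      exact ⟨fun f _ => by rw [AlgEquiv.one_apply, sub_self]; exact pos_zero, Ch.one⟩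
    | succ s ih =>
      refine ⟨?_, ?_⟩
      · have h1 : σ ∈ Ig v := mem_Ig.2 hI
        exact mem_Ig.1 (Subgroup.pow_mem _ h1 _)
      · rw [pow_succ', pow_succ']
        exact Ch.mul ih.1 h ih.2
  exact (key s).2

theorem IsPairAut.mul {σ τ : K ≃ₐ[ℂ] K} (h : IsPairAut e σ) (h' : IsPairAut e τ) :
    IsPairAut e (σ * τ) := fun v b => (h v b).trans (h' (tw v σ) b)

theorem IsPairAut.inv {σ : K ≃ₐ[ℂ] K} (h : IsPairAut e σ) : IsPairAut e σ⁻¹ := by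
  intro v b
  have h1 := h (tw v σ⁻¹) b
  rw [tw_tw, inv_mul_cancel, tw_one] at h1
  exact h1.symm

/-- the minimal log discrepancy of the quotient by the finite group `G` -/
def IsQuotMld {B : EffDiv g.X} (e : LocEq B g.P) (G : Subgroup (K ≃ₐ[ℂ] K)) (m : ℝ) : Prop :=
  IsLeast {a | ∃ (v : DVal K) (b : ℝ), IsOverGerm g.P v ∧ IsLogDisc e v b ∧
    a = b / Nat.card {σ : G // ∀ f, v.Reg f → v.Pos ((σ : K ≃ₐ[ℂ] K) f - f)}} m

theorem card_inert (G : Subgroup (K ≃ₐ[ℂ] K)) (v : DVal K) :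
    Nat.card {σ : G // ∀ f, v.Reg f → v.Pos ((σ : K ≃ₐ[ℂ] K) f - f)} =
      Nat.card (G ⊓ Ig v : Subgroup (K ≃ₐ[ℂ] K)) := by
  refine Nat.card_congr
    { toFun := fun σ => ⟨σ.1.1, σ.1.2, σ.2⟩
      invFun := fun σ => ⟨⟨σ.1, σ.2.1⟩, σ.2.2⟩
      left_inv := fun σ => rfl
      right_inv := fun σ => rfl }

theorem tw_InI {v : DVal K} {σ γ : K ≃ₐ[ℂ] K} (h : InI v σ) : InI (tw v γ) (γ⁻¹ * σ * γ) := by
  intro f hf
  rw [tw_pos, map_sub]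
  have h1 : γ ((γ⁻¹ * σ * γ) f) = σ (γ f) := by
    have : (γ * (γ⁻¹ * σ * γ)) f = (σ * γ) f := by
      congr 1
      group
    exact this
  rw [h1]
  exact h _ (tw_reg.1 hf)

theorem tw_Ch {v : DVal K} {σ γ : K ≃ₐ[ℂ] K} {z : ℂ} (h : Ch v σ z) :
    Ch (tw v γ) (γ⁻¹ * σ * γ) z := by
  refine ⟨h.1, fun f hf => ⟨zpow_ne_zero _ h.1, ?_⟩⟩
  rw [tw_pos, map_sub, map_div₀, AlgEquiv.commutes]
  have h1 : γ ((γ⁻¹ * σ * γ) f) = σ (γ f) := by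
    have : (γ * (γ⁻¹ * σ * γ)) f = (σ * γ) f := by
      congr 1
      group
    exact this
  rw [h1]
  exact (h.2 _ (sne γ hf)).2

end Q47.QM
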