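import Pool.Agent.Q47.QM.Asm1

/-!
# The finite groups and averaged rays
-/

set_option autoImplicit false
set_option linter.unusedSectionVars false

namespace Q47.QM

open Pool.Agent.H436R3.Fol Pool.Agent.H436R3.KT Pool.Agent.W497.Mld Pool.Agent.TH165.ACC

variable {n d : ℕ}

/-- sums over orbits -/
def avg (A : (Fin n → ℤ) →+ (Fin n → ℤ)) (R : ℕ) (u : Fin n → ℤ) : Fin n → ℤ :=
  ∑ s ∈ Finset.range R, A^[s] u

theorem avg_fix {A : (Fin n → ℤ) →+ (Fin n → ℤ)} {R : ℕ} (hA : ∀ u, A^[R] u = u)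
    (u : Fin n → ℤ) : A (avg A R u) = avg A R u := by
  rw [avg, map_sum]
  have h1 : ∀ s, A (A^[s] u) = A^[s + 1] u := fun s => (Function.iterate_succ_apply' A s u).symm
  rw [Finset.sum_congr rfl fun s _ => h1 s]
  have h3 := Finset.sum_range_succ (fun s => A^[s] u) R
  have h4 := Finset.sum_range_succ' (fun s => A^[s] u) R
  rw [h3, hA] at h4
  exact (add_right_cancel h4).symm

theorem pr_sum_right {ι : Type} (s : Finset ι) (m : Fin n → ℤ) (f : ι → Fin n → ℤ) :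
    pr m (∑ i ∈ s, f i) = ∑ i ∈ s, pr m (f i) := by
  classical
  induction s using Finset.induction_on with
  | empty => simp [pr]
  | insert a s ha ih => rw [Finset.sum_insert ha, Finset.sum_insert ha, pr_add_right, ih]

theorem pr_avg (W : (Fin n → ℤ) →+ (Fin n → ℤ)) (R : ℕ) (m u : Fin n → ℤ) :
    pr m (avg (adjH W) R u) = pr (avg W R m) u := by
  rw [avg, avg, pr_sum_right, pr_sum]
  exact Finset.sum_congr rfl fun s _ => pr_adj_iter W s m u

theorem adj_iter {W : (Fin n → ℤ) →+ (Fin n → ℤ)} {R : ℕ} (hW : ∀ m, W^[R] m = m)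
    (u : Fin n → ℤ) : (adjH W)^[R] u = u := by
  apply pr_ext
  intro m
  rw [pr_adj_iter, hW]

theorem pr_avg_fix {W : (Fin n → ℤ) →+ (Fin n → ℤ)} {u : Fin n → ℤ}
    (hu : ∀ m, pr (W m) u = pr m u) (R : ℕ) (m : Fin n → ℤ) : pr (avg W R m) u = R * pr m u := by
  rw [avg, pr_sum]
  have h1 : ∀ s : ℕ, pr (W^[s] m) u = pr m u := by
    intro s
    induction s with
    | zero => rfl
    | succ s ih => rw [Function.iterate_succ_apply', hu, ih]
  rw [Finset.sum_congr rfl fun s _ => h1 s, Finset.sum_const, Finset.card_range, nsmul_eq_mul]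

/-- the standard exponential -/
noncomputable def ee (x : ℝ) : ℂ := Complex.exp (2 * Real.pi * Complex.I * x)

theorem ee_add (x y : ℝ) : ee (x + y) = ee x * ee y := by
  rw [ee, ee, ee, ← Complex.exp_add]
  congr 1
  push_cast
  ring

theorem ee_ne (x : ℝ) : ee x ≠ 0 := Complex.exp_ne_zero _

theorem ee_zero : ee 0 = 1 := by simp [ee]

theorem ee_neg (x : ℝ) : ee (-x) = (ee x)⁻¹ := by
  refine eq_inv_of_mul_eq_one_left ?_
  rw [← ee_add, neg_add_cancel, ee_zero]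

theorem ee_int (z : ℤ) : ee z = 1 := by
  rw [ee, Complex.exp_eq_one_iff]
  exact ⟨z, by push_cast; ring⟩

theorem ee_eq_one {x : ℝ} (h : ee x = 1) : ∃ z : ℤ, x = z := by
  rw [ee, Complex.exp_eq_one_iff] at h
  obtain ⟨z, hz⟩ := h
  refine ⟨z, ?_⟩
  have h1 : (x : ℂ) = z := by
    have h2 : (2 * Real.pi * Complex.I : ℂ) ≠ 0 := Complex.two_pi_I_ne_zero
    apply mul_left_cancel₀ h2
    rw [hz]
    ring
  exact_mod_cast h1

theorem ee_zpow (x : ℝ) (z : ℤ) : ee x ^ z = ee (z * x) := by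
  rw [ee, ee, ← Complex.exp_int_mul]
  congr 1
  push_cast
  ring

theorem ee_pow (x : ℝ) (z : ℕ) : ee x ^ z = ee (z * x) := by
  rw [← zpow_natCast, ee_zpow, Int.cast_natCast]

theorem ee_root {N : ℕ} : Complex.exp (2 * Real.pi * Complex.I / (N : ℕ)) = ee (1 / N) := by
  rw [ee]
  congr 1
  push_cast
  ring

/-- the finite group -/
def HG (R : ℕ) (W : (Fin n → ℤ) →+ (Fin n → ℤ)) (l : (Fin n → ℤ) → ℂ) (hl : ∀ m, l m ≠ 0)
    (A : Fin d → Fin n → ℤ) : AddSubgroup (Fin (d + 1) → UnitAddCircle) where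
  carrier := {x | ∃ (w : Fin d → ℝ) (j : ℤ), (∀ i, x (Fin.castSucc i) = (w i : UnitAddCircle)) ∧
    x (Fin.last d) = ((j / R : ℝ) : UnitAddCircle) ∧
    ∀ m, W m = m → (l m) ^ j = ee (∑ i, w i * (pr m (A i) : ℝ))}
  zero_mem' := ⟨0, 0, fun i => by simp, by simp, fun m _ => by simp [ee_zero]⟩
  add_mem' := by
    rintro x x' ⟨w, j, h1, h2, h3⟩ ⟨w', j', h1', h2', h3'⟩
    refine ⟨w + w', j + j', fun i => ?_, ?_, fun m hm => ?_⟩
    · rw [Pi.add_apply, h1, h1', Pi.add_apply, AddCircle.coe_add]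
    · rw [Pi.add_apply, h2, h2', ← AddCircle.coe_add]
      congr 1
      push_cast
      ring
    · rw [zpow_add₀ (hl m), h3 m hm, h3' m hm, ← ee_add, ← Finset.sum_add_distrib]
      congr 1
      exact Finset.sum_congr rfl fun i _ => by rw [Pi.add_apply]; ring
  neg_mem' := by
    rintro x ⟨w, j, h1, h2, h3⟩
    refine ⟨-w, -j, fun i => ?_, ?_, fun m hm => ?_⟩
    · rw [Pi.neg_apply, h1, Pi.neg_apply, AddCircle.coe_neg]
    · rw [Pi.neg_apply, h2, ← AddCircle.coe_neg]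
      congr 1
      push_cast
      ring
    · rw [zpow_neg, h3 m hm, ← ee_neg, ← Finset.sum_neg_distrib]
      congr 1
      exact Finset.sum_congr rfl fun i _ => by rw [Pi.neg_apply]; ring

theorem coe_int (z : ℤ) : ((z : ℝ) : UnitAddCircle) = 0 := by
  rw [AddCircle.coe_eq_zero_iff]
  exact ⟨z, by simp⟩

theorem sub_int {x y : ℝ} (h : (x : UnitAddCircle) = (y : UnitAddCircle)) :
    ∃ z : ℤ, x - y = z := by
  have h4 : ((x - y : ℝ) : UnitAddCircle) = 0 := by rw [AddCircle.coe_sub, h, sub_self]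
  rw [AddCircle.coe_eq_zero_iff] at h4
  obtain ⟨z, hz⟩ := h4
  exact ⟨z, by rw [← hz]; simp⟩

section

variable {R : ℕ} {W : (Fin n → ℤ) →+ (Fin n → ℤ)} {l : (Fin n → ℤ) → ℂ} {hl : ∀ m, l m ≠ 0}
  {A : Fin d → Fin n → ℤ}

theorem HG_last (hR : 0 < R) {x : Fin (d + 1) → UnitAddCircle} (hx : x ∈ HG R W l hl A) :
    R • x (Fin.last d) = 0 := by
  obtain ⟨w, j, h1, h2, h3⟩ := hx
  have hR' : (R : ℝ) ≠ 0 := by exact_mod_cast hR.ne'
  rw [h2, ← AddCircle.coe_nsmul, nsmul_eq_mul, mul_div_cancel₀ _ hR', coe_int]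

/-- the coordinates of the elements of the group are torsion -/
theorem HG_tors {r : ℕ} {D : ℕ} (hlr : ∀ m, W m = m → l m ^ r = 1)
    (hA : ∀ i, ∃ m, W m = m ∧ ∀ j, pr m (A j) = if j = i then (D : ℤ) else 0)
    {w : Fin d → ℝ} {j : ℤ}
    (h3 : ∀ m, W m = m → (l m) ^ j = ee (∑ i, w i * (pr m (A i) : ℝ))) (i : Fin d) :
    ∃ z : ℤ, ((r * D : ℕ) : ℝ) * w i = z := by
  obtain ⟨m, hm, hmA⟩ := hA i
  have h4 := h3 m hm
  have h5 : ∑ i, w i * (pr m (A i) : ℝ) = w i * D := by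
    rw [Finset.sum_eq_single i]
    · rw [hmA, if_pos rfl]; push_cast; rfl
    · intro j _ hj
      rw [hmA, if_neg hj, Int.cast_zero, mul_zero]
    · intro h; exact absurd (Finset.mem_univ _) h
  rw [h5] at h4
  have h6 : ee (w i * D) ^ r = 1 := by
    rw [← h4, ← zpow_natCast, ← zpow_mul, mul_comm, zpow_mul, zpow_natCast, hlr m hm, one_zpow]
  rw [ee_pow] at h6
  obtain ⟨z, hz⟩ := ee_eq_one h6
  refine ⟨z, ?_⟩
  rw [← hz]
  push_cast
  ring

theorem HG_finite (hR : 0 < R) {r : ℕ} (hr : 0 < r) {D : ℕ} (hD : 0 < D)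
    (hlr : ∀ m, W m = m → l m ^ r = 1)
    (hA : ∀ i, ∃ m, W m = m ∧ ∀ j, pr m (A j) = if j = i then (D : ℤ) else 0) :
    Finite (HG R W l hl A) := by
  set N : ℕ := r * D * R with hN
  have hN0 : 0 < N := by positivity
  have hfin : (Set.pi Set.univ fun _ : Fin (d + 1) => {x : UnitAddCircle | N • x = 0}).Finite :=
    Set.Finite.pi fun _ => AddCircle.finite_torsion (1 : ℝ) hN0
  refine Set.Finite.subset hfin ?_
  intro x hx i _
  change N • x i = 0
  induction i using Fin.lastCases with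
  | last =>
    rw [hN, mul_comm, mul_nsmul, HG_last hR hx, smul_zero]
  | cast i =>
    obtain ⟨w, j, h1, h2, h3⟩ := hx
    obtain ⟨z, hz⟩ := HG_tors hlr hA h3 i
    rw [h1, hN, mul_nsmul, ← AddCircle.coe_nsmul, nsmul_eq_mul, hz, coe_int, smul_zero]

theorem ext_mem (hR : 0 < R) {w : Fin d → ℝ} (h : ext R w ∈ HG R W l hl A) :
    ∃ j z : ℤ, j = 1 + z * R ∧
      ∀ m, W m = m → (l m) ^ j = ee (∑ i, w i * (pr m (A i) : ℝ)) := by
  obtain ⟨w', j, h1, h2, h3⟩ := h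
  have hR' : (R : ℝ) ≠ 0 := by exact_mod_cast hR.ne'
  have e1 : ∀ i, ext R w (Fin.castSucc i) = (w i : UnitAddCircle) := by
    intro i
    rw [ext, Fin.snoc_castSucc]
  have e2 : ext R w (Fin.last d) = ((1 / R : ℝ) : UnitAddCircle) := by
    rw [ext, Fin.snoc_last]
  have h4 : ∀ i, ∃ z : ℤ, w i - w' i = z := fun i => sub_int (by rw [← e1, h1])
  choose z hz using h4
  obtain ⟨q, hq⟩ := sub_int (e2.symm.trans h2)
  refine ⟨j, -q, ?_, fun m hm => ?_⟩
  · have h5 : (1 : ℝ) - j = q * R := by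
      field_simp at hq
      linarith
    have h6 : (1 : ℤ) - j = q * R := by exact_mod_cast h5
    linarith
  · rw [h3 m hm]
    have h5 : ∑ i, w i * (pr m (A i) : ℝ) = ∑ i, w' i * (pr m (A i) : ℝ) +
        ((∑ i, z i * pr m (A i) : ℤ) : ℝ) := by
      push_cast
      rw [← Finset.sum_add_distrib]
      refine Finset.sum_congr rfl fun i _ => ?_
      rw [← hz i]
      ring
    rw [h5, ee_add, ee_int, mul_one]

theorem ext_mem' {w : Fin d → ℝ} (h : ∀ m, W m = m → l m = ee (∑ i, w i * (pr m (A i) : ℝ))) :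
    ext R w ∈ HG R W l hl A := by
  refine ⟨w, 1, fun i => ?_, ?_, fun m hm => ?_⟩
  · rw [ext, Fin.snoc_castSucc]
  · rw [ext, Fin.snoc_last, Int.cast_one]
  · rw [zpow_one]
    exact h m hm

end

end Q47.QM
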