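import Pool.Agent.Q47.QM.Asm2

/-!
# The minimal log discrepancies are values
-/

set_option autoImplicit false
set_option linter.unusedSectionVars false

namespace Q47.QM

open Pool.Agent.H436R3.Fol Pool.Agent.H436R3.KT Pool.Agent.W497.Mld Pool.Agent.TH165.ACC

variable {n : ℕ}

theorem EB.dvd {W : (Fin n → ℤ) →+ (Fin n → ℤ)} {θ : ℂ} {r : ℕ} {k : Fin n → ℕ}
    {y : Fin n → Fin n → ℂ} (hθ : IsPrimitiveRoot θ r) (h : EB W θ r k y) {R : ℕ}
    (hR : ∀ m, W^[R] m = m) (j : Fin n) : r ∣ k j * R := by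
  have h1 : ∀ (s : ℕ) m, dtc (W^[s] m) (y j) = θ ^ (k j * s) * dtc m (y j) := by
    intro s
    induction s with
    | zero => intro m; simp
    | succ s ih =>
      intro m
      rw [Function.iterate_succ_apply', h.eig, ih, mul_add, mul_one, pow_add]
      ring
  obtain ⟨i, hi⟩ : ∃ i, y j i ≠ 0 := by
    by_contra hcon
    push Not at hcon
    apply h.det
    exact Matrix.det_eq_zero_of_row_eq_zero j hcon
  have h2 := h1 R (Pi.single i 1)
  rw [hR, dtc_single] at h2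
  have h3 : θ ^ (k j * R) = 1 := by
    have h4 : (θ ^ (k j * R) - 1) * y j i = 0 := by linear_combination -h2
    exact sub_eq_zero.1 ((mul_eq_zero.1 h4).resolve_right hi)
  exact (hθ.pow_eq_one_iff_dvd _).1 h3

theorem EB.q {W : (Fin n → ℤ) →+ (Fin n → ℤ)} {θ : ℂ} {r : ℕ} {k : Fin n → ℕ}
    {y : Fin n → Fin n → ℂ} (hθ : IsPrimitiveRoot θ r) (hr : 0 < r) (h : EB W θ r k y) {R : ℕ}
    (hR0 : 0 < R) (hR : ∀ m, W^[R] m = m) : ∃ q ≤ n * R, (∑ j, (k j : ℝ)) / r = (q : ℝ) / R := by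
  choose q hq using h.dvd hθ hR
  refine ⟨∑ j, q j, ?_, ?_⟩
  · have h1 : ∀ j, q j ≤ R := by
      intro j
      have h2 := hq j
      have h3 := h.lt j
      have h4 : r * q j ≤ r * R := by rw [← h2]; exact Nat.mul_le_mul_right R h3.le
      exact Nat.le_of_mul_le_mul_left h4 hr
    calc ∑ j, q j ≤ ∑ _j : Fin n, R := Finset.sum_le_sum fun j _ => h1 j
      _ = n * R := by simp
  · have hr' : (r : ℝ) ≠ 0 := by exact_mod_cast hr.ne'
    have hR' : (R : ℝ) ≠ 0 := by exact_mod_cast hR0.ne'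
    rw [div_eq_div_iff hr' hR', Finset.sum_mul]
    push_cast
    rw [Finset.sum_mul]
    refine Finset.sum_congr rfl fun j _ => ?_
    have h2 : ((k j * R : ℕ) : ℝ) = ((r * q j : ℕ) : ℝ) := by rw [hq j]
    push_cast at h2
    rw [h2]
    ring

variable {K : Type} [Field K] [Algebra ℂ K]
  [Algebra (MvPolynomial (Fin n) ℂ) K] [IsFractionRing (MvPolynomial (Fin n) ℂ) K]
  [IsScalarTower ℂ (MvPolynomial (Fin n) ℂ) K]

theorem mo_pow_fix {σ : K ≃ₐ[ℂ] K} {W : (Fin n → ℤ) →+ (Fin n → ℤ)} {l : (Fin n → ℤ) → ℂ}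
    (h : Mo σ W l) {R j : ℕ} (hWR : ∀ m, W^[R] m = m) {s : ℕ} (hj : j = 1 + s * R) :
    ∃ l', Mo (σ ^ j) W l' ∧ ∀ m, W m = m → l' m = l m ^ j := by
  obtain ⟨l', hl'⟩ := h.pow j
  have h1 : (AddMonoidHom.mk' (W^[j]) (fun a b => iterate_map_add W j a b)) = W := by
    refine DFunLike.ext _ _ fun m => ?_
    change W^[j] m = W m
    rw [hj, add_comm, Function.iterate_add_apply, Function.iterate_one]
    have h2 : ∀ t : ℕ, ∀ x, W^[t * R] x = x := by
      intro t
      induction t with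
      | zero => intro x; rw [zero_mul]; rfl
      | succ t ih => intro x; rw [Nat.succ_mul, Function.iterate_add_apply, hWR, ih]
    exact h2 s _
  rw [h1] at hl'
  refine ⟨l', hl', fun m hm => ?_⟩
  have h2 : ∀ t : ℕ, (σ ^ t) (ym K m) = algebraMap ℂ K (l m ^ t) * ym K m := by
    intro t
    induction t with
    | zero => rw [pow_zero, pow_zero, map_one, one_mul]; rfl
    | succ t ih =>
      rw [pow_succ', AlgEquiv.mul_apply, ih, map_mul, AlgEquiv.commutes, h.2, hm, pow_succ,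
        map_mul]
      ring
  have h3 := hl'.2 m
  rw [h2, hm] at h3
  exact (ym_uniq (pow_ne_zero _ (h.1 m)) (hl'.1 m) h3).2.symm

variable {g : ToricGerm n K} {B : EffDiv g.X} {e : LocEq B g.P} {Γ : Set ℝ}
  {Φ : (Fin n → ℤ) → ℝ}

theorem core {R : ℕ} (hR : 0 < R)
    (hRW : ∀ (W : (Fin n → ℤ) →+ (Fin n → ℤ)) (r : ℕ), 0 < r → (∀ m, W^[r] m = m) →
      ∀ m, W^[R] m = m)
    (hΦ : LDF e Γ Φ) {G : Subgroup (K ≃ₐ[ℂ] K)} [Finite G] {m : ℝ} (hm0 : 0 ≤ m)
    (hG : ∀ σ ∈ G, IsPairAut e σ)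
    (hconj : ∀ σ ∈ G, ∃ γ, IsPairAut e γ ∧ IsMono n (γ⁻¹ * σ * γ))
    (hm : IsQuotMld e G m) :
    ∃ q ≤ n * R, ∃ d ≤ n, ∃ a ∈ Val d R (insert 0 Γ), m = (q : ℝ) / R + R * a := by
  classical
  obtain ⟨⟨v1, b0, hov1, hl1, hmb⟩, hleast⟩ := hm
  rw [card_inert] at hmb
  obtain ⟨hr, σ1, hσ1, hI1, hσr, hch1⟩ := exists_gen G v1
  set r := Nat.card (G ⊓ Ig v1 : Subgroup (K ≃ₐ[ℂ] K)) with hrd
  have hprim : IsPrimitiveRoot (ee (1 / r)) r := by
    rw [← ee_root]; exact Complex.isPrimitiveRoot_exp r hr.ne'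
  rw [ee_root] at hch1
  obtain ⟨γ, hγ, hmono⟩ := hconj σ1 hσ1
  set σ := γ⁻¹ * σ1 * γ with hσd
  have hσp : ∀ t : ℕ, σ ^ t = γ⁻¹ * σ1 ^ t * γ := by
    intro t
    have := conj_pow (i := t) (a := γ⁻¹) (b := σ1)
    rw [inv_inv] at this
    exact this
  have hσr' : σ ^ r = 1 := by rw [hσp, hσr, mul_one, inv_mul_cancel]
  have hI : InI (tw v1 γ) σ := tw_InI hI1
  have hch : Ch (tw v1 γ) σ (ee (1 / r)) := tw_Ch hch1
  obtain ⟨W, l, hmo⟩ := exists_mo hmono
  have hWr := hmo.iter_eq hσr'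
  have hWR := hRW W r hr hWr
  obtain ⟨k, y, hEB⟩ := exists_eb hprim hr hWr
  have hσa : IsPairAut e σ := (hγ.inv.mul (hG σ1 hσ1)).mul hγ
  obtain ⟨hov0, hl0⟩ := (hγ v1 b0).1 ⟨hov1, hl1⟩
  have hint0 := ToricGerm.inter_of_over (n := n) hov0
  set U0 : Fin n → ℤ := tv (tw v1 γ) with hU0d
  have hn : 0 < n := by
    by_contra hn0
    apply ne_zero_of_inter hint0
    funext i
    exact absurd i.pos hn0
  have hU0 : ∀ m, pr (W m) U0 = pr m U0 := by
    intro m
    rw [← pr_adj, hmo.adj_tv hI]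
  have hr' : (r : ℝ) ≠ 0 := by exact_mod_cast hr.ne'
  have hR' : (R : ℝ) ≠ 0 := by exact_mod_cast hR.ne'
  have hlU : ∀ m, W m = m → l m = ee ((pr m U0 : ℝ) / r) := by
    intro m hm
    rw [hmo.lam_eq hch hm, ee_zpow]
    congr 1
    ring
  have hlr : ∀ m, W m = m → l m ^ r = 1 := by
    intro m hm
    rw [hlU m hm, ee_pow, mul_div_cancel₀ _ hr', ee_int]
  obtain ⟨hcone, hinv⟩ := phi_inv hΦ hmo hσa hr hWr hn hint0
  have hAR := adj_iter hWR
  have hQs : ∀ (t : ℕ) (u : Fin n → ℤ), g.InCone u →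
      g.InCone ((adjH W)^[t] u) ∧ Φ ((adjH W)^[t] u) = Φ u := by
    intro t u hu
    induction t with
    | zero => exact ⟨hu, rfl⟩
    | succ t ih =>
      rw [Function.iterate_succ_apply', adjH_apply]
      exact ⟨hcone _ ih.1, (hinv _ ih.1).trans ih.2⟩
  have hΦ0 : Φ 0 = 0 := by
    rw [hΦ.lin 0 0 (fun _ => le_rfl) (fun k => by simp)]
    simp
  have h0c : g.InCone 0 := fun m _ => by simp [pr]
  have hQa : ∀ (u : Fin n → ℤ), g.InCone u → ∀ t : ℕ,
      g.InCone (avg (adjH W) t u) ∧ Φ (avg (adjH W) t u) = t * Φ u := by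
    intro u hu t
    induction t with
    | zero =>
      rw [avg, Finset.sum_range_zero]
      exact ⟨h0c, by rw [hΦ0]; simp⟩
    | succ t ih =>
      have h1 : avg (adjH W) (t + 1) u = avg (adjH W) t u + (adjH W)^[t] u := by
        rw [avg, Finset.sum_range_succ, avg]
      rw [h1]
      refine ⟨inCone_add ih.1 (hQs t u hu).1, ?_⟩
      rw [hΦ.add ih.1 (hQs t u hu).1, ih.2, (hQs t u hu).2]
      push_cast
      ring
  obtain ⟨d, a, w, hw, hwc, D0, hD0⟩ := exists_simplex (E := fun i => avg (adjH W) R (g.E i))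
    (u := U0) (by
      intro m hm
      have h1 : avg W R m ∈ Cn g.E := by
        intro i
        rw [← pr_avg]
        exact hm i
      have h2 := hint0.inCone _ h1
      rw [pr_avg_fix hU0] at h2
      exact nonneg_of_mul_nonneg_right h2 (by exact_mod_cast hR))
  set A : Fin d → Fin n → ℤ := fun i => avg (adjH W) R (g.E (a i)) with hAd
  have hAc : ∀ i, g.InCone (A i) := fun i => (hQa _ (ToricGerm.inCone_E (a i)) R).1
  have hAU : ∀ i m, pr (W m) (A i) = pr m (A i) := by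
    intro i m
    rw [← pr_adj, ← adjH_apply]
    congr 1
    exact avg_fix hAR _
  obtain ⟨D, rfl⟩ : ∃ D : ℕ, D0 = D := ⟨D0.toNat, by have := hD0.1; omega⟩
  have hD : 0 < D := by exact_mod_cast hD0.1
  have hA : ∀ i, ∃ m, W m = m ∧ ∀ j, pr m (A j) = if j = i then ((R * D : ℕ) : ℤ) else 0 := by
    intro i
    obtain ⟨P, hP⟩ := hD0.2 i
    refine ⟨avg W R P, avg_fix hWR P, fun j => ?_⟩
    rw [pr_avg_fix (hAU j), hP]
    split_ifs
    · push_cast; rfl
    · rw [mul_zero]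
  choose β hβ hβE using fun i => hΦ.coef (a i)
  have hΦA : ∀ i, Φ (A i) = R * (1 - β i) := by
    intro i
    rw [(hQa _ (ToricGerm.inCone_E (a i)) R).2, hβE]
  have hcoord : Coord A w U0 := hwc
  set H := HG R W l hmo.1 A with hHd
  have hUB : ∀ w' : Fin d → ℝ, (∀ i, 0 < w' i) → ext R w' ∈ H →
      m ≤ (∑ j, (k j : ℝ)) / r + R * ∑ i, (1 - β i) * w' i := by
    intro w' hw' hwH
    obtain ⟨j, z, hj, h3⟩ := ext_mem hR hwH
    have hRD : 0 < R * D := Nat.mul_pos hR hD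
    choose zz hz using HG_tors hlr hA h3
    set N : ℕ := R * D * r with hNd
    have hN : 0 < N := Nat.mul_pos hRD hr
    have hN' : (N : ℝ) ≠ 0 := by exact_mod_cast hN.ne'
    have hzN : ∀ i, (zz i : ℝ) = N * w' i := by
      intro i
      rw [← hz i, hNd, mul_comm r]
    have hzz : ∀ i, 0 < zz i := by
      intro i
      have h1 : (0 : ℝ) < zz i := by
        rw [hzN]
        exact mul_pos (by exact_mod_cast hN) (hw' i)
      exact_mod_cast h1
    set U : Fin n → ℤ := ∑ i, zz i • A i with hUd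
    have hprU : ∀ m, pr m U = ∑ i, zz i * pr m (A i) := by
      intro m
      rw [hUd, pr_sum_right]
      exact Finset.sum_congr rfl fun i _ => pr_smul_right _ _ _
    have hUW : ∀ m, pr (W m) U = pr m U := by
      intro m
      rw [hprU, hprU]
      exact Finset.sum_congr rfl fun i _ => by rw [hAU]
    have hUint : g.Inter U := by
      intro m hm hm0
      rw [hprU]
      obtain ⟨i, hi⟩ : ∃ i, pr m (A i) ≠ 0 := by
        by_contra h2
        push Not at h2
        have h3 := hint0 m hm hm0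
        have h4 : (pr m U0 : ℝ) = 0 := by
          rw [coord_pr hcoord]
          exact Finset.sum_eq_zero fun i _ => by rw [h2 i, Int.cast_zero, mul_zero]
        have h5 : pr m U0 = 0 := by exact_mod_cast h4
        omega
      exact Finset.sum_pos' (fun j _ => mul_nonneg (hzz j).le (hAc j m hm))
        ⟨i, Finset.mem_univ i, mul_pos (hzz i) (lt_of_le_of_ne (hAc i m hm) (Ne.symm hi))⟩
    -- a natural number congruent to `j`
    obtain ⟨j', s, hj's, hj'⟩ : ∃ j' s : ℕ, j' = 1 + s * R ∧ ∃ t : ℤ, (j' : ℤ) = j + r * t := by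
      have h1 : (0 : ℤ) ≤ z + r * |z| := by
        have h2 : (1 : ℤ) ≤ r := by exact_mod_cast hr
        have h3 := neg_abs_le z
        have h4 := abs_nonneg z
        nlinarith
      refine ⟨1 + (z + r * |z|).toNat * R, (z + r * |z|).toNat, rfl, |z| * R, ?_⟩
      rw [hj]
      push_cast
      rw [Int.toNat_of_nonneg h1]
      ring
    obtain ⟨t, hj't⟩ := hj'
    obtain ⟨l', hmo', hl'⟩ := mo_pow_fix hmo hWR hj's
    set θ' : ℂ := ee (1 / N) with hθ'
    have hprim' : IsPrimitiveRoot θ' N := by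
      rw [hθ', ← ee_root]; exact Complex.isPrimitiveRoot_exp N hN.ne'
    have hRD' : ((R * D : ℕ) : ℝ) ≠ 0 := by exact_mod_cast hRD.ne'
    have hEB' := hEB.scale hRD (θ' := θ') (by
      rw [hθ', ee_pow]
      congr 1
      rw [hNd]
      push_cast at hRD' ⊢
      field_simp)
    have hlW : ∀ m, W m = m → l' m = θ' ^ pr m U := by
      intro m hm
      rw [hl' m hm, hθ', ee_zpow, ← zpow_natCast, hj't, zpow_add₀ (hmo.1 m), zpow_mul,
        zpow_natCast, hlr m hm, one_zpow, mul_one, h3 m hm, hprU]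
      congr 1
      push_cast
      rw [Finset.sum_mul]
      refine Finset.sum_congr rfl fun i _ => ?_
      rw [hzN]
      field_simp
    obtain ⟨c, v, b, hc0, hov, hl, hIv, hChv, hcb⟩ :=
      exists_val hΦ hmo' hN hprim' hEB' hUW hUint hn hlW
    obtain ⟨hov', hl''⟩ := (hγ.inv v b).1 ⟨hov, hl⟩
    set v' := tw v γ⁻¹ with hv'
    have hτ : γ⁻¹⁻¹ * σ ^ j' * γ⁻¹ = σ1 ^ j' := by
      rw [hσp]
      group
    have hIv' : InI v' (σ1 ^ j') := by rw [← hτ]; exact tw_InI hIv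
    have hChv' : Ch v' (σ1 ^ j') (θ' ^ c) := by rw [← hτ]; exact tw_Ch hChv
    obtain ⟨hs0, -⟩ := exists_gen G v'
    set s' := Nat.card (G ⊓ Ig v' : Subgroup (K ≃ₐ[ℂ] K)) with hs'
    have hmle : m ≤ b / s' := hleast ⟨v', b, hov', hl'', by rw [card_inert]⟩
    have hpow : (σ1 ^ j') ^ s' = 1 := by
      have h1 : σ1 ^ j' ∈ (G ⊓ Ig v' : Subgroup (K ≃ₐ[ℂ] K)) :=
        ⟨Subgroup.pow_mem _ hσ1 _, mem_Ig.2 hIv'⟩
      have h2 : (⟨σ1 ^ j', h1⟩ : (G ⊓ Ig v' : Subgroup (K ≃ₐ[ℂ] K))) ^ s' = 1 :=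
        pow_card_eq_one'
      have h3 := congrArg Subtype.val h2
      simpa using h3
    have hdvd : N ∣ c * s' := by
      have h1 := Ch.pow' hIv' hChv' s'
      rw [hpow] at h1
      have h2 := h1.uniq Ch.one
      rw [← pow_mul] at h2
      exact (hprim'.pow_eq_one_iff_dvd _).1 h2
    have hNle : N ≤ c * s' := Nat.le_of_dvd (Nat.mul_pos hc0 hs0) hdvd
    have hΦU : Φ U = N * (R * ∑ i, (1 - β i) * w' i) := by
      rw [hΦ.coord hAc (w := fun i => (zz i : ℝ)) (fun i => by exact_mod_cast (hzz i).le)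
        (u := U) (fun q => by
          rw [hUd, Finset.sum_apply]
          push_cast
          exact Finset.sum_congr rfl fun i _ => by
            rw [Pi.smul_apply, smul_eq_mul]; push_cast; rfl), Finset.mul_sum, Finset.mul_sum]
      refine Finset.sum_congr rfl fun i _ => ?_
      rw [hΦA, hzN]
      ring
    have hκ : ∑ j, (((R * D * k j : ℕ) : ℝ)) = N * ((∑ j, (k j : ℝ)) / r) := by
      rw [hNd]
      push_cast
      rw [← Finset.mul_sum]
      field_simp
    rw [hκ, hΦU, ← mul_add] at hcb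
    have hs0' : (0 : ℝ) < s' := by exact_mod_cast hs0
    have hc0' : (0 : ℝ) < c := by exact_mod_cast hc0
    have hN0' : (0 : ℝ) < N := by exact_mod_cast hN
    rw [le_div_iff₀ hs0'] at hmle
    have h5 : (N : ℝ) ≤ c * s' := by exact_mod_cast hNle
    have h6 : (N : ℝ) * m ≤ N * ((∑ j, (k j : ℝ)) / r + R * ∑ i, (1 - β i) * w' i) := by
      calc (N : ℝ) * m ≤ c * s' * m := mul_le_mul_of_nonneg_right h5 hm0
        _ = c * (m * s') := by ring
        _ ≤ c * b := mul_le_mul_of_nonneg_left hmle hc0'.le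
        _ ≤ _ := hcb
    exact le_of_mul_le_mul_left h6 hN0'
  -- the lower bound
  obtain ⟨cc, hcc, hb0⟩ := (hΦ.disc _ hov0 _).1 hl0
  have hLB := lower g.e g.hT hcc hI hr hσr' hprim hch hmo hEB
  have hΦU0 : Φ U0 = R * ∑ i, (1 - β i) * w i := by
    rw [hΦ.coord hAc (fun i => (hw i).le) hcoord, Finset.mul_sum]
    exact Finset.sum_congr rfl fun i _ => by rw [hΦA]; ring
  have hr0 : (0 : ℝ) < r := by exact_mod_cast hr
  set w0 : Fin d → ℝ := fun i => w i / r with hw0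
  have hw0p : ∀ i, 0 < w0 i := fun i => div_pos (hw i) hr0
  have hw0H : ext R w0 ∈ H := by
    refine ext_mem' fun m hm => ?_
    rw [hlU m hm, coord_pr hcoord, Finset.sum_div]
    congr 1
    exact Finset.sum_congr rfl fun i _ => by rw [hw0]; ring
  have hge : (∑ j, (k j : ℝ)) / r + R * ∑ i, (1 - β i) * w0 i ≤ m := by
    have h1 : R * ∑ i, (1 - β i) * w0 i = Φ U0 / r := by
      rw [hΦU0, mul_div_assoc, Finset.sum_div]
      congr 1
      exact Finset.sum_congr rfl fun i _ => by rw [hw0]; ring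
    rw [h1, hmb, hb0, ← add_div]
    refine div_le_div_of_nonneg_right ?_ hr0.le
    have h2 : ∑ j, (k j : ℝ) ≤ cc + 1 := by exact_mod_cast hLB
    linarith
  have heq : m = (∑ j, (k j : ℝ)) / r + R * ∑ i, (1 - β i) * w0 i :=
    le_antisymm (hUB w0 hw0p hw0H) hge
  obtain ⟨q, hq, hqe⟩ := hEB.q hprim hr hR hWR
  refine ⟨q, hq, d, hD0.le, ∑ i, (1 - β i) * w0 i, ?_, by rw [← hqe]; exact heq⟩
  refine ⟨H, β, HG_finite hR hr (Nat.mul_pos hR hD) hlr hA, fun h hh => HG_last hR hh, hβ,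
    IsLeast.isGLB ⟨⟨w0, hw0p, hw0H, rfl⟩, ?_⟩⟩
  rintro _ ⟨w', hw', hwH, rfl⟩
  have h1 := hUB w' hw' hwH
  rw [heq] at h1
  have h2 : (R : ℝ) * ∑ i, (1 - β i) * w0 i ≤ R * ∑ i, (1 - β i) * w' i := by linarith
  exact le_of_mul_le_mul_left h2 (by exact_mod_cast hR)

end Q47.QM
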