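import Pool.Agent.Q47.QM.Eig2

/-!
# Extension of characters with given values on a face
-/

set_option autoImplicit false
set_option linter.unusedSectionVars false

namespace Q47.QM

open Pool.Agent.H436R3.Fol Pool.Agent.H436R3.KT Pool.Agent.W497.Mld Pool.Agent.TH165.ACC

variable {n : ℕ}

/-- homomorphisms to the multiplicative group extend -/
theorem ext_hom {P A : Type} [AddCommGroup P] [AddCommGroup A] (f : P →+ A)
    (g0 : P →+ Additive ℂˣ) (hker : ∀ p, f p = 0 → g0 p = 0) :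
    ∃ h : A →+ Additive ℂˣ, ∀ p, h (f p) = g0 p := by
  have hch : ∀ x : f.range, ∃ m, f m = x := fun x => x.2
  choose s hs using hch
  have hgs : ∀ m m', f m = f m' → g0 m = g0 m' := by
    intro m m' h
    have h1 := hker (m - m') (by rw [map_sub, h, sub_self])
    rw [map_sub, sub_eq_zero] at h1
    exact h1
  let G : f.range →+ Additive ℂˣ := AddMonoidHom.mk' (fun x => g0 (s x)) fun x x' => by
    rw [← map_add]
    apply hgs
    rw [map_add, hs, hs, hs]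
    rfl
  let _ : DivisibleBy (Additive ℂˣ) ℤ := divisibleByOfSMulRightSurj _ _ (by
    intro k hk a
    obtain ⟨z, hz⟩ := IsAlgClosed.exists_pow_nat_eq ((Additive.toMul a : ℂˣ) : ℂ)
      (Int.natAbs_pos.2 hk)
    have hz0 : z ≠ 0 := by
      rintro rfl
      rw [zero_pow (Int.natAbs_ne_zero.2 hk)] at hz
      exact (Units.ne_zero _) hz.symm
    have h1 : (Units.mk0 z hz0) ^ k.natAbs = Additive.toMul a := by
      ext
      rw [Units.val_pow_eq_pow_val, Units.val_mk0, hz]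
    rcases Int.natAbs_eq k with h | h
    · refine ⟨Additive.ofMul (Units.mk0 z hz0), ?_⟩
      beta_reduce
      rw [h, ← ofMul_zpow, zpow_natCast, h1, ofMul_toMul]
    · refine ⟨Additive.ofMul (Units.mk0 z hz0)⁻¹, ?_⟩
      beta_reduce
      rw [h, ← ofMul_zpow, zpow_neg, inv_zpow, inv_inv, zpow_natCast, h1, ofMul_toMul])
  obtain ⟨h, hh⟩ := (Module.Baer.of_divisible (Additive ℂˣ)).extension_property_addMonoidHom
    f.range.subtype (AddSubgroup.subtype_injective _) G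
  refine ⟨h, fun p => ?_⟩
  have h2 := DFunLike.congr_fun hh ⟨f p, ⟨p, rfl⟩⟩
  change h (f p) = g0 (s ⟨f p, _⟩) at h2
  rw [h2]
  exact hgs _ _ (hs _)

/-- the differences -/
def D1 (F : Set (Fin n → ℤ)) (h0 : (0 : Fin n → ℤ) ∈ F)
    (hadd : ∀ m ∈ F, ∀ m' ∈ F, m + m' ∈ F) : AddSubgroup (Fin n → ℤ) where
  carrier := {d | ∃ m1 ∈ F, ∃ m2 ∈ F, d = m1 - m2}
  zero_mem' := ⟨0, h0, 0, h0, (sub_self _).symm⟩
  add_mem' := by
    rintro _ _ ⟨a, ha, b, hb, rfl⟩ ⟨c, hc, d, hd, rfl⟩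
    exact ⟨a + c, hadd _ ha _ hc, b + d, hadd _ hb _ hd, by abel⟩
  neg_mem' := by
    rintro _ ⟨a, ha, b, hb, rfl⟩
    exact ⟨b, hb, a, ha, by abel⟩

theorem chi_well {F1 : Set (Fin n → ℤ)}
    {χ : (Fin n → ℤ) → ℂ} (hχa : ∀ m ∈ F1, ∀ m' ∈ F1, χ (m + m') = χ m * χ m')
    {a b c d : Fin n → ℤ} (ha : a ∈ F1) (hb : b ∈ F1) (hc : c ∈ F1) (hd : d ∈ F1)
    (h : a - b = c - d) : χ a * χ d = χ c * χ b := by
  rw [← hχa _ ha _ hd, ← hχa _ hc _ hb]
  congr 1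
  exact sub_eq_sub_iff_add_eq_add.1 h

/-- extension of characters with given values on a submonoid -/
theorem exists_char2 {W : (Fin n → ℤ) →+ (Fin n → ℤ)} {l : (Fin n → ℤ) → ℂ} {U : Fin n → ℤ} {θ : ℂ}
    (hθ0 : θ ≠ 0) (hl : ∀ m, l m ≠ 0) (hla : ∀ m m', l (m + m') = l m * l m')
    {F1 : Set (Fin n → ℤ)} (h0 : (0 : Fin n → ℤ) ∈ F1)
    (hadd : ∀ m ∈ F1, ∀ m' ∈ F1, m + m' ∈ F1)
    {χ : (Fin n → ℤ) → ℂ} (hχ : ∀ m ∈ F1, χ m ≠ 0)
    (hχa : ∀ m ∈ F1, ∀ m' ∈ F1, χ (m + m') = χ m * χ m')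
    (hcomp : ∀ m1 ∈ F1, ∀ m2 ∈ F1, ∀ m', W m' - m' = m1 - m2 →
      θ ^ pr m' U / l m' * χ m2 = χ m1) :
    ∃ ch : (Fin n → ℤ) → ℂ, (∀ m, ch m ≠ 0) ∧ (∀ m m', ch (m + m') = ch m * ch m') ∧
      (∀ m, l m * ch (W m) = ch m * θ ^ pr m U) ∧ ∀ m ∈ F1, ch m = χ m := by
  have hne : ∀ m, θ ^ pr m U / l m ≠ 0 := fun m => div_ne_zero (zpow_ne_zero _ hθ0) (hl m)
  have hex : ∀ x : D1 F1 h0 hadd, ∃ m1, m1 ∈ F1 ∧ ∃ m2, m2 ∈ F1 ∧ (x : Fin n → ℤ) = m1 - m2 := by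
    intro x
    obtain ⟨m1, h1, m2, h2, h3⟩ := x.2
    exact ⟨m1, h1, m2, h2, h3⟩
  choose s1 hs1 s2 hs2 hs using hex
  have hne1 : ∀ x : D1 F1 h0 hadd, χ (s1 x) / χ (s2 x) ≠ 0 := fun x =>
    div_ne_zero (hχ _ (hs1 x)) (hχ _ (hs2 x))
  have hadd1 : ∀ x x' : D1 F1 h0 hadd, χ (s1 (x + x')) / χ (s2 (x + x')) =
      χ (s1 x) / χ (s2 x) * (χ (s1 x') / χ (s2 x')) := by
    intro x x'
    have h1 : s1 (x + x') - s2 (x + x') = (s1 x + s1 x') - (s2 x + s2 x') := by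
      rw [← hs, AddSubgroup.coe_add, hs x, hs x']
      abel
    have h2 := chi_well hχa (hs1 _) (hs2 _) (hadd _ (hs1 x) _ (hs1 x'))
      (hadd _ (hs2 x) _ (hs2 x')) h1
    rw [hχa _ (hs1 x) _ (hs1 x'), hχa _ (hs2 x) _ (hs2 x')] at h2
    have e1 := hχ _ (hs2 (x + x'))
    have e2 := hχ _ (hs2 x)
    have e3 := hχ _ (hs2 x')
    rw [div_mul_div_comm, div_eq_div_iff e1 (mul_ne_zero e2 e3)]
    exact h2
  let g0 : (D1 F1 h0 hadd × (Fin n → ℤ)) →+ Additive ℂˣ := AddMonoidHom.mk'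
    (fun p => Additive.ofMul (Units.mk0 (χ (s1 p.1) / χ (s2 p.1) * (θ ^ pr p.2 U / l p.2))
      (mul_ne_zero (hne1 _) (hne _)))) fun p p' => by
      rw [← ofMul_mul]
      congr 1
      ext
      rw [Units.val_mul, Units.val_mk0, Units.val_mk0, Units.val_mk0, Prod.fst_add, Prod.snd_add,
        hadd1, pr_add, zpow_add₀ hθ0, hla]
      have e1 := hχ _ (hs2 p.1)
      have e2 := hχ _ (hs2 p'.1)
      have e3 := hl p.2
      have e4 := hl p'.2
      field_simp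
  have hg0 : ∀ p, ((Additive.toMul (g0 p) : ℂˣ) : ℂ) =
      χ (s1 p.1) / χ (s2 p.1) * (θ ^ pr p.2 U / l p.2) := fun p => rfl
  let f : (D1 F1 h0 hadd × (Fin n → ℤ)) →+ (Fin n → ℤ) := AddMonoidHom.mk'
    (fun p => (p.1 : Fin n → ℤ) + (W p.2 - p.2)) fun p p' => by
      rw [Prod.fst_add, Prod.snd_add, AddSubgroup.coe_add, map_add]
      abel
  have hf : ∀ p, f p = (p.1 : Fin n → ℤ) + (W p.2 - p.2) := fun p => rfl
  obtain ⟨h, hh⟩ := ext_hom f g0 (by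
    intro p hp
    rw [hf] at hp
    have h1 : W p.2 - p.2 = s2 p.1 - s1 p.1 := by
      rw [hs] at hp
      have := eq_neg_of_add_eq_zero_right hp
      rw [this]
      abel
    have h2 := hcomp _ (hs2 p.1) _ (hs1 p.1) _ h1
    have h3 : χ (s1 p.1) / χ (s2 p.1) * (θ ^ pr p.2 U / l p.2) = 1 := by
      have e1 := hχ _ (hs2 p.1)
      rw [div_mul_eq_mul_div, mul_comm, h2, div_self e1]
    change Additive.ofMul (Units.mk0 _ _) = 0
    have h4 : Units.mk0 (χ (s1 p.1) / χ (s2 p.1) * (θ ^ pr p.2 U / l p.2))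
      (mul_ne_zero (hne1 _) (hne _)) = 1 := by
      ext
      rw [Units.val_mk0, h3, Units.val_one]
    rw [h4]
    rfl)
  refine ⟨fun m => ((Additive.toMul (h m) : ℂˣ) : ℂ), fun m => Units.ne_zero _, fun m m' => ?_,
    fun m => ?_, fun m hm => ?_⟩
  · beta_reduce
    rw [map_add, toMul_add, Units.val_mul]
  · have h1 := hh (0, m)
    have h2 : f (0, m) = W m - m := by rw [hf, AddSubgroup.coe_zero, zero_add]
    have h3 : h (W m) = h m + g0 (0, m) := by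
      rw [← h1, h2, ← map_add, add_sub_cancel]
    have h4 : χ (s1 0) / χ (s2 0) = 1 := by
      have h5 := hadd1 0 0
      rw [add_zero] at h5
      exact (mul_left_cancel₀ (hne1 0) (by rw [← h5, mul_one])).symm
    beta_reduce
    rw [h3, toMul_add, Units.val_mul, hg0, h4, one_mul]
    have := hl m
    field_simp
  · have hmD : m ∈ D1 F1 h0 hadd := ⟨m, hm, 0, h0, (sub_zero _).symm⟩
    have h1 := hh (⟨m, hmD⟩, 0)
    have h2 : f (⟨m, hmD⟩, 0) = m := by rw [hf, map_zero, sub_zero, add_zero]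
    rw [h2] at h1
    have h5 : l 0 = 1 := by
      have h6 := hla 0 0
      rw [add_zero] at h6
      exact (mul_left_cancel₀ (hl 0) (by rw [← h6, mul_one])).symm
    have h7 : χ 0 = 1 := by
      have h6 := hχa 0 h0 0 h0
      rw [add_zero] at h6
      exact (mul_left_cancel₀ (hχ 0 h0) (by rw [← h6, mul_one])).symm
    have h8 : pr (0 : Fin n → ℤ) U = 0 := by simp [pr]
    beta_reduce
    rw [h1, hg0, h8, zpow_zero, h5, div_one, mul_one]
    have h9 := chi_well hχa (hs1 ⟨m, hmD⟩) (hs2 ⟨m, hmD⟩) hm h0 (by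
      rw [← hs, sub_zero])
    rw [h7, mul_one] at h9
    rw [h9, mul_div_assoc, div_self (hχ _ (hs2 _)), mul_one]

end Q47.QM
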