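import Pool.Agent.Q47.QM.Asm4

/-!
# Automorphisms of toric pairs acting on all closed points
-/

set_option autoImplicit false
set_option linter.unusedSectionVars false

namespace Q47.QM

open Pool.Agent.H436R3.Fol Pool.Agent.H436R3.KT Pool.Agent.W497.Mld Pool.Agent.TH165.ACC

theorem no_dval {K : Type} [Field K] [Algebra ℂ K] [Algebra (MvPolynomial (Fin 0) ℂ) K]
    [IsFractionRing (MvPolynomial (Fin 0) ℂ) K] [IsScalarTower ℂ (MvPolynomial (Fin 0) ℂ) K]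
    (v : DVal K) : False := by
  obtain ⟨f, hf, h1⟩ := v.surj
  obtain ⟨a, b, hb, rfl⟩ := exists_frac (MvPolynomial (Fin 0) ℂ) f
  obtain ⟨a0, rfl⟩ : ∃ a0, a = MvPolynomial.C a0 := ⟨_, MvPolynomial.eq_C_of_isEmpty a⟩
  obtain ⟨b0, rfl⟩ : ∃ b0, b = MvPolynomial.C b0 := ⟨_, MvPolynomial.eq_C_of_isEmpty b⟩
  rw [← jo_apply, ← jo_apply, jo_C, jo_C, ← map_div₀] at h1 hf
  have h2 : a0 / b0 ≠ 0 := by
    intro h0
    rw [h0, map_zero] at hf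
    exact hf rfl
  rw [v.const _ h2] at h1
  exact absurd h1 (by norm_num)

variable {n : ℕ} {K : Type} [Field K] [Algebra ℂ K]
  [Algebra (MvPolynomial (Fin n) ℂ) K] [IsFractionRing (MvPolynomial (Fin n) ℂ) K]
  [IsScalarTower ℂ (MvPolynomial (Fin n) ℂ) K]

variable {g : ToricGerm n K} {B : EffDiv g.X}

/-- `σ` is an automorphism of the variety `X` which preserves log discrepancies: `v` is a divisor over
the closed point `x` with log discrepancy `b` if and only if `v ∘ σ` is one over the image of `x`. -/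
def IsAut (E : ∀ x : Pt g.X, LocEq B x) (σ : K ≃ₐ[ℂ] K) : Prop :=
  (∀ f, σ f ∈ g.X.R ↔ f ∈ g.X.R) ∧
  ∀ x x' : Pt g.X, (∀ f f' : g.X.R, (f' : K) = σ f → x' f = x f') → ∀ (v : DVal K) (b : ℝ),
    IsOverGerm x v ∧ IsLogDisc (E x) v b ↔ IsOverGerm x' (tw v σ) ∧ IsLogDisc (E x') (tw v σ) b

/-- the point `f ↦ x (σ f)` -/
noncomputable def mvp (σ : K ≃ₐ[ℂ] K) (h : ∀ f, σ f ∈ g.X.R ↔ f ∈ g.X.R) (x : Pt g.X) : Pt g.X :=
  x.comp (((σ : K →ₐ[ℂ] K).comp g.X.R.val).codRestrict g.X.R fun f => (h f).2 f.2)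

theorem mvp_spec (σ : K ≃ₐ[ℂ] K) (h : ∀ f, σ f ∈ g.X.R ↔ f ∈ g.X.R) (x : Pt g.X)
    (f f' : g.X.R) (hf : (f' : K) = σ f) : mvp σ h x f = x f' := by
  have h1 : f' = ⟨σ f, (h f).2 f.2⟩ := Subtype.ext hf
  rw [h1]
  rfl

variable {E : ∀ x : Pt g.X, LocEq B x}

theorem IsAut.inv {σ : K ≃ₐ[ℂ] K} (h : IsAut E σ) : IsAut E σ⁻¹ := by
  have e1 : ∀ f, σ (σ⁻¹ f) = f := fun f => by
    rw [← AlgEquiv.mul_apply, mul_inv_cancel, AlgEquiv.one_apply]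
  refine ⟨fun f => ?_, fun x x' hxx v b => ?_⟩
  · have h1 := h.1 (σ⁻¹ f)
    rw [e1] at h1
    exact h1.symm
  · have h1 := h.2 x' x (fun f f' hff => (hxx f' f (by
      rw [hff, ← AlgEquiv.mul_apply, inv_mul_cancel, AlgEquiv.one_apply])).symm) (tw v σ⁻¹) b
    rw [tw_tw, inv_mul_cancel, tw_one] at h1
    exact h1.symm

theorem IsAut.mul {σ τ : K ≃ₐ[ℂ] K} (h : IsAut E σ) (h' : IsAut E τ) : IsAut E (σ * τ) := by
  refine ⟨fun f => (h.1 (τ f)).trans (h'.1 f), fun x x' hxx v b => ?_⟩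
  refine (h.2 x (mvp σ h.1 x) (mvp_spec σ h.1 x) v b).trans ?_
  refine h'.2 (mvp σ h.1 x) x' (fun f f' hff => ?_) (tw v σ) b
  have h1 : x' f = x ⟨σ f', (h.1 _).2 f'.2⟩ := by
    refine hxx f ⟨σ f', (h.1 _).2 f'.2⟩ ?_
    change σ (f' : K) = σ (τ f)
    rw [hff]
  rw [h1]
  rfl

section mono

variable {τ : K ≃ₐ[ℂ] K} {W : (Fin n → ℤ) →+ (Fin n → ℤ)} {l : (Fin n → ℤ) → ℂ}

theorem Cn_of_mem {m : Fin n → ℤ} (h : ym K m ∈ g.X.R) : m ∈ Cn g.E := by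
  intro i
  obtain ⟨v, hv, ht⟩ := exists_mon (K := K) (g.prim i)
  have h1 := (ToricGerm.local_E hv ht).1 _ h
  have h2 := v.ord_nonneg (ym_ne m) h1
  rwa [ord_ym, ht] at h2

theorem W_Cn' (hmo : Mo τ W l) (h : ∀ f, τ f ∈ g.X.R ↔ f ∈ g.X.R) {m : Fin n → ℤ}
    (hm : m ∈ Cn g.E) : W m ∈ Cn g.E := by
  apply Cn_of_mem (K := K)
  have h1 := (h (ym K m)).2 (ym_mem hm)
  rw [hmo.2] at h1
  have h2 := g.X.R.mul_mem (g.X.R.algebraMap_mem (l m)⁻¹) h1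
  rwa [← mul_assoc, ← map_mul, inv_mul_cancel₀ (hmo.1 m), map_one, one_mul] at h2

theorem cone_aut (hmo : Mo τ W l) (h : ∀ f, τ f ∈ g.X.R ↔ f ∈ g.X.R) (u : Fin n → ℤ)
    (hu : g.InCone u) : g.InCone (adj W u) := fun m hm => by
  rw [pr_adj]
  exact hu _ (W_Cn' hmo h hm)

theorem fixP (hmo : Mo τ W l) (h : ∀ f, τ f ∈ g.X.R ↔ f ∈ g.X.R) (f f' : g.X.R)
    (hf : (f' : K) = τ f) : g.P f = g.P f' := by
  have key : ∀ y : K, y ∈ Submodule.span ℂ (ym K '' Cn g.E) → ∀ (hy : y ∈ g.X.R)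
      (hy' : τ y ∈ g.X.R), g.P ⟨y, hy⟩ = g.P ⟨τ y, hy'⟩ := by
    intro y hy
    have hmem : ∀ y, y ∈ Submodule.span ℂ (ym K '' Cn g.E) → y ∈ g.X.R := by
      intro y hy
      rw [← g.span_eq] at hy
      exact hy
    induction hy using Submodule.span_induction with
    | mem y hy =>
      intro hy1 hy2
      obtain ⟨m, hm, rfl⟩ := hy
      by_cases h0 : m = 0
      · subst h0
        have e1 : (⟨ym K (0 : Fin n → ℤ), hy1⟩ : g.X.R) = 1 := Subtype.ext ym_zero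
        have e2 : (⟨τ (ym K (0 : Fin n → ℤ)), hy2⟩ : g.X.R) = 1 := Subtype.ext (by
          change τ (ym K (0 : Fin n → ℤ)) = 1
          rw [ym_zero, map_one])
        rw [e1, e2]
      · have hWm := W_Cn' hmo h hm
        have hW0 : W m ≠ 0 := by
          intro h1
          have h2 := hmo.2 m
          rw [h1, ym_zero, mul_one, ← AlgEquiv.commutes τ (l m)] at h2
          have h3 := τ.injective h2
          have h4 : algebraMap ℂ K 1 * ym K m = algebraMap ℂ K (l m) * ym K (0 : Fin n → ℤ) := by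
            rw [map_one, one_mul, ym_zero, mul_one, h3]
          exact h0 (ym_uniq one_ne_zero (hmo.1 m) h4).1
        rw [g.hP _ m hm h0 rfl]
        have e2 : (⟨τ (ym K m), hy2⟩ : g.X.R) = algebraMap ℂ g.X.R (l m) *
            ⟨ym K (W m), ym_mem hWm⟩ := Subtype.ext (hmo.2 m)
        rw [e2, map_mul, g.hP ⟨ym K (W m), ym_mem hWm⟩ (W m) hWm hW0 rfl, mul_zero]
    | zero =>
      intro hy1 hy2
      have e1 : (⟨0, hy1⟩ : g.X.R) = 0 := rfl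
      have e2 : (⟨τ 0, hy2⟩ : g.X.R) = 0 := Subtype.ext (map_zero τ)
      rw [e1, e2]
    | add a b ha hb iha ihb =>
      intro hy1 hy2
      have e1 : (⟨a + b, hy1⟩ : g.X.R) = ⟨a, hmem a ha⟩ + ⟨b, hmem b hb⟩ := rfl
      have e2 : (⟨τ (a + b), hy2⟩ : g.X.R) = ⟨τ a, (h a).2 (hmem a ha)⟩ +
          ⟨τ b, (h b).2 (hmem b hb)⟩ := Subtype.ext (map_add τ a b)
      rw [e1, e2, map_add, map_add, iha, ihb]
    | smul a b hb ihb =>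
      intro hy1 hy2
      have e1 : (⟨a • b, hy1⟩ : g.X.R) = a • ⟨b, hmem b hb⟩ := rfl
      have e2 : (⟨τ (a • b), hy2⟩ : g.X.R) = a • ⟨τ b, (h b).2 (hmem b hb)⟩ :=
        Subtype.ext (map_smul τ a b)
      rw [e1, e2, map_smul, map_smul, ihb]
  have h1 := key f (by rw [← g.span_eq]; exact f.2) f.2 ((h f).2 f.2)
  have h2 : f' = ⟨τ f, (h f).2 f.2⟩ := Subtype.ext hf
  rw [h2]
  exact h1

theorem IsAut.pair (h : IsAut E τ) (hmo : Mo τ W l) : IsPairAut (E g.P) τ := fun v b =>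
  h.2 g.P g.P (fixP hmo h.1) v b

end mono

theorem Nb.pull {σ : K ≃ₐ[ℂ] K} (h : ∀ f, σ f ∈ g.X.R ↔ f ∈ g.X.R) {x : Pt g.X}
    {P : Pt g.X → Prop} (hP : Nb (mvp σ h x) P) : Nb x fun x' => P (mvp σ h x') := by
  obtain ⟨f, hf, hfP⟩ := hP
  exact ⟨⟨σ f, (h f).2 f.2⟩, hf, fun x' hx' => hfP _ hx'⟩

/-- the conjugate group -/
def cg (G : Subgroup (K ≃ₐ[ℂ] K)) (γ : K ≃ₐ[ℂ] K) : Subgroup (K ≃ₐ[ℂ] K) :=
  G.comap (MulAut.conj γ).toMonoidHom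

theorem mem_cg {G : Subgroup (K ≃ₐ[ℂ] K)} {γ δ : K ≃ₐ[ℂ] K} : δ ∈ cg G γ ↔ γ * δ * γ⁻¹ ∈ G :=
  Iff.rfl

theorem cg_finite (G : Subgroup (K ≃ₐ[ℂ] K)) [Finite G] (γ : K ≃ₐ[ℂ] K) : Finite (cg G γ) := by
  refine Finite.of_injective (fun δ : cg G γ => (⟨γ * δ.1 * γ⁻¹, mem_cg.1 δ.2⟩ : G)) ?_
  intro δ δ' h
  have h1 := congrArg Subtype.val h
  exact Subtype.ext (mul_left_cancel (mul_right_cancel h1))

theorem card_cg (G : Subgroup (K ≃ₐ[ℂ] K)) (γ : K ≃ₐ[ℂ] K) (v : DVal K) :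
    Nat.card (cg G γ ⊓ Ig v : Subgroup (K ≃ₐ[ℂ] K)) =
      Nat.card (G ⊓ Ig (tw v γ⁻¹) : Subgroup (K ≃ₐ[ℂ] K)) := by
  refine Nat.card_congr
    { toFun := fun δ => ⟨γ * δ.1 * γ⁻¹, mem_cg.1 δ.2.1, ?_⟩
      invFun := fun σ => ⟨γ⁻¹ * σ.1 * γ, mem_cg.2 ?_, ?_⟩
      left_inv := fun δ => Subtype.ext ?_
      right_inv := fun σ => Subtype.ext ?_ }
  · have h1 := tw_InI (γ := γ⁻¹) (mem_Ig.1 δ.2.2)
    rw [inv_inv] at h1
    exact h1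
  · have h1 : γ * (γ⁻¹ * σ.1 * γ) * γ⁻¹ = σ.1 := by group
    rw [h1]
    exact σ.2.1
  · have h1 := tw_InI (γ := γ) (mem_Ig.1 σ.2.2)
    rw [tw_tw, inv_mul_cancel, tw_one] at h1
    exact h1
  · change γ⁻¹ * (γ * δ.1 * γ⁻¹) * γ = δ.1
    group
  · change γ * (γ⁻¹ * σ.1 * γ) * γ⁻¹ = σ.1
    group

theorem lsc_aut (htor : ∀ v : DVal K, (∀ i : Fin n, v.ord (cv K i) = 0) → B.mult v = 0)
    (G : Subgroup (K ≃ₐ[ℂ] K)) [Finite G] (hG : ∀ σ ∈ G, IsAut E σ)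
    (hconj : ∀ σ ∈ G, ∃ γ, IsAut E γ ∧ IsMono n (γ⁻¹ * σ * γ)) (x : Pt g.X) :
    Nb x fun x' => ∀ m : ℝ, 0 ≤ m →
      (∀ v b, IsOverGerm x v → IsLogDisc (E x) v b →
        m ≤ b / Nat.card (G ⊓ Ig v : Subgroup (K ≃ₐ[ℂ] K))) →
      ∀ v b, IsOverGerm x' v → IsLogDisc (E x') v b →
        m ≤ b / Nat.card (G ⊓ Ig v : Subgroup (K ≃ₐ[ℂ] K)) := by
  classical
  rcases Nat.eq_zero_or_pos n with hn | hn
  · subst hn
    exact Nb.all fun _ _ _ _ v _ _ _ => (no_dval v).elim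
  obtain ⟨R, hR, hRW⟩ := exists_R n
  have hB : CoeffIn B (Set.Ici 0) := fun v _ _ => mult_nonneg B v
  obtain ⟨Φ, vE, hΦ, hvE, htE, hΦE⟩ := exists_phi2 (E g.P) hB htor
  choose γ hγ hmono using fun σ : G => hconj σ.1 σ.2
  choose W l hmo using fun σ : G => exists_mo (hmono σ)
  have hτ : ∀ σ : G, IsAut E ((γ σ)⁻¹ * σ.1 * γ σ) := fun σ =>
    ((hγ σ).inv.mul (hG σ.1 σ.2)).mul (hγ σ)
  have hfin : ∀ σ : G, ((γ σ)⁻¹ * σ.1 * γ σ) ^ Nat.card G = 1 := by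
    intro σ
    have h1 : σ ^ Nat.card G = 1 := pow_card_eq_one'
    have h2 : ((σ ^ Nat.card G : G) : K ≃ₐ[ℂ] K) = 1 := by rw [h1]; rfl
    rw [Subgroup.coe_pow] at h2
    have h3 := conj_pow (i := Nat.card G) (a := (γ σ)⁻¹) (b := σ.1)
    rw [inv_inv] at h3
    rw [h3, h2, mul_one, inv_mul_cancel]
  have hc : 0 < Nat.card G := Nat.card_pos
  have hit : ∀ (σ : G) m, (W σ)^[Nat.card G] m = m := fun σ => (hmo σ).iter_eq (hfin σ)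
  have hcone : ∀ σ : G, (∀ u, g.InCone u → g.InCone (adj (W σ) u)) ∧
      ∀ u, g.InCone u → Φ (adj (W σ) u) = Φ u := fun σ =>
    phi_inv hΦ (hmo σ) ((hτ σ).pair (hmo σ)) hc (hit σ) hn (inter_sum g)
  refine (Nb.finite fun σ : G => Nb.pull (hγ σ).1 (nb_main (l := l σ) (hmo σ).1 (hcone σ).1 hR
    (hRW (W σ) _ hc (hit σ)) (mvp (γ σ) (hγ σ).1 x))).mono ?_
  intro x' hx' m hm0 hm v b hov hb
  obtain ⟨hr, σ, hσG, hI, hσr, hch⟩ := exists_gen G v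
  rw [ee_root] at hch
  set σ' : G := ⟨σ, hσG⟩ with hσ'
  obtain ⟨hxx, hfx⟩ := hx' σ'
  have hI' := tw_InI (γ := γ σ') hI
  have hch' := tw_Ch (γ := γ σ') hch
  obtain ⟨hov', hb'⟩ := ((hγ σ').2 x' (mvp (γ σ') (hγ σ').1 x') (mvp_spec _ _ _) v b).1 ⟨hov, hb⟩
  have hfix' : Fixes (mvp (γ σ') (hγ σ').1 x') (W σ') (l σ') :=
    fixes_of_InI (hmo σ') (hcone σ').1 hov' hI'
  obtain ⟨hfix, hchar⟩ := hfx hfix'
  have hfinite := cg_finite G (γ σ')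
  refine lsc_one (G := cg G (γ σ')) hR hn hΦ hvE htE hΦE (fun i => mult_nonneg B (vE i)) htor
    (E (mvp (γ σ') (hγ σ').1 x)) (E (mvp (γ σ') (hγ σ').1 x')) hov' hb' hr ?_ hI' ?_ hch'
    (hmo σ') (hRW (W σ') _ hc (hit σ')) (hcone σ').1 (hcone σ').2 hxx hfix hchar hm0 ?_
  · rw [mem_cg]
    have h1 : γ σ' * ((γ σ')⁻¹ * σ * γ σ') * (γ σ')⁻¹ = σ := by group
    rw [h1]
    exact hσG
  · have h3 := conj_pow (i := Nat.card (G ⊓ Ig v : Subgroup (K ≃ₐ[ℂ] K))) (a := (γ σ')⁻¹) (b := σ)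
    rw [inv_inv] at h3
    rw [h3, hσr, mul_one, inv_mul_cancel]
  · intro v b h1 h2
    have h3 := (hγ σ').2 x (mvp (γ σ') (hγ σ').1 x) (mvp_spec _ _ _) (tw v (γ σ')⁻¹) b
    rw [tw_tw, inv_mul_cancel, tw_one] at h3
    obtain ⟨h4, h5⟩ := h3.2 ⟨h1, h2⟩
    rw [card_cg]
    exact hm _ _ h4 h5

open Classical in
/-- the minimal log discrepancy at the image of `x` of the quotient by `G` -/
noncomputable def qmld (E : ∀ x : Pt g.X, LocEq B x)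
    (G : Subgroup (K ≃ₐ[ℂ] K)) (x : Pt g.X) : EReal :=
  if (sInf {a : EReal | ∃ (v : DVal K) (b : ℝ), IsOverGerm x v ∧ IsLogDisc (E x) v b ∧
    a = ((b / Nat.card {σ : G // ∀ f, v.Reg f → v.Pos ((σ : K ≃ₐ[ℂ] K) f - f)} : ℝ) : EReal)}) < 0
  then ⊥
  else sInf {a : EReal | ∃ (v : DVal K) (b : ℝ), IsOverGerm x v ∧ IsLogDisc (E x) v b ∧
    a = ((b / Nat.card {σ : G // ∀ f, v.Reg f → v.Pos ((σ : K ≃ₐ[ℂ] K) f - f)} : ℝ) : EReal)}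

theorem lsc_mld (htor : ∀ v : DVal K, (∀ i : Fin n, v.ord (cv K i) = 0) → B.mult v = 0)
    (G : Subgroup (K ≃ₐ[ℂ] K)) [Finite G] (hG : ∀ σ ∈ G, IsAut E σ)
    (hconj : ∀ σ ∈ G, ∃ γ, IsAut E γ ∧ IsMono n (γ⁻¹ * σ * γ))
    (x : Pt g.X) : ∃ f : g.X.R, x f ≠ 0 ∧ ∀ x' : Pt g.X, x' f ≠ 0 → qmld E G x ≤ qmld E G x' := by
  refine (lsc_aut (E := E) htor G hG hconj x).mono ?_
  intro x' key
  rw [qmld]
  split_ifs with h1
  · exact bot_le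
  push Not at h1
  set i := sInf {a : EReal | ∃ (v : DVal K) (b : ℝ), IsOverGerm x v ∧ IsLogDisc (E x) v b ∧
    a = ((b / Nat.card {σ : G // ∀ f, v.Reg f → v.Pos ((σ : K ≃ₐ[ℂ] K) f - f)} : ℝ) : EReal)}
    with hi
  have hval : ∀ v b, IsOverGerm x v → IsLogDisc (E x) v b →
      i ≤ ((b / Nat.card (G ⊓ Ig v : Subgroup (K ≃ₐ[ℂ] K)) : ℝ) : EReal) := by
    intro v b hv hb
    rw [← card_inert]
    exact sInf_le ⟨v, b, hv, hb, rfl⟩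
  have hle : i ≤ sInf {a : EReal | ∃ (v : DVal K) (b : ℝ), IsOverGerm x' v ∧
      IsLogDisc (E x') v b ∧
      a = ((b / Nat.card {σ : G // ∀ f, v.Reg f → v.Pos ((σ : K ≃ₐ[ℂ] K) f - f)} : ℝ) :
        EReal)} := by
    refine le_sInf ?_
    rintro _ ⟨v, b, hv, hb, rfl⟩
    rw [card_inert, ← EReal.ge_of_forall_gt_iff_ge]
    intro z hz
    rcases le_total 0 z with h0 | h0
    · have h2 := key z h0 (fun v b hv hb => by
        have h3 := hz.le.trans (hval v b hv hb)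
        exact_mod_cast h3) v b hv hb
      exact_mod_cast h2
    · have h2 := key 0 le_rfl (fun v b hv hb => by
        have h3 := h1.trans (hval v b hv hb)
        exact_mod_cast h3) v b hv hb
      have h3 : z ≤ b / Nat.card (G ⊓ Ig v : Subgroup (K ≃ₐ[ℂ] K)) := h0.trans h2
      exact_mod_cast h3
  rw [qmld, if_neg (not_lt.2 (h1.trans hle))]
  exact hle

end Q47.QM
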