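import Pool.Agent.Q47.QM.Disc

/-!
# Log discrepancies for torus invariant boundaries, with the values at the rays
-/

set_option autoImplicit false
set_option linter.unusedSectionVars false

namespace Q47.QM

open Pool.Agent.H436R3.Fol Pool.Agent.H436R3.KT Pool.Agent.W497.Mld Pool.Agent.TH165.ACC

variable {n : ℕ} {K : Type} [Field K] [Algebra ℂ K]
  [Algebra (MvPolynomial (Fin n) ℂ) K] [IsFractionRing (MvPolynomial (Fin n) ℂ) K]
  [IsScalarTower ℂ (MvPolynomial (Fin n) ℂ) K]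

variable {g : ToricGerm n K}

theorem exists_phi2 {B : EffDiv g.X} (e : LocEq B g.P) {Γ : Set ℝ} (hB : CoeffIn B Γ)
    (htor : ∀ v : DVal K, (∀ i : Fin n, v.ord (cv K i) = 0) → B.mult v = 0) :
    ∃ (Φ : (Fin n → ℤ) → ℝ) (vE : Fin g.N → DVal K), LDF e Γ Φ ∧ (∀ i, IsMonomial n (vE i)) ∧
      (∀ i, (tv (vE i) : Fin n → ℤ) = g.E i) ∧ ∀ i, Φ (g.E i) = 1 - B.mult (vE i) := by
  classical
  choose vE hvE htE using fun i => exists_mon (K := K) (g.prim i)
  obtain ⟨F, c, hFp, hFd, hc⟩ := fact (n := n) e.ρ e.g e.ne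
  set β : Fin g.N → ℝ := fun i => B.mult (vE i) with hβ
  have h1 : ∀ i, -1 + β i = ∑ p ∈ F, c p * ((vE i).ord (jo (Fin n) K p) : ℝ) := by
    intro i
    obtain ⟨b, hb, h2⟩ := e.eq (vE i) (ToricGerm.onAt_E (hvE i) (htE i))
    have h3 : b = -1 := hb.unique (can_mon g.e g.hT (hvE i))
    rw [← hc, ← h2, h3]
    push_cast
    rfl
  have h2 : ∀ p ∈ F, Thr g p → c p = 0 := by
    rintro p hp ⟨hpp, hcv, hon⟩
    obtain ⟨b, hb, h3⟩ := e.eq _ hon
    have hL := g.local_prime hpp hcv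
    have h4 : b = 0 := hb.unique (can_unit g.e g.hT (by rw [← g.hR]; exact hL) hcv)
    have h5 : ∑ q ∈ F, c q * ((valP K p hpp).ord (jo (Fin n) K q) : ℝ) = c p := by
      rw [Finset.sum_eq_single p]
      · rw [valP_self]; push_cast; ring
      · intro q hq hqp
        rw [valP_other hpp (hFp q hq).ne_zero fun h => hqp (hFd p hp q hq h).symm]
        push_cast; ring
      · intro h; exact absurd hp h
    rw [hc, h5, h4, Int.cast_zero, zero_add, htor _ hcv] at h3
    exact h3.symm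
  let Fw : (Fin g.N → ℝ) → ℝ := fun w => ∑ i, w i * (1 - β i)
  have hFs : ∀ (t : ℝ) w, Fw (t • w) = t * Fw w := by
    intro t w
    simp only [Fw, Finset.mul_sum]
    exact Finset.sum_congr rfl fun i _ => by rw [Pi.smul_apply, smul_eq_mul]; ring
  have hmon : ∀ v : DVal K, IsMonomial n v → ∀ w : Fin g.N → ℝ, (∀ i, 0 ≤ w i) →
      Coord g.E w (tv v) → ∑ k, e.ρ k * (v.ord (e.g k) : ℝ) = -Fw w := by
    intro v hv w hw hco
    rw [hc]
    have h3 : ∀ p ∈ F, c p * (v.ord (jo (Fin n) K p) : ℝ) =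
        ∑ i, w i * (c p * ((vE i).ord (jo (Fin n) K p) : ℝ)) := by
      intro p hp
      by_cases h4 : Thr g p
      · rw [h2 p hp h4, zero_mul]
        exact (Finset.sum_eq_zero fun i _ => by rw [zero_mul, mul_zero]).symm
      · rw [lin_of_not_thr (a := id) hvE htE (hFp p hp) h4 hv hw hco, Finset.mul_sum]
        exact Finset.sum_congr rfl fun i _ => by ring
    rw [Finset.sum_congr rfl h3, Finset.sum_comm]
    simp only [Fw]
    rw [← Finset.sum_neg_distrib]
    refine Finset.sum_congr rfl fun i _ => ?_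
    rw [← Finset.mul_sum, ← h1]
    ring
  have hsc : ∀ (k : ℤ) (u' : Fin n → ℤ) (w : Fin g.N → ℝ), 0 < k → Coord g.E w (k • u') →
      Coord g.E ((k : ℝ)⁻¹ • w) u' := by
    intro k u' w hk hco j
    have h3 := hco j
    have hk' : (0 : ℝ) < k := by exact_mod_cast hk
    simp only [Pi.smul_apply, smul_eq_mul] at h3 ⊢
    push_cast at h3
    have h4 : ∑ i, (k : ℝ)⁻¹ * w i * (g.E i j : ℝ) = (k : ℝ)⁻¹ * ∑ i, w i * (g.E i j : ℝ) := by
      rw [Finset.mul_sum]
      exact Finset.sum_congr rfl fun i _ => by ring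
    rw [h4, h3]
    field_simp
  have hwell : ∀ (u : Fin n → ℤ) (w w' : Fin g.N → ℝ), (∀ i, 0 ≤ w i) → (∀ i, 0 ≤ w' i) →
      Coord g.E w u → Coord g.E w' u → Fw w = Fw w' := by
    intro u w w' hw hw' hco hco'
    by_cases hu : u = 0
    · obtain ⟨Q, hQ⟩ := g.pointed
      have h0 : ∀ w : Fin g.N → ℝ, (∀ i, 0 ≤ w i) → Coord g.E w u → Fw w = 0 := by
        intro w hw hco
        have h3 := coord_pr hco Q
        have h4 : pr Q u = 0 := by rw [hu, pr]; simp
        rw [h4, Int.cast_zero] at h3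
        have h5 := (Finset.sum_eq_zero_iff_of_nonneg fun i _ =>
          mul_nonneg (hw i) (by exact_mod_cast (hQ i).le)).1 h3.symm
        refine Finset.sum_eq_zero fun i _ => ?_
        have h6 := h5 i (Finset.mem_univ i)
        have h7 : ((pr Q (g.E i) : ℤ) : ℝ) ≠ 0 := by exact_mod_cast (hQ i).ne'
        rw [(mul_eq_zero.1 h6).resolve_right h7, zero_mul]
      rw [h0 w hw hco, h0 w' hw' hco']
    · obtain ⟨k, u', hk, hu', rfl⟩ := exists_prim hu
      obtain ⟨v, hv, rfl⟩ := exists_mon (K := K) hu'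
      have hk' : (0 : ℝ) < k := by exact_mod_cast hk
      have h3 := hmon v hv ((k : ℝ)⁻¹ • w) (fun i => mul_nonneg (inv_pos.2 hk').le (hw i))
        (hsc k _ w hk hco)
      have h4 := hmon v hv ((k : ℝ)⁻¹ • w') (fun i => mul_nonneg (inv_pos.2 hk').le (hw' i))
        (hsc k _ w' hk hco')
      rw [hFs] at h3 h4
      have h5 : (k : ℝ)⁻¹ * Fw w = (k : ℝ)⁻¹ * Fw w' := by linarith
      exact mul_left_cancel₀ (inv_pos.2 hk').ne' h5
  let Φ : (Fin n → ℤ) → ℝ := fun u =>
    if h : ∃ w : Fin g.N → ℝ, (∀ i, 0 ≤ w i) ∧ Coord g.E w u then Fw h.choose else 0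
  have hΦ : ∀ (w : Fin g.N → ℝ) (u : Fin n → ℤ), (∀ i, 0 ≤ w i) → Coord g.E w u →
      Φ u = Fw w := by
    intro w u hw hco
    have h3 : ∃ w : Fin g.N → ℝ, (∀ i, 0 ≤ w i) ∧ Coord g.E w u := ⟨w, hw, hco⟩
    simp only [Φ]
    rw [dif_pos h3]
    exact hwell u _ _ h3.choose_spec.1 hw h3.choose_spec.2 hco
  have hΦE : ∀ i, Φ (g.E i) = 1 - β i := by
    intro i
    rw [hΦ (Pi.single i 1) (g.E i) (fun j => by
      by_cases h : j = i
      · subst h; simp
      · simp [h]) (fun k => by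
      rw [Finset.sum_eq_single i]
      · simp
      · intro j _ hj
        simp [hj]
      · intro h; exact absurd (Finset.mem_univ _) h)]
    simp only [Fw]
    rw [Finset.sum_eq_single i]
    · simp
    · intro j _ hj
      simp [hj]
    · intro h; exact absurd (Finset.mem_univ _) h
  refine ⟨Φ, vE, ⟨fun w u hw hco => ?_, fun i => ⟨β i, ?_, hΦE i⟩, fun v hov m => ?_⟩, hvE, htE, hΦE⟩
  · rw [hΦ w u hw hco]
    exact Finset.sum_congr rfl fun i _ => by rw [hΦE]
  · by_cases h : β i = 0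
    · rw [h]; exact Set.mem_insert _ _
    · exact Set.mem_insert_of_mem _ (hB _ (ToricGerm.local_E (hvE i) (htE i)) h)
  · have hint := ToricGerm.inter_of_over (n := n) hov
    obtain ⟨k, u', hk, hu', htv'⟩ := exists_prim (ne_zero_of_inter hint)
    obtain ⟨v', hv', rfl⟩ := exists_mon (K := K) hu'
    have hk' : (0 : ℝ) < k := by exact_mod_cast hk
    have hcone' : g.InCone (tv v') := by
      intro r hr
      have h3 := hint.inCone r hr
      rw [htv', pr_smul_right] at h3
      exact nonneg_of_mul_nonneg_right h3 hk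
    obtain ⟨w, hw, hco⟩ := exists_coord hcone'
    have h3 := hmon v' hv' w hw hco
    have h4 : ∑ j, e.ρ j * (v.ord (e.g j) : ℝ) = k * ∑ j, e.ρ j * (v'.ord (e.g j) : ℝ) := by
      rw [hc, hc, Finset.mul_sum]
      refine Finset.sum_congr rfl fun p hp => ?_
      by_cases h5 : Thr g p
      · rw [h2 p hp h5]; ring
      · rw [eq_of_not_thr hov hv' hcone' hk htv' (hFp p hp) h5]
        push_cast
        ring
    have h5 : Φ (tv v) = k * Fw w := by
      rw [hΦ ((k : ℝ) • w) (tv v) (fun i => mul_nonneg hk'.le (hw i)) (fun j => by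
        have h6 := hco j
        rw [htv']
        simp only [Pi.smul_apply, smul_eq_mul]
        push_cast
        rw [← h6, Finset.mul_sum]
        exact Finset.sum_congr rfl fun i _ => by ring), hFs]
    constructor
    · rintro ⟨a, ha, rfl⟩
      exact ⟨a, ha, by rw [h4, h3, h5]; ring⟩
    · rintro ⟨a, ha, rfl⟩
      exact ⟨a, ha, by rw [h4, h3, h5]; ring⟩


end Q47.QM
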