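import Pool.Agent.Q47.QM.Face

/-!
# Eigenbases adapted to a face
-/

set_option autoImplicit false
set_option linter.unusedSectionVars false

namespace Q47.QM

open Pool.Agent.H436R3.Fol Pool.Agent.H436R3.KT Pool.Agent.W497.Mld Pool.Agent.TH165.ACC

variable {n : ℕ}

theorem pr_comm (m u : Fin n → ℤ) : pr m u = pr u m :=
  Finset.sum_congr rfl fun _ _ => mul_comm _ _

theorem cst_add (a b : Fin n → ℤ) : cst (a + b) = cst a + cst b := by
  funext i; simp [cst]

theorem cst_sub (a b : Fin n → ℤ) : cst (a - b) = cst a - cst b := by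
  funext i; simp [cst]

theorem cst_smul (a : ℤ) (b : Fin n → ℤ) : cst (a • b) = (a : ℂ) • cst b := by
  funext i; simp [cst]

/-- one equation drops the dimension by at most one -/
theorem drop {N : ℕ} {E : Fin N → Fin n → ℤ} {P : Set (Fin n → ℤ)}
    (hP : ∀ a b : ℤ, ∀ u ∈ P, ∀ u' ∈ P, a • u - b • u' ∈ P) (S : Finset (Fin N)) (i : Fin N) :
    dF P E S ≤ dF P E (insert i S) + 1 := by
  classical
  by_cases h : ∀ m ∈ P, (∀ j ∈ S, pr m (E j) = 0) → pr m (E i) = 0
  · have h1 : {m | m ∈ P ∧ ∀ j ∈ S, pr m (E j) = 0} =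
        {m | m ∈ P ∧ ∀ j ∈ insert i S, pr m (E j) = 0} := by
      ext m
      simp only [Set.mem_ofPred_eq, Finset.mem_insert, forall_eq_or_imp]
      constructor
      · rintro ⟨h2, h3⟩
        exact ⟨h2, h m h2 h3, h3⟩
      · rintro ⟨h2, -, h3⟩
        exact ⟨h2, h3⟩
    rw [dF, dF, h1]
    omega
  · push Not at h
    obtain ⟨u0, hu0, hu0S, hu0i⟩ := h
    have h1 : Submodule.span ℂ (cst '' {m | m ∈ P ∧ ∀ j ∈ S, pr m (E j) = 0}) ≤
        Submodule.span ℂ (cst '' {m | m ∈ P ∧ ∀ j ∈ insert i S, pr m (E j) = 0}) ⊔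
          Submodule.span ℂ {cst u0} := by
      rw [Submodule.span_le]
      rintro _ ⟨u, ⟨hu, huS⟩, rfl⟩
      set a := pr u0 (E i) with ha
      have ha' : (a : ℂ) ≠ 0 := by exact_mod_cast hu0i
      have h2 : a • u - (pr u (E i)) • u0 ∈ {m | m ∈ P ∧ ∀ j ∈ insert i S, pr m (E j) = 0} := by
        refine ⟨hP _ _ _ hu _ hu0, fun j hj => ?_⟩
        rw [pr_sub, pr_smul, pr_smul]
        rcases Finset.mem_insert.1 hj with rfl | hj
        · rw [← ha]; ring
        · rw [huS j hj, hu0S j hj]; ring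
      have h3 : cst u = (a : ℂ)⁻¹ • cst (a • u - (pr u (E i)) • u0) +
          ((a : ℂ)⁻¹ * ((pr u (E i) : ℤ) : ℂ)) • cst u0 := by
        rw [cst_sub, cst_smul, cst_smul, smul_sub, smul_smul, smul_smul, inv_mul_cancel₀ ha',
          one_smul, sub_add_cancel]
      rw [SetLike.mem_coe, h3]
      exact Submodule.add_mem_sup (Submodule.smul_mem _ _ (Submodule.subset_span ⟨_, h2, rfl⟩))
        (Submodule.smul_mem _ _ (Submodule.mem_span_singleton_self _))
    have h2 := Submodule.finrank_mono h1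
    have h3 := Submodule.finrank_add_le_finrank_add_finrank
      (Submodule.span ℂ (cst '' {m | m ∈ P ∧ ∀ j ∈ insert i S, pr m (E j) = 0}))
      (Submodule.span ℂ {cst u0})
    have h4 : Module.finrank ℂ (Submodule.span ℂ {cst u0}) ≤ 1 := by
      have := finrank_span_le_card (R := ℂ) ({cst u0} : Set (Fin n → ℂ))
      simpa using this
    rw [dF, dF]
    omega

theorem drop_all {N : ℕ} {E : Fin N → Fin n → ℤ} {P : Set (Fin n → ℤ)}
    (hP : ∀ a b : ℤ, ∀ u ∈ P, ∀ u' ∈ P, a • u - b • u' ∈ P) (S : Finset (Fin N)) :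
    dF P E ∅ ≤ dF P E S + S.card := by
  classical
  induction S using Finset.induction_on with
  | empty => rw [Finset.card_empty, add_zero]
  | insert i S hi ih =>
    have := drop (E := E) hP S i
    rw [Finset.card_insert_of_notMem hi]
    omega

/-- an eigenbasis adapted to a face -/
structure EB2 (W : (Fin n → ℤ) →+ (Fin n → ℤ)) (θ : ℂ) (r : ℕ) (F : Set (Fin n → ℤ)) (c : ℕ)
    (k : Fin n → ℕ) (y : Fin n → Fin n → ℂ) (J : Finset (Fin n)) : Prop where
  eb : EB W θ r k y
  J0 : ∀ j ∈ J, k j = 0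
  Jint : ∀ j ∈ J, ∃ u : Fin n → ℤ, y j = cst u ∧ ∀ m ∈ F, pr m u = 0
  span : ∀ u : Fin n → ℤ, (∀ m, pr (W m) u = pr m u) → (∀ m ∈ F, pr m u = 0) →
    ∃ ρ : Fin n → ℂ, (∀ j, j ∉ J → ρ j = 0) ∧ ∀ m, ∑ j, ρ j * dtc m (y j) = (pr m u : ℂ)
  card : (Finset.univ.filter fun j => k j = 0 ∧ j ∉ J).card ≤ c

theorem exists_eb2 {θ : ℂ} {r : ℕ} (hθ : IsPrimitiveRoot θ r) (hr : 0 < r)
    {W : (Fin n → ℤ) →+ (Fin n → ℤ)} (hW : ∀ m, W^[r] m = m) {F : Set (Fin n → ℤ)}
    (hF : ∀ m ∈ F, avg W r m ∈ F) {c : ℕ}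
    (hc : Module.finrank ℂ (Submodule.span ℂ (cst '' {m | m ∈ F ∧ W m = m})) = c) :
    ∃ k y J, EB2 W θ r F c k y J := by
  classical
  set A := adjH W with hAd
  have hA : ∀ x, A^[r] x = x := adj_iter hW
  let P : Set (Fin n → ℤ) := {u | ∀ m, pr (W m) u = pr m u}
  have hPA : ∀ u, u ∈ P ↔ A u = u := by
    intro u
    constructor
    · intro h
      apply pr_ext
      intro m
      rw [hAd, adjH_apply, pr_adj]
      exact h m
    · intro h m
      rw [← pr_adj, ← adjH_apply, ← hAd, h]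
  have hPs : ∀ a b : ℤ, ∀ u ∈ P, ∀ u' ∈ P, a • u - b • u' ∈ P := by
    intro a b u hu u' hu'
    rw [hPA] at hu hu' ⊢
    rw [map_sub, map_zsmul, map_zsmul, hu, hu']
  let Q : Set (Fin n → ℤ) := {u | u ∈ P ∧ ∀ m ∈ F, pr m u = 0}
  obtain ⟨μ, hμF, hμli⟩ := exists_mu {m | m ∈ F ∧ W m = m}
  have hμspan : Submodule.span ℂ (Set.range fun i => cst (μ i)) =
      Submodule.span ℂ (cst '' {m | m ∈ F ∧ W m = m}) := by
    refine Submodule.eq_of_le_of_finrank_eq ?_ ?_
    · rw [Submodule.span_le]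
      rintro _ ⟨i, rfl⟩
      exact Submodule.subset_span ⟨μ i, hμF i, rfl⟩
    · rw [finrank_span_eq_card hμli, Fintype.card_fin]
  have hQ : {u | u ∈ P ∧ ∀ i ∈ (Finset.univ : Finset (Fin _)), pr u (μ i) = 0} = Q := by
    ext u
    constructor
    · rintro ⟨hu, h⟩
      refine ⟨hu, fun m hm => ?_⟩
      have h1 : cst (avg W r m) ∈ Submodule.span ℂ (Set.range fun i => cst (μ i)) := by
        rw [hμspan]
        exact Submodule.subset_span ⟨_, ⟨hF m hm, avg_fix hW m⟩, rfl⟩
      have h2 : Submodule.span ℂ (Set.range fun i => cst (μ i)) ≤ LinearMap.ker (prc u) := by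
        rw [Submodule.span_le]
        rintro _ ⟨i, rfl⟩
        rw [SetLike.mem_coe, LinearMap.mem_ker, prc_cst, pr_comm, h i (Finset.mem_univ i),
          Int.cast_zero]
      have h3 := LinearMap.mem_ker.1 (h2 h1)
      rw [prc_cst, pr_avg_fix hu] at h3
      have h4 : (r : ℤ) * pr m u = 0 := by exact_mod_cast h3
      exact (mul_eq_zero.1 h4).resolve_left (by exact_mod_cast hr.ne')
    · rintro ⟨hu, h⟩
      exact ⟨hu, fun i _ => by rw [pr_comm]; exact h _ (hμF i).1⟩
  have hdim : Module.finrank ℂ (Submodule.span ℂ (cst '' P)) ≤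
      Module.finrank ℂ (Submodule.span ℂ (cst '' Q)) + c := by
    have h1 := drop_all (E := μ) hPs Finset.univ
    rw [dF, dF, hQ, Finset.card_univ, Fintype.card_fin] at h1
    have h2 : {m | m ∈ P ∧ ∀ i ∈ (∅ : Finset (Fin (Module.finrank ℂ
        (Submodule.span ℂ (cst '' {m | m ∈ F ∧ W m = m}))))), pr m (μ i) = 0} = P := by
      ext m; simp
    rw [h2] at h1
    rw [← hc]
    exact h1
  -- the adapted basis
  obtain ⟨b1, hb1, hb1s, hb1li⟩ := exists_linearIndependent ℂ (cst '' Q)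
  have hQP : cst '' Q ⊆ cst '' P := Set.image_mono fun u hu => hu.1
  obtain ⟨b2, hb2, hb12, hb2s, hb2li'⟩ := exists_linearIndepOn_id_extension (K := ℂ)
    (s := b1) (t := cst '' P) hb1li (hb1.trans hQP)
  have hb2li : LinearIndependent ℂ ((↑) : b2 → Fin n → ℂ) := hb2li'
  let T3 : Set (Fin n → ℂ) := cst '' P ∪ {v | ∃ q < r, 0 < q ∧ wc A v = θ ^ q • v}
  obtain ⟨b3, hb3, hb23, hb3s, hb3li'⟩ := exists_linearIndepOn_id_extension (K := ℂ)
    (s := b2) (t := T3) hb2li (hb2.trans Set.subset_union_left)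
  have hb3li : LinearIndependent ℂ ((↑) : b3 → Fin n → ℂ) := hb3li'
  have hb2span : Submodule.span ℂ b2 = Submodule.span ℂ (cst '' P) :=
    le_antisymm (Submodule.span_mono hb2) (Submodule.span_le.2 hb2s)
  have htop : Submodule.span ℂ b3 = ⊤ := by
    rw [eq_top_iff, ← (Pi.basisFun ℂ (Fin n)).span_eq, Submodule.span_le]
    rintro _ ⟨i, rfl⟩
    have h1 : (Pi.basisFun ℂ (Fin n)) i = cst (Pi.single i 1) := by
      funext j
      rw [Pi.basisFun_apply, cst, Pi.single_apply, Pi.single_apply]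
      split_ifs <;> simp
    rw [h1]
    have h2 := nu_sum hθ hr A (Pi.single i 1)
    have hr' : (r : ℂ) ≠ 0 := by exact_mod_cast hr.ne'
    have h3 : cst (Pi.single i 1) = (r : ℂ)⁻¹ • ∑ k ∈ Finset.range r, nu θ A r k (Pi.single i 1) := by
      rw [h2, smul_smul, inv_mul_cancel₀ hr', one_smul]
    rw [h3]
    refine Submodule.smul_mem _ _ (Submodule.sum_mem _ fun q hq => hb3s ?_)
    rw [Finset.mem_range] at hq
    rcases Nat.eq_zero_or_pos q with rfl | hq0
    · left
      refine ⟨avg A r (Pi.single i 1), (hPA _).2 (avg_fix hA _), ?_⟩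
      rw [nu]
      funext j
      rw [Finset.sum_apply, cst, avg, Finset.sum_apply]
      push_cast
      refine Finset.sum_congr rfl fun s _ => ?_
      rw [zero_mul, pow_zero, one_smul, cst]
    · right
      exact ⟨q, hq, hq0, wc_nu hθ.pow_eq_one (hθ.ne_zero hr.ne') hA _ _⟩
  have hfin3 : Finite b3 := hb3li.setFinite
  have : Fintype b3 := Fintype.ofFinite _
  let B : Module.Basis b3 ℂ (Fin n → ℂ) := Module.Basis.mk hb3li (by
    rw [Subtype.range_coe, htop])
  have hcard : Fintype.card b3 = n := by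
    have := Module.finrank_eq_card_basis B
    rw [Module.finrank_fin_fun] at this
    exact this.symm
  let ε : Fin n ≃ b3 := (Fintype.equivFinOfCardEq hcard).symm
  let y : Fin n → Fin n → ℂ := fun j => (ε j : Fin n → ℂ)
  have hyli : LinearIndependent ℂ y := hb3li.comp ε ε.injective
  have hkex : ∀ j, ∃ q < r, (y j ∈ b2 → q = 0) ∧ (y j ∉ b2 → 0 < q ∧ wc A (y j) = θ ^ q • y j) := by
    intro j
    by_cases hj : y j ∈ b2
    · exact ⟨0, hr, fun _ => rfl, fun h => absurd hj h⟩
    · rcases hb3 (ε j).2 with h | ⟨q, hq, hq0, hqe⟩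
      · exfalso
        apply hj
        have h1 : y j ∈ Submodule.span ℂ b2 := hb2s h
        by_contra hj2
        have h2 := hb3li.notMem_span_image (s := {z : b3 | (z : Fin n → ℂ) ∈ b2}) (x := ε j)
          (by simpa using hj)
        apply h2
        have h3 : (Subtype.val '' {z : b3 | (z : Fin n → ℂ) ∈ b2}) = b2 := by
          ext z
          constructor
          · rintro ⟨z', hz', rfl⟩
            exact hz'
          · intro hz
            exact ⟨⟨z, hb23 hz⟩, hz, rfl⟩
        rw [h3]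
        exact h1
      · exact ⟨q, hq, fun h => absurd h hj, fun _ => ⟨hq0, hqe⟩⟩
  choose k hkr hk1 hk2 using hkex
  have hk0 : ∀ j, k j = 0 ↔ y j ∈ b2 := by
    intro j
    constructor
    · intro h
      by_contra h1
      have := (hk2 j h1).1
      omega
    · exact hk1 j
  have hdet : (Matrix.of y).det ≠ 0 := by
    have h2 : IsUnit (Matrix.of y) := Matrix.linearIndependent_rows_iff_isUnit.1 hyli
    rw [Matrix.isUnit_iff_isUnit_det] at h2
    exact h2.ne_zero
  have heb : EB W θ r k y := by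
    refine ⟨hkr, hdet, fun j m => ?_, fun j hj => ?_⟩
    · rw [← dtc_wc, ← hAd]
      by_cases hj : y j ∈ b2
      · obtain ⟨u, hu, huy⟩ := hb2 hj
        rw [hk1 j hj, pow_zero, one_mul, ← huy, wc_cst, (hPA u).1 hu]
      · rw [(hk2 j hj).2, dtc_smul]
    · obtain ⟨u, hu, huy⟩ := hb2 ((hk0 j).1 hj)
      exact ⟨u, huy.symm⟩
  have hcount : ∀ b : Set (Fin n → ℂ), b ⊆ b3 →
      (Finset.univ.filter fun j => y j ∈ b).card = Module.finrank ℂ (Submodule.span ℂ b) := by
    intro b hb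
    have h1 : LinearIndependent ℂ (fun j : {j // y j ∈ b} => y j.1) :=
      hyli.comp _ Subtype.val_injective
    have h2 := finrank_span_eq_card h1
    have h3 : Set.range (fun j : {j // y j ∈ b} => y j.1) = b := by
      ext z
      constructor
      · rintro ⟨j, rfl⟩
        exact j.2
      · intro hz
        refine ⟨⟨ε.symm ⟨z, hb hz⟩, ?_⟩, ?_⟩
        · change ((ε (ε.symm ⟨z, hb hz⟩) : b3) : Fin n → ℂ) ∈ b
          rw [Equiv.apply_symm_apply]
          exact hz
        · change ((ε (ε.symm ⟨z, hb hz⟩) : b3) : Fin n → ℂ) = z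
          rw [Equiv.apply_symm_apply]
    rw [h3] at h2
    rw [h2, Fintype.card_subtype]
  refine ⟨k, y, Finset.univ.filter fun j => y j ∈ b1, heb, ?_, ?_, ?_, ?_⟩
  · intro j hj
    exact hk1 j (hb12 (Finset.mem_filter.1 hj).2)
  · intro j hj
    obtain ⟨u, hu, huy⟩ := hb1 (Finset.mem_filter.1 hj).2
    exact ⟨u, huy.symm, hu.2⟩
  · intro u hu hu'
    have hdu : IsUnit (Matrix.of y).det := isUnit_iff_ne_zero.2 hdet
    have hu1 : cst u ∈ Submodule.span ℂ b1 := by
      rw [hb1s]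
      exact Submodule.subset_span ⟨u, ⟨hu, hu'⟩, rfl⟩
    let φ : Fin n → (Fin n → ℂ) →ₗ[ℂ] ℂ := fun j =>
      ∑ i, ((Matrix.of y)⁻¹ i j) • LinearMap.proj i
    have hφ : ∀ j ξ, φ j ξ = ∑ i, ξ i * (Matrix.of y)⁻¹ i j := by
      intro j ξ
      simp only [φ]
      rw [LinearMap.sum_apply]
      exact Finset.sum_congr rfl fun i _ => by
        rw [LinearMap.smul_apply, LinearMap.proj_apply, smul_eq_mul]; ring
    have hφy : ∀ j j', φ j (y j') = if j' = j then 1 else 0 := by
      intro j j'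
      rw [hφ]
      have h3 := congrFun (congrFun (Matrix.mul_nonsing_inv _ hdu) j') j
      rw [Matrix.mul_apply, Matrix.one_apply] at h3
      exact h3
    refine ⟨fun j => φ j (cst u), fun j hj => ?_, fun m => ?_⟩
    · have h1 : Submodule.span ℂ b1 ≤ LinearMap.ker (φ j) := by
        rw [Submodule.span_le]
        intro z hz
        rw [SetLike.mem_coe, LinearMap.mem_ker]
        have h2 : z = y (ε.symm ⟨z, hb23 (hb12 hz)⟩) := by
          change z = ((ε (ε.symm ⟨z, _⟩) : b3) : Fin n → ℂ)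
          rw [Equiv.apply_symm_apply]
        rw [h2, hφy, if_neg]
        intro h3
        apply hj
        rw [Finset.mem_filter]
        refine ⟨Finset.mem_univ _, ?_⟩
        rw [← h3, ← h2]
        exact hz
      exact LinearMap.mem_ker.1 (h1 hu1)
    · have h1 : ∀ i, ∑ j, φ j (cst u) * y j i = (u i : ℂ) := by
        intro i
        have h2 : Matrix.vecMul (Matrix.vecMul (cst u) (Matrix.of y)⁻¹) (Matrix.of y) = cst u := by
          rw [Matrix.vecMul_vecMul, Matrix.nonsing_inv_mul _ hdu, Matrix.vecMul_one]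
        have h3 := congrFun h2 i
        rw [Matrix.vecMul, dotProduct] at h3
        have h4 : cst u i = (u i : ℂ) := rfl
        rw [← h4, ← h3]
        refine Finset.sum_congr rfl fun j _ => ?_
        rw [hφ, Matrix.vecMul, dotProduct, Matrix.of_apply]
      rw [← dtc_cst, dtc]
      simp only [dtc, Finset.mul_sum]
      rw [Finset.sum_comm]
      refine Finset.sum_congr rfl fun i _ => ?_
      rw [cst, ← h1 i, Finset.mul_sum]
      exact Finset.sum_congr rfl fun j _ => by ring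
  · have h1 : (Finset.univ.filter fun j => k j = 0 ∧ j ∉ Finset.univ.filter fun j => y j ∈ b1) =
        (Finset.univ.filter fun j => y j ∈ b2) \ (Finset.univ.filter fun j => y j ∈ b1) := by
      ext j
      simp only [Finset.mem_filter, Finset.mem_univ, true_and, Finset.mem_sdiff]
      rw [hk0]
    have h2 : (Finset.univ.filter fun j => y j ∈ b1) ⊆ Finset.univ.filter fun j => y j ∈ b2 := by
      intro j hj
      rw [Finset.mem_filter] at hj ⊢
      exact ⟨hj.1, hb12 hj.2⟩
    rw [h1, Finset.card_sdiff_of_subset h2, hcount b2 hb23, hcount b1 (hb12.trans hb23), hb2span,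
      hb1s]
    omega

end Q47.QM
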