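import Pool.Agent.Q47.QM.Pt

/-!
# Choosing rays
-/

set_option autoImplicit false
set_option linter.unusedSectionVars false

namespace Q47.QM

open Pool.Agent.H436R3.Fol Pool.Agent.H436R3.KT Pool.Agent.W497.Mld Pool.Agent.TH165.ACC

variable {n : ℕ}

/-- the dimension of the span of the vectors orthogonal to `E i`, `i ∈ S` -/
noncomputable def dF {N : ℕ} (F : Set (Fin n → ℤ)) (E : Fin N → Fin n → ℤ) (S : Finset (Fin N)) :
    ℕ := Module.finrank ℂ (Submodule.span ℂ (cst '' {m | m ∈ F ∧ ∀ i ∈ S, pr m (E i) = 0}))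

/-- the pairing with an integral vector as a linear form -/
noncomputable def prc (u : Fin n → ℤ) : (Fin n → ℂ) →ₗ[ℂ] ℂ :=
  ∑ i, (u i : ℂ) • LinearMap.proj i

theorem prc_cst (u m : Fin n → ℤ) : prc u (cst m) = (pr m u : ℂ) := by
  rw [prc, LinearMap.sum_apply, pr]
  push_cast
  exact Finset.sum_congr rfl fun i _ => by
    rw [LinearMap.smul_apply, LinearMap.proj_apply, smul_eq_mul, cst]; ring

theorem greedy {N : ℕ} {E : Fin N → Fin n → ℤ} {F F1 : Set (Fin n → ℤ)} {T : Set (Fin N)}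
    (h : ∀ m ∈ F, m ∉ F1 → ∃ i ∈ T, pr m (E i) ≠ 0) (k : ℕ) : ∀ S : Finset (Fin N),
    (∀ i ∈ S, i ∈ T) → dF F E S ≤ k → ∃ S' : Finset (Fin N), (∀ i ∈ S', i ∈ T) ∧
      (∀ m ∈ F, (∀ i ∈ S', pr m (E i) = 0) → m ∈ F1) ∧
      S'.card + dF F E S' ≤ S.card + dF F E S := by
  classical
  induction k with
  | zero =>
    intro S hS hd
    by_cases hgood : ∀ m ∈ F, (∀ i ∈ S, pr m (E i) = 0) → m ∈ F1
    · exact ⟨S, hS, hgood, le_rfl⟩
    exfalso
    push Not at hgood
    obtain ⟨m, hm, hmS, hm1⟩ := hgood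
    obtain ⟨i, -, hi⟩ := h m hm hm1
    have h1 : cst m ∈ Submodule.span ℂ (cst '' {m | m ∈ F ∧ ∀ i ∈ S, pr m (E i) = 0}) :=
      Submodule.subset_span ⟨m, ⟨hm, hmS⟩, rfl⟩
    have h2 := Submodule.finrank_eq_zero.1 (Nat.le_zero.1 hd)
    rw [h2, Submodule.mem_bot] at h1
    have h3 := prc_cst (E i) m
    rw [h1, map_zero] at h3
    exact hi (by exact_mod_cast h3.symm)
  | succ k ih =>
    intro S hS hd
    by_cases hgood : ∀ m ∈ F, (∀ i ∈ S, pr m (E i) = 0) → m ∈ F1
    · exact ⟨S, hS, hgood, le_rfl⟩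
    push Not at hgood
    obtain ⟨m, hm, hmS, hm1⟩ := hgood
    obtain ⟨i, hiT, hi⟩ := h m hm hm1
    have hiS : i ∉ S := fun h1 => hi (hmS i h1)
    have hlt : dF F E (insert i S) < dF F E S := by
      rw [dF, dF]
      refine Submodule.finrank_lt_finrank_of_lt (lt_of_le_of_ne ?_ ?_)
      · refine Submodule.span_mono (Set.image_mono ?_)
        rintro q ⟨hq, hqS⟩
        exact ⟨hq, fun j hj => hqS j (Finset.mem_insert_of_mem hj)⟩
      · intro heq
        have h1 : cst m ∈ Submodule.span ℂ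
            (cst '' {m | m ∈ F ∧ ∀ j ∈ insert i S, pr m (E j) = 0}) := by
          rw [heq]
          exact Submodule.subset_span ⟨m, ⟨hm, hmS⟩, rfl⟩
        have h2 : Submodule.span ℂ (cst '' {m | m ∈ F ∧ ∀ j ∈ insert i S, pr m (E j) = 0}) ≤
            LinearMap.ker (prc (E i)) := by
          rw [Submodule.span_le]
          rintro _ ⟨q, ⟨-, hq⟩, rfl⟩
          rw [SetLike.mem_coe, LinearMap.mem_ker, prc_cst, hq i (Finset.mem_insert_self _ _),
            Int.cast_zero]
        have h3 := LinearMap.mem_ker.1 (h2 h1)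
        rw [prc_cst] at h3
        exact hi (by exact_mod_cast h3)
    obtain ⟨S', h1, h2, h3⟩ := ih (insert i S) (fun j hj => by
      rcases Finset.mem_insert.1 hj with rfl | hj
      · exact hiT
      · exact hS j hj) (by omega)
    refine ⟨S', h1, h2, h3.trans ?_⟩
    rw [Finset.card_insert_of_notMem hiS]
    omega

/-- a basis among the vectors -/
theorem exists_mu (F : Set (Fin n → ℤ)) : ∃ μ : Fin (Module.finrank ℂ
    (Submodule.span ℂ (cst '' F))) → Fin n → ℤ, (∀ i, μ i ∈ F) ∧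
      LinearIndependent ℂ fun i => cst (μ i) := by
  classical
  obtain ⟨b, hb1, hb2, hb3⟩ := exists_linearIndependent ℂ (cst '' F)
  have hbf : Finite b := hb3.setFinite
  have : Fintype b := Fintype.ofFinite _
  have hcard : Fintype.card b = Module.finrank ℂ (Submodule.span ℂ (cst '' F)) := by
    rw [← hb2]
    have := finrank_span_eq_card hb3
    rw [Subtype.range_coe] at this
    exact this.symm
  let ε : Fin (Module.finrank ℂ (Submodule.span ℂ (cst '' F))) ≃ b :=
    (Fintype.equivFinOfCardEq hcard).symm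
  have hF : ∀ i, ∃ m ∈ F, cst m = (ε i : Fin n → ℂ) := fun i => hb1 (ε i).2
  choose μ hμ hμe using hF
  refine ⟨μ, hμ, ?_⟩
  have h1 : (fun i => cst (μ i)) = fun i => (ε i : Fin n → ℂ) := funext hμe
  rw [h1]
  exact hb3.comp ε ε.injective

end Q47.QM
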