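import Pool.Agent.Q47.QM.Asm3

/-!
# The ascending chain condition for toric quotient singularities
-/

set_option autoImplicit false
set_option linter.unusedSectionVars false

namespace Q47.QM

open Pool.Agent.H436R3.Fol Pool.Agent.H436R3.KT Pool.Agent.W497.Mld Pool.Agent.TH165.ACC

theorem dcc_insert {Γ : Set ℝ} (h : Pool.Agent.TH165.ACC.IsDCC Γ) :
    Pool.Agent.TH165.ACC.IsDCC (insert 0 Γ) := by
  intro u hu hmem
  by_cases hinf : ∃ K, ∀ k ≥ K, u k ∈ Γ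
  · obtain ⟨K, hK⟩ := hinf
    obtain ⟨N, hN⟩ := h (fun k => u (K + k)) (fun a b hab => hu (by omega)) fun k => hK _ (by omega)
    refine ⟨K + N, fun k hk => ?_⟩
    obtain ⟨q, rfl⟩ : ∃ q, k = K + q := ⟨k - K, by omega⟩
    exact hN q (by omega)
  · push Not at hinf
    have h0 : ∀ K, ∃ k ≥ K, u k = 0 := by
      intro K
      obtain ⟨k, hk, hk'⟩ := hinf K
      exact ⟨k, hk, (hmem k).resolve_right hk'⟩
    obtain ⟨K, -, hK⟩ := h0 0
    refine ⟨K, fun k hk => ?_⟩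
    obtain ⟨k', hk', h1⟩ := h0 k
    have h2 := hu hk
    have h3 := hu hk'
    rw [hK] at h2 ⊢
    rw [h1] at h3
    exact le_antisymm h2 h3

theorem acc_affine {V : Set ℝ} (h : IsACC V) (c : ℝ) {R : ℝ} (hR : 0 < R) :
    IsACC {m | ∃ a ∈ V, m = c + R * a} := by
  intro u hu hmem
  choose a ha hua using hmem
  obtain ⟨N, hN⟩ := h a (fun i j hij => by
    have h1 := hu hij
    rw [hua, hua] at h1
    exact le_of_mul_le_mul_left (by linarith) hR) ha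
  exact ⟨N, fun k hk => by rw [hua, hua, hN k hk]⟩

variable {n : ℕ} {K : Type} [Field K] [Algebra ℂ K]
  [Algebra (MvPolynomial (Fin n) ℂ) K] [IsFractionRing (MvPolynomial (Fin n) ℂ) K]
  [IsScalarTower ℂ (MvPolynomial (Fin n) ℂ) K]

theorem quot_acc {Γ : Set ℝ} (hΓ : Pool.Agent.TH165.ACC.IsDCC Γ) :
    IsACC {m : ℝ | 0 ≤ m ∧ ∃ (g : ToricGerm n K) (B : EffDiv g.X) (e : LocEq B g.P)
      (G : Subgroup (K ≃ₐ[ℂ] K)), CoeffIn B Γ ∧
      (∀ v : DVal K, (∀ i : Fin n, v.ord (cv K i) = 0) → B.mult v = 0) ∧ Finite G ∧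
      (∀ σ ∈ G, IsPairAut e σ) ∧
      (∀ σ ∈ G, ∃ γ, IsPairAut e γ ∧ IsMono n (γ⁻¹ * σ * γ)) ∧ IsQuotMld e G m} := by
  obtain ⟨R, hR, hRW⟩ := exists_R n
  have hacc : IsACC {m : ℝ | ∃ q ≤ n * R, m ∈ {m : ℝ | ∃ d ≤ n, m ∈ {m : ℝ |
      ∃ a ∈ Val d R (insert 0 Γ), m = (q : ℝ) / R + R * a}}} := by
    refine acc_union (N := n * R) fun q _ => acc_union (N := n) fun d _ => ?_
    exact acc_affine (acc_Val hR (dcc_insert hΓ)) _ (by exact_mod_cast hR)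
  intro u hu hmem
  refine hacc u hu fun k => ?_
  obtain ⟨h0, g, B, e, G, hB, htor, hfin, hG, hconj, hm⟩ := hmem k
  obtain ⟨Φ, hΦ⟩ := exists_phi e hB htor
  obtain ⟨q, hq, d, hd, a, ha, hma⟩ := core hR hRW hΦ h0 hG hconj hm
  exact ⟨q, hq, d, hd, a, ha, hma⟩

end Q47.QM
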