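import Pool.Agent.TH165.ACC.NFin

/-!
# Inertia groups of divisorial valuations
-/

set_option autoImplicit false

namespace Q47.QM

open Pool.Agent.H436R3.Fol

variable {K : Type} [Field K] [Algebra ℂ K] {v : DVal K}

theorem reg_of_pos {f : K} (h : v.Pos f) : v.Reg f := h.imp id le_of_lt

theorem pos_neg {f : K} (h : v.Pos f) : v.Pos (-f) := by
  rcases h with h | h
  · left; rw [h, neg_zero]
  · by_cases h0 : f = 0
    · left; rw [h0, neg_zero]
    · right; rwa [v.ord_neg h0]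

theorem pos_sub {f g : K} (hf : v.Pos f) (hg : v.Pos g) : v.Pos (f - g) := by
  rw [sub_eq_add_neg]
  exact v.pos_add hf (pos_neg hg)

theorem pos_zero : v.Pos 0 := Or.inl rfl

theorem not_pos {f : K} (h0 : f ≠ 0) (h : v.ord f = 0) : ¬ v.Pos f := by
  rintro (h1 | h1)
  · exact h0 h1
  · omega

theorem pos_of_mul {f g : K} (hf : v.Reg f) (hg : v.Reg g) (h : v.Pos (f * g)) :
    v.Pos f ∨ v.Pos g := by
  by_contra hcon
  push Not at hcon
  have hf0 : f ≠ 0 := fun h => hcon.1 (Or.inl h)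
  have hg0 : g ≠ 0 := fun h => hcon.2 (Or.inl h)
  have h1 := v.ord_nonneg hf0 hf
  have h2 := v.ord_nonneg hg0 hg
  have h3 : ¬ 0 < v.ord f := fun h => hcon.1 (Or.inr h)
  have h4 : ¬ 0 < v.ord g := fun h => hcon.2 (Or.inr h)
  rcases h with h | h
  · exact mul_ne_zero hf0 hg0 h
  · rw [v.map_mul _ _ hf0 hg0] at h
    omega

/-- `a` is a unit of the valuation ring with the residue `z` -/
def UC (v : DVal K) (a : K) (z : ℂ) : Prop := z ≠ 0 ∧ v.Pos (a - algebraMap ℂ K z)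

theorem alg_ne {z : ℂ} (h : z ≠ 0) : algebraMap ℂ K z ≠ 0 :=
  (map_ne_zero_iff _ (algebraMap ℂ K).injective).2 h

theorem UC.reg {a : K} {z : ℂ} (h : UC v a z) : v.Reg a := by
  have h1 : a = (a - algebraMap ℂ K z) + algebraMap ℂ K z := by ring
  rw [h1]
  exact v.reg_add (reg_of_pos h.2) (v.reg_const z)

theorem UC.npos {a : K} {z : ℂ} (h : UC v a z) : ¬ v.Pos a := by
  intro h1
  have h2 : algebraMap ℂ K z = a - (a - algebraMap ℂ K z) := by ring
  have h3 : v.Pos (algebraMap ℂ K z) := by rw [h2]; exact pos_sub h1 h.2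
  exact not_pos (alg_ne h.1) (v.const z h.1) h3

theorem UC.ne {a : K} {z : ℂ} (h : UC v a z) : a ≠ 0 := fun h0 => h.npos (Or.inl h0)

theorem UC.ord {a : K} {z : ℂ} (h : UC v a z) : v.ord a = 0 := by
  have h1 := v.ord_nonneg h.ne h.reg
  have h2 : ¬ 0 < v.ord a := fun h2 => h.npos (Or.inr h2)
  omega

theorem UC.const {z : ℂ} (h : z ≠ 0) : UC v (algebraMap ℂ K z) z :=
  ⟨h, by rw [sub_self]; exact pos_zero⟩

theorem UC.one : UC v 1 1 := by
  have := UC.const (v := v) one_ne_zero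
  rwa [map_one] at this

theorem UC.mul {a b : K} {z w : ℂ} (h : UC v a z) (h' : UC v b w) : UC v (a * b) (z * w) := by
  refine ⟨mul_ne_zero h.1 h'.1, ?_⟩
  have h1 : a * b - algebraMap ℂ K (z * w) =
      b * (a - algebraMap ℂ K z) + algebraMap ℂ K z * (b - algebraMap ℂ K w) := by
    rw [map_mul]; ring
  rw [h1]
  exact v.pos_add (v.pos_mul_left h'.reg h.2) (v.pos_mul_left (v.reg_const z) h'.2)

theorem UC.inv {a : K} {z : ℂ} (h : UC v a z) : UC v a⁻¹ z⁻¹ := by
  refine ⟨inv_ne_zero h.1, ?_⟩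
  have hz := alg_ne (K := K) h.1
  have h1 : a⁻¹ - algebraMap ℂ K z⁻¹ =
      (-(a⁻¹ * algebraMap ℂ K z⁻¹)) * (a - algebraMap ℂ K z) := by
    rw [map_inv₀]
    field_simp [h.ne]
    ring
  rw [h1]
  exact v.pos_mul_left (v.reg_neg (v.reg_mul (v.reg_inv h.ne h.ord) (v.reg_const _))) h.2

theorem UC.div {a b : K} {z w : ℂ} (h : UC v a z) (h' : UC v b w) : UC v (a / b) (z / w) := by
  rw [div_eq_mul_inv, div_eq_mul_inv]
  exact h.mul h'.inv

theorem UC.pow {a : K} {z : ℂ} (h : UC v a z) (k : ℕ) : UC v (a ^ k) (z ^ k) := by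
  induction k with
  | zero => rw [pow_zero, pow_zero]; exact UC.one
  | succ k ih => rw [pow_succ, pow_succ]; exact ih.mul h

theorem UC.zpow {a : K} {z : ℂ} (h : UC v a z) (k : ℤ) : UC v (a ^ k) (z ^ k) := by
  obtain ⟨m, rfl | rfl⟩ := k.eq_nat_or_neg
  · rw [zpow_natCast, zpow_natCast]; exact h.pow m
  · rw [zpow_neg, zpow_neg, zpow_natCast, zpow_natCast]; exact (h.pow m).inv

theorem UC.uniq {a : K} {z w : ℂ} (h : UC v a z) (h' : UC v a w) : z = w := by
  by_contra hne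
  have h0 : z - w ≠ 0 := sub_ne_zero.2 hne
  have h1 : algebraMap ℂ K (z - w) = (a - algebraMap ℂ K w) - (a - algebraMap ℂ K z) := by
    rw [map_sub]; ring
  have h2 : v.Pos (algebraMap ℂ K (z - w)) := by
    rw [h1]; exact pos_sub h'.2 h.2
  exact not_pos (alg_ne h0) (v.const _ h0) h2

theorem UC.congr {a b : K} {z : ℂ} (h : UC v a z) (h' : v.Pos (b - a)) : UC v b z := by
  refine ⟨h.1, ?_⟩
  have : b - algebraMap ℂ K z = (b - a) + (a - algebraMap ℂ K z) := by ring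
  rw [this]
  exact v.pos_add h' h.2

/-- the automorphism acts trivially on the residue field -/
def InI (v : DVal K) (σ : K ≃ₐ[ℂ] K) : Prop := ∀ f, v.Reg f → v.Pos (σ f - f)

theorem sne (σ : K ≃ₐ[ℂ] K) {f : K} (h : f ≠ 0) : σ f ≠ 0 := fun h1 => h (by simpa using h1)

theorem InI.ord {σ : K ≃ₐ[ℂ] K} (h : InI v σ) {f : K} (hf : f ≠ 0) : v.ord (σ f) = v.ord f := by
  have h0 : ∀ f, f ≠ 0 → v.ord f = 0 → v.ord (σ f) = 0 := by
    intro f hf h0
    have h1 := h f (Or.inr h0.ge)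
    have h2 : v.Reg (σ f) := by
      have : σ f = (σ f - f) + f := by ring
      rw [this]
      exact v.reg_add (reg_of_pos h1) (Or.inr h0.ge)
    have h3 := v.ord_nonneg (sne σ hf) h2
    by_contra h4
    have h5 : v.Pos (σ f) := Or.inr (by omega)
    have h6 : v.Pos f := by
      have : f = σ f - (σ f - f) := by ring
      rw [this]
      exact pos_sub h5 h1
    exact not_pos hf h0 h6
  obtain ⟨π, hπ, h1⟩ := v.surj
  have hk : 0 < v.ord (σ π) := by
    have h2 := h π (Or.inr (by omega))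
    have h3 : v.Pos (σ π) := by
      have : σ π = (σ π - π) + π := by ring
      rw [this]
      exact v.pos_add h2 (Or.inr (by omega))
    exact h3.resolve_left (sne σ hπ)
  have h2 : ∀ f, f ≠ 0 → v.ord (σ f) = v.ord f * v.ord (σ π) := by
    intro f hf
    have h3 := h0 (f * π ^ (-v.ord f)) (mul_ne_zero hf (zpow_ne_zero _ hπ)) (by
      rw [v.map_mul _ _ hf (zpow_ne_zero _ hπ), v.ord_zpow hπ, h1]; ring)
    rw [map_mul, map_zpow₀, v.map_mul _ _ (sne σ hf) (zpow_ne_zero _ (sne σ hπ)),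
      v.ord_zpow (sne σ hπ)] at h3
    linarith
  have h3 : v.ord (σ π) = 1 := by
    have hg : σ.symm π ≠ 0 := sne σ.symm hπ
    have h4 := h2 _ hg
    rw [AlgEquiv.apply_symm_apply, h1] at h4
    exact Int.eq_one_of_dvd_one hk.le ⟨_, by rw [mul_comm]; exact h4⟩
  rw [h2 f hf, h3, mul_one]

theorem InI.reg {σ : K ≃ₐ[ℂ] K} (h : InI v σ) {f : K} (hf : v.Reg f) : v.Reg (σ f) := by
  have : σ f = (σ f - f) + f := by ring
  rw [this]
  exact v.reg_add (reg_of_pos (h f hf)) hf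

/-- the inertia group -/
def Ig (v : DVal K) : Subgroup (K ≃ₐ[ℂ] K) where
  carrier := {σ | InI v σ}
  one_mem' := fun f _ => by rw [AlgEquiv.one_apply, sub_self]; exact pos_zero
  mul_mem' := by
    intro σ τ hσ hτ f hf
    have h1 : (σ * τ) f - f = (σ (τ f) - τ f) + (τ f - f) := by
      rw [AlgEquiv.mul_apply]; ring
    rw [h1]
    exact v.pos_add (hσ _ (InI.reg hτ hf)) (hτ f hf)
  inv_mem' := by
    intro σ hσ f hf
    have h2 : σ (σ⁻¹ f) = f := by
      rw [← AlgEquiv.mul_apply, mul_inv_cancel, AlgEquiv.one_apply]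
    have h1 : v.Reg (σ⁻¹ f) := by
      by_cases hf0 : f = 0
      · rw [hf0, map_zero]; exact v.reg_zero
      · right
        have h3 := InI.ord hσ (sne σ⁻¹ hf0)
        rw [h2] at h3
        rw [← h3]
        exact v.ord_nonneg hf0 hf
    have h3 := hσ _ h1
    rw [h2] at h3
    have h4 : σ⁻¹ f - f = -(f - σ⁻¹ f) := by ring
    rw [h4]
    exact pos_neg h3

theorem mem_Ig {σ : K ≃ₐ[ℂ] K} : σ ∈ Ig v ↔ InI v σ := Iff.rfl

/-- `σ` acts on the cotangent space by `z` -/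
def Ch (v : DVal K) (σ : K ≃ₐ[ℂ] K) (z : ℂ) : Prop :=
  z ≠ 0 ∧ ∀ f, f ≠ 0 → UC v (σ f / f) (z ^ v.ord f)

theorem ch_of_pi {σ : K ≃ₐ[ℂ] K} (h : InI v σ) {π : K} (hπ : π ≠ 0) (h1 : v.ord π = 1) {z : ℂ}
    (hz : UC v (σ π / π) z) : Ch v σ z := by
  refine ⟨hz.1, fun f hf => ?_⟩
  set k := v.ord f with hk
  set u := f * π ^ (-k) with hu
  have hπk := zpow_ne_zero (-k) hπ
  have hu0 : u ≠ 0 := mul_ne_zero hf hπk
  have huo : v.ord u = 0 := by
    rw [hu, v.map_mul _ _ hf hπk, v.ord_zpow hπ, h1]; omega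
  have h2 : UC v (σ u / u) 1 := by
    refine ⟨one_ne_zero, ?_⟩
    have : σ u / u - algebraMap ℂ K 1 = u⁻¹ * (σ u - u) := by
      rw [map_one]; field_simp
    rw [this]
    exact v.pos_mul_left (v.reg_inv hu0 huo) (h u (Or.inr huo.ge))
  have h3 : σ f / f = (σ π / π) ^ k * (σ u / u) := by
    have h4 : σ u = σ f * (σ π) ^ (-k) := by rw [hu, map_mul, map_zpow₀]
    rw [h4, hu, div_zpow, zpow_neg, zpow_neg]
    have h5 := zpow_ne_zero k hπ
    have h6 := zpow_ne_zero k (sne σ hπ)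
    field_simp
  rw [h3]
  simpa using (hz.zpow k).mul h2

theorem Ch.mul {σ τ : K ≃ₐ[ℂ] K} {z w : ℂ} (hτi : InI v τ) (hσ : Ch v σ z) (hτ : Ch v τ w) :
    Ch v (σ * τ) (z * w) := by
  refine ⟨mul_ne_zero hσ.1 hτ.1, fun f hf => ?_⟩
  have h1 : (σ * τ) f / f = (σ (τ f) / τ f) * (τ f / f) := by
    rw [AlgEquiv.mul_apply]
    have := sne τ hf
    field_simp
  have h2 := hσ.2 _ (sne τ hf)
  rw [hτi.ord hf] at h2
  rw [h1, mul_zpow]
  exact h2.mul (hτ.2 f hf)

theorem Ch.uniq {σ : K ≃ₐ[ℂ] K} {z w : ℂ} (h : Ch v σ z) (h' : Ch v σ w) : z = w := by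
  obtain ⟨π, hπ, h1⟩ := v.surj
  have h2 := h.2 π hπ
  have h3 := h'.2 π hπ
  rw [h1, zpow_one] at h2 h3
  exact h2.uniq h3

theorem Ch.one : Ch v 1 1 := by
  refine ⟨one_ne_zero, fun f hf => ?_⟩
  rw [AlgEquiv.one_apply, div_self hf, one_zpow]
  exact UC.one

theorem exists_ch {σ : K ≃ₐ[ℂ] K} (h : InI v σ) {N : ℕ} (hN : 0 < N) (hσ : σ ^ N = 1) :
    ∃ z : ℂ, z ^ N = 1 ∧ Ch v σ z := by
  obtain ⟨π, hπ, h1⟩ := v.surj
  set a := σ π / π with ha
  have hσπ := sne σ hπ
  have hao : v.ord a = 0 := by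
    rw [ha, v.ord_div hσπ hπ, h.ord hπ, sub_self]
  have ha0 : a ≠ 0 := div_ne_zero hσπ hπ
  have har : v.Reg a := Or.inr hao.ge
  have hpow : ∀ k : ℕ, v.Reg (a ^ k) := by
    intro k
    right
    rw [v.ord_pow ha0, hao, mul_zero]
  have key : ∀ k : ℕ, v.Pos ((σ ^ k) π / π - a ^ k) := by
    intro k
    induction k with
    | zero =>
      rw [pow_zero, AlgEquiv.one_apply, div_self hπ, pow_zero, sub_self]
      exact pos_zero
    | succ k ih =>
      set b := (σ ^ k) π / π with hb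
      have hbr : v.Reg b := by
        have : b = (b - a ^ k) + a ^ k := by ring
        rw [this]
        exact v.reg_add (reg_of_pos ih) (hpow k)
      have h2 : (σ ^ (k + 1)) π / π = σ b * a := by
        rw [pow_succ', AlgEquiv.mul_apply, hb, map_div₀, ha]
        field_simp
      have h3 : (σ ^ (k + 1)) π / π - a ^ (k + 1) = a * (σ b - b) + a * (b - a ^ k) := by
        rw [h2]; ring
      rw [h3]
      exact v.pos_add (v.pos_mul_left har (h b hbr)) (v.pos_mul_left har ih)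
  have h2 := key N
  rw [hσ, AlgEquiv.one_apply, div_self hπ] at h2
  have h3 : v.Pos (a ^ N - 1) := by
    have : a ^ N - 1 = -(1 - a ^ N) := by ring
    rw [this]
    exact pos_neg h2
  have h4 := Polynomial.X_pow_sub_one_eq_prod (R := ℂ) hN
    (Complex.isPrimitiveRoot_exp N hN.ne')
  have h5 := congrArg (Polynomial.aeval a) h4
  rw [map_sub, map_pow, Polynomial.aeval_X, map_one, map_prod] at h5
  simp only [map_sub, Polynomial.aeval_X, Polynomial.aeval_C] at h5
  have h6 : ∀ s : Finset ℂ, v.Pos (∏ z ∈ s, (a - algebraMap ℂ K z)) →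
      ∃ z ∈ s, v.Pos (a - algebraMap ℂ K z) := by
    intro s
    induction s using Finset.induction_on with
    | empty =>
      intro h
      rw [Finset.prod_empty] at h
      exact absurd h (not_pos one_ne_zero v.ord_one)
    | insert z s hz ih =>
      intro h
      rw [Finset.prod_insert hz] at h
      have hr : ∀ z, v.Reg (a - algebraMap ℂ K z) := fun z => v.reg_sub har (v.reg_const z)
      have hrp : ∀ s : Finset ℂ, v.Reg (∏ z ∈ s, (a - algebraMap ℂ K z)) := fun s => by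
        have := prod_mem (S := v.O) (t := s) (f := fun z => a - algebraMap ℂ K z)
          fun z _ => hr z
        exact this
      rcases pos_of_mul (hr z) (hrp s) h with h | h
      · exact ⟨z, Finset.mem_insert_self _ _, h⟩
      · obtain ⟨z', hz', h⟩ := ih h
        exact ⟨z', Finset.mem_insert_of_mem hz', h⟩
  obtain ⟨z, hz, hp⟩ := h6 _ (by rw [← h5]; exact h3)
  rw [Polynomial.mem_nthRootsFinset hN] at hz
  have hz0 : z ≠ 0 := by
    rintro rfl
    rw [zero_pow hN.ne'] at hz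
    exact zero_ne_one hz
  exact ⟨z, hz, ch_of_pi h hπ h1 ⟨hz0, hp⟩⟩

theorem faithful {σ : K ≃ₐ[ℂ] K} {N : ℕ} (hN : 0 < N) (hσ : σ ^ N = 1) (h : Ch v σ 1) :
    σ = 1 := by
  have hD : ∀ x : K, x ≠ 0 → v.Pos ((σ x - x) / x) := by
    intro x hx
    have h1 := (h.2 x hx).2
    rw [one_zpow, map_one] at h1
    have : (σ x - x) / x = σ x / x - 1 := by field_simp
    rwa [this]
  ext f
  rw [AlgEquiv.one_apply]
  by_contra hf
  have hd0 : σ f - f ≠ 0 := sub_ne_zero.2 hf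
  set d := σ f - f with hd
  have key : ∀ k : ℕ, v.Pos (((σ ^ k) f - f) / d - (k : K)) := by
    intro k
    induction k with
    | zero =>
      rw [pow_zero, AlgEquiv.one_apply, sub_self, zero_div, Nat.cast_zero, sub_self]
      exact pos_zero
    | succ k ih =>
      set x := (σ ^ k) f - f with hx
      have h1 : (σ ^ (k + 1)) f - f = σ x + d := by
        rw [pow_succ', AlgEquiv.mul_apply, hx, map_sub, hd]; ring
      by_cases hx0 : x = 0
      · rw [hx0, zero_div] at ih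
        have h2 : ((σ ^ (k + 1)) f - f) / d - ((k + 1 : ℕ) : K) = 0 - (k : K) := by
          rw [h1, hx0, map_zero, zero_add, div_self hd0]; push_cast; ring
        rw [h2]; exact ih
      · have h2 : ((σ ^ (k + 1)) f - f) / d - ((k + 1 : ℕ) : K) =
            (x / d) * ((σ x - x) / x) + (x / d - (k : K)) := by
          rw [h1]; push_cast; field_simp; ring
        rw [h2]
        refine v.pos_add (v.pos_mul_left ?_ (hD x hx0)) ih
        have : x / d = (x / d - (k : K)) + (k : K) := by ring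
        rw [this]
        refine v.reg_add (reg_of_pos ih) ?_
        have := v.reg_intCast k
        rwa [Int.cast_natCast] at this
  have h2 := key N
  rw [hσ, AlgEquiv.one_apply, sub_self, zero_div, zero_sub] at h2
  have h3 : v.Pos (algebraMap ℂ K (N : ℂ)) := by
    have := pos_neg h2
    rw [neg_neg] at this
    rwa [map_natCast]
  have hN0 : (N : ℂ) ≠ 0 := by exact_mod_cast hN.ne'
  exact not_pos (alg_ne hN0) (v.const _ hN0) h3

/-- the inertia group contains an element acting by the standard root of unity -/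
theorem exists_gen (G : Subgroup (K ≃ₐ[ℂ] K)) [Finite G] (v : DVal K) :
    0 < Nat.card (G ⊓ Ig v : Subgroup (K ≃ₐ[ℂ] K)) ∧ ∃ σ ∈ G, InI v σ ∧
      σ ^ Nat.card (G ⊓ Ig v : Subgroup (K ≃ₐ[ℂ] K)) = 1 ∧
      Ch v σ (Complex.exp (2 * Real.pi * Complex.I /
        (Nat.card (G ⊓ Ig v : Subgroup (K ≃ₐ[ℂ] K)) : ℕ))) := by
  classical
  have hfin : Finite (G ⊓ Ig v : Subgroup (K ≃ₐ[ℂ] K)) :=
    Set.Finite.subset (s := (G : Set (K ≃ₐ[ℂ] K))) (Set.toFinite _) fun x hx => hx.1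
  set r := Nat.card (G ⊓ Ig v : Subgroup (K ≃ₐ[ℂ] K)) with hr
  have hr0 : 0 < r := Nat.card_pos
  refine ⟨hr0, ?_⟩
  have hpow : ∀ σ : (G ⊓ Ig v : Subgroup (K ≃ₐ[ℂ] K)), (σ : K ≃ₐ[ℂ] K) ^ r = 1 := by
    intro σ
    have h1 : σ ^ r = 1 := pow_card_eq_one'
    have := congrArg Subtype.val h1
    simpa using this
  choose c hc1 hc using fun σ : (G ⊓ Ig v : Subgroup (K ≃ₐ[ℂ] K)) =>
    exists_ch (v := v) (mem_Ig.1 σ.2.2) hr0 (hpow σ)
  have hinj : Function.Injective c := by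
    intro σ τ h
    have h1 := (hc (σ * τ⁻¹)).uniq (Ch.mul (mem_Ig.1 (τ⁻¹).2.2) (hc σ) (hc τ⁻¹))
    have h2 := (Ch.one (v := v)).uniq (by
      have := Ch.mul (mem_Ig.1 (τ⁻¹).2.2) (hc τ) (hc τ⁻¹)
      simpa using this)
    have h3 : c (σ * τ⁻¹) = 1 := by rw [h1, h]; exact h2.symm
    have h4 := hc (σ * τ⁻¹)
    rw [h3] at h4
    have h5 := faithful hr0 (hpow (σ * τ⁻¹)) h4
    have h6 : σ * τ⁻¹ = 1 := Subtype.ext h5
    exact mul_inv_eq_one.1 h6
  have hprim := Complex.isPrimitiveRoot_exp r hr0.ne'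
  have : Fintype (G ⊓ Ig v : Subgroup (K ≃ₐ[ℂ] K)) := Fintype.ofFinite _
  have himg : Finset.univ.image c = Polynomial.nthRootsFinset r (1 : ℂ) := by
    apply Finset.eq_of_subset_of_card_le
    · intro z hz
      obtain ⟨σ, -, rfl⟩ := Finset.mem_image.1 hz
      rw [Polynomial.mem_nthRootsFinset hr0]
      exact hc1 σ
    · rw [Finset.card_image_of_injective _ hinj, hprim.card_nthRootsFinset, Finset.card_univ,
        hr, Nat.card_eq_fintype_card]
  have hmem : Complex.exp (2 * Real.pi * Complex.I / (r : ℕ)) ∈ Finset.univ.image c := by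
    rw [himg, Polynomial.mem_nthRootsFinset hr0]
    exact hprim.pow_eq_one
  obtain ⟨σ, -, hσ⟩ := Finset.mem_image.1 hmem
  refine ⟨σ, σ.2.1, σ.2.2, hpow σ, ?_⟩
  rw [← hσ]
  exact hc σ

end Q47.QM
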