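import Pool.Agent.Q47.QM.Psi

/-!
# Logarithmic leading terms
-/

set_option autoImplicit false
set_option linter.unusedSectionVars false

namespace Q47.QM

open Pool.Agent.H436R3.Fol Pool.Agent.W497.Mld Pool.Agent.TH165.ACC HahnSeries

attribute [-instance] HahnSeries.powerSeriesAlgebra

section gen

variable {K : Type} [Field K] [Algebra ℂ K]

theorem int_mul_coeff (o : ℤ) (x : LS K) (m : ℤ) : ((o : LS K) * x).coeff m = (o : K) * x.coeff m := by
  have h : ((o : ℤ) : LS K) = HahnSeries.C ((o : ℤ) : K) := (map_intCast HahnSeries.C o).symm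
  rw [h, HahnSeries.C_mul_eq_smul, coeff_smul, smul_eq_mul]

/-- the order of `t d/dt` -/
theorem et_div {x : LS K} (hx : x ≠ 0) : (oL K).Pos (et K x / x - (x.order : LS K)) := by
  set w := et K x - (x.order : LS K) * x with hw
  have h1 : et K x / x - (x.order : LS K) = w / x := by
    rw [hw]; field_simp
  rw [h1]
  by_cases hw0 : w = 0
  · left; rw [hw0, zero_div]
  · right
    rw [(oL K).ord_div hw0 hx]
    have h2 : x.order + 1 ≤ w.order := by
      rw [le_order_iff_forall hw0]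
      intro j hj
      rw [hw, coeff_sub, et_coeff, int_mul_coeff]
      by_cases h : j = x.order
      · rw [h, sub_self]
      · rw [coeff_eq_zero_of_lt_order (by omega : j < x.order), mul_zero, mul_zero, sub_self]
    change 0 < w.order - x.order
    omega

theorem et_ord_le {x : LS K} (hx : (oL K).Pos x) (h : et K x ≠ 0) : (et K x).order ≤ x.order := by
  have hx0 : x ≠ 0 := by rintro rfl; exact h (map_zero _)
  have h1 : 0 < x.order := hx.resolve_left hx0
  apply order_le_of_coeff_ne_zero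
  rw [et_coeff]
  exact mul_ne_zero (cast_ne h1.ne') fun h3 => hx0 (coeff_order_eq_zero.1 h3)

theorem et_zero {x : LS K} (hx : (oL K).Pos x) (h : et K x = 0) : x = 0 := by
  by_contra hx0
  have h1 : 0 < x.order := hx.resolve_left hx0
  have h2 : (et K x).coeff x.order ≠ 0 := by
    rw [et_coeff]
    exact mul_ne_zero (cast_ne h1.ne') fun h3 => hx0 (coeff_order_eq_zero.1 h3)
  rw [h, coeff_zero] at h2
  exact h2 rfl

/-- the truncated logarithm -/
noncomputable def lg {L : Type} [Field L] (N : ℕ) (y : L) : L :=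
  -∑ a ∈ Finset.range N, (1 - y) ^ (a + 1) / ((a + 1 : ℕ) : L)

theorem map_lg {L L' : Type} [Field L] [Field L'] (φ : L →+* L') (N : ℕ) (y : L) :
    φ (lg N y) = lg N (φ y) := by
  rw [lg, lg, map_neg, map_sum]
  congr 1
  refine Finset.sum_congr rfl fun a _ => ?_
  rw [map_div₀, map_pow, map_sub, map_one, map_natCast]

theorem lg_et (N : ℕ) {y s : LS K} (h : et K y = s * y) :
    et K (lg N y) = s * (1 - (1 - y) ^ N) := by
  have h1 : ∀ a : ℕ, et K ((1 - y) ^ (a + 1) / ((a + 1 : ℕ) : LS K)) =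
      -((1 - y) ^ a * (s * y)) := by
    intro a
    have h2 : ((a + 1 : ℕ) : LS K) ≠ 0 := by
      rw [← map_natCast (algebraMap ℂ (LS K))]
      exact (map_ne_zero_iff _ (algebraMap ℂ (LS K)).injective).2 (by exact_mod_cast a.succ_ne_zero)
    have h3 : (1 - y) ^ (a + 1) / ((a + 1 : ℕ) : LS K) =
        algebraMap ℂ (LS K) ((a + 1 : ℕ) : ℂ)⁻¹ * (1 - y) ^ (a + 1) := by
      rw [map_inv₀, map_natCast, div_eq_inv_mul]
    rw [h3, Derivation.leibniz, Derivation.map_algebraMap, smul_zero, add_zero,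
      Derivation.leibniz_pow, map_sub, Derivation.map_one_eq_zero, zero_sub, h, smul_eq_mul,
      map_inv₀, map_natCast, Nat.add_sub_cancel, nsmul_eq_mul, smul_eq_mul]
    field_simp
  rw [lg, map_neg, map_sum, Finset.sum_congr rfl fun a _ => h1 a, Finset.sum_neg_distrib, neg_neg,
    ← Finset.sum_mul]
  have h4 := mul_neg_geom_sum (1 - y) N
  have h5 : (1 : LS K) - (1 - y) = y := by ring
  rw [h5] at h4
  rw [← h4]
  ring

theorem pos_sum {ι : Type} (w : DVal K) (s : Finset ι) (f : ι → K) (h : ∀ i ∈ s, w.Pos (f i)) :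
    w.Pos (∑ i ∈ s, f i) := by
  classical
  induction s using Finset.induction_on with
  | empty => exact pos_zero
  | insert a s ha ih =>
    rw [Finset.sum_insert ha]
    exact w.pos_add (h a (Finset.mem_insert_self _ _))
      (ih fun i hi => h i (Finset.mem_insert_of_mem hi))

theorem lg_close (N : ℕ) {S : LS K} (hS : (oL K).Pos S) :
    (oL K).Pos (lg N (Ex hS) - S) ∧
      (lg N (Ex hS) - S = 0 ∨ (N : ℤ) < (lg N (Ex hS) - S).order) := by
  set y := Ex hS with hy
  have hy1 : (oL K).Pos (1 - y) := by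
    have : 1 - y = -(y - 1) := by ring
    rw [this]
    exact pos_neg (Ex_one hS)
  have hP : (oL K).Pos (lg N y - S) := by
    refine pos_sub ?_ hS
    rw [lg]
    refine pos_neg (pos_sum _ _ _ fun a _ => ?_)
    have h3 : (1 - y) ^ (a + 1) / ((a + 1 : ℕ) : LS K) =
        (algebraMap ℂ (LS K) ((a + 1 : ℕ) : ℂ)⁻¹ * (1 - y) ^ a) * (1 - y) := by
      rw [map_inv₀, map_natCast, div_eq_inv_mul, pow_succ, mul_assoc]
    rw [h3]
    refine (oL K).pos_mul_left ((oL K).reg_mul ((oL K).reg_const _) ?_) hy1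
    exact pow_mem (S := (oL K).O) (reg_of_pos hy1) a
  refine ⟨hP, ?_⟩
  by_cases h0 : lg N y - S = 0
  · exact Or.inl h0
  right
  have h1 : et K (lg N y - S) = -(et K S * (1 - y) ^ N) := by
    rw [map_sub, lg_et N (Ex_et hS)]
    ring
  have h2 : et K (lg N y - S) ≠ 0 := fun h => h0 (et_zero hP h)
  have h3 := et_ord_le hP h2
  have h4 : et K S * (1 - y) ^ N ≠ 0 := by
    intro h
    rw [h1, h, neg_zero] at h2
    exact h2 rfl
  have h5 : et K S ≠ 0 := left_ne_zero_of_mul h4
  have h6 : (oL K).ord (et K (lg N y - S)) = (oL K).ord (et K S) + (oL K).ord ((1 - y) ^ N) := by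
    rw [h1, (oL K).ord_neg h4, (oL K).map_mul _ _ h5 (right_ne_zero_of_mul h4)]
  have h7 : 0 < (oL K).ord (et K S) := (pos_et (reg_of_pos hS)).resolve_left h5
  have h8 : (N : ℤ) ≤ (oL K).ord ((1 - y) ^ N) := by
    by_cases hN : N = 0
    · subst hN
      rw [pow_zero, (oL K).ord_one]
      rfl
    have h9 : 1 - y ≠ 0 := by
      intro h
      apply right_ne_zero_of_mul h4
      rw [h, zero_pow hN]
    rw [(oL K).ord_pow h9]
    have h10 : 0 < (oL K).ord (1 - y) := hy1.resolve_left h9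
    nlinarith
  change (oL K).ord (et K (lg N y - S)) ≤ _ at h3
  omega

end gen

variable {n : ℕ} {K : Type} [Field K] [Algebra ℂ K]
  [Algebra (MvPolynomial (Fin n) ℂ) K] [IsFractionRing (MvPolynomial (Fin n) ℂ) K]
  [IsScalarTower ℂ (MvPolynomial (Fin n) ℂ) K]

/-- the logarithmic derivatives of `f` have the constant terms `p` -/
def LD (d : Wd n) (f : K) (p : Fin n → ℂ) : Prop :=
  f ≠ 0 ∧ ∀ j, (oL K).Pos (ed (tor K j) (d.psi K f) / d.psi K f - algebraMap ℂ (LS K) (p j))

variable {d : Wd n}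

theorem LD.mul {f g : K} {p q : Fin n → ℂ} (hf : LD d f p) (hg : LD d g q) :
    LD d (f * g) (p + q) := by
  refine ⟨mul_ne_zero hf.1 hg.1, fun j => ?_⟩
  have h1 := d.psi_ne K hf.1
  have h2 := d.psi_ne K hg.1
  have h3 : ed (tor K j) (d.psi K (f * g)) / d.psi K (f * g) -
      algebraMap ℂ (LS K) ((p + q) j) =
      (ed (tor K j) (d.psi K f) / d.psi K f - algebraMap ℂ (LS K) (p j)) +
      (ed (tor K j) (d.psi K g) / d.psi K g - algebraMap ℂ (LS K) (q j)) := by
    rw [map_mul, logDer_mul h1 h2, Pi.add_apply, RingHom.map_add]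
    ring
  rw [h3]
  exact (oL K).pos_add (hf.2 j) (hg.2 j)

theorem LD.zpow {f : K} {p : Fin n → ℂ} (hf : LD d f p) (a : ℤ) :
    LD d (f ^ a) (fun j => (a : ℂ) * p j) := by
  refine ⟨zpow_ne_zero _ hf.1, fun j => ?_⟩
  have h1 := d.psi_ne K hf.1
  have h3 : ed (tor K j) (d.psi K (f ^ a)) / d.psi K (f ^ a) -
      algebraMap ℂ (LS K) ((a : ℂ) * p j) =
      (algebraMap ℂ (LS K) (a : ℂ)) *
      (ed (tor K j) (d.psi K f) / d.psi K f - algebraMap ℂ (LS K) (p j)) := by
    rw [map_zpow₀, logDer_zpow h1, RingHom.map_mul, map_intCast]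
    ring
  rw [h3]
  exact (oL K).pos_mul_left ((oL K).reg_const _) (hf.2 j)

theorem LD.one : LD d (1 : K) 0 := by
  refine ⟨one_ne_zero, fun j => ?_⟩
  rw [map_one, Derivation.map_one_eq_zero, zero_div, Pi.zero_apply, map_zero, sub_zero]
  exact pos_zero

theorem LD.prod {ι : Type} (s : Finset ι) (f : ι → K) (p : ι → Fin n → ℂ)
    (h : ∀ i, LD d (f i) (p i)) : LD d (∏ i ∈ s, f i) (∑ i ∈ s, p i) := by
  classical
  induction s using Finset.induction_on with
  | empty => exact LD.one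
  | insert a s ha ih =>
    rw [Finset.prod_insert ha, Finset.sum_insert ha]
    exact (h a).mul ih

theorem const_zero {c : ℂ} (h : (oL K).Pos (algebraMap ℂ (LS K) c)) : c = 0 := by
  by_contra hc
  exact not_pos ((map_ne_zero_iff _ (algebraMap ℂ (LS K)).injective).2 hc) ((oL K).const c hc) h

theorem LD.euler' {f : K} {p : Fin n → ℂ} (hf : LD d f p) :
    (oL K).Pos (∑ j, algebraMap ℂ (LS K) (d.b j) * (ed (tor K j) (d.psi K f) / d.psi K f) -
      (((d.psi K f).order : ℤ) : LS K)) := by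
  have h1 := d.psi_ne K hf.1
  have h2 := et_div h1
  have h3 : ∑ j, algebraMap ℂ (LS K) (d.b j) * (ed (tor K j) (d.psi K f) / d.psi K f) =
      et K (d.psi K f) / d.psi K f := by
    rw [d.euler f, Finset.sum_div]
    exact Finset.sum_congr rfl fun j _ => by rw [mul_div_assoc]
  rw [h3]
  exact h2

theorem LD.euler {f : K} {p : Fin n → ℂ} (hf : LD d f p) :
    ∑ j, d.b j * p j = ((d.psi K f).order : ℂ) := by
  have h1 := hf.euler'
  have h2 : (oL K).Pos (∑ j, algebraMap ℂ (LS K) (d.b j) *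
      (ed (tor K j) (d.psi K f) / d.psi K f - algebraMap ℂ (LS K) (p j))) :=
    pos_sum _ _ _ fun j _ => (oL K).pos_mul_left ((oL K).reg_const _) (hf.2 j)
  have h3 : algebraMap ℂ (LS K) (∑ j, d.b j * p j - ((d.psi K f).order : ℂ)) =
      (∑ j, algebraMap ℂ (LS K) (d.b j) * (ed (tor K j) (d.psi K f) / d.psi K f) -
      (((d.psi K f).order : ℤ) : LS K)) - ∑ j, algebraMap ℂ (LS K) (d.b j) *
      (ed (tor K j) (d.psi K f) / d.psi K f - algebraMap ℂ (LS K) (p j)) := by
    simp only [mul_sub, Finset.sum_sub_distrib, map_sub, map_sum, map_intCast, RingHom.map_mul]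
    ring
  have h4 := const_zero (by rw [h3]; exact pos_sub h1 h2)
  exact sub_eq_zero.1 h4

theorem LD_ym (m : Fin n → ℤ) : LD d (ym K m) (fun j => if d.k j = 0 then d.nu j m else 0) := by
  refine ⟨ym_ne m, fun j => ?_⟩
  have h1 := d.Ps_ne (K := K) m
  rw [d.psi_ym K, d.Ps_ed K, mul_div_assoc, div_self h1, mul_one]
  beta_reduce
  split_ifs with h
  · rw [Wd.T, if_pos h, mul_one, sub_self]
    exact pos_zero
  · rw [map_zero, sub_zero]
    exact (oL K).pos_mul_left ((oL K).reg_const _) (d.T_pos K h)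

/-- the dual families of monomials -/
def Dual (d : Wd n) : Prop := ∀ j0, d.k j0 ≠ 0 → ∃ (a : Fin n → ℂ) (x : Fin n → Fin n → ℤ),
  (∀ i, pr (x i) d.U = 0) ∧ (∀ i j, d.k j = 0 → d.z j (x i) = 0) ∧
    ∀ j, d.k j ≠ 0 → ∑ i, a i * d.nu j (x i) = if j = j0 then 1 else 0

theorem exists_zeta (hd : Dual d) {j0 : Fin n} (hj0 : d.k j0 ≠ 0) :
    ∃ ζ : K, LD d ζ (Pi.single j0 1) ∧ (d.psi K ζ).order = d.k j0 := by
  obtain ⟨a, x, hU, hz, hnu⟩ := hd j0 hj0
  set N := d.k j0 with hN
  set ζ : K := ∑ i, algebraMap ℂ K (a i) * lg N (algebraMap ℂ K (d.ch (x i))⁻¹ * ym K (x i))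
    with hζ
  have h1 : ∀ i, d.psi K (algebraMap ℂ K (d.ch (x i))⁻¹ * ym K (x i)) = Ex (d.S_pos K (x i)) := by
    intro i
    have hY : d.Y K (x i) = 1 := by
      rw [Wd.Y]
      refine Finset.prod_eq_one fun j _ => ?_
      split_ifs with h
      · rw [hz i j h, zpow_zero]
      · rfl
    rw [map_mul, d.psi_alg K, d.psi_ym K, Wd.Ps, hU, hY, mul_one, ls_alg, HahnSeries.C_apply,
      ← mul_assoc, HahnSeries.single_mul_single, add_zero, ← map_mul,
      inv_mul_cancel₀ (d.ch_ne _), map_one]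
    exact one_mul _
  have hS : ∑ i, algebraMap ℂ (LS K) (a i) * d.S K (x i) = d.T K j0 := by
    have h2 : ∀ i, algebraMap ℂ (LS K) (a i) * d.S K (x i) = ∑ j, if d.k j = 0 then 0 else
        algebraMap ℂ (LS K) (a i * d.nu j (x i)) * d.T K j := by
      intro i
      rw [Wd.S, Finset.mul_sum]
      refine Finset.sum_congr rfl fun j _ => ?_
      split_ifs
      · exact mul_zero _
      · rw [RingHom.map_mul, mul_assoc]
    rw [Finset.sum_congr rfl fun i _ => h2 i, Finset.sum_comm, Finset.sum_eq_single j0]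
    · have e1 : ∀ i, (if d.k j0 = 0 then (0 : LS K) else
          algebraMap ℂ (LS K) (a i * d.nu j0 (x i)) * d.T K j0) =
          algebraMap ℂ (LS K) (a i * d.nu j0 (x i)) * d.T K j0 := fun i => if_neg hj0
      rw [Finset.sum_congr rfl fun i _ => e1 i, ← Finset.sum_mul, ← map_sum, hnu j0 hj0, if_pos rfl, map_one, one_mul]
    · intro j _ hj
      by_cases h : d.k j = 0
      · exact Finset.sum_eq_zero fun i _ => if_pos h
      · have e1 : ∀ i, (if d.k j = 0 then (0 : LS K) else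
            algebraMap ℂ (LS K) (a i * d.nu j (x i)) * d.T K j) =
            algebraMap ℂ (LS K) (a i * d.nu j (x i)) * d.T K j := fun i => if_neg h
        rw [Finset.sum_congr rfl fun i _ => e1 i, ← Finset.sum_mul, ← map_sum, hnu j h, if_neg hj, map_zero, zero_mul]
    · intro h; exact absurd (Finset.mem_univ _) h
  set w := d.psi K ζ - d.T K j0 with hw
  have h3 : w = ∑ i, algebraMap ℂ (LS K) (a i) * (lg N (Ex (d.S_pos K (x i))) - d.S K (x i)) := by
    rw [hw, ← hS, hζ, map_sum, ← Finset.sum_sub_distrib]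
    refine Finset.sum_congr rfl fun i _ => ?_
    rw [map_mul, d.psi_alg K, map_lg, h1]
    ring
  obtain ⟨hT0, hTo⟩ := d.T_ord (K := K) j0
  have h4 : (oL K).Pos (w / d.T K j0) := by
    rw [h3, Finset.sum_div]
    refine pos_sum _ _ _ fun i _ => ?_
    obtain ⟨-, h5⟩ := lg_close N (d.S_pos K (x i))
    rw [mul_div_assoc]
    refine (oL K).pos_mul_left ((oL K).reg_const _) ?_
    by_cases h6 : lg N (Ex (d.S_pos K (x i))) - d.S K (x i) = 0
    · left; rw [h6, zero_div]
    · right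
      rw [(oL K).ord_div h6 hT0, hTo]
      have h7 := h5.resolve_left h6
      change 0 < (lg N (Ex (d.S_pos K (x i))) - d.S K (x i)).order - (d.k j0 : ℤ)
      omega
  set u := 1 + w / d.T K j0 with hu
  have hpsi : d.psi K ζ = d.T K j0 * u := by
    rw [hu, mul_add, mul_one, mul_div_cancel₀ _ hT0, hw]
    ring
  have huc : UC (oL K) u 1 := by
    refine ⟨one_ne_zero, ?_⟩
    rw [map_one, hu, add_sub_cancel_left]
    exact h4
  have hζ0 : ζ ≠ 0 := by
    intro h0
    rw [h0, map_zero] at hpsi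
    exact mul_ne_zero hT0 huc.ne hpsi.symm
  refine ⟨ζ, ⟨hζ0, fun j => ?_⟩, ?_⟩
  · rw [hpsi, logDer_mul hT0 huc.ne, d.T_ed K]
    have h5 : (oL K).Pos (ed (tor K j) u / u) := by
      have h6 : ed (tor K j) u = ed (tor K j) (w / d.T K j0) := by
        rw [hu, map_add, Derivation.map_one_eq_zero, zero_add]
      rw [h6, div_eq_mul_inv, mul_comm]
      exact (oL K).pos_mul_left ((oL K).reg_inv huc.ne huc.ord) (pos_ed h4)
    by_cases hj : j = j0
    · rw [if_pos ⟨hj, hj0⟩, div_self hT0, hj, Pi.single_eq_same, map_one, add_sub_cancel_left]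
      rwa [← hj]
    · rw [if_neg (fun h => hj h.1), zero_div, zero_add, Pi.single_eq_of_ne hj, map_zero, sub_zero]
      exact h5
  · have h5 := (oL K).map_mul _ _ hT0 huc.ne
    rw [← hpsi, hTo, huc.ord, add_zero] at h5
    exact h5

/-- the weights are coprime -/
def Cop (d : Wd n) : Prop := ∃ m c : Fin n → ℤ, pr m d.U + ∑ j, c j * (d.k j : ℤ) = 1

theorem ord_ym' (m : Fin n → ℤ) : (d.psi K (ym K m)).order = pr m d.U := by
  rw [d.psi_ym K]
  exact d.Ps_ord m

theorem exists_pi (hd : Dual d) (hc : Cop d) : ∃ (f : K) (p : Fin n → ℂ), LD d f p ∧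
    (d.psi K f).order = 1 := by
  obtain ⟨m, c, hmc⟩ := hc
  have hg : ∀ j, ∃ (g : K) (p : Fin n → ℂ), LD d g p ∧ (d.psi K g).order = d.k j := by
    intro j
    by_cases h : d.k j = 0
    · refine ⟨1, 0, LD.one, ?_⟩
      rw [map_one, h]
      exact (oL K).ord_one
    · obtain ⟨ζ, h1, h2⟩ := exists_zeta (K := K) hd h
      exact ⟨ζ, _, h1, h2⟩
  choose g p hg1 hg2 using hg
  have h1 := (LD_ym (K := K) (d := d) m).mul (LD.prod Finset.univ (fun j => g j ^ c j) _
    fun j => (hg1 j).zpow (c j))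
  refine ⟨_, _, h1, ?_⟩
  have hz : ∀ j, d.psi K (g j ^ c j) ≠ 0 := fun j => d.psi_ne K ((hg1 j).zpow (c j)).1
  change (oL K).ord _ = 1
  rw [map_mul, (oL K).map_mul _ _ (d.psi_ne K (ym_ne m)) (d.psi_ne K
      (LD.prod Finset.univ (fun j => g j ^ c j) _ fun j => (hg1 j).zpow (c j)).1), map_prod,
    (oL K).ord_prod _ _ fun j _ => hz j]
  have h2 : ∀ j, (oL K).ord (d.psi K (g j ^ c j)) = c j * (d.k j : ℤ) := by
    intro j
    rw [map_zpow₀, (oL K).ord_zpow (d.psi_ne K (hg1 j).1)]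
    congr 1
    exact hg2 j
  rw [Finset.sum_congr rfl fun j _ => h2 j, ← hmc]
  congr 1
  exact ord_ym' m

end Q47.QM
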