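import Pool.Agent.Q47.QM.Mono
import Pool.Agent.TH165.ACC.Resi

/-!
# Lower bounds for canonical orders along valuations with large inertia group
-/

set_option autoImplicit false
set_option linter.unusedSectionVars false

namespace Q47.QM

open Pool.Agent.H436R3.Fol Pool.Agent.W497.Mld Pool.Agent.TH165.ACC

variable {n : ℕ} {K : Type} [Field K] [Algebra ℂ K]
  [Algebra (MvPolynomial (Fin n) ℂ) K] [IsFractionRing (MvPolynomial (Fin n) ℂ) K]
  [IsScalarTower ℂ (MvPolynomial (Fin n) ℂ) K]

theorem jac_bound {d : ℕ} {F : Foliation K d} (e : Fin d ≃ Fin n)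
    (hF : ∀ i, F.D i = tor K (e i)) {v : DVal K} {c : ℤ} (hc : IsCanOrd F v c) {p : ℕ}
    (h : Fin p → K) (h0 : ∀ i, h i ≠ 0) (ν : Fin p → Fin n → ℂ) (hν : LinearIndependent ℂ ν)
    (hp : ∀ (i : Fin p) (j : Fin n), v.Pos (tor K j (h i) - algebraMap ℂ K (ν i j))) :
    ∑ i, v.ord (h i) ≤ c + 1 := by
  classical
  obtain ⟨s, hs, hdet⟩ := exists_minor (Matrix.of ν) hν
  let A1 : Matrix (Fin p) (Fin p) K := Matrix.of fun a b => tor K (s a) (h b)
  set D : ℂ := (Matrix.of fun a b => (Matrix.of ν) b (s a)).det with hD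
  have hreg : ∀ (i : Fin p) (j : Fin n), v.Reg (tor K j (h i)) := by
    intro i j
    have : tor K j (h i) = (tor K j (h i) - algebraMap ℂ K (ν i j)) + algebraMap ℂ K (ν i j) := by
      ring
    rw [this]
    exact v.reg_add (reg_of_pos (hp i j)) (v.reg_const _)
  let AO : Matrix (Fin p) (Fin p) v.O := Matrix.of fun a b => ⟨tor K (s a) (h b), hreg _ _⟩
  let BO : Matrix (Fin p) (Fin p) v.O := Matrix.of fun a b =>
    ⟨algebraMap ℂ K (ν b (s a)), v.reg_const _⟩
  have hq : Ideal.Quotient.mk (mvI v) AO.det = Ideal.Quotient.mk (mvI v) BO.det := by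
    rw [RingHom.map_det, RingHom.map_det]
    congr 1
    ext a b
    rw [RingHom.mapMatrix_apply, RingHom.mapMatrix_apply, Matrix.map_apply, Matrix.map_apply,
      Ideal.Quotient.eq, mem_mvI]
    exact hp b (s a)
  rw [Ideal.Quotient.eq, mem_mvI] at hq
  have hA : (AO.det : K) = A1.det := by
    have := v.O.subtype.map_det AO
    change (AO.det : K) = _ at this
    rw [this]
    rfl
  have hB : (BO.det : K) = algebraMap ℂ K D := by
    have := v.O.subtype.map_det BO
    change (BO.det : K) = _ at this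
    rw [this, hD, RingHom.map_det]
    rfl
  have hUC : UC v A1.det D := by
    refine ⟨hdet, ?_⟩
    rw [← hA, ← hB]
    exact hq
  let Cc : Type := ↑((Set.range s)ᶜ)
  let ε : Fin p ⊕ Cc ≃ Fin n :=
    (Equiv.sumCongr (Equiv.ofInjective s hs) (Equiv.refl _)).trans
      (Equiv.Set.sumCompl (Set.range s))
  let hh : Fin p ⊕ Cc → K := Sum.elim h fun i => cv K i.1
  have hh0 : ∀ x, hh x ≠ 0 := by
    rintro (x | x)
    · exact h0 x
    · exact cv_ne _
  let C1 : Matrix Cc (Fin p) K := Matrix.of fun a b => tor K a.1 (h b)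
  have hblock : (Matrix.of fun x y => tor K (ε x) (hh y)) =
      Matrix.fromBlocks A1 0 C1 (Matrix.diagonal fun i : Cc => cv K i.1) := by
    ext x y
    rcases x with x | x <;> rcases y with y | y
    · rfl
    · change tor K (s x) (cv K y.1) = 0
      rw [tor_cv, if_neg]
      intro h2
      exact y.2 ⟨x, h2⟩
    · rfl
    · change tor K x.1 (cv K y.1) = Matrix.diagonal (fun i : Cc => cv K i.1) x y
      rw [tor_cv, Matrix.diagonal_apply]
      by_cases h2 : x = y
      · subst h2; simp
      · rw [if_neg (fun h3 => h2 (Subtype.ext h3)), if_neg h2]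
  have hcv : (∏ i : Cc, cv K i.1) ≠ 0 := Finset.prod_ne_zero_iff.2 fun b _ => cv_ne _
  have hdetall : (Matrix.of fun x y => tor K (ε x) (hh y)).det = A1.det * ∏ i : Cc, cv K i.1 := by
    rw [hblock, Matrix.det_fromBlocks_zero₁₂, Matrix.det_diagonal]
  have key := can_ge v hc (e.trans ε.symm) (fun x => tor K (ε x))
    (fun i => by rw [hF]; simp) hh hh0
    (by rw [hdetall]; exact mul_ne_zero hUC.ne hcv)
  rw [hdetall, v.map_mul _ _ hUC.ne hcv, hUC.ord, v.ord_prod _ _ fun i _ => cv_ne _,
    Fintype.sum_sum_type] at key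
  have h10 : (∑ x, v.ord (hh (Sum.inl x))) = ∑ x, v.ord (h x) := rfl
  have h11 : (∑ x : Cc, v.ord (hh (Sum.inr x))) = ∑ x : Cc, v.ord (cv K x.1) := rfl
  rw [h10, h11] at key
  linarith

/-- the complex vector of an integral vector -/
def cst (x : Fin n → ℤ) : Fin n → ℂ := fun j => (x j : ℂ)

/-- the eigenprojection -/
noncomputable def nu (θ : ℂ) (W : (Fin n → ℤ) →+ (Fin n → ℤ)) (r k : ℕ) (x : Fin n → ℤ) :
    Fin n → ℂ := ∑ s ∈ Finset.range r, (θ⁻¹) ^ (k * s) • cst (W^[s] x)

/-- the complex linear extension -/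
noncomputable def wc (W : (Fin n → ℤ) →+ (Fin n → ℤ)) : (Fin n → ℂ) →ₗ[ℂ] (Fin n → ℂ) :=
  Fintype.linearCombination ℂ (fun i => cst (W (Pi.single i 1)))

theorem wc_cst (W : (Fin n → ℤ) →+ (Fin n → ℤ)) (x : Fin n → ℤ) : wc W (cst x) = cst (W x) := by
  rw [wc, Fintype.linearCombination_apply]
  funext j
  conv_rhs => rw [vec_eq x, map_sum]
  simp only [cst, Finset.sum_apply, Pi.smul_apply, smul_eq_mul, map_zsmul, Int.cast_sum]
  exact Finset.sum_congr rfl fun i _ => by push_cast; rfl

theorem wc_nu {θ : ℂ} {W : (Fin n → ℤ) →+ (Fin n → ℤ)} {r : ℕ} (hθ : θ ^ r = 1) (hθ0 : θ ≠ 0)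
    (hW : ∀ m, W^[r] m = m) (k : ℕ) (x : Fin n → ℤ) :
    wc W (nu θ W r k x) = θ ^ k • nu θ W r k x := by
  let f : ℕ → Fin n → ℂ := fun s => (θ⁻¹) ^ (k * s) • cst (W^[s] x)
  have h1 : ∀ s, wc W (f s) = θ ^ k • f (s + 1) := by
    intro s
    simp only [f]
    rw [map_smul, wc_cst, Function.iterate_succ_apply', smul_smul]
    congr 1
    rw [mul_add, mul_one, pow_add, inv_pow θ k]
    field_simp
  have h2 : f r = f 0 := by
    simp only [f]
    rw [hW, mul_zero, pow_zero, mul_comm k r, pow_mul, inv_pow, hθ, inv_one, one_pow]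
    rfl
  change wc W (∑ s ∈ Finset.range r, f s) = θ ^ k • ∑ s ∈ Finset.range r, f s
  rw [map_sum, Finset.sum_congr rfl fun s _ => h1 s, ← Finset.smul_sum]
  congr 1
  have h3 := Finset.sum_range_succ f r
  have h4 := Finset.sum_range_succ' f r
  rw [h3, h2] at h4
  exact (add_right_cancel h4).symm

theorem nu_sum {θ : ℂ} {r : ℕ} (hθ : IsPrimitiveRoot θ r) (hr : 0 < r)
    (W : (Fin n → ℤ) →+ (Fin n → ℤ)) (x : Fin n → ℤ) :
    ∑ k ∈ Finset.range r, nu θ W r k x = (r : ℂ) • cst x := by
  simp only [nu]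
  rw [Finset.sum_comm]
  simp only [← Finset.sum_smul]
  rw [Finset.sum_eq_single_of_mem 0 (Finset.mem_range.2 hr)]
  · simp
  · intro s hs hs0
    have h1 : (θ⁻¹) ^ s ≠ 1 := by
      rw [inv_pow, Ne, inv_eq_one]
      exact hθ.pow_ne_one_of_pos_of_lt hs0 (Finset.mem_range.1 hs)
    have h2 := mul_geom_sum ((θ⁻¹) ^ s) r
    have h3 : ((θ⁻¹) ^ s) ^ r = 1 := by
      rw [← pow_mul, mul_comm, pow_mul, inv_pow, hθ.pow_eq_one, inv_one, one_pow]
    rw [h3, sub_self] at h2
    have h4 := (mul_eq_zero.1 h2).resolve_left (sub_ne_zero.2 h1)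
    have h5 : ∑ k ∈ Finset.range r, (θ⁻¹) ^ (k * s) = 0 := by
      rw [← h4]
      exact Finset.sum_congr rfl fun k _ => by rw [← pow_mul, mul_comm]
    rw [h5, zero_smul]

theorem nu_zero (θ : ℂ) {r : ℕ} {W : (Fin n → ℤ) →+ (Fin n → ℤ)} (hW : ∀ m, W^[r] m = m)
    (m : Fin n → ℤ) : nu θ W r 0 (W m - m) = 0 := by
  have h1 : ∀ s, W^[s] (W m - m) = W^[s + 1] m - W^[s] m := by
    intro s
    rw [iterate_map_sub, Function.iterate_succ_apply]
  funext j
  rw [nu, Finset.sum_apply]
  simp only [zero_mul, pow_zero, one_smul, cst, h1, Pi.sub_apply, Int.cast_sub]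
  rw [Finset.sum_range_sub (fun s => ((W^[s] m j : ℤ) : ℂ)), hW]
  simp

section eig

variable {v : DVal K} {σ : K ≃ₐ[ℂ] K} {W : (Fin n → ℤ) →+ (Fin n → ℤ)} {l : (Fin n → ℤ) → ℂ}
  {θ : ℂ} {r : ℕ}

theorem uc_sub (hch : Ch v σ θ) (hmo : Mo σ W l) (m : Fin n → ℤ) :
    ∃ z, UC v (ym K (W m - m)) z := by
  have h1 := hch.2 _ (ym_ne (K := K) m)
  have h2 := (UC.const (v := v) (hmo.1 m)).inv.mul h1
  refine ⟨(l m)⁻¹ * θ ^ v.ord (ym K m), ?_⟩
  convert h2 using 1
  rw [hmo.2, sub_eq_add_neg, ym_add, ym_neg]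
  have := alg_ne (K := K) (hmo.1 m)
  have := ym_ne (K := K) m
  field_simp

theorem eig_fun (hI : InI v σ) (hr : 0 < r) (hσ : σ ^ r = 1) (hθ : IsPrimitiveRoot θ r)
    (hch : Ch v σ θ) (hmo : Mo σ W l) {x : Fin n → ℤ} {z : ℂ} (hz : UC v (ym K x) z) {k : ℕ}
    (hkr : k < r) (hν : nu θ W r k x ≠ 0) :
    ∃ h : K, h ≠ 0 ∧ (k : ℤ) ≤ v.ord h ∧
      ∀ j, v.Pos (tor K j h - algebraMap ℂ K (nu θ W r k x j)) := by
  have hθ0 : θ ≠ 0 := hθ.ne_zero hr.ne'
  set e0 : K := algebraMap ℂ K z⁻¹ * ym K x with he0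
  have hUC0 : UC v e0 1 := by
    have := (UC.const (v := v) (inv_ne_zero hz.1)).mul hz
    rwa [inv_mul_cancel₀ hz.1] at this
  have hit : ∀ s : ℕ, ∃ w : ℂ, (σ ^ s) e0 = algebraMap ℂ K w * ym K (W^[s] x) ∧
      UC v ((σ ^ s) e0) 1 := by
    intro s
    induction s with
    | zero => exact ⟨z⁻¹, rfl, by rw [pow_zero, AlgEquiv.one_apply]; exact hUC0⟩
    | succ s ih =>
      obtain ⟨w, h1, h2⟩ := ih
      refine ⟨w * l (W^[s] x), ?_, ?_⟩
      · rw [pow_succ', AlgEquiv.mul_apply, h1, map_mul, AlgEquiv.commutes, hmo.2,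
          Function.iterate_succ_apply', map_mul]
        ring
      · rw [pow_succ', AlgEquiv.mul_apply]
        exact h2.congr (hI _ h2.reg)
  let f : ℕ → K := fun s => algebraMap ℂ K ((θ⁻¹) ^ (k * s)) * (σ ^ s) e0
  set E : K := ∑ s ∈ Finset.range r, f s with hE
  have h1 : ∀ s, σ (f s) = algebraMap ℂ K (θ ^ k) * f (s + 1) := by
    intro s
    simp only [f]
    rw [map_mul, AlgEquiv.commutes, pow_succ', AlgEquiv.mul_apply, ← mul_assoc, ← map_mul]
    congr 2
    rw [mul_add, mul_one, pow_add, inv_pow θ k]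
    field_simp
  have h2 : f r = f 0 := by
    simp only [f]
    rw [hσ, mul_zero, pow_zero, mul_comm k r, pow_mul, inv_pow, hθ.pow_eq_one, inv_one, one_pow]
    rfl
  have hσE : σ E = algebraMap ℂ K (θ ^ k) * E := by
    rw [hE, map_sum, Finset.sum_congr rfl fun s _ => h1 s, ← Finset.mul_sum]
    congr 1
    have h3 := Finset.sum_range_succ f r
    have h4 := Finset.sum_range_succ' f r
    rw [h3, h2] at h4
    exact (add_right_cancel h4).symm
  have hreg : v.Reg E := by
    have := sum_mem (S := v.O) (t := Finset.range r) (f := f) fun s _ => by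
      rw [DVal.mem_O]
      exact v.reg_mul (v.reg_const _) (hit s).choose_spec.2.reg
    exact this
  have htor : ∀ j, v.Pos (tor K j E - algebraMap ℂ K (nu θ W r k x j)) := by
    intro j
    have h3 : tor K j E - algebraMap ℂ K (nu θ W r k x j) = ∑ s ∈ Finset.range r,
        (algebraMap ℂ K ((θ⁻¹) ^ (k * s)) * ((W^[s] x j : ℤ) : K)) * ((σ ^ s) e0 - 1) := by
      rw [hE, map_sum, nu, Finset.sum_apply, map_sum, ← Finset.sum_sub_distrib]
      refine Finset.sum_congr rfl fun s _ => ?_
      obtain ⟨w, h4, -⟩ := hit s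
      have h5 : tor K j ((σ ^ s) e0) = ((W^[s] x j : ℤ) : K) * (σ ^ s) e0 := by
        rw [h4, Derivation.leibniz, Derivation.map_algebraMap, smul_zero, add_zero, tor_ym,
          smul_eq_mul]
        ring
      have h6 : algebraMap ℂ K (((θ⁻¹) ^ (k * s) • cst (W^[s] x)) j) =
          algebraMap ℂ K ((θ⁻¹) ^ (k * s)) * ((W^[s] x j : ℤ) : K) := by
        rw [Pi.smul_apply, smul_eq_mul, RingHom.map_mul, cst, map_intCast]
      simp only [f]
      rw [Derivation.leibniz, Derivation.map_algebraMap, smul_zero, add_zero, h5, smul_eq_mul, h6]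
      ring
    rw [h3]
    have h4 : ∀ s : Finset ℕ, v.Pos (∑ s ∈ s,
        (algebraMap ℂ K ((θ⁻¹) ^ (k * s)) * ((W^[s] x j : ℤ) : K)) * ((σ ^ s) e0 - 1)) := by
      intro s
      induction s using Finset.induction_on with
      | empty => exact pos_zero
      | insert a s ha ih =>
        rw [Finset.sum_insert ha]
        refine v.pos_add (v.pos_mul_left (v.reg_mul (v.reg_const _) (v.reg_intCast _)) ?_) ih
        have := (hit a).choose_spec.2.2
        rwa [map_one] at this
    exact h4 _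
  have hE0 : E ≠ 0 := by
    intro h0
    apply hν
    funext j
    have h3 := htor j
    rw [h0, map_zero, zero_sub] at h3
    by_contra hne
    have h4 := pos_neg h3
    rw [neg_neg] at h4
    exact not_pos (alg_ne hne) (v.const _ hne) h4
  refine ⟨E, hE0, ?_, htor⟩
  have h3 := hch.2 E hE0
  rw [hσE, mul_div_assoc, div_self hE0, mul_one] at h3
  have h4 := (UC.const (v := v) (pow_ne_zero k hθ0)).uniq h3
  have h5 : θ ^ (v.ord E - k) = 1 := by
    rw [zpow_sub₀ hθ0, ← h4, zpow_natCast, div_self (pow_ne_zero _ hθ0)]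
  rw [hθ.zpow_eq_one_iff_dvd] at h5
  have h6 := v.ord_nonneg hE0 hreg
  by_contra h7
  push Not at h7
  obtain ⟨q, hq⟩ := h5
  have h8 : (r : ℤ) * q < 0 := by omega
  have h9 : q < 0 := by
    by_contra h10
    push Not at h10
    have : 0 ≤ (r : ℤ) * q := by positivity
    omega
  have h10 : (r : ℤ) * q ≤ -r := by nlinarith
  have h11 : (k : ℤ) < r := by exact_mod_cast hkr
  omega

theorem indep_cst {x y : Fin n → ℤ} {i j : Fin n} (h : x i * y j ≠ x j * y i) :
    LinearIndependent ℂ ![cst x, cst y] := by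
  rw [LinearIndependent.pair_iff]
  intro s t hst
  have h1 := congrFun hst i
  have h2 := congrFun hst j
  simp only [Pi.add_apply, Pi.smul_apply, smul_eq_mul, cst, Pi.zero_apply] at h1 h2
  have h3 : ((x i : ℂ) * y j - x j * y i) ≠ 0 := by
    rw [sub_ne_zero]
    exact_mod_cast h
  constructor
  · have h4 : s * ((x i : ℂ) * y j - x j * y i) = 0 := by linear_combination y j * h1 - y i * h2
    exact (mul_eq_zero.1 h4).resolve_right h3
  · have h4 : t * ((x i : ℂ) * y j - x j * y i) = 0 := by linear_combination x i * h2 - x j * h1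
    exact (mul_eq_zero.1 h4).resolve_right h3

theorem tri {d : ℕ} {F : Foliation K d} (e : Fin d ≃ Fin n)
    (hF : ∀ i, F.D i = tor K (e i)) {c : ℤ} (hc : IsCanOrd F v c)
    (hI : InI v σ) (hr : 0 < r) (hσ : σ ^ r = 1) (hθ : IsPrimitiveRoot θ r)
    (hch : Ch v σ θ) (hmo : Mo σ W l) :
    (∀ m, W m = m) ∨ (r : ℤ) ≤ c + 1 ∨ ((r : ℤ) ≤ 2 * (c + 1) ∧
      (∀ m, W (W m - m) = -(W m - m)) ∧
      ∀ m m' i j, (W m - m) i * (W m' - m') j = (W m - m) j * (W m' - m') i) := by
  have hθ0 : θ ≠ 0 := hθ.ne_zero hr.ne'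
  have hW := hmo.iter_eq hσ
  by_cases hcase : ∃ m k, 0 < k ∧ k < r ∧ 2 * k ≠ r ∧ nu θ W r k (W m - m) ≠ 0
  · -- two conjugate eigenvalues
    obtain ⟨m, k, hk0, hkr, h2k, hν⟩ := hcase
    right; left
    obtain ⟨z, hz⟩ := uc_sub hch hmo m
    have hconj : nu θ W r (r - k) (W m - m) = fun j =>
        starRingEnd ℂ (nu θ W r k (W m - m) j) := by
      funext j
      rw [nu, nu, Finset.sum_apply, Finset.sum_apply, map_sum]
      refine Finset.sum_congr rfl fun s _ => ?_
      rw [Pi.smul_apply, Pi.smul_apply, smul_eq_mul, smul_eq_mul, map_mul]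
      congr 1
      · have h1 : starRingEnd ℂ θ = θ⁻¹ := by
          have h2 : ‖θ‖ = 1 := hθ.norm'_eq_one hr.ne'
          rw [Complex.inv_def, Complex.normSq_eq_norm_sq, h2]
          simp
        rw [map_pow, map_inv₀, h1, inv_inv]
        have h3 : (θ⁻¹) ^ ((r - k) * s) * (θ⁻¹) ^ (k * s) = 1 := by
          rw [← pow_add, ← add_mul, Nat.sub_add_cancel hkr.le, pow_mul, inv_pow, hθ.pow_eq_one,
            inv_one, one_pow]
        have h4 : θ ^ (k * s) * (θ⁻¹) ^ (k * s) = 1 := by
          rw [← mul_pow, mul_inv_cancel₀ hθ0, one_pow]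
        exact mul_right_cancel₀ (pow_ne_zero (k * s) (inv_ne_zero hθ0)) (h3.trans h4.symm)
      · rw [cst]
        simp
    have hν' : nu θ W r (r - k) (W m - m) ≠ 0 := by
      intro h0
      apply hν
      funext j
      have h1 := congrFun (hconj.symm.trans h0) j
      simpa using h1
    obtain ⟨h1, h10, h1k, h1t⟩ := eig_fun hI hr hσ hθ hch hmo hz hkr hν
    obtain ⟨h2, h20, h2k', h2t⟩ := eig_fun hI hr hσ hθ hch hmo hz (k := r - k) (by omega) hν'
    have hli : LinearIndependent ℂ ![nu θ W r k (W m - m), nu θ W r (r - k) (W m - m)] := by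
      rw [LinearIndependent.pair_iff]
      intro s t hst
      have e1 := congrArg (wc W) hst
      rw [map_add, map_smul, map_smul, wc_nu hθ.pow_eq_one hθ0 hW,
        wc_nu hθ.pow_eq_one hθ0 hW, map_zero] at e1
      have hne : θ ^ k - θ ^ (r - k) ≠ 0 := by
        rw [sub_ne_zero]
        intro h5
        have := hθ.pow_inj hkr (by omega) h5
        omega
      have e2 : (s * (θ ^ k - θ ^ (r - k))) • nu θ W r k (W m - m) = 0 := by
        have e3 : t • nu θ W r (r - k) (W m - m) = -(s • nu θ W r k (W m - m)) :=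
          eq_neg_of_add_eq_zero_right hst
        have e4 : t • θ ^ (r - k) • nu θ W r (r - k) (W m - m) =
            -(θ ^ (r - k) • s • nu θ W r k (W m - m)) := by
          rw [smul_comm, e3, smul_neg]
        rw [e4] at e1
        rw [mul_sub, sub_smul, mul_smul, mul_comm s (θ ^ (r - k)), mul_smul]
        rw [sub_eq_add_neg]
        exact e1
      have e5 := (smul_eq_zero.1 e2).resolve_right hν
      have hs0 := (mul_eq_zero.1 e5).resolve_right hne
      refine ⟨hs0, ?_⟩
      rw [hs0, zero_smul, zero_add] at hst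
      exact (smul_eq_zero.1 hst).resolve_right hν'
    have h3 := jac_bound e hF hc ![h1, h2] (by
        intro i; fin_cases i
        · exact h10
        · exact h20) _ hli (by
        intro i j; fin_cases i
        · exact h1t j
        · exact h2t j)
    rw [Fin.sum_univ_two] at h3
    change v.ord h1 + v.ord h2 ≤ c + 1 at h3
    have : ((r - k : ℕ) : ℤ) = r - k := by push_cast [hkr.le]; ring
    omega
  · push Not at hcase
    have hval : ∀ m, W m - m ≠ 0 → ∃ k, 2 * k = r ∧
        nu θ W r k (W m - m) = (r : ℂ) • cst (W m - m) := by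
      intro m hm
      have h1 := nu_sum hθ hr W (W m - m)
      have h2 : ∃ k, 0 < k ∧ k < r ∧ 2 * k = r := by
        by_contra hcon
        push Not at hcon
        have h3 : ∑ k ∈ Finset.range r, nu θ W r k (W m - m) = 0 := by
          refine Finset.sum_eq_zero fun k hk => ?_
          rw [Finset.mem_range] at hk
          by_cases h0 : k = 0
          · rw [h0, nu_zero θ hW]
          · exact hcase m k (by omega) hk (hcon k (by omega) hk)
        rw [h3] at h1
        apply hm
        have h4 := (smul_eq_zero.1 h1.symm).resolve_left (by exact_mod_cast hr.ne')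
        funext j
        have h5 := congrFun h4 j
        simp only [cst, Pi.zero_apply] at h5
        exact_mod_cast h5
      obtain ⟨k, hk0, hkr, h2k⟩ := h2
      refine ⟨k, h2k, ?_⟩
      rw [← h1, Finset.sum_eq_single_of_mem k (Finset.mem_range.2 hkr)]
      intro k' hk' hne
      rw [Finset.mem_range] at hk'
      by_cases h0 : k' = 0
      · rw [h0, nu_zero θ hW]
      · exact hcase m k' (by omega) hk' (by omega)
    have hr0 : (r : ℂ) ≠ 0 := by exact_mod_cast hr.ne'
    have hneg : ∀ m, W (W m - m) = -(W m - m) := by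
      intro m
      by_cases hm : W m - m = 0
      · rw [hm, map_zero, neg_zero]
      obtain ⟨k, h2k, hk⟩ := hval m hm
      have h1 := wc_nu hθ.pow_eq_one hθ0 hW k (W m - m)
      rw [hk, map_smul, wc_cst, smul_comm] at h1
      have h2 := smul_right_injective _ hr0 h1
      have h3 : θ ^ k = -1 := by
        have h4 : θ ^ k * θ ^ k = 1 := by
          rw [← pow_add, ← two_mul, h2k, hθ.pow_eq_one]
        rcases mul_self_eq_one_iff.1 h4 with h5 | h5
        · exact absurd h5 (hθ.pow_ne_one_of_pos_of_lt (by omega) (by omega))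
        · exact h5
      simp only [h3] at h2
      funext j
      have h4 := congrFun h2 j
      simp only [cst, Pi.smul_apply, smul_eq_mul, neg_mul, one_mul] at h4
      rw [Pi.neg_apply]
      exact_mod_cast h4
    by_cases hid : ∀ m, W m = m
    · exact Or.inl hid
    right
    push Not at hid
    obtain ⟨m0, hm0⟩ := hid
    by_cases hrk : ∃ m m' i j, (W m - m) i * (W m' - m') j ≠ (W m - m) j * (W m' - m') i
    · left
      obtain ⟨m, m', i, j, hne⟩ := hrk
      have hm : W m - m ≠ 0 := by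
        intro h0; apply hne; rw [h0]; simp
      have hm' : W m' - m' ≠ 0 := by
        intro h0; apply hne; rw [h0]; simp
      obtain ⟨k, h2k, hk⟩ := hval m hm
      obtain ⟨k', h2k', hk'⟩ := hval m' hm'
      obtain rfl : k = k' := by omega
      obtain ⟨z, hz⟩ := uc_sub hch hmo m
      obtain ⟨z', hz'⟩ := uc_sub hch hmo m'
      have hne0 : ∀ x : Fin n → ℤ, x ≠ 0 → (r : ℂ) • cst x ≠ 0 := by
        intro x hx h0
        apply hx
        have h4 := (smul_eq_zero.1 h0).resolve_left hr0
        funext j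
        have h5 := congrFun h4 j
        simp only [cst, Pi.zero_apply] at h5
        exact_mod_cast h5
      obtain ⟨h1, h10, h1k, h1t⟩ := eig_fun hI hr hσ hθ hch hmo hz (k := k) (by omega)
        (by rw [hk]; exact hne0 _ hm)
      obtain ⟨h2, h20, h2k'', h2t⟩ := eig_fun hI hr hσ hθ hch hmo hz' (k := k) (by omega)
        (by rw [hk']; exact hne0 _ hm')
      have hli : LinearIndependent ℂ ![nu θ W r k (W m - m), nu θ W r k (W m' - m')] := by
        rw [hk, hk']
        have := (indep_cst hne).units_smul ![Units.mk0 _ hr0, Units.mk0 _ hr0]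
        convert this using 1
        funext i
        fin_cases i <;> rfl
      have h3 := jac_bound e hF hc ![h1, h2] (by
          intro i; fin_cases i
          · exact h10
          · exact h20) _ hli (by
          intro i j; fin_cases i
          · exact h1t j
          · exact h2t j)
      rw [Fin.sum_univ_two] at h3
      change v.ord h1 + v.ord h2 ≤ c + 1 at h3
      omega
    · right
      push Not at hrk
      refine ⟨?_, hneg, hrk⟩
      have hm : W m0 - m0 ≠ 0 := sub_ne_zero.2 hm0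
      obtain ⟨k, h2k, hk⟩ := hval m0 hm
      obtain ⟨z, hz⟩ := uc_sub hch hmo m0
      have hne0 : nu θ W r k (W m0 - m0) ≠ 0 := by
        rw [hk]
        intro h0
        apply hm
        have h4 := (smul_eq_zero.1 h0).resolve_left hr0
        funext j
        have h5 := congrFun h4 j
        simp only [cst, Pi.zero_apply] at h5
        exact_mod_cast h5
      obtain ⟨h1, h10, h1k, h1t⟩ := eig_fun hI hr hσ hθ hch hmo hz (k := k) (by omega) hne0
      have h3 := jac_bound e hF hc ![h1] (by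
          intro i; fin_cases i; exact h10) ![nu θ W r k (W m0 - m0)]
          (by
            rw [linearIndependent_unique_iff]
            exact hne0) (by
          intro i j; fin_cases i; exact h1t j)
      rw [Fin.sum_univ_one] at h3
      change v.ord h1 ≤ c + 1 at h3
      omega

end eig

end Q47.QM
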