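import Pool.Agent.Q47.QM.Iner

/-!
# Monomial automorphisms
-/

set_option autoImplicit false
set_option linter.unusedSectionVars false

namespace Q47.QM

open Pool.Agent.H436R3.Fol Pool.Agent.W497.Mld Pool.Agent.TH165.ACC

variable {n : ℕ} {K : Type} [Field K] [Algebra ℂ K]
  [Algebra (MvPolynomial (Fin n) ℂ) K] [IsFractionRing (MvPolynomial (Fin n) ℂ) K]
  [IsScalarTower ℂ (MvPolynomial (Fin n) ℂ) K]

theorem prim_single (i : Fin n) : Prim (Pi.single i 1 : Fin n → ℤ) :=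
  ⟨Pi.single i 1, by rw [pr, Finset.sum_eq_single i] <;> simp +contextual⟩

theorem pr_single (m : Fin n → ℤ) (i : Fin n) : pr m (Pi.single i 1) = m i := by
  rw [pr, Finset.sum_eq_single i] <;> simp +contextual

theorem ym_uniq {a b : ℂ} (ha : a ≠ 0) (hb : b ≠ 0) {m m' : Fin n → ℤ}
    (h : algebraMap ℂ K a * ym K m = algebraMap ℂ K b * ym K m') : m = m' ∧ a = b := by
  have h1 : m = m' := by
    funext i
    obtain ⟨v, hv, hu⟩ := exists_mon (K := K) (prim_single i)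
    have h2 := congrArg v.ord h
    rw [v.map_mul _ _ (alg_ne ha) (ym_ne _), v.map_mul _ _ (alg_ne hb) (ym_ne _), v.const _ ha,
      v.const _ hb, ord_ym, ord_ym, hu, pr_single, pr_single] at h2
    omega
  subst h1
  exact ⟨rfl, (algebraMap ℂ K).injective (mul_right_cancel₀ (ym_ne _) h)⟩

/-- `σ` maps Laurent monomials to multiples of Laurent monomials -/
def IsMono (n : ℕ) {K : Type} [Field K] [Algebra ℂ K]
    [Algebra (MvPolynomial (Fin n) ℂ) K] [IsFractionRing (MvPolynomial (Fin n) ℂ) K]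
    [IsScalarTower ℂ (MvPolynomial (Fin n) ℂ) K] (σ : K ≃ₐ[ℂ] K) : Prop :=
  ∀ m : Fin n → ℤ, ∃ (c : ℂ) (m' : Fin n → ℤ), σ (ym K m) = algebraMap ℂ K c * ym K m'

/-- the data of a monomial automorphism -/
def Mo (σ : K ≃ₐ[ℂ] K) (W : (Fin n → ℤ) →+ (Fin n → ℤ)) (l : (Fin n → ℤ) → ℂ) : Prop :=
  (∀ m, l m ≠ 0) ∧ ∀ m, σ (ym K m) = algebraMap ℂ K (l m) * ym K (W m)

theorem exists_mo {σ : K ≃ₐ[ℂ] K} (h : IsMono n σ) : ∃ W l, Mo (n := n) σ W l := by
  choose l W hW using h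
  have hl : ∀ m, l m ≠ 0 := by
    intro m h0
    have h1 := hW m
    rw [h0, map_zero, zero_mul] at h1
    exact sne σ (ym_ne m) h1
  have hadd : ∀ m m', W (m + m') = W m + W m' := by
    intro m m'
    have h1 := hW (m + m')
    rw [ym_add, map_mul, hW, hW] at h1
    have h2 : algebraMap ℂ K (l m * l m') * ym K (W m + W m') =
        algebraMap ℂ K (l (m + m')) * ym K (W (m + m')) := by
      rw [← h1, map_mul, ym_add]; ring
    exact (ym_uniq (mul_ne_zero (hl _) (hl _)) (hl _) h2).1.symm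
  exact ⟨AddMonoidHom.mk' W hadd, l, hl, hW⟩

variable {σ τ : K ≃ₐ[ℂ] K} {W W' : (Fin n → ℤ) →+ (Fin n → ℤ)} {l l' : (Fin n → ℤ) → ℂ}

theorem Mo.add (h : Mo σ W l) (m m' : Fin n → ℤ) : l (m + m') = l m * l m' := by
  have h1 := h.2 (m + m')
  rw [ym_add, map_mul, h.2, h.2] at h1
  have h2 : algebraMap ℂ K (l m * l m') * ym K (W (m + m')) =
      algebraMap ℂ K (l (m + m')) * ym K (W (m + m')) := by
    rw [← h1, map_mul, map_add, ym_add]; ring
  exact (ym_uniq (mul_ne_zero (h.1 _) (h.1 _)) (h.1 _) h2).2.symm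

theorem Mo.uniq (h : Mo σ W l) (h' : Mo σ W' l') : W = W' ∧ l = l' := by
  have h1 : ∀ m, W m = W' m ∧ l m = l' m := fun m =>
    ym_uniq (K := K) (h.1 m) (h'.1 m) (by rw [← h.2, ← h'.2])
  exact ⟨DFunLike.ext _ _ fun m => (h1 m).1, funext fun m => (h1 m).2⟩

theorem Mo.mul (h : Mo σ W l) (h' : Mo τ W' l') :
    Mo (σ * τ) (W.comp W') (fun m => l' m * l (W' m)) := by
  refine ⟨fun m => mul_ne_zero (h'.1 _) (h.1 _), fun m => ?_⟩
  rw [AlgEquiv.mul_apply, h'.2, map_mul, AlgEquiv.commutes, h.2, map_mul]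
  change _ = _ * ym K (W (W' m))
  ring

theorem Mo.one : Mo (n := n) (1 : K ≃ₐ[ℂ] K) (AddMonoidHom.id _) (fun _ => 1) :=
  ⟨fun _ => one_ne_zero, fun m => by rw [AlgEquiv.one_apply, map_one, one_mul]; rfl⟩

theorem Mo.pow (h : Mo σ W l) (k : ℕ) : ∃ l', Mo (σ ^ k) (AddMonoidHom.mk' (W^[k])
    (fun a b => iterate_map_add W k a b)) l' := by
  induction k with
  | zero =>
    refine ⟨fun _ => 1, ?_⟩
    rw [pow_zero]
    exact Mo.one
  | succ k ih =>
    obtain ⟨l', hl'⟩ := ih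
    refine ⟨fun m => l' m * l (W^[k] m), ?_⟩
    rw [pow_succ']
    have h1 := h.mul hl'
    have h2 : (AddMonoidHom.mk' (W^[k + 1]) (fun a b => iterate_map_add W (k + 1) a b)) =
        W.comp (AddMonoidHom.mk' (W^[k]) (fun a b => iterate_map_add W k a b)) :=
      DFunLike.ext _ _ fun m => Function.iterate_succ_apply' W k m
    rw [h2]
    exact h1

theorem Mo.iter_eq (h : Mo σ W l) {r : ℕ} (hr : σ ^ r = 1) (m : Fin n → ℤ) : W^[r] m = m := by
  obtain ⟨l', hl'⟩ := h.pow r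
  rw [hr] at hl'
  have h1 := (hl'.uniq Mo.one).1
  exact DFunLike.congr_fun h1 m

/-- the adjoint of an endomorphism of the lattice of monomials -/
def adj (W : (Fin n → ℤ) →+ (Fin n → ℤ)) (u : Fin n → ℤ) : Fin n → ℤ :=
  fun i => pr (W (Pi.single i 1)) u

theorem pr_sum {ι : Type} (s : Finset ι) (f : ι → Fin n → ℤ) (u : Fin n → ℤ) :
    pr (∑ i ∈ s, f i) u = ∑ i ∈ s, pr (f i) u := by
  classical
  induction s using Finset.induction_on with
  | empty => simp [pr_zero]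
  | insert a s ha ih => rw [Finset.sum_insert ha, Finset.sum_insert ha, pr_add, ih]

theorem vec_eq (m : Fin n → ℤ) : m = ∑ i, m i • (Pi.single i 1 : Fin n → ℤ) := by
  funext j
  rw [Finset.sum_apply, Finset.sum_eq_single j]
  · simp
  · intro i _ hi
    simp [hi.symm]
  · intro h; exact absurd (Finset.mem_univ _) h

theorem pr_adj (W : (Fin n → ℤ) →+ (Fin n → ℤ)) (m u : Fin n → ℤ) :
    pr m (adj W u) = pr (W m) u := by
  conv_rhs => rw [vec_eq m, map_sum, pr_sum]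
  rw [pr]
  refine Finset.sum_congr rfl fun i _ => ?_
  rw [map_zsmul, pr_smul]
  rfl

theorem pr_ext {u u' : Fin n → ℤ} (h : ∀ m, pr m u = pr m u') : u = u' := by
  funext i
  have h1 := h (Pi.single i 1)
  have h2 : ∀ w : Fin n → ℤ, pr (Pi.single i 1) w = w i := by
    intro w
    rw [pr, Finset.sum_eq_single i] <;> simp +contextual
  rwa [h2, h2] at h1

theorem Mo.adj_tv (h : Mo σ W l) {v : DVal K} (hv : InI v σ) :
    adj W (tv v : Fin n → ℤ) = tv v := by
  apply pr_ext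
  intro m
  rw [pr_adj]
  have h1 := hv.ord (ym_ne (K := K) m)
  rwa [h.2, v.map_mul _ _ (alg_ne (h.1 m)) (ym_ne _), v.const _ (h.1 m), zero_add, ord_ym,
    ord_ym] at h1

theorem Mo.lam_eq (h : Mo σ W l) {v : DVal K} {z : ℂ} (hv : Ch v σ z) {m : Fin n → ℤ}
    (hm : W m = m) : l m = z ^ pr m (tv v : Fin n → ℤ) := by
  have h1 := hv.2 _ (ym_ne (K := K) m)
  rw [h.2, hm, mul_div_assoc, div_self (ym_ne _), mul_one, ord_ym] at h1
  exact (UC.const (h.1 m)).uniq h1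

end Q47.QM
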