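import Pool.Agent.Q47.QM.Iner
import Pool.Agent.TH165.ACC.NFin

/-!
# Valuations over a toric germ
-/

set_option autoImplicit false
set_option linter.unusedSectionVars false

namespace Q47.QM

open Pool.Agent.H436R3.Fol Pool.Agent.H436R3.KT Pool.Agent.W497.Mld Pool.Agent.TH165.ACC

variable {n : ℕ} {K : Type} [Field K] [Algebra ℂ K]
  [Algebra (MvPolynomial (Fin n) ℂ) K] [IsFractionRing (MvPolynomial (Fin n) ℂ) K]
  [IsScalarTower ℂ (MvPolynomial (Fin n) ℂ) K]

/-- the valuation ring as a subalgebra -/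
def Oa (v : DVal K) : Subalgebra ℂ K where
  carrier := {f | v.Reg f}
  mul_mem' := fun ha hb => v.reg_mul ha hb
  add_mem' := fun ha hb => v.reg_add ha hb
  algebraMap_mem' := fun c => v.reg_const c

theorem can_exists {dd : ℕ} {F : Foliation K dd} (e : Fin dd ≃ Fin n)
    (hF : ∀ i, F.D i = tor K (e i)) {v : DVal K} {S : Subalgebra ℂ K} (hS : S.FG)
    (hfr : ∀ f : K, ∃ a b : K, a ∈ S ∧ b ∈ S ∧ b ≠ 0 ∧ f * b = a) (hSv : IsLocalRing' S v) :
    ∃ c : ℤ, IsCanOrd F v c := by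
  classical
  choose b hb0 hb using fun i => Pool.Agent.H436R3.Fol.exists_smul_mem hS hfr (F.D i)
  have hne : ∃ m : ℤ, ∃ A : Matrix (Fin dd) (Fin dd) K, A.det ≠ 0 ∧
      (∀ i, Preserves v (∑ j, A i j • F.D j)) ∧ v.ord A.det = m := by
    refine ⟨_, Matrix.diagonal b, ?_, fun i => ?_, rfl⟩
    · rw [Matrix.det_diagonal]
      exact Finset.prod_ne_zero_iff.2 fun i _ => hb0 i
    · have h1 : (∑ j, Matrix.diagonal b i j • F.D j) = b i • F.D i := by
        rw [Finset.sum_eq_single i]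
        · rw [Matrix.diagonal_apply_eq]
        · intro j _ hj
          rw [Matrix.diagonal_apply_ne _ hj.symm, zero_smul]
        · intro h
          exact absurd (Finset.mem_univ _) h
      rw [h1]
      refine preserves_of v hSv fun f hf => ?_
      rw [Derivation.smul_apply, smul_eq_mul]
      exact hSv.1 _ (hb i f hf)
  obtain ⟨c, hc, hmin⟩ := Int.exists_least_of_bdd (P := fun m : ℤ =>
      ∃ A : Matrix (Fin dd) (Fin dd) K, A.det ≠ 0 ∧
      (∀ i, Preserves v (∑ j, A i j • F.D j)) ∧ v.ord A.det = m)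
    ⟨-1, fun m ⟨A, hA0, hA, hm⟩ => by rw [← hm]; exact can_ge_neg e hF v A hA0 hA⟩ hne
  exact ⟨c, hc, fun m hm => hmin m hm⟩

variable {g : ToricGerm n K}

theorem over_of_inter {v : DVal K} (hS : ∃ S : Subalgebra ℂ K, S.FG ∧ IsLocalRing' S v)
    (h : g.Inter (tv v)) : IsOverGerm g.P v ∧ ∃ c : ℤ, IsCanOrd g.X.T v c := by
  obtain ⟨S, hS, hSv⟩ := hS
  have hym : ∀ m ∈ Cn g.E, v.Reg (ym K m) := by
    intro m hm
    right
    rw [ord_ym]
    exact h.inCone m hm
  have hXR : g.X.R ≤ Oa v := by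
    rw [g.hR, LA]
    refine Algebra.adjoin_le ?_
    rintro _ ⟨m, hm, rfl⟩
    exact hym m hm
  have hle : S ⊔ g.X.R ≤ Oa v := sup_le (fun f hf => hSv.1 f hf) hXR
  have hL : IsLocalRing' (S ⊔ g.X.R) v := by
    refine ⟨fun f hf => hle hf, fun f hf => ?_⟩
    obtain ⟨a, b, ha, hb, hb0, hob, hab⟩ := hSv.2 f hf
    exact ⟨a, b, (le_sup_left : S ≤ S ⊔ g.X.R) ha, (le_sup_left : S ≤ S ⊔ g.X.R) hb, hb0, hob,
      hab⟩
  have hFG : (S ⊔ g.X.R).FG := hS.sup g.X.fg
  have hP1 : ∀ x : K, x ∈ Submodule.span ℂ (ym K '' Cn g.E) → ∀ hx : x ∈ g.X.R,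
      v.Pos (x - algebraMap ℂ K (g.P ⟨x, hx⟩)) := by
    intro x hx
    have hmem : ∀ y, y ∈ Submodule.span ℂ (ym K '' Cn g.E) → y ∈ g.X.R := by
      intro y hy
      rw [← g.span_eq] at hy
      exact hy
    induction hx using Submodule.span_induction with
    | mem x hx =>
      intro hx'
      obtain ⟨m, hm, rfl⟩ := hx
      by_cases h0 : m = 0
      · subst h0
        have h2 : (⟨ym K (0 : Fin n → ℤ), hx'⟩ : g.X.R) = 1 := Subtype.ext ym_zero
        rw [h2, map_one, map_one, ym_zero, sub_self]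
        exact pos_zero
      · rw [g.hP _ m hm h0 rfl, map_zero, sub_zero]
        right
        rw [ord_ym]
        exact h m hm h0
    | zero =>
      intro hx'
      have h2 : (⟨0, hx'⟩ : g.X.R) = 0 := rfl
      rw [h2, map_zero, map_zero, sub_zero]
      exact pos_zero
    | add x y hx hy ihx ihy =>
      intro hxy
      have h2 : (⟨x + y, hxy⟩ : g.X.R) = ⟨x, hmem x hx⟩ + ⟨y, hmem y hy⟩ := rfl
      rw [h2, map_add, map_add]
      have h3 := v.pos_add (ihx (hmem x hx)) (ihy (hmem y hy))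
      convert h3 using 1
      ring
    | smul a x hx ihx =>
      intro hax
      have h2 : (⟨a • x, hax⟩ : g.X.R) = a • ⟨x, hmem x hx⟩ := rfl
      rw [h2, map_smul, smul_eq_mul, map_mul]
      have h3 := v.pos_mul_left (v.reg_const a) (ihx (hmem x hx))
      convert h3 using 1
      rw [Algebra.smul_def]
      ring
  have hP : ∀ f : g.X.R, v.Pos ((f : K) - algebraMap ℂ K (g.P f)) := fun f =>
    hP1 f (by rw [← g.span_eq]; exact f.2) f.2
  refine ⟨⟨⟨_, hFG, le_sup_right, hL⟩, fun f => ⟨fun hf => ?_, fun hf => ?_⟩⟩, ?_⟩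
  · by_contra hne
    have h1 := pos_sub hf (hP f)
    rw [sub_sub_cancel] at h1
    exact not_pos (alg_ne hne) (v.const _ hne) h1
  · have h1 := hP f
    rwa [hf, map_zero, sub_zero] at h1
  · refine can_exists g.e g.hT hFG (fun f => ?_) hL
    obtain ⟨a, b, ha, hb, hb0, hab⟩ := g.X.frac f
    exact ⟨a, b, (le_sup_right : g.X.R ≤ S ⊔ g.X.R) ha, (le_sup_right : g.X.R ≤ S ⊔ g.X.R) hb, hb0,
      hab⟩

end Q47.QM
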