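import Pool.Agent.Q47.QM.Ser
import Pool.Agent.Q47.QM.Mono
import Pool.Agent.W497.Mld.Uniq

/-!
# The embedding into Laurent series
-/

set_option autoImplicit false
set_option linter.unusedSectionVars false

namespace Q47.QM

open Pool.Agent.H436R3.Fol Pool.Agent.W497.Mld Pool.Agent.TH165.ACC HahnSeries MvPolynomial

attribute [-instance] HahnSeries.powerSeriesAlgebra

section jac

variable {L : Type} [Field L] [Algebra ℂ L] {n : ℕ}

theorem der_aeval (D : Derivation ℂ L L) (y : Fin n → L) (p : MvPolynomial (Fin n) ℂ) :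
    D (aeval y p) = ∑ i, aeval y (pderiv i p) * D (y i) := by
  induction p using MvPolynomial.induction_on with
  | C a =>
    rw [aeval_C, Derivation.map_algebraMap]
    symm
    exact Finset.sum_eq_zero fun i _ => by rw [pderiv_C, map_zero, zero_mul]
  | add p q hp hq =>
    rw [map_add, map_add, hp, hq, ← Finset.sum_add_distrib]
    exact Finset.sum_congr rfl fun i _ => by rw [map_add, map_add, add_mul]
  | mul_X p j hp =>
    rw [map_mul, aeval_X, Derivation.leibniz, hp, smul_eq_mul, smul_eq_mul, Finset.mul_sum]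
    have h1 : aeval y p * D (y j) = ∑ i, (if i = j then aeval y p * D (y j) else 0) := by simp
    rw [h1, ← Finset.sum_add_distrib]
    refine Finset.sum_congr rfl fun i _ => ?_
    rw [Derivation.leibniz, map_add, smul_eq_mul, smul_eq_mul, map_mul, map_mul, aeval_X,
      pderiv_X, Pi.single_apply]
    by_cases h : i = j
    · subst h
      rw [if_pos rfl, if_pos rfl, map_one]
      ring
    · rw [if_neg h, if_neg (fun h' => h h'.symm), map_zero]
      ring

/-- the Jacobian criterion -/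
theorem jac_inj (y : Fin n → L) (D : Fin n → Derivation ℂ L L)
    (hdet : (Matrix.of fun j i => D j (y i)).det ≠ 0) {p : MvPolynomial (Fin n) ℂ} (hp : p ≠ 0) :
    aeval y p ≠ 0 := by
  suffices hs : ∀ N : ℕ, ∀ p : MvPolynomial (Fin n) ℂ, p.totalDegree ≤ N → p ≠ 0 →
      aeval y p ≠ 0 from hs _ p le_rfl hp
  have hconst : ∀ c : ℂ, (C c : MvPolynomial (Fin n) ℂ) ≠ 0 →
      aeval y (C c : MvPolynomial (Fin n) ℂ) ≠ 0 := by
    intro c hc
    rw [aeval_C]
    refine (map_ne_zero_iff _ (algebraMap ℂ L).injective).2 ?_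
    rintro rfl
    exact hc C_0
  intro N
  induction N with
  | zero =>
    intro p hd hp
    have h1 := totalDegree_eq_zero_iff_eq_C.1 (Nat.le_zero.1 hd)
    rw [h1] at hp ⊢
    exact hconst _ hp
  | succ N ih =>
    intro p hd hp h0
    by_cases hc : ∃ c, p = MvPolynomial.C c
    · obtain ⟨c, rfl⟩ := hc
      exact hconst c hp h0
    push Not at hc
    obtain ⟨i, hi⟩ := exists_pderiv_ne hc
    have h1 := ih (pderiv i p) (totalDegree_pderiv_le i hd) hi
    have h2 : Matrix.mulVec (Matrix.of fun j i => D j (y i)) (fun i => aeval y (pderiv i p)) = 0 := by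
      funext j
      rw [Matrix.mulVec, dotProduct]
      have h3 := der_aeval (D j) y p
      rw [h0, map_zero] at h3
      rw [Pi.zero_apply, h3]
      exact Finset.sum_congr rfl fun i _ => mul_comm _ _
    have h3 := Matrix.eq_zero_of_mulVec_eq_zero hdet h2
    exact h1 (congrFun h3 i)

end jac

/-- the data of the embedding -/
structure Wd (n : ℕ) where
  k : Fin n → ℕ
  nu : Fin n → (Fin n → ℤ) →+ ℂ
  z : Fin n → (Fin n → ℤ) →+ ℤ
  hz : ∀ j, k j = 0 → ∀ m, nu j m = (z j m : ℂ)
  U : Fin n → ℤ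
  b : Fin n → ℂ
  hb : ∀ j, k j ≠ 0 → b j = k j
  hbU : ∀ m, ∑ j, (if k j = 0 then b j * nu j m else 0) = (pr m U : ℂ)
  ch : (Fin n → ℤ) → ℂ
  ch_ne : ∀ m, ch m ≠ 0
  ch_add : ∀ m m', ch (m + m') = ch m * ch m'
  det : (Matrix.of fun j i => nu j (Pi.single i 1)).det ≠ 0

variable {n : ℕ} (K : Type) [Field K] [Algebra ℂ K]
  [Algebra (MvPolynomial (Fin n) ℂ) K] [IsFractionRing (MvPolynomial (Fin n) ℂ) K]
  [IsScalarTower ℂ (MvPolynomial (Fin n) ℂ) K]

theorem ed_single {K : Type} [Field K] [Algebra ℂ K] (D : Derivation ℂ K K) (a : ℤ) (y : K) :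
    ed D (single a y) = single a (D y) := by
  ext m
  rw [ed_coeff, coeff_single, coeff_single]
  split_ifs
  · rfl
  · exact map_zero D

theorem et_single {K : Type} [Field K] [Algebra ℂ K] (a : ℤ) (y : K) :
    et K (single a y) = (a : LS K) * single a y := by
  have h : ((a : ℤ) : LS K) = HahnSeries.C ((a : ℤ) : K) := (map_intCast HahnSeries.C a).symm
  ext m
  rw [et_coeff, h, HahnSeries.C_apply, HahnSeries.single_mul_single, zero_add, coeff_single,
    coeff_single]
  split_ifs with h1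
  · rw [h1]
  · rw [mul_zero]

namespace Wd

variable (d : Wd n)

/-- the parameters -/
noncomputable def T (j : Fin n) : LS K := if d.k j = 0 then 1 else single (d.k j : ℤ) (cv K j)

variable {K} in
theorem T_ord (j : Fin n) : (d.T K j) ≠ 0 ∧ (oL K).ord (d.T K j) = d.k j := by
  rw [T]
  split_ifs with h
  · exact ⟨one_ne_zero, by rw [(oL K).ord_one, h]; rfl⟩
  · exact ⟨single_ne_zero (cv_ne j), order_single (cv_ne j)⟩

theorem T_pos {j : Fin n} (h : d.k j ≠ 0) : (oL K).Pos (d.T K j) := by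
  right
  rw [(d.T_ord j).2]
  omega

theorem T_reg (j : Fin n) : (oL K).Reg (d.T K j) := by
  right
  rw [(d.T_ord j).2]
  omega

theorem T_ed (i j : Fin n) : ed (tor K i) (d.T K j) = if i = j ∧ d.k j ≠ 0 then d.T K j else 0 := by
  rw [T]
  by_cases h : d.k j = 0
  · rw [if_pos h, if_neg (fun h' => h'.2 h), Derivation.map_one_eq_zero]
  · rw [if_neg h, ed_single, tor_cv]
    by_cases hij : i = j
    · rw [if_pos hij, if_pos ⟨hij, h⟩]
    · rw [if_neg hij, if_neg (fun h' => hij h'.1), single_eq_zero]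

theorem T_et (j : Fin n) : et K (d.T K j) = (d.k j : LS K) * d.T K j := by
  rw [T]
  by_cases h : d.k j = 0
  · rw [if_pos h, h, Derivation.map_one_eq_zero, Nat.cast_zero, zero_mul]
  · rw [if_neg h, et_single, Int.cast_natCast]

/-- the logarithm -/
noncomputable def S (m : Fin n → ℤ) : LS K :=
  ∑ j, if d.k j = 0 then 0 else algebraMap ℂ (LS K) (d.nu j m) * d.T K j

theorem S_pos (m : Fin n → ℤ) : (oL K).Pos (d.S K m) := by
  have key : ∀ s : Finset (Fin n), (oL K).Pos (∑ j ∈ s, if d.k j = 0 then 0 else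
      algebraMap ℂ (LS K) (d.nu j m) * d.T K j) := by
    intro s
    induction s using Finset.induction_on with
    | empty => exact pos_zero
    | insert a s ha ih =>
      rw [Finset.sum_insert ha]
      refine (oL K).pos_add ?_ ih
      split_ifs with h
      · exact pos_zero
      · exact (oL K).pos_mul_left ((oL K).reg_const _) (d.T_pos K h)
  exact key _

theorem S_add (m m' : Fin n → ℤ) : d.S K (m + m') = d.S K m + d.S K m' := by
  rw [S, S, S, ← Finset.sum_add_distrib]
  refine Finset.sum_congr rfl fun j _ => ?_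
  split_ifs
  · rw [add_zero]
  · rw [map_add, map_add, add_mul]

/-- the torus part -/
noncomputable def Y (m : Fin n → ℤ) : K := ∏ j, if d.k j = 0 then cv K j ^ d.z j m else 1

variable {K} in
theorem Y_ne (m : Fin n → ℤ) : d.Y K m ≠ 0 := by
  refine Finset.prod_ne_zero_iff.2 fun j _ => ?_
  split_ifs
  · exact zpow_ne_zero _ (cv_ne j)
  · exact one_ne_zero

theorem Y_add (m m' : Fin n → ℤ) : d.Y K (m + m') = d.Y K m * d.Y K m' := by
  rw [Y, Y, Y, ← Finset.prod_mul_distrib]
  refine Finset.prod_congr rfl fun j _ => ?_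
  split_ifs
  · rw [map_add, zpow_add₀ (cv_ne j)]
  · rw [mul_one]

theorem Y_eq (m : Fin n → ℤ) : d.Y K m = ym K (fun j => if d.k j = 0 then d.z j m else 0) := by
  rw [Y, ym]
  refine Finset.prod_congr rfl fun j _ => ?_
  split_ifs
  · rfl
  · rw [zpow_zero]

theorem Y_tor (j : Fin n) (m : Fin n → ℤ) :
    tor K j (d.Y K m) = (if d.k j = 0 then (d.z j m : K) else 0) * d.Y K m := by
  rw [Y_eq, tor_ym]
  split_ifs <;> simp

/-- the images of the monomials -/
noncomputable def Ps (m : Fin n → ℤ) : LS K :=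
  single (pr m d.U) (algebraMap ℂ K (d.ch m) * d.Y K m) * Ex (d.S_pos K m)

variable {K} in
theorem Ps_ne (m : Fin n → ℤ) : d.Ps K m ≠ 0 :=
  mul_ne_zero (single_ne_zero (mul_ne_zero (alg_ne (d.ch_ne m)) (d.Y_ne m))) (Ex_ne _)

variable {K} in
theorem Ps_ord (m : Fin n → ℤ) : (oL K).ord (d.Ps K m) = pr m d.U := by
  have h0 := mul_ne_zero (alg_ne (K := K) (d.ch_ne m)) (d.Y_ne m)
  have h1 : UC (oL K) (Ex (d.S_pos K m)) 1 := ⟨one_ne_zero, by rw [map_one]; exact Ex_one _⟩
  rw [Ps, (oL K).map_mul _ _ (single_ne_zero h0) (Ex_ne _), h1.ord, add_zero]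
  exact order_single h0

theorem Ps_add (m m' : Fin n → ℤ) : d.Ps K (m + m') = d.Ps K m * d.Ps K m' := by
  have h1 : Ex (d.S_pos K (m + m')) = Ex (d.S_pos K m) * Ex (d.S_pos K m') := by
    rw [← Ex_add (d.S_pos K m) (d.S_pos K m') (by rw [← S_add]; exact d.S_pos K _)]
    exact Ex_congr _ _ (d.S_add K m m')
  have h2 : single (pr (m + m') d.U) (algebraMap ℂ K (d.ch (m + m')) * d.Y K (m + m')) =
      single (pr m d.U) (algebraMap ℂ K (d.ch m) * d.Y K m) *
        single (pr m' d.U) (algebraMap ℂ K (d.ch m') * d.Y K m') := by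
    rw [HahnSeries.single_mul_single, pr_add, d.ch_add, Y_add, RingHom.map_mul]
    congr 1
    ring
  rw [Ps, h1, h2, Ps, Ps]
  ring

theorem Ps_ed (j : Fin n) (m : Fin n → ℤ) : ed (tor K j) (d.Ps K m) =
    algebraMap ℂ (LS K) (d.nu j m) * d.T K j * d.Ps K m := by
  rw [Ps, Derivation.leibniz, Ex_ed, ed_single, smul_eq_mul, smul_eq_mul,
    Derivation.leibniz, Derivation.map_algebraMap, smul_zero, add_zero, smul_eq_mul, Y_tor]
  have hS : ed (tor K j) (d.S K m) =
      if d.k j = 0 then 0 else algebraMap ℂ (LS K) (d.nu j m) * d.T K j := by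
    rw [S, map_sum, Finset.sum_eq_single j]
    · split_ifs with h
      · exact map_zero _
      · rw [Derivation.leibniz, Derivation.map_algebraMap, smul_zero, add_zero, T_ed,
          if_pos ⟨rfl, h⟩, smul_eq_mul]
    · intro i _ hij
      split_ifs with h
      · exact map_zero _
      · rw [Derivation.leibniz, Derivation.map_algebraMap, smul_zero, add_zero, T_ed,
          if_neg (fun h' => hij h'.1.symm), smul_zero]
    · intro h; exact absurd (Finset.mem_univ _) h
  rw [hS]
  by_cases h : d.k j = 0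
  · rw [if_pos h, if_pos h, zero_mul, mul_zero, zero_add, d.hz j h, T, if_pos h, mul_one, ls_alg,
      map_intCast, HahnSeries.C_apply]
    have : single (pr m d.U) (algebraMap ℂ K (d.ch m) * (((d.z j m : ℤ) : K) * d.Y K m)) =
        single 0 ((d.z j m : ℤ) : K) * single (pr m d.U) (algebraMap ℂ K (d.ch m) * d.Y K m) := by
      rw [HahnSeries.single_mul_single, zero_add]
      congr 1
      ring
    rw [this]
    ring
  · rw [if_neg h, if_neg h, zero_mul, mul_zero, single_eq_zero, mul_zero, add_zero]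
    ring

theorem Ps_et (m : Fin n → ℤ) : et K (d.Ps K m) =
    ∑ j, algebraMap ℂ (LS K) (d.b j) * (algebraMap ℂ (LS K) (d.nu j m) * d.T K j * d.Ps K m) := by
  rw [Ps, Derivation.leibniz, Ex_et, et_single, smul_eq_mul, smul_eq_mul]
  have hS : et K (d.S K m) = ∑ j, (if d.k j = 0 then 0 else
      algebraMap ℂ (LS K) (d.b j) * (algebraMap ℂ (LS K) (d.nu j m) * d.T K j)) := by
    rw [S, map_sum]
    refine Finset.sum_congr rfl fun j _ => ?_
    split_ifs with h
    · exact map_zero _
    · rw [Derivation.leibniz, Derivation.map_algebraMap, smul_zero, add_zero, T_et, d.hb j h,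
        smul_eq_mul, map_natCast]
      ring
  have hU : ((pr m d.U : ℤ) : LS K) = ∑ j, (if d.k j = 0 then
      algebraMap ℂ (LS K) (d.b j) * (algebraMap ℂ (LS K) (d.nu j m) * d.T K j) else 0) := by
    rw [← map_intCast (algebraMap ℂ (LS K)), ← d.hbU, map_sum]
    refine Finset.sum_congr rfl fun j _ => ?_
    split_ifs with h
    · rw [T, if_pos h, map_mul, mul_one]
    · exact map_zero _
  have hsum : ((pr m d.U : ℤ) : LS K) + et K (d.S K m) =
      ∑ j, algebraMap ℂ (LS K) (d.b j) * (algebraMap ℂ (LS K) (d.nu j m) * d.T K j) := by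
    rw [hU, hS, ← Finset.sum_add_distrib]
    refine Finset.sum_congr rfl fun j _ => ?_
    split_ifs
    · rw [add_zero]
    · rw [zero_add]
  simp only [← mul_assoc]
  simp only [← mul_assoc] at hsum
  rw [← Finset.sum_mul, ← Finset.sum_mul, ← hsum]
  ring

/-- the polynomials -/
noncomputable def psi0 : MvPolynomial (Fin n) ℂ →ₐ[ℂ] LS K :=
  aeval fun i => d.Ps K (Pi.single i 1)

theorem psi0_ne {p : MvPolynomial (Fin n) ℂ} (hp : p ≠ 0) : d.psi0 K p ≠ 0 := by
  refine jac_inj _ (fun j => ed (tor K j)) ?_ hp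
  have h1 : (Matrix.of fun j i => ed (tor K j) (d.Ps K (Pi.single i 1))) =
      Matrix.of fun j i => d.T K j * (Matrix.of fun j i => d.Ps K (Pi.single i 1) *
        (algebraMap ℂ (LS K)).mapMatrix (Matrix.of fun j i => d.nu j (Pi.single i 1)) j i) j i := by
    ext1 j i
    simp only [Matrix.of_apply, RingHom.mapMatrix_apply, Matrix.map_apply]
    rw [Ps_ed]
    ring
  rw [h1, Matrix.det_mul_column, Matrix.det_mul_row, ← RingHom.map_det]
  refine mul_ne_zero (Finset.prod_ne_zero_iff.2 fun j _ => (d.T_ord j).1)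
    (mul_ne_zero (Finset.prod_ne_zero_iff.2 fun j _ => d.Ps_ne _) ?_)
  exact (map_ne_zero_iff _ (algebraMap ℂ (LS K)).injective).2 d.det

/-- the embedding -/
noncomputable def psi : K →+* LS K :=
  IsFractionRing.lift (g := (d.psi0 K : MvPolynomial (Fin n) ℂ →+* LS K))
    (by
      rw [injective_iff_map_eq_zero]
      intro p h
      by_contra hp
      exact d.psi0_ne K hp h)

theorem psi_jo (p : MvPolynomial (Fin n) ℂ) : d.psi K (jo (Fin n) K p) = d.psi0 K p := by
  rw [psi, jo_apply, IsFractionRing.lift_algebraMap]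
  rfl

theorem psi_alg (c : ℂ) : d.psi K (algebraMap ℂ K c) = algebraMap ℂ (LS K) c := by
  rw [← jo_C (ι := Fin n), psi_jo, psi0, aeval_C]

theorem psi_ne {f : K} (hf : f ≠ 0) : d.psi K f ≠ 0 := (map_ne_zero _).2 hf

theorem psi_cv (i : Fin n) : d.psi K (cv K i) = d.Ps K (Pi.single i 1) := by
  rw [cv, psi_jo, psi0, aeval_X]

theorem Ps_zero : d.Ps K 0 = 1 := by
  have h := d.Ps_add K 0 0
  rw [add_zero] at h
  exact (mul_left_cancel₀ (d.Ps_ne 0) (by rw [← h, mul_one])).symm

theorem psi_ym (m : Fin n → ℤ) : d.psi K (ym K m) = d.Ps K m := by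
  let φ : Multiplicative (Fin n → ℤ) →* LS K :=
    { toFun := fun m => d.Ps K (Multiplicative.toAdd m)
      map_one' := d.Ps_zero K
      map_mul' := fun a b => d.Ps_add K _ _ }
  have hz : ∀ (i : Fin n) (a : ℤ), d.Ps K (a • (Pi.single i 1 : Fin n → ℤ)) =
      d.Ps K (Pi.single i 1) ^ a := by
    intro i a
    have h := map_zpow φ (Multiplicative.ofAdd (Pi.single i 1 : Fin n → ℤ)) a
    exact h
  have hs : ∀ s : Finset (Fin n), d.Ps K (∑ i ∈ s, m i • (Pi.single i 1 : Fin n → ℤ)) =
      ∏ i ∈ s, d.Ps K (Pi.single i 1) ^ m i := by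
    intro s
    induction s using Finset.induction_on with
    | empty => rw [Finset.sum_empty, Finset.prod_empty, Ps_zero]
    | insert a s ha ih => rw [Finset.sum_insert ha, Finset.prod_insert ha, Ps_add, ih, hz]
  rw [ym, map_prod]
  conv_rhs => rw [vec_eq m, hs]
  exact Finset.prod_congr rfl fun i _ => by rw [map_zpow₀, psi_cv]

/-- derivations along the embedding -/
def Al (δ : K → LS K) : Prop :=
  (∀ f g, δ (f + g) = δ f + δ g) ∧ (∀ f g, δ (f * g) = d.psi K f * δ g + d.psi K g * δ f) ∧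
    ∀ c : ℂ, δ (algebraMap ℂ K c) = 0

variable {K}

theorem Al.ext {δ δ' : K → LS K} (h : d.Al K δ) (h' : d.Al K δ')
    (hcv : ∀ i : Fin n, δ (cv K i) = δ' (cv K i)) (f : K) : δ f = δ' f := by
  have hp : ∀ p : MvPolynomial (Fin n) ℂ, δ (jo (Fin n) K p) = δ' (jo (Fin n) K p) := by
    intro p
    induction p using MvPolynomial.induction_on with
    | C a => rw [jo_C, h.2.2, h'.2.2]
    | add p q hp hq => rw [map_add, h.1, h'.1, hp, hq]
    | mul_X p j hp =>
      rw [map_mul, h.2.1, h'.2.1, hp]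
      have := hcv j
      rw [cv] at this
      rw [this]
  obtain ⟨a, b, hb, rfl⟩ := exists_frac (MvPolynomial (Fin n) ℂ) f
  rw [← jo_apply, ← jo_apply]
  have hb0 : jo (Fin n) K b ≠ 0 := jo_ne hb
  set F := jo (Fin n) K a / jo (Fin n) K b with hF
  have h1 : F * jo (Fin n) K b = jo (Fin n) K a := div_mul_cancel₀ _ hb0
  have h2 := h.2.1 F (jo (Fin n) K b)
  have h3 := h'.2.1 F (jo (Fin n) K b)
  rw [h1, hp a, hp b] at h2
  rw [h1] at h3
  have h4 : d.psi K (jo (Fin n) K b) * δ F = d.psi K (jo (Fin n) K b) * δ' F := by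
    linear_combination h3 - h2
  exact mul_left_cancel₀ (d.psi_ne K hb0) h4

theorem al_psi (D : Derivation ℂ K K) : d.Al K fun f => d.psi K (D f) := by
  refine ⟨fun f g => ?_, fun f g => ?_, fun c => ?_⟩ <;> beta_reduce
  · rw [map_add, map_add]
  · rw [Derivation.leibniz, map_add, smul_eq_mul, smul_eq_mul, map_mul, map_mul]
  · rw [Derivation.map_algebraMap, map_zero]

theorem al_der (D : Derivation ℂ (LS K) (LS K)) : d.Al K fun f => D (d.psi K f) := by
  refine ⟨fun f g => ?_, fun f g => ?_, fun c => ?_⟩ <;> beta_reduce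
  · rw [map_add, map_add]
  · rw [map_mul, Derivation.leibniz, smul_eq_mul, smul_eq_mul]
  · rw [psi_alg, Derivation.map_algebraMap]

theorem al_sum {ι : Type} (s : Finset ι) (β : ι → LS K) (δ : ι → K → LS K)
    (h : ∀ i, d.Al K (δ i)) : d.Al K fun f => ∑ i ∈ s, β i * δ i f := by
  refine ⟨fun f g => ?_, fun f g => ?_, fun c => ?_⟩
  · rw [← Finset.sum_add_distrib]
    exact Finset.sum_congr rfl fun i _ => by rw [(h i).1, mul_add]
  · rw [Finset.mul_sum, Finset.mul_sum, ← Finset.sum_add_distrib]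
    exact Finset.sum_congr rfl fun i _ => by rw [(h i).2.1]; ring
  · exact Finset.sum_eq_zero fun i _ => by rw [(h i).2.2, mul_zero]

/-- the Euler identity -/
theorem euler (f : K) : et K (d.psi K f) =
    ∑ j, algebraMap ℂ (LS K) (d.b j) * ed (tor K j) (d.psi K f) := by
  refine Al.ext d (d.al_der (et K)) (d.al_sum Finset.univ _ _ fun j => d.al_der (ed (tor K j)))
    (fun i => ?_) f
  rw [psi_cv, Ps_et]
  exact Finset.sum_congr rfl fun j _ => by rw [Ps_ed]

/-- the Jacobian matrix -/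
noncomputable def J (d : Wd n) : Matrix (Fin n) (Fin n) (LS K) :=
  Matrix.of fun j i => algebraMap ℂ (LS K) (d.nu j (Pi.single i 1)) * d.T K j

theorem J_det : (d.J (K := K)).det ≠ 0 ∧ (oL K).ord (d.J (K := K)).det = ∑ j, (d.k j : ℤ) := by
  have h1 : (d.J (K := K)) = Matrix.of fun j i => d.T K j *
        (algebraMap ℂ (LS K)).mapMatrix (Matrix.of fun j i => d.nu j (Pi.single i 1)) j i := by
    ext1 j i
    simp only [J, Matrix.of_apply, RingHom.mapMatrix_apply, Matrix.map_apply]
    ring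
  have hd : algebraMap ℂ (LS K) (Matrix.of fun j i => d.nu j (Pi.single i 1)).det ≠ 0 :=
    (map_ne_zero_iff _ (algebraMap ℂ (LS K)).injective).2 d.det
  have hp : ∏ j, d.T K j ≠ 0 := Finset.prod_ne_zero_iff.2 fun j _ => (d.T_ord j).1
  rw [h1, Matrix.det_mul_column, ← RingHom.map_det]
  refine ⟨mul_ne_zero hp hd, ?_⟩
  rw [(oL K).map_mul _ _ hp hd, (oL K).const _ d.det, add_zero,
    (oL K).ord_prod _ _ fun j _ => (d.T_ord j).1]
  exact Finset.sum_congr rfl fun j _ => (d.T_ord j).2

/-- every derivation is a combination of the derivations of the series -/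
theorem exists_beta (D : Derivation ℂ K K) : ∃ β : Fin n → LS K,
    (∀ i, d.psi K (D (cv K i) / cv K i) = ∑ j, β j * d.J j i) ∧
    ∀ f, d.psi K (D f) = ∑ j, β j * ed (tor K j) (d.psi K f) := by
  set y : Fin n → LS K := fun i => d.psi K (D (cv K i) / cv K i) with hy
  set β : Fin n → LS K := Matrix.vecMul y (d.J)⁻¹ with hβ
  have h1 : Matrix.vecMul β d.J = y := by
    rw [hβ, Matrix.vecMul_vecMul, Matrix.nonsing_inv_mul _ (isUnit_iff_ne_zero.2 d.J_det.1),
      Matrix.vecMul_one]
  have h2 : ∀ i, d.psi K (D (cv K i) / cv K i) = ∑ j, β j * d.J j i := fun i =>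
    (congrFun h1 i).symm
  refine ⟨β, h2, fun f => ?_⟩
  refine Al.ext d (d.al_psi D) (d.al_sum Finset.univ _ _ fun j => d.al_der (ed (tor K j)))
    (fun i => ?_) f
  have h3 := h2 i
  have h4 : d.psi K (cv K i) ≠ 0 := d.psi_ne K (cv_ne i)
  rw [map_div₀, div_eq_iff h4] at h3
  rw [h3, Finset.sum_mul]
  refine Finset.sum_congr rfl fun j _ => ?_
  rw [psi_cv, Ps_ed, J, Matrix.of_apply]
  ring

end Wd

end Q47.QM
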