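import Pool.Agent.Q47.QM.Face

/-!
# Faces and the action on the points
-/

set_option autoImplicit false
set_option linter.unusedSectionVars false

namespace Q47.QM

open Pool.Agent.H436R3.Fol Pool.Agent.H436R3.KT Pool.Agent.W497.Mld Pool.Agent.TH165.ACC

variable {n : ℕ} {K : Type} [Field K] [Algebra ℂ K]
  [Algebra (MvPolynomial (Fin n) ℂ) K] [IsFractionRing (MvPolynomial (Fin n) ℂ) K]
  [IsScalarTower ℂ (MvPolynomial (Fin n) ℂ) K]

variable {g : ToricGerm n K}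

theorem Fx_nsmul {x : Pt g.X} {m : Fin n → ℤ} (h : m ∈ Fx x) (N : ℕ) : (N : ℤ) • m ∈ Fx x := by
  induction N with
  | zero => rw [Nat.cast_zero, zero_smul]; exact Fx_zero
  | succ N ih =>
    rw [Nat.cast_succ, add_smul, one_smul]
    exact Fx_add ih h

theorem Fx_sum {x : Pt g.X} {ι : Type} (s : Finset ι) (f : ι → Fin n → ℤ)
    (h : ∀ i ∈ s, f i ∈ Fx x) : ∑ i ∈ s, f i ∈ Fx x := by
  classical
  induction s using Finset.induction_on with
  | empty => rw [Finset.sum_empty]; exact Fx_zero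
  | insert a s ha ih =>
    rw [Finset.sum_insert ha]
    exact Fx_add (h a (Finset.mem_insert_self _ _))
      (ih fun i hi => h i (Finset.mem_insert_of_mem hi))

/-- an interior monomial of the face -/
theorem exists_m0 (x : Pt g.X) : ∃ m0 ∈ Fx x, ∀ i, ¬ InF x i → 0 < pr m0 (g.E i) := by
  classical
  have h1 : ∀ i, ∃ m ∈ Fx x, ¬ InF x i → 0 < pr m (g.E i) := by
    intro i
    by_cases hi : InF x i
    · exact ⟨0, Fx_zero, fun h => absurd hi h⟩
    · have h2 := hi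
      rw [InF] at h2
      push Not at h2
      obtain ⟨m, hm, hm0⟩ := h2
      exact ⟨m, hm, fun _ => lt_of_le_of_ne (hm.1 i) (Ne.symm hm0)⟩
  choose m hm hmi using h1
  refine ⟨∑ i, m i, Fx_sum _ _ fun i _ => hm i, fun i hi => ?_⟩
  rw [pr_sum]
  exact Finset.sum_pos' (fun j _ => (hm j).1 i) ⟨i, Finset.mem_univ i, hmi i hi⟩

theorem exists_N (x : Pt g.X) {m0 : Fin n → ℤ} (hm0 : ∀ i, ¬ InF x i → 0 < pr m0 (g.E i))
    (hm0' : m0 ∈ Fx x) {m : Fin n → ℤ} (hm : ∀ i, InF x i → 0 ≤ pr m (g.E i)) :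
    ∃ N : ℕ, ∀ i, 0 ≤ pr (m + (N : ℤ) • m0) (g.E i) := by
  classical
  obtain ⟨M, hM⟩ := (Finset.univ.image fun i => -pr m (g.E i)).exists_le
  refine ⟨M.toNat, fun i => ?_⟩
  rw [pr_add, pr_smul]
  by_cases hi : InF x i
  · rw [hi m0 hm0', mul_zero, add_zero]
    exact hm i hi
  · have h1 := hm0 i hi
    have h2 : -pr m (g.E i) ≤ M := hM _ (Finset.mem_image.2 ⟨i, Finset.mem_univ i, rfl⟩)
    have h3 := Int.self_le_toNat M
    have h4 : (0 : ℤ) ≤ (M.toNat : ℤ) := Int.natCast_nonneg _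
    nlinarith

/-- the face of the point is cut out by rays -/
theorem mem_Fx {x : Pt g.X} {m : Fin n → ℤ} (hm : m ∈ Cn g.E)
    (h : ∀ i, InF x i → pr m (g.E i) = 0) : m ∈ Fx x := by
  obtain ⟨m0, hm0, hpos⟩ := exists_m0 x
  obtain ⟨N, hN⟩ := exists_N x hpos hm0 (m := -m) (fun i hi => by rw [pr_neg, h i hi, neg_zero])
  refine Fx_face hm (m' := -m + (N : ℤ) • m0) hN ?_
  rw [add_neg_cancel_left]
  exact Fx_nsmul hm0 N

/-- points near `x` -/
theorem Fx_mono {x x' : Pt g.X} {m0 : Fin n → ℤ} (hm0 : m0 ∈ Fx x)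
    (hpos : ∀ i, ¬ InF x i → 0 < pr m0 (g.E i)) (h : m0 ∈ Fx x') {m : Fin n → ℤ}
    (hm : m ∈ Fx x) : m ∈ Fx x' := by
  obtain ⟨N, hN⟩ := exists_N x hpos hm0 (m := -m) (fun i hi => by rw [pr_neg, hi m hm, neg_zero])
  refine Fx_face hm.1 (m' := -m + (N : ℤ) • m0) hN ?_
  rw [add_neg_cancel_left]
  exact Fx_nsmul h N

theorem InF_mono {x x' : Pt g.X} (h : ∀ m ∈ Fx x, m ∈ Fx x') {i : Fin g.N} (hi : InF x' i) :
    InF x i := fun m hm => hi m (h m hm)

section act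

variable {σ : K ≃ₐ[ℂ] K} {W : (Fin n → ℤ) →+ (Fin n → ℤ)} {l : (Fin n → ℤ) → ℂ}

/-- `σ` fixes the point `x` -/
def Fixes (x : Pt g.X) (W : (Fin n → ℤ) →+ (Fin n → ℤ)) (l : (Fin n → ℤ) → ℂ) : Prop :=
  ∀ m ∈ Cn g.E, l m * yx x (W m) = yx x m

theorem W_Cn (hcone : ∀ u, g.InCone u → g.InCone (adj W u)) {m : Fin n → ℤ} (hm : m ∈ Cn g.E) :
    W m ∈ Cn g.E := by
  intro i
  rw [← pr_adj]
  exact hcone _ (ToricGerm.inCone_E i) m hm

/-- the inertia group fixes the point -/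
theorem fixes_of_InI (hmo : Mo σ W l) (hcone : ∀ u, g.InCone u → g.InCone (adj W u))
    {x : Pt g.X} {v : DVal K} (hov : IsOverGerm x v) (hI : InI v σ) : Fixes x W l := by
  intro m hm
  have h1 : v.Pos (ym K m - algebraMap ℂ K (yx x m)) := by
    have h2 := (hov.2 (⟨ym K m, ym_mem hm⟩ - algebraMap ℂ g.X.R (yx x m))).2 (by
      rw [map_sub, AlgHom.commutes]
      exact sub_eq_zero.2 (yx_eq x (ym_mem hm)).symm)
    exact h2
  have hWm := W_Cn hcone hm
  have h2 : v.Pos (ym K (W m) - algebraMap ℂ K (yx x (W m))) := by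
    have h2 := (hov.2 (⟨ym K (W m), ym_mem hWm⟩ - algebraMap ℂ g.X.R (yx x (W m)))).2 (by
      rw [map_sub, AlgHom.commutes]
      exact sub_eq_zero.2 (yx_eq x (ym_mem hWm)).symm)
    exact h2
  have h3 := hI _ (over_reg hov (ym_mem hm))
  rw [hmo.2] at h3
  have h4 : v.Pos (algebraMap ℂ K (l m * yx x (W m) - yx x m)) := by
    have h5 := v.pos_add (pos_sub h3 (v.pos_mul_left (v.reg_const (l m)) h2)) h1
    convert h5 using 1
    rw [RingHom.map_sub, RingHom.map_mul]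
    ring
  by_contra hne
  exact not_pos (alg_ne (sub_ne_zero.2 hne)) (v.const _ (sub_ne_zero.2 hne)) h4

theorem Fixes.mem {x : Pt g.X} (h : Fixes x W l) (hcone : ∀ u, g.InCone u → g.InCone (adj W u))
    {m : Fin n → ℤ} (hm : m ∈ Fx x) : W m ∈ Fx x := by
  refine ⟨W_Cn hcone hm.1, fun h0 => hm.2 ?_⟩
  rw [← h m hm.1, h0, mul_zero]

theorem Fixes.iter {x : Pt g.X} (h : Fixes x W l)
    (hcone : ∀ u, g.InCone u → g.InCone (adj W u)) {m : Fin n → ℤ} (hm : m ∈ Fx x) (s : ℕ) :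
    W^[s] m ∈ Fx x := by
  induction s with
  | zero => exact hm
  | succ s ih => rw [Function.iterate_succ_apply']; exact h.mem hcone ih

theorem Fixes.avg {x : Pt g.X} (h : Fixes x W l)
    (hcone : ∀ u, g.InCone u → g.InCone (adj W u)) {m : Fin n → ℤ} (hm : m ∈ Fx x) (R : ℕ) :
    Q47.QM.avg W R m ∈ Fx x := Fx_sum _ _ fun s _ => h.iter hcone hm s

theorem avg_mem_Cn (hcone : ∀ u, g.InCone u → g.InCone (adj W u)) {m : Fin n → ℤ}
    (hm : m ∈ Cn g.E) {R : ℕ} (hR : 0 < R) :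
    ∃ m' ∈ Cn g.E, Q47.QM.avg W R m = m + m' := by
  have hit : ∀ s : ℕ, W^[s] m ∈ Cn g.E := by
    intro s
    induction s with
    | zero => exact hm
    | succ s ih => rw [Function.iterate_succ_apply']; exact W_Cn hcone ih
  obtain ⟨R, rfl⟩ : ∃ q, R = q + 1 := ⟨R - 1, by omega⟩
  refine ⟨∑ s ∈ Finset.range R, W^[s + 1] m, fun i => ?_, ?_⟩
  · rw [pr_sum]
    exact Finset.sum_nonneg fun s _ => hit _ i
  · rw [Q47.QM.avg, Finset.sum_range_succ', add_comm]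
    rfl

end act

end Q47.QM
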