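import Pool.Agent.Q47.QM.Iner

/-!
# Laurent series
-/

set_option autoImplicit false
set_option linter.unusedSectionVars false

namespace Q47.QM

open Pool.Agent.H436R3.Fol HahnSeries

attribute [-instance] HahnSeries.powerSeriesAlgebra

variable (K : Type) [Field K] [Algebra ℂ K]

/-- Laurent series over `K` -/
abbrev LS : Type := HahnSeries ℤ K

variable {K}

theorem ls_alg (c : ℂ) : algebraMap ℂ (LS K) c = HahnSeries.C (algebraMap ℂ K c) :=
  HahnSeries.algebraMap_apply

variable (K) in
/-- the order of Laurent series -/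
noncomputable def oL : DVal (LS K) where
  ord := fun x => x.order
  map_mul := fun f g hf hg => HahnSeries.order_mul hf hg
  map_add := fun f g _ _ hfg => HahnSeries.min_order_le_order_add hfg
  surj := ⟨single 1 1, single_ne_zero one_ne_zero, order_single one_ne_zero⟩
  const := fun c _ => by rw [ls_alg]; exact order_C

theorem oL_ord (x : LS K) : (oL K).ord x = x.order := rfl

theorem reg_iff {x : LS K} : (oL K).Reg x ↔ ∀ n < 0, x.coeff n = 0 := by
  by_cases h0 : x = 0
  · subst h0
    exact ⟨fun _ _ _ => coeff_zero, fun _ => Or.inl rfl⟩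
  · rw [← le_order_iff_forall h0]
    exact ⟨fun h => h.resolve_left h0, fun h => Or.inr h⟩

theorem pos_iff' {x : LS K} : (oL K).Pos x ↔ ∀ n ≤ 0, x.coeff n = 0 := by
  by_cases h0 : x = 0
  · subst h0
    exact ⟨fun _ _ _ => coeff_zero, fun _ => Or.inl rfl⟩
  · have h1 := le_order_iff_forall (x := x) (i := 1) h0
    constructor
    · intro h n hn
      exact h1.1 (h.resolve_left h0) n (by omega)
    · intro h
      right
      exact h1.2 fun j hj => h j (by omega)

/-- a diagonal operator -/
noncomputable def op (T : ℤ → K →ₗ[ℂ] K) : LS K →ₗ[ℂ] LS K where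
  toFun x := ⟨fun n => T n (x.coeff n), x.isPWO_support.mono fun n hn => by
    rw [Function.mem_support] at hn
    rw [HahnSeries.mem_support]
    intro h
    rw [h, map_zero] at hn
    exact hn rfl⟩
  map_add' x y := by
    ext n
    simp
  map_smul' c x := by
    ext n
    simp

theorem op_coeff (T : ℤ → K →ₗ[ℂ] K) (x : LS K) (n : ℤ) : (op T x).coeff n = T n (x.coeff n) := rfl

theorem op_supp (T : ℤ → K →ₗ[ℂ] K) (x : LS K) : (op T x).support ⊆ x.support := by
  intro n hn
  rw [HahnSeries.mem_support] at hn ⊢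
  intro h
  rw [op_coeff, h, map_zero] at hn
  exact hn rfl

theorem op_leib {T : ℤ → K →ₗ[ℂ] K} (hT : ∀ i j a b, T (i + j) (a * b) = a * T j b + b * T i a)
    (x y : LS K) : op T (x * y) = x * op T y + y * op T x := by
  ext a
  rw [op_coeff, coeff_add, coeff_mul, coeff_mul_right' y.isPWO_support (op_supp T y),
    mul_comm y (op T x), coeff_mul_left' x.isPWO_support (op_supp T x), map_sum,
    ← Finset.sum_add_distrib]
  refine Finset.sum_congr rfl fun ij hij => ?_
  rw [Finset.mem_antidiagonal] at hij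
  rw [op_coeff, op_coeff, ← hij.2.2, hT]
  ring

theorem op_mul {T : ℤ → K →ₗ[ℂ] K} (hT : ∀ i j a b, T (i + j) (a * b) = T i a * T j b)
    (x y : LS K) : op T (x * y) = op T x * op T y := by
  ext a
  rw [op_coeff, coeff_mul, map_sum, coeff_mul_right' y.isPWO_support (op_supp T y)]
  symm
  calc ∑ ij ∈ Finset.antidiagonal (op T x).isPWO_support y.isPWO_support a,
        (op T x).coeff ij.1 * (op T y).coeff ij.2 =
      ∑ ij ∈ Finset.antidiagonal x.isPWO_support y.isPWO_support a,
        (op T x).coeff ij.1 * (op T y).coeff ij.2 := by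
        refine Finset.sum_subset ?_ ?_
        · intro ij hij
          rw [Finset.mem_antidiagonal] at hij ⊢
          exact ⟨op_supp T x hij.1, hij.2⟩
        · intro ij hij hn
          rw [Finset.mem_antidiagonal] at hij hn
          have : (op T x).coeff ij.1 = 0 := by
            by_contra h
            exact hn ⟨h, hij.2⟩
          rw [this, zero_mul]
    _ = _ := by
        refine Finset.sum_congr rfl fun ij hij => ?_
        rw [Finset.mem_antidiagonal] at hij
        rw [op_coeff, op_coeff, ← hij.2.2, hT]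

/-- a derivation of `K` acting on the coefficients -/
noncomputable def ed (D : Derivation ℂ K K) : Derivation ℂ (LS K) (LS K) :=
  Derivation.mk' (op fun _ => (D : K →ₗ[ℂ] K)) fun x y => by
    rw [op_leib, smul_eq_mul, smul_eq_mul]
    intro i j a b
    exact D.leibniz a b

theorem ed_coeff (D : Derivation ℂ K K) (x : LS K) (n : ℤ) : (ed D x).coeff n = D (x.coeff n) := rfl

variable (K) in
/-- the derivation `t d/dt` -/
noncomputable def et : Derivation ℂ (LS K) (LS K) :=
  Derivation.mk' (op fun n => (algebraMap ℂ (Module.End ℂ K) (n : ℂ))) fun x y => by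
    rw [op_leib, smul_eq_mul, smul_eq_mul]
    intro i j a b
    rw [Module.algebraMap_end_apply, Module.algebraMap_end_apply, Module.algebraMap_end_apply,
      Algebra.smul_def, Algebra.smul_def, Algebra.smul_def, map_intCast, map_intCast, map_intCast,
      Int.cast_add]
    ring

theorem et_coeff (x : LS K) (n : ℤ) : (et K x).coeff n = (n : K) * x.coeff n := by
  change (algebraMap ℂ (Module.End ℂ K) (n : ℂ)) (x.coeff n) = _
  rw [Module.algebraMap_end_apply, Algebra.smul_def, map_intCast]

/-- the automorphism `t ↦ z t` -/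
noncomputable def dl {z : ℂ} (hz : z ≠ 0) : LS K →+* LS K where
  toFun := op fun n => (algebraMap ℂ (Module.End ℂ K) (z ^ n))
  map_zero' := map_zero _
  map_add' := map_add _
  map_one' := by
    ext n
    rw [op_coeff, Module.algebraMap_end_apply]
    by_cases h : n = 0
    · subst h; simp
    · rw [coeff_one, if_neg h, smul_zero]
  map_mul' x y := by
    refine op_mul ?_ x y
    intro i j a b
    simp only [Module.algebraMap_end_apply, Algebra.smul_def]
    rw [zpow_add₀ hz, RingHom.map_mul]
    ring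

theorem dl_coeff {z : ℂ} (hz : z ≠ 0) (x : LS K) (n : ℤ) :
    (dl hz x).coeff n = algebraMap ℂ K (z ^ n) * x.coeff n := by
  change (algebraMap ℂ (Module.End ℂ K) (z ^ n)) (x.coeff n) = _
  rw [Module.algebraMap_end_apply, Algebra.smul_def]

theorem reg_ed {D : Derivation ℂ K K} {x : LS K} (h : (oL K).Reg x) : (oL K).Reg (ed D x) := by
  rw [reg_iff] at h ⊢
  intro n hn
  rw [ed_coeff, h n hn, map_zero]

theorem pos_ed {D : Derivation ℂ K K} {x : LS K} (h : (oL K).Pos x) : (oL K).Pos (ed D x) := by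
  rw [pos_iff'] at h ⊢
  intro n hn
  rw [ed_coeff, h n hn, map_zero]

theorem pos_et {x : LS K} (h : (oL K).Reg x) : (oL K).Pos (et K x) := by
  rw [reg_iff] at h
  rw [pos_iff']
  intro n hn
  rw [et_coeff]
  by_cases h0 : n = 0
  · subst h0; rw [Int.cast_zero, zero_mul]
  · rw [h n (by omega), mul_zero]

theorem pos_dl_sub {z : ℂ} (hz : z ≠ 0) {x : LS K} (h : (oL K).Reg x) :
    (oL K).Pos (dl hz x - x) := by
  rw [reg_iff] at h
  rw [pos_iff']
  intro n hn
  rw [coeff_sub, dl_coeff]
  by_cases h0 : n = 0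
  · subst h0; rw [zpow_zero, map_one, one_mul, sub_self]
  · rw [h n (by omega), mul_zero, sub_zero]

theorem pos_dl {z : ℂ} (hz : z ≠ 0) {x : LS K} (h : (oL K).Pos x) :
    (oL K).Pos (dl hz x) := by
  rw [pos_iff'] at h ⊢
  intro n hn
  rw [dl_coeff, h n hn, mul_zero]

theorem cast_ne {n : ℤ} (h : n ≠ 0) : (n : K) ≠ 0 := by
  rw [← map_intCast (algebraMap ℂ K)]
  exact alg_ne (by exact_mod_cast h)

/-- uniqueness for the homogeneous equation -/
theorem et_uniq {Z s : LS K} (hs : (oL K).Pos s) (h : et K Z = s * Z) (h0 : (oL K).Pos Z) :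
    Z = 0 := by
  by_contra hZ
  have h1 : 0 < Z.order := h0.resolve_left hZ
  have h2 : (et K Z).coeff Z.order ≠ 0 := by
    rw [et_coeff]
    refine mul_ne_zero (cast_ne h1.ne') ?_
    intro h3
    exact hZ (coeff_order_eq_zero.1 h3)
  rw [h] at h2
  by_cases hs0 : s = 0
  · rw [hs0, zero_mul, coeff_zero] at h2
    exact h2 rfl
  · have h3 := order_le_of_coeff_ne_zero h2
    rw [HahnSeries.order_mul hs0 hZ] at h3
    have h4 : 0 < s.order := hs.resolve_left hs0
    omega

/-- the coefficients of the exponential -/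
noncomputable def xs (s : ℕ → K) : ℕ → K
  | 0 => 1
  | n + 1 => (∑ i : Fin (n + 1), s (i + 1) * xs s (n - i)) / ((n + 1 : ℕ) : K)
termination_by n => n
decreasing_by omega

theorem ofPS_neg (p : PowerSeries K) {n : ℤ} (hn : n < 0) :
    (ofPowerSeries ℤ K p).coeff n = 0 := by
  rw [ofPowerSeries_apply]
  apply embDomain_of_notMem_range
  rintro ⟨m, hm⟩
  have : (m : ℤ) = n := hm
  omega

theorem exists_exp {s : LS K} (hs : (oL K).Pos s) :
    ∃ X : LS K, (oL K).Pos (X - 1) ∧ et K X = s * X := by
  set s' : ℕ → K := fun n => s.coeff n with hs'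
  have hs0 : s' 0 = 0 := (pos_iff'.1 hs) 0 le_rfl
  have hsP : s = ofPowerSeries ℤ K (PowerSeries.mk s') := by
    ext n
    by_cases hn : n < 0
    · rw [ofPS_neg _ hn, (pos_iff'.1 hs) n hn.le]
    · obtain ⟨m, rfl⟩ := Int.eq_ofNat_of_zero_le (not_lt.1 hn)
      rw [ofPowerSeries_apply_coeff, PowerSeries.coeff_mk]
  refine ⟨ofPowerSeries ℤ K (PowerSeries.mk (xs s')), ?_, ?_⟩
  · rw [pos_iff']
    intro n hn
    rw [coeff_sub]
    by_cases h0 : n = 0
    · subst h0
      have := ofPowerSeries_apply_coeff (Γ := ℤ) (PowerSeries.mk (xs s')) 0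
      rw [Nat.cast_zero] at this
      rw [this, PowerSeries.coeff_mk, xs, coeff_one, if_pos rfl, sub_self]
    · rw [ofPS_neg _ (by omega), coeff_one, if_neg h0, sub_self]
  · rw [hsP, ← map_mul]
    ext n
    rw [et_coeff]
    by_cases hn : n < 0
    · rw [ofPS_neg _ hn, ofPS_neg _ hn, mul_zero]
    · obtain ⟨m, rfl⟩ := Int.eq_ofNat_of_zero_le (not_lt.1 hn)
      rw [ofPowerSeries_apply_coeff, ofPowerSeries_apply_coeff, PowerSeries.coeff_mk,
        PowerSeries.coeff_mul]
      rcases m with _ | m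
      · simp [hs0]
      · rw [Finset.Nat.sum_antidiagonal_succ, PowerSeries.coeff_mk, hs0, zero_mul, zero_add,
          Finset.Nat.sum_antidiagonal_eq_sum_range_succ_mk]
        have h1 : xs s' (m + 1) =
            (∑ i : Fin (m + 1), s' (i + 1) * xs s' (m - i)) / ((m + 1 : ℕ) : K) := by
          rw [xs]
        have h2 : ((m + 1 : ℕ) : K) ≠ 0 := by
          have := cast_ne (K := K) (n := ((m + 1 : ℕ) : ℤ)) (by omega)
          exact_mod_cast this
        rw [h1, Int.cast_natCast, mul_div_cancel₀ _ h2, Finset.sum_range]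
        refine Finset.sum_congr rfl fun i _ => ?_
        rw [PowerSeries.coeff_mk, PowerSeries.coeff_mk]

/-- the exponential of a series of positive order -/
noncomputable def Ex {S : LS K} (hS : (oL K).Pos S) : LS K :=
  Classical.choose (exists_exp (pos_et (reg_of_pos hS)))

theorem Ex_one {S : LS K} (hS : (oL K).Pos S) : (oL K).Pos (Ex hS - 1) :=
  (Classical.choose_spec (exists_exp (pos_et (reg_of_pos hS)))).1

theorem Ex_et {S : LS K} (hS : (oL K).Pos S) : et K (Ex hS) = et K S * Ex hS :=
  (Classical.choose_spec (exists_exp (pos_et (reg_of_pos hS)))).2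

theorem Ex_reg {S : LS K} (hS : (oL K).Pos S) : (oL K).Reg (Ex hS) := by
  have : Ex hS = (Ex hS - 1) + 1 := by ring
  rw [this]
  exact (oL K).reg_add (reg_of_pos (Ex_one hS)) (oL K).reg_one

theorem Ex_uniq {S : LS K} (hS : (oL K).Pos S) {X : LS K} (h1 : (oL K).Pos (X - 1))
    (h2 : et K X = et K S * X) : X = Ex hS := by
  have h3 : X - Ex hS = 0 := by
    refine et_uniq (s := et K S) (pos_et (reg_of_pos hS)) ?_ ?_
    · rw [map_sub, h2, Ex_et]; ring
    · have : X - Ex hS = (X - 1) - (Ex hS - 1) := by ring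
      rw [this]
      exact pos_sub h1 (Ex_one hS)
  exact sub_eq_zero.1 h3

theorem Ex_add {S S' : LS K} (hS : (oL K).Pos S) (hS' : (oL K).Pos S')
    (h : (oL K).Pos (S + S')) : Ex h = Ex hS * Ex hS' := by
  symm
  apply Ex_uniq
  · have : Ex hS * Ex hS' - 1 = Ex hS * (Ex hS' - 1) + (Ex hS - 1) := by ring
    rw [this]
    exact (oL K).pos_add ((oL K).pos_mul_left (Ex_reg hS) (Ex_one hS')) (Ex_one hS)
  · rw [Derivation.leibniz, Ex_et, Ex_et, map_add, smul_eq_mul, smul_eq_mul]
    ring

theorem et_ed (D : Derivation ℂ K K) (x : LS K) : et K (ed D x) = ed D (et K x) := by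
  ext n
  rw [et_coeff, ed_coeff, ed_coeff, et_coeff, Derivation.leibniz, smul_eq_mul, smul_eq_mul]
  have : D ((n : ℤ) : K) = 0 := by
    rw [← map_intCast (algebraMap ℂ K), Derivation.map_algebraMap]
  rw [this, mul_zero, add_zero]

theorem Ex_ed (D : Derivation ℂ K K) {S : LS K} (hS : (oL K).Pos S) :
    ed D (Ex hS) = ed D S * Ex hS := by
  have h : ed D (Ex hS) - ed D S * Ex hS = 0 := by
    refine et_uniq (s := et K S) (pos_et (reg_of_pos hS)) ?_ ?_
    · rw [map_sub, et_ed, Ex_et, Derivation.leibniz, Derivation.leibniz, et_ed, Ex_et]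
      simp only [smul_eq_mul]
      ring
    · refine pos_sub ?_ ?_
      · have h1 : ed D (Ex hS) = ed D (Ex hS - 1) := by
          rw [map_sub, Derivation.map_one_eq_zero, sub_zero]
        rw [h1]
        exact pos_ed (Ex_one hS)
      · rw [mul_comm]
        exact (oL K).pos_mul_left (Ex_reg hS) (pos_ed hS)
  exact sub_eq_zero.1 h

theorem et_dl {z : ℂ} (hz : z ≠ 0) (x : LS K) : et K (dl hz x) = dl hz (et K x) := by
  ext n
  rw [et_coeff, dl_coeff, dl_coeff, et_coeff]
  ring

theorem Ex_dl {z : ℂ} (hz : z ≠ 0) {S S' : LS K} (hS : (oL K).Pos S) (hS' : (oL K).Pos S')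
    (h : dl hz S = S') : dl hz (Ex hS) = Ex hS' := by
  apply Ex_uniq
  · have : dl hz (Ex hS) - 1 = dl hz (Ex hS - 1) := by rw [map_sub, map_one]
    rw [this]
    exact pos_dl hz (Ex_one hS)
  · rw [et_dl, Ex_et, map_mul, ← et_dl, h]

theorem Ex_zero (h : (oL K).Pos (0 : LS K)) : Ex h = 1 := by
  symm
  apply Ex_uniq
  · rw [sub_self]; exact pos_zero
  · rw [map_zero, zero_mul, Derivation.map_one_eq_zero]

theorem Ex_ne {S : LS K} (hS : (oL K).Pos S) : Ex hS ≠ 0 := by
  intro h
  have h1 := Ex_one hS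
  rw [h, zero_sub] at h1
  have h2 := pos_neg h1
  rw [neg_neg] at h2
  exact not_pos one_ne_zero (oL K).ord_one h2

theorem Ex_congr {S S' : LS K} (hS : (oL K).Pos S) (hS' : (oL K).Pos S') (h : S = S') :
    Ex hS = Ex hS' := by
  subst h; rfl

end Q47.QM
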