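import Pool.Agent.Q47.QM.Bd

/-!
# The upper bound for the canonical order
-/

set_option autoImplicit false
set_option linter.unusedSectionVars false

namespace Q47.QM

open Pool.Agent.H436R3.Fol Pool.Agent.W497.Mld Pool.Agent.TH165.ACC HahnSeries

attribute [-instance] HahnSeries.powerSeriesAlgebra

theorem det_uc {L : Type} [Field L] [Algebra ℂ L] (w : DVal L) {m : ℕ}
    (A : Matrix (Fin m) (Fin m) L) (B : Matrix (Fin m) (Fin m) ℂ)
    (h : ∀ i j, w.Pos (A i j - algebraMap ℂ L (B i j))) (hB : B.det ≠ 0) :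
    UC w A.det B.det := by
  have hreg : ∀ i j, w.Reg (A i j) := by
    intro i j
    have : A i j = (A i j - algebraMap ℂ L (B i j)) + algebraMap ℂ L (B i j) := by ring
    rw [this]
    exact w.reg_add (reg_of_pos (h i j)) (w.reg_const _)
  let AO : Matrix (Fin m) (Fin m) w.O := Matrix.of fun a b => ⟨A a b, hreg _ _⟩
  let BO : Matrix (Fin m) (Fin m) w.O := Matrix.of fun a b =>
    ⟨algebraMap ℂ L (B a b), w.reg_const _⟩
  have hq : Ideal.Quotient.mk (mvI w) AO.det = Ideal.Quotient.mk (mvI w) BO.det := by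
    rw [RingHom.map_det, RingHom.map_det]
    congr 1
    ext a b
    rw [RingHom.mapMatrix_apply, RingHom.mapMatrix_apply, Matrix.map_apply, Matrix.map_apply,
      Ideal.Quotient.eq, mem_mvI]
    exact h a b
  rw [Ideal.Quotient.eq, mem_mvI] at hq
  have hA : (AO.det : L) = A.det := by
    have := w.O.subtype.map_det AO
    change (AO.det : L) = _ at this
    rw [this]
    rfl
  have hBd : (BO.det : L) = algebraMap ℂ L B.det := by
    have := w.O.subtype.map_det BO
    change (BO.det : L) = _ at this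
    rw [this, RingHom.map_det]
    rfl
  refine ⟨hB, ?_⟩
  rw [← hA, ← hBd]
  exact hq

/-- the inverse of an invertible matrix with regular entries -/
theorem inv_reg {L : Type} [Field L] [Algebra ℂ L] (w : DVal L) {m : ℕ}
    (A : Matrix (Fin m) (Fin m) L) (h : ∀ i j, w.Reg (A i j)) (h0 : A.det ≠ 0)
    (hd : w.ord A.det = 0) (i j : Fin m) : w.Reg (A⁻¹ i j) := by
  rw [Matrix.inv_def, Matrix.smul_apply, Ring.inverse_eq_inv', smul_eq_mul]
  refine w.reg_mul (w.reg_inv h0 hd) ?_
  rw [Matrix.adjugate_apply]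
  refine det_mem' w.O _ fun a b => ?_
  rw [Matrix.updateRow_apply]
  split_ifs
  · rw [Pi.single_apply]
    split_ifs
    · exact w.reg_one
    · exact w.reg_zero
  · exact h a b

variable {n : ℕ} {K : Type} [Field K] [Algebra ℂ K]
  [Algebra (MvPolynomial (Fin n) ℂ) K] [IsFractionRing (MvPolynomial (Fin n) ℂ) K]
  [IsScalarTower ℂ (MvPolynomial (Fin n) ℂ) K]

variable {d : Wd n} {hd : Dual d} {hc : Cop d}

theorem der_sum' {m : ℕ} (a : Fin m → K) (D : Fin m → Derivation ℂ K K) (f : K) :
    (∑ i, a i • D i) f = ∑ i, a i * D i f := der_sum_apply _ _ _ f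

theorem ub {dd : ℕ} {F : Foliation K dd} (e : Fin dd ≃ Fin n) (hF : ∀ i, F.D i = tor K (e i))
    {c : ℤ} (hcan : IsCanOrd F (vd (K := K) hd hc) c) : c + 1 ≤ ∑ j, (d.k j : ℤ) := by
  classical
  set v := vd (K := K) hd hc with hv
  obtain ⟨⟨A, hA0, hA, hAc⟩, hmin⟩ := hcan
  choose β hβ1 hβ2 using fun i : Fin dd => d.exists_beta (∑ j, A i j • F.D j)
  obtain ⟨f, P, k0, hP, hLD, ho⟩ := exists_family (K := K) hd hc
  let N : Matrix (Fin n) (Fin n) (LS K) := Matrix.of fun j k =>
    ed (tor K j) (d.psi K (f k)) / d.psi K (f k)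
  have hN : UC (oL K) N.det P.det := det_uc (oL K) N P (fun j k => (hLD k).2 j) hP
  have hNr : ∀ j k, (oL K).Reg (N j k) := by
    intro j k
    have : N j k = (N j k - algebraMap ℂ (LS K) (P j k)) + algebraMap ℂ (LS K) (P j k) := by ring
    rw [this]
    exact (oL K).reg_add (reg_of_pos ((hLD k).2 j)) ((oL K).reg_const _)
  let Bm : Matrix (Fin n) (Fin n) (LS K) := Matrix.of fun i j => β (e.symm i) j
  have hJ := d.J_det (K := K)
  -- the determinant of the frame
  have hdA : d.psi K A.det = Bm.det * (d.J (K := K)).det := by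
    rw [RingHom.map_det, ← Matrix.det_mul, ← Matrix.det_submatrix_equiv_self e (Bm * d.J)]
    congr 1
    refine Matrix.ext fun i j => ?_
    rw [RingHom.mapMatrix_apply, Matrix.map_apply, Matrix.submatrix_apply, Matrix.mul_apply]
    have h1 := hβ1 i (e j)
    have h2 : (∑ j, A i j • F.D j) (cv K (e j)) / cv K (e j) = A i j := by
      rw [der_sum', Finset.sum_eq_single j]
      · rw [hF, tor_cv, if_pos rfl, mul_div_assoc, div_self (cv_ne _), mul_one]
      · intro i' _ hi'
        rw [hF, tor_cv, if_neg (fun h => hi' (e.injective h)), mul_zero]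
      · intro h; exact absurd (Finset.mem_univ _) h
    rw [h2] at h1
    have h3 : ∀ l, Bm (e i) l = β i l := fun l => by
      change β (e.symm (e i)) l = _
      rw [Equiv.symm_apply_apply]
    rw [h1]
    exact Finset.sum_congr rfl fun l _ => by rw [h3]
  have hBm0 : Bm.det ≠ 0 := by
    intro h
    rw [h, zero_mul] at hdA
    exact d.psi_ne K hA0 hdA
  have hcB : c = (oL K).ord Bm.det + ∑ j, (d.k j : ℤ) := by
    rw [← hJ.2, ← (oL K).map_mul _ _ hBm0 hJ.1, ← hdA, ← hAc]
    rfl
  by_contra hcon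
  have hBo : 0 ≤ (oL K).ord Bm.det := by omega
  -- the matrix of derivatives
  have hfo : ∀ k, v.ord (f k) = if k = k0 then 1 else 0 := ho
  have hfr : ∀ k, v.Reg (f k) := by
    intro k
    right
    rw [hfo]
    split_ifs <;> norm_num
  let R : Matrix (Fin n) (Fin n) K := Matrix.of fun i k => (∑ j, A (e.symm i) j • F.D j) (f k)
  have hRr : ∀ i k, v.Reg (R i k) := fun i k => hA (e.symm i) _ (hfr k)
  have hRpsi : ∀ i k, d.psi K (R i k) = d.psi K (f k) * (Bm * N) i k := by
    intro i k
    change d.psi K ((∑ j, A (e.symm i) j • F.D j) (f k)) = _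
    rw [hβ2, Matrix.mul_apply, Finset.mul_sum]
    refine Finset.sum_congr rfl fun j _ => ?_
    change _ = d.psi K (f k) * (β (e.symm i) j * (ed (tor K j) (d.psi K (f k)) / d.psi K (f k)))
    have := d.psi_ne K (hLD k).1
    field_simp
  have hfp : ∏ k, d.psi K (f k) ≠ 0 :=
    Finset.prod_ne_zero_iff.2 fun k _ => d.psi_ne K (hLD k).1
  have hdR : d.psi K R.det = (∏ k, d.psi K (f k)) * (Bm.det * N.det) := by
    rw [RingHom.map_det, ← Matrix.det_mul, ← Matrix.det_mul_row]
    congr 1
    refine Matrix.ext fun i k => ?_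
    rw [RingHom.mapMatrix_apply, Matrix.map_apply, hRpsi, Matrix.of_apply]
  have hRpos : v.Pos R.det := by
    rw [vd_pos, hdR]
    right
    rw [(oL K).map_mul _ _ hfp (mul_ne_zero hBm0 hN.ne), (oL K).map_mul _ _ hBm0 hN.ne, hN.ord,
      (oL K).ord_prod _ _ fun k _ => d.psi_ne K (hLD k).1]
    have h1 : ∑ k, (oL K).ord (d.psi K (f k)) = 1 := by
      have h2 : ∀ k, (oL K).ord (d.psi K (f k)) = if k = k0 then 1 else 0 := ho
      rw [Finset.sum_congr rfl fun k _ => h2 k]
      simp
    rw [h1]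
    omega
  -- a kernel vector
  let RO : Matrix (Fin n) (Fin n) v.O := Matrix.of fun i k => ⟨R i k, hRr i k⟩
  have hROd : (RO.det : K) = R.det := by
    have := v.O.subtype.map_det RO
    change (RO.det : K) = _ at this
    rw [this]
    rfl
  have hq : ((Ideal.Quotient.mk (mvI v)).mapMatrix RO).det = 0 := by
    rw [← RingHom.map_det, Ideal.Quotient.eq_zero_iff_mem, mem_mvI, hROd]
    exact hRpos
  obtain ⟨ub, hub0, hub⟩ := Matrix.exists_vecMul_eq_zero_iff.2 hq
  choose u hu using fun i => Ideal.Quotient.mk_surjective (ub i)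
  have hDf : ∀ k, v.Pos (∑ i, (u i : K) * R i k) := by
    intro k
    have h1 := congrFun hub k
    rw [Matrix.vecMul, dotProduct, Pi.zero_apply] at h1
    have h2 : Ideal.Quotient.mk (mvI v) (∑ i, u i * RO i k) = 0 := by
      rw [map_sum, ← h1]
      refine Finset.sum_congr rfl fun i _ => ?_
      rw [map_mul, hu]
      rfl
    rw [Ideal.Quotient.eq_zero_iff_mem, mem_mvI] at h2
    have h3 : ((∑ i, u i * RO i k : v.O) : K) = ∑ i, (u i : K) * R i k := by
      rw [AddSubmonoidClass.coe_finsetSum]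
      rfl
    rwa [h3] at h2
  obtain ⟨i0, hi0⟩ : ∃ i0, ub i0 ≠ 0 := by
    by_contra h
    push Not at h
    exact hub0 (funext h)
  have hui0 : (u i0 : K) ≠ 0 ∧ v.ord (u i0 : K) = 0 := by
    apply ord_eq_zero_of_notMem
    intro h
    apply hi0
    rw [← hu, Ideal.Quotient.eq_zero_iff_mem]
    exact h
  -- the derivation
  let D : Derivation ℂ K K := ∑ i, (u i : K) • (∑ j, A (e.symm i) j • F.D j)
  have hD : ∀ x, D x = ∑ i, (u i : K) * (∑ j, A (e.symm i) j • F.D j) x := fun x =>
    der_sum' _ _ x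
  let bD : Fin n → LS K := fun j => ∑ i, d.psi K (u i) * Bm i j
  have hDpsi : ∀ x, d.psi K (D x) = ∑ j, bD j * ed (tor K j) (d.psi K x) := by
    intro x
    rw [hD, map_sum]
    have h1 : ∀ i, d.psi K ((u i : K) * (∑ j, A (e.symm i) j • F.D j) x) =
        ∑ j, d.psi K (u i) * Bm i j * ed (tor K j) (d.psi K x) := by
      intro i
      rw [map_mul, hβ2, Finset.mul_sum]
      exact Finset.sum_congr rfl fun j _ => by rw [mul_assoc]; rfl
    rw [Finset.sum_congr rfl fun i _ => h1 i, Finset.sum_comm]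
    exact Finset.sum_congr rfl fun j _ => by rw [← Finset.sum_mul]
  let y : Fin n → LS K := fun k => ∑ j, bD j * N j k
  have hy : ∀ k, y k = d.psi K (D (f k)) / d.psi K (f k) := by
    intro k
    rw [hDpsi, Finset.sum_div]
    exact Finset.sum_congr rfl fun j _ => by rw [mul_div_assoc]; rfl
  have hDfk : ∀ k, v.Pos (D (f k)) := by
    intro k
    rw [hD]
    exact hDf k
  have hyk : ∀ k, k ≠ k0 → (oL K).Pos (y k) := by
    intro k hk
    rw [hy]
    have h1 := vd_pos.1 (hDfk k)
    have h2 := (oL K).reg_inv (d.psi_ne K (hLD k).1) (by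
      have := ho k
      rw [if_neg hk] at this
      exact this)
    rw [div_eq_mul_inv, mul_comm]
    exact (oL K).pos_mul_left h2 h1
  have hyk0 : (oL K).Reg (y k0) := by
    rw [hy]
    have h1 := vd_pos.1 (hDfk k0)
    rcases h1 with h1 | h1
    · left; rw [h1, zero_div]
    · by_cases h2 : d.psi K (D (f k0)) = 0
      · left; rw [h2, zero_div]
      right
      rw [(oL K).ord_div h2 (d.psi_ne K (hLD k0).1)]
      have := ho k0
      rw [if_pos rfl] at this
      change (oL K).ord _ = 1 at this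
      omega
  set C1 : LS K := HahnSeries.C ((y k0).coeff 0) with hC1
  have hC1r : (oL K).Reg C1 := by
    rw [reg_iff]
    intro m hm
    rw [hC1, HahnSeries.C_apply, coeff_single, if_neg (by omega)]
  have hyC : (oL K).Pos (y k0 - C1) := by
    rw [pos_iff']
    intro m hm
    rw [coeff_sub, hC1, HahnSeries.C_apply, coeff_single]
    by_cases h : m = 0
    · rw [if_pos h, h, sub_self]
    · rw [if_neg h, sub_zero]
      exact (reg_iff.1 hyk0) m (by omega)
  let δ : Fin n → LS K := fun j => bD j - C1 * algebraMap ℂ (LS K) (d.b j)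
  have hε : ∀ k, (oL K).Pos (Matrix.vecMul δ N k) := by
    intro k
    have h1 : Matrix.vecMul δ N k = y k - C1 * ∑ j, algebraMap ℂ (LS K) (d.b j) *
        (ed (tor K j) (d.psi K (f k)) / d.psi K (f k)) := by
      rw [Matrix.vecMul, dotProduct, Finset.mul_sum, ← Finset.sum_sub_distrib]
      refine Finset.sum_congr rfl fun j _ => ?_
      change (bD j - C1 * algebraMap ℂ (LS K) (d.b j)) * N j k = bD j * N j k - C1 *
        (algebraMap ℂ (LS K) (d.b j) * N j k)
      ring
    rw [h1]
    have h2 := (hLD k).euler'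
    rw [ho] at h2
    by_cases hk : k = k0
    · subst hk
      rw [if_pos rfl, Int.cast_one] at h2
      have h3 : y k - C1 * ∑ j, algebraMap ℂ (LS K) (d.b j) *
        (ed (tor K j) (d.psi K (f k)) / d.psi K (f k)) = (y k - C1) - C1 *
          (∑ j, algebraMap ℂ (LS K) (d.b j) *
        (ed (tor K j) (d.psi K (f k)) / d.psi K (f k)) - 1) := by ring
      rw [h3]
      exact pos_sub hyC ((oL K).pos_mul_left hC1r h2)
    · rw [if_neg hk, Int.cast_zero, sub_zero] at h2
      exact pos_sub (hyk k hk) ((oL K).pos_mul_left hC1r h2)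
  have hδ : ∀ j, (oL K).Pos (δ j) := by
    intro j
    have h1 : δ = Matrix.vecMul (Matrix.vecMul δ N) N⁻¹ := by
      rw [Matrix.vecMul_vecMul, Matrix.mul_nonsing_inv _ (isUnit_iff_ne_zero.2 hN.ne),
        Matrix.vecMul_one]
    rw [h1, Matrix.vecMul, dotProduct]
    refine pos_sum _ _ _ fun k _ => ?_
    rw [mul_comm]
    exact (oL K).pos_mul_left (inv_reg (oL K) N hNr hN.ne hN.ord k j) (hε k)
  have hDx : ∀ x, v.Reg x → v.Pos (D x) := by
    intro x hx
    have hx' := vd_reg.1 hx
    rw [vd_pos, hDpsi]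
    have h1 : ∑ j, bD j * ed (tor K j) (d.psi K x) = ∑ j, δ j * ed (tor K j) (d.psi K x) +
        C1 * et K (d.psi K x) := by
      rw [d.euler x, Finset.mul_sum, ← Finset.sum_add_distrib]
      refine Finset.sum_congr rfl fun j _ => ?_
      change _ = (bD j - C1 * algebraMap ℂ (LS K) (d.b j)) * _ + _
      ring
    rw [h1]
    refine (oL K).pos_add (pos_sum _ _ _ fun j _ => ?_) ((oL K).pos_mul_left hC1r (pos_et hx'))
    rw [mul_comm]
    exact (oL K).pos_mul_left (reg_ed hx') (hδ j)
  -- the new frame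
  obtain ⟨π, hπ, hπ1⟩ := v.surj
  let cc : Fin dd → K := fun i => (u (e i) : K)
  let A' : Matrix (Fin dd) (Fin dd) K :=
    A.updateRow (e.symm i0) (π⁻¹ • ∑ i, cc i • A i)
  have hA'd : A'.det = π⁻¹ * ((u i0 : K) * A.det) := by
    change (A.updateRow (e.symm i0) (π⁻¹ • ∑ i, cc i • A i)).det = _
    rw [Matrix.det_updateRow_smul, Matrix.det_updateRow_sum]
    change π⁻¹ * ((u (e (e.symm i0)) : K) * A.det) = _
    rw [Equiv.apply_symm_apply]
  have hπi := inv_ne_zero hπ
  have hA'0 : A'.det ≠ 0 := by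
    rw [hA'd]
    exact mul_ne_zero hπi (mul_ne_zero hui0.1 hA0)
  have hA'o : v.ord A'.det = c - 1 := by
    rw [hA'd, v.map_mul _ _ hπi (mul_ne_zero hui0.1 hA0), v.map_mul _ _ hui0.1 hA0, hui0.2,
      v.ord_inv hπ, hπ1, hAc]
    ring
  have hfin := hmin ⟨A', hA'0, fun i => ?_, rfl⟩
  · rw [hA'o] at hfin
    omega
  · by_cases hi : i = e.symm i0
    · intro x hx
      have h1 : (∑ j, A' i j • F.D j) x = π⁻¹ * D x := by
        have h2 : ∀ j, A' i j = π⁻¹ * ∑ i', cc i' * A i' j := by
          intro j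
          change (A.updateRow (e.symm i0) (π⁻¹ • ∑ i, cc i • A i)) i j = _
          rw [hi, Matrix.updateRow_self, Pi.smul_apply, smul_eq_mul, Finset.sum_apply]
          congr 1
        rw [der_sum', hD, Finset.sum_congr rfl fun j _ => by rw [h2 j], Finset.mul_sum]
        simp only [Finset.mul_sum, Finset.sum_mul]
        rw [Finset.sum_comm, ← e.sum_comp]
        refine Finset.sum_congr rfl fun i' _ => ?_
        rw [Equiv.symm_apply_apply, der_sum', Finset.mul_sum, Finset.mul_sum]
        refine Finset.sum_congr rfl fun j _ => ?_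
        change π⁻¹ * ((u (e i') : K) * A i' j) * F.D j x = _
        ring
      rw [h1]
      rcases hDx x hx with h2 | h2
      · left; rw [h2, mul_zero]
      · by_cases h3 : D x = 0
        · left; rw [h3, mul_zero]
        right
        rw [v.map_mul _ _ hπi h3, v.ord_inv hπ, hπ1]
        omega
    · have h1 : (∑ j, A' i j • F.D j) = ∑ j, A i j • F.D j := by
        refine Finset.sum_congr rfl fun j _ => ?_
        change (A.updateRow (e.symm i0) (π⁻¹ • ∑ i, cc i • A i)) i j • _ = _
        rw [Matrix.updateRow_ne hi]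
      rw [h1]
      exact hA i

end Q47.QM
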