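import Pool.Agent.Q47.QM.Wd2
import Pool.Agent.Q47.QM.Pt2

/-!
# The valuations of the construction over a closed point
-/

set_option autoImplicit false
set_option linter.unusedSectionVars false

namespace Q47.QM

open Pool.Agent.H436R3.Fol Pool.Agent.H436R3.KT Pool.Agent.W497.Mld Pool.Agent.TH165.ACC
  HahnSeries

attribute [-instance] HahnSeries.powerSeriesAlgebra

variable {n : ℕ} {K : Type} [Field K] [Algebra ℂ K]
  [Algebra (MvPolynomial (Fin n) ℂ) K] [IsFractionRing (MvPolynomial (Fin n) ℂ) K]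
  [IsScalarTower ℂ (MvPolynomial (Fin n) ℂ) K]

variable {g : ToricGerm n K}

theorem over_of_val {x : Pt g.X} {v : DVal K}
    (hS : ∃ S : Subalgebra ℂ K, S.FG ∧ IsLocalRing' S v)
    (h : ∀ m ∈ Cn g.E, v.Pos (ym K m - algebraMap ℂ K (yx x m))) :
    IsOverGerm x v ∧ ∃ c : ℤ, IsCanOrd g.X.T v c := by
  obtain ⟨S, hS, hSv⟩ := hS
  have hym : ∀ m ∈ Cn g.E, v.Reg (ym K m) := by
    intro m hm
    have h1 : ym K m = (ym K m - algebraMap ℂ K (yx x m)) + algebraMap ℂ K (yx x m) := by ring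
    rw [h1]
    exact v.reg_add (reg_of_pos (h m hm)) (v.reg_const _)
  have hXR : g.X.R ≤ Oa v := by
    rw [g.hR, LA]
    refine Algebra.adjoin_le ?_
    rintro _ ⟨m, hm, rfl⟩
    exact hym m hm
  have hle : S ⊔ g.X.R ≤ Oa v := sup_le (fun f hf => hSv.1 f hf) hXR
  have hL : IsLocalRing' (S ⊔ g.X.R) v := by
    refine ⟨fun f hf => hle hf, fun f hf => ?_⟩
    obtain ⟨a, b, ha, hb, hb0, hob, hab⟩ := hSv.2 f hf
    exact ⟨a, b, (le_sup_left : S ≤ S ⊔ g.X.R) ha, (le_sup_left : S ≤ S ⊔ g.X.R) hb, hb0, hob,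
      hab⟩
  have hFG : (S ⊔ g.X.R).FG := hS.sup g.X.fg
  have hP1 : ∀ f : K, f ∈ Submodule.span ℂ (ym K '' Cn g.E) → ∀ hf : f ∈ g.X.R,
      v.Pos (f - algebraMap ℂ K (x ⟨f, hf⟩)) := by
    intro f hf
    have hmem : ∀ y, y ∈ Submodule.span ℂ (ym K '' Cn g.E) → y ∈ g.X.R := by
      intro y hy
      rw [← g.span_eq] at hy
      exact hy
    induction hf using Submodule.span_induction with
    | mem f hf =>
      intro hf'
      obtain ⟨m, hm, rfl⟩ := hf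
      have h1 := h m hm
      rwa [yx_eq x hf'] at h1
    | zero =>
      intro hf'
      have h2 : (⟨0, hf'⟩ : g.X.R) = 0 := rfl
      rw [h2, map_zero, map_zero, sub_zero]
      exact pos_zero
    | add a b ha hb iha ihb =>
      intro hab
      have h2 : (⟨a + b, hab⟩ : g.X.R) = ⟨a, hmem a ha⟩ + ⟨b, hmem b hb⟩ := rfl
      rw [h2, map_add, map_add]
      have h3 := v.pos_add (iha (hmem a ha)) (ihb (hmem b hb))
      convert h3 using 1
      ring
    | smul a b hb ihb =>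
      intro hab
      have h2 : (⟨a • b, hab⟩ : g.X.R) = a • ⟨b, hmem b hb⟩ := rfl
      rw [h2, map_smul, smul_eq_mul, map_mul]
      have h3 := v.pos_mul_left (v.reg_const a) (ihb (hmem b hb))
      convert h3 using 1
      rw [Algebra.smul_def]
      ring
  have hP : ∀ f : g.X.R, v.Pos ((f : K) - algebraMap ℂ K (x f)) := fun f =>
    hP1 f (by rw [← g.span_eq]; exact f.2) f.2
  refine ⟨⟨⟨_, hFG, le_sup_right, hL⟩, fun f => ⟨fun hf => ?_, fun hf => ?_⟩⟩, ?_⟩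
  · by_contra hne
    have h1 := pos_sub hf (hP f)
    rw [sub_sub_cancel] at h1
    exact not_pos (alg_ne hne) (v.const _ hne) h1
  · have h1 := hP f
    rwa [hf, map_zero, sub_zero] at h1
  · refine can_exists g.e g.hT hFG (fun f => ?_) hL
    obtain ⟨a, b, ha, hb, hb0, hab⟩ := g.X.frac f
    exact ⟨a, b, (le_sup_right : g.X.R ≤ S ⊔ g.X.R) ha, (le_sup_right : g.X.R ≤ S ⊔ g.X.R) hb, hb0,
      hab⟩

/-- the residues of the monomials -/
theorem vd_at {d : Wd n} (hd : Dual d) (hc : Cop d) {m : Fin n → ℤ} (hU : pr m d.U = 0)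
    (hz : ∀ j, d.k j = 0 → d.z j m = 0) :
    (vd (K := K) hd hc).Pos (ym K m - algebraMap ℂ K (d.ch m)) := by
  have hY : d.Y K m = 1 := by
    rw [Wd.Y]
    refine Finset.prod_eq_one fun j _ => ?_
    split_ifs with hj
    · rw [hz j hj, zpow_zero]
    · rfl
  rw [vd_pos, map_sub, d.psi_ym K, d.psi_alg K, Wd.Ps, hU, hY, mul_one, ls_alg, HahnSeries.C_apply]
  have h1 : single (0 : ℤ) (algebraMap ℂ K (d.ch m)) * Ex (d.S_pos K m) -
      single (0 : ℤ) (algebraMap ℂ K (d.ch m)) =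
      algebraMap ℂ (LS K) (d.ch m) * (Ex (d.S_pos K m) - 1) := by
    rw [ls_alg, HahnSeries.C_apply]
    ring
  rw [h1]
  exact (oL K).pos_mul_left ((oL K).reg_const _) (Ex_one _)

theorem exists_val2 {τ : K ≃ₐ[ℂ] K} {W : (Fin n → ℤ) →+ (Fin n → ℤ)}
    {l : (Fin n → ℤ) → ℂ} (hmo : Mo τ W l) {θ : ℂ} {N : ℕ} {κ : Fin n → ℕ}
    {y : Fin n → Fin n → ℂ} {x : Pt g.X} {U : Fin n → ℤ} (hN : 0 < N) (hθ : IsPrimitiveRoot θ N)
    (h : EG W θ (Fx x) U κ y) (hU : ∀ m, pr (W m) U = pr m U) (hU0 : U ≠ 0 ∨ ∃ j, κ j ≠ 0)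
    (hUF : ∀ m ∈ Fx x, pr m U = 0) (hUC : ∀ m ∈ Cn g.E, m ∉ Fx x → 0 < pr m U)
    {ch : (Fin n → ℤ) → ℂ} (hch0 : ∀ m, ch m ≠ 0) (hchm : ∀ m m', ch (m + m') = ch m * ch m')
    (hch : ∀ m, l m * ch (W m) = ch m * θ ^ pr m U) (hchx : ∀ m ∈ Fx x, ch m = yx x m) :
    ∃ (c : ℕ) (v : DVal K) (a : ℤ), 0 < c ∧ IsOverGerm x v ∧ IsCanOrd g.X.T v a ∧ InI v τ ∧
      Ch v τ (θ ^ c) ∧ U = (c : ℤ) • (tv v : Fin n → ℤ) ∧ (c : ℤ) * (a + 1) ≤ ∑ j, (κ j : ℤ) := by
  obtain ⟨c, d, hc0, hUc, hk, hd, hcop, hdU, hzW, hnu, hzF, hdch⟩ :=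
    exists_wd2 h hU hU0 hch0 hchm
  have hz : θ ^ c ≠ 0 := pow_ne_zero _ (hθ.ne_zero hN.ne')
  have hc1 : (0 : ℤ) < c := by exact_mod_cast hc0
  have hall : ∀ f, d.psi K (τ f) = dl hz (d.psi K f) := fun f =>
    psi_dl hmo hz hdU hzW hnu (fun m => by
      rw [hdch, hch, hUc, pr_smul_right, zpow_mul, zpow_natCast]) f
  have hval : ∀ m ∈ Cn g.E, (vd (K := K) hd hcop).Pos (ym K m - algebraMap ℂ K (yx x m)) := by
    intro m hm
    by_cases hmx : m ∈ Fx x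
    · have h1 := hUF m hmx
      rw [hUc, pr_smul_right] at h1
      have h2 := vd_at (K := K) hd hcop ((mul_eq_zero.1 h1).resolve_left hc1.ne')
        (fun j hj => hzF j hj m hmx)
      rwa [hdch, hchx m hmx] at h2
    · have h1 : yx x m = 0 := by
        by_contra h0
        exact hmx ⟨hm, h0⟩
      rw [h1, map_zero, sub_zero]
      right
      rw [vd_ym]
      have h2 := hUC m hm hmx
      rw [hUc, pr_smul_right] at h2
      exact (pos_iff_pos_of_mul_pos h2).1 hc1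
  obtain ⟨hov, a, ha⟩ := over_of_val (g := g) (x := x) (vd_loc (K := K) hd hcop) hval
  refine ⟨c, vd hd hcop, a, hc0, hov, ha, vd_InI hz hall, vd_Ch hz hall, by rw [vd_tv]; exact hUc,
    ?_⟩
  have h1 := ub g.e g.hT ha
  have h2 : ∑ j, (κ j : ℤ) = c * ∑ j, (d.k j : ℤ) := by
    rw [Finset.mul_sum]
    exact Finset.sum_congr rfl fun j _ => by rw [hk j]; push_cast; ring
  rw [h2]
  exact mul_le_mul_of_nonneg_left h1 hc1.le

end Q47.QM
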