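import Pool.Agent.Q47.QM.Char2

/-!
# The data of the embedding at a general closed point
-/

set_option autoImplicit false
set_option linter.unusedSectionVars false

namespace Q47.QM

open Pool.Agent.H436R3.Fol Pool.Agent.H436R3.KT Pool.Agent.W497.Mld Pool.Agent.TH165.ACC

variable {n : ℕ}

/-- eigenbases, general form -/
structure EG (W : (Fin n → ℤ) →+ (Fin n → ℤ)) (θ : ℂ) (F : Set (Fin n → ℤ)) (U : Fin n → ℤ)
    (k : Fin n → ℕ) (y : Fin n → Fin n → ℂ) : Prop where
  det : (Matrix.of y).det ≠ 0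
  eig : ∀ j m, dtc (W m) (y j) = θ ^ k j * dtc m (y j)
  int : ∀ j, k j = 0 → ∃ u : Fin n → ℤ, y j = cst u ∧ ∀ m ∈ F, pr m u = 0
  span : ∃ ρ : Fin n → ℂ, (∀ j, k j ≠ 0 → ρ j = 0) ∧ ∀ m, ∑ j, ρ j * dtc m (y j) = (pr m U : ℂ)

theorem EB2.gen {W : (Fin n → ℤ) →+ (Fin n → ℤ)} {θ θ' : ℂ} {r q : ℕ} {F : Set (Fin n → ℤ)}
    {c : ℕ} {k : Fin n → ℕ} {y : Fin n → Fin n → ℂ} {J : Finset (Fin n)}
    (h : EB2 W θ r F c k y J) (hr : 0 < r) (hq : 0 < q) (hθ : θ' ^ q = θ) (h1 : θ ^ r = 1)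
    {U : Fin n → ℤ} (hU : ∀ m, pr (W m) U = pr m U) (hUF : ∀ m ∈ F, pr m U = 0) :
    ∃ κ : Fin n → ℕ, EG W θ' F U κ y ∧ ∑ j, κ j ≤ q * (∑ j, k j + r * c) ∧
      ∀ j, κ j = 0 → j ∈ J := by
  classical
  refine ⟨fun j => if j ∈ J then 0 else if k j = 0 then q * r else q * k j, ⟨h.eb.det,
    fun j m => ?_, fun j hj => ?_, ?_⟩, ?_, fun j hj => ?_⟩
  · rw [h.eb.eig]
    congr 1
    beta_reduce
    split_ifs with h2 h3
    · rw [h.J0 j h2, pow_zero, pow_zero]
    · rw [h3, pow_zero, pow_mul, hθ, h1]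
    · rw [pow_mul, hθ]
  · beta_reduce at hj
    split_ifs at hj with h2 h3
    · exact h.Jint j h2
    · exact absurd hj (Nat.mul_pos hq hr).ne'
    · exact absurd hj (Nat.mul_pos hq (Nat.pos_of_ne_zero h3)).ne'
  · obtain ⟨ρ, hρ, hρ2⟩ := h.span U hU hUF
    refine ⟨ρ, fun j hj => hρ j fun h2 => hj ?_, hρ2⟩
    beta_reduce
    rw [if_pos h2]
  · have h2 : ∑ j, (if j ∈ J then 0 else if k j = 0 then q * r else q * k j) ≤
        ∑ j, (q * k j + if k j = 0 ∧ j ∉ J then q * r else 0) := by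
      refine Finset.sum_le_sum fun j _ => ?_
      by_cases h2 : j ∈ J
      · rw [if_pos h2]
        exact Nat.zero_le _
      · rw [if_neg h2]
        by_cases h3 : k j = 0
        · rw [if_pos h3, if_pos ⟨h3, h2⟩]
          exact Nat.le_add_left _ _
        · rw [if_neg h3]
          exact Nat.le_add_right _ _
    refine h2.trans ?_
    rw [Finset.sum_add_distrib, ← Finset.mul_sum, ← Finset.sum_filter, Finset.sum_const,
      smul_eq_mul, mul_add]
    refine Nat.add_le_add_left ?_ _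
    calc _ ≤ c * (q * r) := Nat.mul_le_mul_right _ h.card
      _ = q * (r * c) := by ring
  · beta_reduce at hj
    split_ifs at hj with h2 h3
    · exact h2
    · exact absurd hj (Nat.mul_pos hq hr).ne'
    · exact absurd hj (Nat.mul_pos hq (Nat.pos_of_ne_zero h3)).ne'

/-- the dual basis vectors are combinations of integral vectors orthogonal to the integral part -/
theorem EG.dual {W : (Fin n → ℤ) →+ (Fin n → ℤ)} {θ : ℂ} {F : Set (Fin n → ℤ)} {U : Fin n → ℤ}
    {k : Fin n → ℕ} {y : Fin n → Fin n → ℂ} (h : EG W θ F U k y) {j0 : Fin n} (hj0 : k j0 ≠ 0) :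
    ∃ (a : Fin n → ℂ) (x : Fin n → Fin n → ℤ), (∀ i, pr (x i) U = 0) ∧
      (∀ i j, k j = 0 → dtc (x i) (y j) = 0) ∧
      ∀ j, ∑ i, a i * dtc (x i) (y j) = if j = j0 then 1 else 0 := by
  classical
  have hzu : ∀ j, ∃ u : Fin n → ℤ, k j = 0 → y j = cst u := by
    intro j
    by_cases hj : k j = 0
    · obtain ⟨u, hu, -⟩ := h.int j hj
      exact ⟨u, fun _ => hu⟩
    · exact ⟨0, fun h => absurd h hj⟩
  choose u hu using hzu
  set J : Finset (Fin n) := Finset.univ.filter fun j => k j = 0 with hJ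
  have hdu : IsUnit (Matrix.of y).det := isUnit_iff_ne_zero.2 h.det
  set Q : Set (Fin n → ℤ) := {x | x ∈ (Set.univ : Set (Fin n → ℤ)) ∧ ∀ j ∈ J, pr x (u j) = 0}
    with hQ
  have hdim : n ≤ Module.finrank ℂ (Submodule.span ℂ (cst '' Q)) + J.card := by
    have h1 := drop_all (E := u) (P := Set.univ) (fun a b u _ u' _ => Set.mem_univ _) J
    have h2 : dF (Set.univ : Set (Fin n → ℤ)) u ∅ = n := by
      have h3 : {m | m ∈ (Set.univ : Set (Fin n → ℤ)) ∧ ∀ i ∈ (∅ : Finset (Fin n)),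
          pr m (u i) = 0} = Set.univ := by
        ext m; simp
      rw [dF, h3]
      have h4 : Submodule.span ℂ (cst '' (Set.univ : Set (Fin n → ℤ))) = ⊤ := by
        rw [eq_top_iff, ← (Pi.basisFun ℂ (Fin n)).span_eq, Submodule.span_le]
        rintro _ ⟨i, rfl⟩
        refine Submodule.subset_span ⟨Pi.single i 1, Set.mem_univ _, ?_⟩
        funext j
        rw [Pi.basisFun_apply, cst, Pi.single_apply, Pi.single_apply]
        split_ifs <;> simp
      rw [h4, finrank_top, Module.finrank_fin_fun]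
    rw [h2] at h1
    exact h1
  let Y : Fin n → Fin n → ℂ := fun j i => (Matrix.of y)⁻¹ i j
  have hYp : ∀ j j', ∑ i, y j i * Y j' i = if j = j' then 1 else 0 := by
    intro j j'
    have h3 := congrFun (congrFun (Matrix.mul_nonsing_inv _ hdu) j) j'
    rw [Matrix.mul_apply, Matrix.one_apply] at h3
    exact h3
  have hYe : ∀ ξ : Fin n → ℂ, ξ = ∑ j, (∑ i, y j i * ξ i) • Y j := by
    intro ξ
    have h3 : Matrix.mulVec (Matrix.of y)⁻¹ (Matrix.mulVec (Matrix.of y) ξ) = ξ := by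
      rw [Matrix.mulVec_mulVec, Matrix.nonsing_inv_mul _ hdu, Matrix.one_mulVec]
    conv_lhs => rw [← h3]
    funext i
    rw [Finset.sum_apply, Matrix.mulVec, dotProduct]
    refine Finset.sum_congr rfl fun j _ => ?_
    rw [Pi.smul_apply, smul_eq_mul, Matrix.mulVec, dotProduct, mul_comm]
    rfl
  have hYli : LinearIndependent ℂ Y := by
    rw [Fintype.linearIndependent_iff]
    intro α hα j
    have h2 := congrArg (fun ν : Fin n → ℂ => ∑ b, y j b * ν b) hα
    simp only [Finset.sum_apply, Pi.smul_apply, smul_eq_mul, Pi.zero_apply,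
      mul_zero, Finset.sum_const_zero, Finset.mul_sum] at h2
    rw [Finset.sum_comm] at h2
    have h3 : ∀ j', ∑ b, y j b * (α j' * Y j' b) = if j = j' then α j' else 0 := by
      intro j'
      have h4 : ∑ b, y j b * (α j' * Y j' b) = α j' * ∑ b, y j b * Y j' b := by
        rw [Finset.mul_sum]
        exact Finset.sum_congr rfl fun b _ => by ring
      rw [h4, hYp]
      split_ifs <;> simp
    rw [Finset.sum_congr rfl fun j' _ => h3 j', Finset.sum_ite_eq Finset.univ j,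
      if_pos (Finset.mem_univ j)] at h2
    exact h2
  have hle : Submodule.span ℂ (cst '' Q) ≤
      Submodule.span ℂ (Set.range fun j : {j // k j ≠ 0} => Y j.1) := by
    rw [Submodule.span_le]
    rintro _ ⟨x, ⟨-, hx⟩, rfl⟩
    rw [SetLike.mem_coe, hYe (cst x)]
    refine Submodule.sum_mem _ fun j _ => ?_
    by_cases hj : k j = 0
    · have h3 : ∑ i, y j i * cst x i = 0 := by
        have h4 := hx j (Finset.mem_filter.2 ⟨Finset.mem_univ _, hj⟩)
        have h5 : ∑ i, y j i * cst x i = dtc x (y j) := by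
          rw [dtc]
          exact Finset.sum_congr rfl fun i _ => by rw [cst]; ring
        rw [h5, hu j hj, dtc_cst, h4, Int.cast_zero]
      rw [h3, zero_smul]
      exact Submodule.zero_mem _
    · exact Submodule.smul_mem _ _ (Submodule.subset_span ⟨⟨j, hj⟩, rfl⟩)
  have hcard : Fintype.card {j // k j ≠ 0} + J.card = n := by
    have h3 : Fintype.card {j // k j ≠ 0} = (Finset.univ.filter fun j => ¬ k j = 0).card :=
      Fintype.card_subtype _
    rw [h3, hJ, add_comm, Finset.card_filter_add_card_filter_not, Finset.card_univ,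
      Fintype.card_fin]
  have heq : Submodule.span ℂ (cst '' Q) =
      Submodule.span ℂ (Set.range fun j : {j // k j ≠ 0} => Y j.1) := by
    refine Submodule.eq_of_le_of_finrank_le hle ?_
    have h9 : Module.finrank ℂ (Submodule.span ℂ (Set.range fun j : {j // k j ≠ 0} => Y j.1)) =
        Fintype.card {j // k j ≠ 0} :=
      finrank_span_eq_card (b := fun j : {j // k j ≠ 0} => Y j.1)
        (hYli.comp _ Subtype.val_injective)
    rw [h9]
    omega
  obtain ⟨D, μ, hμQ, hμli, hD⟩ : ∃ (D : ℕ) (μ : Fin D → Fin n → ℤ), (∀ i, μ i ∈ Q) ∧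
      LinearIndependent ℂ (fun i => cst (μ i)) ∧
      Module.finrank ℂ (Submodule.span ℂ (cst '' Q)) = D := by
    obtain ⟨μ, hμQ, hμli⟩ := exists_mu Q
    exact ⟨_, μ, hμQ, hμli, rfl⟩
  have hμspan : Submodule.span ℂ (Set.range fun i => cst (μ i)) = Submodule.span ℂ (cst '' Q) := by
    refine Submodule.eq_of_le_of_finrank_eq ?_ ?_
    · rw [Submodule.span_le]
      rintro _ ⟨i, rfl⟩
      exact Submodule.subset_span ⟨μ i, hμQ i, rfl⟩
    · rw [finrank_span_eq_card hμli, Fintype.card_fin, hD]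
  have hmem : Y j0 ∈ Submodule.span ℂ (Set.range fun i => cst (μ i)) := by
    rw [hμspan, heq]
    exact Submodule.subset_span ⟨⟨j0, hj0⟩, rfl⟩
  rw [Submodule.mem_span_range_iff_exists_fun] at hmem
  obtain ⟨a, ha⟩ := hmem
  have hdn : D ≤ n := by
    have := Submodule.finrank_le (Submodule.span ℂ (cst '' Q))
    rwa [Module.finrank_fin_fun, hD] at this
  obtain ⟨ρ, hρ0, hρ⟩ := h.span
  have hxU : ∀ x ∈ Q, pr x U = 0 := by
    intro x hx
    have h3 := hρ x
    have h4 : ∑ j, ρ j * dtc x (y j) = 0 := by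
      refine Finset.sum_eq_zero fun j _ => ?_
      by_cases hj : k j = 0
      · rw [hu j hj, dtc_cst, hx.2 j (Finset.mem_filter.2 ⟨Finset.mem_univ _, hj⟩), Int.cast_zero,
          mul_zero]
      · rw [hρ0 j hj, zero_mul]
    rw [h4] at h3
    exact_mod_cast h3.symm
  have h0Q : (0 : Fin n → ℤ) ∈ Q := ⟨Set.mem_univ _, fun j _ => by simp [pr]⟩
  have hxQ : ∀ i : Fin n, (if h : i.1 < D then μ ⟨i.1, h⟩ else 0) ∈ Q := by
    intro i
    split_ifs with hi
    · exact hμQ _
    · exact h0Q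
  refine ⟨fun i => if h : i.1 < D then a ⟨i.1, h⟩ else 0,
    fun i => if h : i.1 < D then μ ⟨i.1, h⟩ else 0, fun i => hxU _ (hxQ i), fun i j hj => ?_,
    fun j => ?_⟩
  · have h3 := (hxQ i).2 j (Finset.mem_filter.2 ⟨Finset.mem_univ _, hj⟩)
    rw [hu j hj, dtc_cst]
    exact_mod_cast h3
  · have h3 : ∑ i : Fin n, (if h : i.1 < D then a ⟨i.1, h⟩ else 0) *
        dtc (if h : i.1 < D then μ ⟨i.1, h⟩ else 0) (y j) = ∑ i : Fin D, a i * dtc (μ i) (y j) := by
      symm
      refine Fintype.sum_of_injective (Fin.castLE hdn) (Fin.castLE_injective hdn) _ _ ?_ ?_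
      · intro i hi
        rw [dif_neg, zero_mul]
        intro h4
        exact hi ⟨⟨i.1, h4⟩, rfl⟩
      · intro i
        have h4 : (Fin.castLE hdn i).1 < D := i.2
        rw [dif_pos h4, dif_pos h4]
        rfl
    rw [h3, ← hYp j j0, ← ha]
    simp only [Finset.sum_apply, Pi.smul_apply, smul_eq_mul, Finset.mul_sum]
    rw [Finset.sum_comm]
    refine Finset.sum_congr rfl fun i _ => ?_
    rw [dtc, Finset.mul_sum]
    exact Finset.sum_congr rfl fun b _ => by rw [cst]; ring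

theorem exists_wd2 {W : (Fin n → ℤ) →+ (Fin n → ℤ)} {θ : ℂ} {F : Set (Fin n → ℤ)} {k : Fin n → ℕ}
    {y : Fin n → Fin n → ℂ} {U : Fin n → ℤ} (h : EG W θ F U k y)
    (hU : ∀ m, pr (W m) U = pr m U) (hU0 : U ≠ 0 ∨ ∃ j, k j ≠ 0) {ch : (Fin n → ℤ) → ℂ}
    (hch0 : ∀ m, ch m ≠ 0) (hchm : ∀ m m', ch (m + m') = ch m * ch m') :
    ∃ (c : ℕ) (d : Wd n), 0 < c ∧ U = (c : ℤ) • d.U ∧ (∀ j, k j = c * d.k j) ∧ Dual d ∧ Cop d ∧
      (∀ m, pr (W m) d.U = pr m d.U) ∧
      (∀ j, d.k j = 0 → ∀ m, d.z j (W m) = d.z j m) ∧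
      (∀ j, d.k j ≠ 0 → ∀ m, d.nu j (W m) = (θ ^ c) ^ d.k j * d.nu j m) ∧
      (∀ j, d.k j = 0 → ∀ m ∈ F, d.z j m = 0) ∧ d.ch = ch := by
  classical
  obtain ⟨ρ, hρ0, hρ⟩ := h.span
  let V : Fin (n + n) → ℤ := Fin.append U (fun j => (k j : ℤ))
  have hVl : ∀ i, V (Fin.castAdd n i) = U i := fun i => Fin.append_left _ _ _
  have hVr : ∀ j, V (Fin.natAdd n j) = (k j : ℤ) := fun i => Fin.append_right _ _ _
  have hV0 : V ≠ 0 := by
    intro h0
    rcases hU0 with hU0 | ⟨j, hj⟩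
    · apply hU0
      funext i
      rw [← hVl, h0]
      rfl
    · apply hj
      have h1 := hVr j
      rw [h0, Pi.zero_apply] at h1
      exact_mod_cast h1.symm
  obtain ⟨c0, V', hc0, ⟨mm, hmm⟩, hVV⟩ := exists_prim hV0
  obtain ⟨c, rfl⟩ : ∃ c : ℕ, c0 = c := ⟨c0.toNat, by omega⟩
  have hc : 0 < c := by exact_mod_cast hc0
  have hcC : (c : ℂ) ≠ 0 := by exact_mod_cast hc.ne'
  set U' : Fin n → ℤ := fun i => V' (Fin.castAdd n i) with hU'
  set k' : Fin n → ℕ := fun j => (V' (Fin.natAdd n j)).toNat with hk'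
  have hUU : U = (c : ℤ) • U' := by
    funext i
    rw [← hVl, hVV]
    rfl
  have hkV : ∀ j, (k j : ℤ) = c * V' (Fin.natAdd n j) := by
    intro j
    rw [← hVr, hVV]
    rfl
  have hV'0 : ∀ j, ((k' j : ℕ) : ℤ) = V' (Fin.natAdd n j) := by
    intro j
    have h1 := hkV j
    have h2 : 0 ≤ V' (Fin.natAdd n j) := by
      by_contra h3
      push Not at h3
      have : (c : ℤ) * V' (Fin.natAdd n j) < 0 := mul_neg_of_pos_of_neg hc0 h3
      omega
    simp only [hk']
    omega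
  have hkk : ∀ j, k j = c * k' j := by
    intro j
    have h1 := hkV j
    rw [← hV'0] at h1
    exact_mod_cast h1
  have hk0 : ∀ j, k' j = 0 ↔ k j = 0 := by
    intro j
    rw [hkk j, Nat.mul_eq_zero]
    constructor
    · exact Or.inr
    · intro h1; exact h1.resolve_left hc.ne'
  have hprU : ∀ m, pr m U = c * pr m U' := by
    intro m
    rw [hUU, pr_smul_right]
  have hzu : ∀ j, ∃ u : Fin n → ℤ, k j = 0 → y j = cst u ∧ ∀ m ∈ F, pr m u = 0 := by
    intro j
    by_cases hj : k j = 0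
    · obtain ⟨u, hu⟩ := h.int j hj
      exact ⟨u, fun _ => hu⟩
    · exact ⟨0, fun h => absurd h hj⟩
  choose u hu using hzu
  let d : Wd n :=
    { k := k'
      nu := fun j => AddMonoidHom.mk' (fun m => dtc m (y j)) fun m m' => dtc_add m m' _
      z := fun j => AddMonoidHom.mk' (fun m => pr m (u j)) fun m m' => pr_add m m' _
      hz := fun j hj m => by
        change dtc m (y j) = ((pr m (u j) : ℤ) : ℂ)
        rw [(hu j ((hk0 j).1 hj)).1, dtc_cst]
      U := U'
      b := fun j => if k' j = 0 then (c : ℂ)⁻¹ * ρ j else k' j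
      hb := fun j hj => if_neg hj
      hbU := fun m => by
        have h1 : ∀ j, (if k' j = 0 then (if k' j = 0 then (c : ℂ)⁻¹ * ρ j else (k' j : ℂ)) *
            dtc m (y j) else 0) = (c : ℂ)⁻¹ * (ρ j * dtc m (y j)) := by
          intro j
          split_ifs with hj
          · ring
          · rw [hρ0 j (fun h => hj ((hk0 j).2 h)), zero_mul, mul_zero]
        change ∑ j, (if k' j = 0 then (if k' j = 0 then (c : ℂ)⁻¹ * ρ j else (k' j : ℂ)) *
            dtc m (y j) else 0) = _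
        rw [Finset.sum_congr rfl fun j _ => h1 j, ← Finset.mul_sum, hρ, hprU]
        push_cast
        rw [inv_mul_cancel_left₀ hcC]
      ch := ch
      ch_ne := hch0
      ch_add := hchm
      det := by
        have h1 : (Matrix.of fun (j i : Fin n) => dtc (Pi.single i 1) (y j)) = Matrix.of y := by
          ext j i
          rw [Matrix.of_apply, Matrix.of_apply, dtc_single]
        change (Matrix.of fun (j i : Fin n) => dtc (Pi.single i 1) (y j)).det ≠ 0
        rw [h1]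
        exact h.det }
  have hUW : ∀ m, pr (W m) U' = pr m U' := by
    intro m
    have h1 := hU m
    rw [hprU, hprU] at h1
    exact mul_left_cancel₀ hc0.ne' h1
  have hnuW : ∀ j m, dtc (W m) (y j) = (θ ^ c) ^ k' j * dtc m (y j) := by
    intro j m
    rw [h.eig, ← pow_mul, hkk j]
  have hzW : ∀ j, k' j = 0 → ∀ m, pr (W m) (u j) = pr m (u j) := by
    intro j hj m
    have h1 := hnuW j m
    rw [hj, pow_zero, one_mul, (hu j ((hk0 j).1 hj)).1, dtc_cst, dtc_cst] at h1
    exact_mod_cast h1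
  refine ⟨c, d, hc, hUU, hkk, ?_, ?_, hUW, hzW, fun j _ m => hnuW j m,
    fun j hj m hm => (hu j ((hk0 j).1 hj)).2 m hm, rfl⟩
  · intro j0 hj0
    have hj0' : k j0 ≠ 0 := fun h => hj0 ((hk0 j0).2 h)
    obtain ⟨a, x, hx1, hx2, hx3⟩ := h.dual hj0'
    refine ⟨a, x, fun i => ?_, fun i j hj => ?_, fun j hj => hx3 j⟩
    · change pr (x i) U' = 0
      have h1 := hx1 i
      rw [hprU] at h1
      exact (mul_eq_zero.1 h1).resolve_left hc0.ne'
    · change pr (x i) (u j) = 0
      have h1 := hx2 i j ((hk0 j).1 hj)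
      rw [(hu j ((hk0 j).1 hj)).1, dtc_cst] at h1
      exact_mod_cast h1
  · refine ⟨fun i => mm (Fin.castAdd n i), fun j => mm (Fin.natAdd n j), ?_⟩
    change ∑ i, mm (Fin.castAdd n i) * V' (Fin.castAdd n i) +
      ∑ j, mm (Fin.natAdd n j) * ((k' j : ℕ) : ℤ) = 1
    rw [← hmm, pr, Fin.sum_univ_add]
    congr 1
    exact Finset.sum_congr rfl fun j _ => by rw [hV'0]

end Q47.QM
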